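import Pool.Agent.Helper23.PL.Defs

/-!
# PH: threads of polynomially comparable lengths, hubs of any degree (MP_0dbcb7_co). Definitions.

Data `D : HD V P Q` and all definitions of `Helper23/PL/Defs` (cw, Rch, Byp, Pn, e1, e2, Rb, sg, lam, rho, NU, T5, Lg, Lg2,
UL). Parameters: `s` large, hubs have degree more than `D.Kh * D.r = s ^ 8`, all threads have between `s ^ 32` and `s ^ B`
edges, `k2 = s ^ 4` (moved balls have at most `k2` branch vertices), `k1` and `k` are constants.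
-/

set_option autoImplicit false

open Set
open Pool.Agent.Helper83.OP Pool.Agent.Helper93.HH Pool.Agent.Helper23.PL

namespace Pool.Agent.Helper63.PH

section

variable {V P Q : Type} (D : HD V P Q)

/-- all threads have at least `δ` edges -/
structure Long (δ : ℕ) : Prop where
  w : ∀ p, δ ≤ (D.w p).length
  q : ∀ q, δ ≤ (D.wq q).length
  n : ∀ u v (W : D.N.Walk u v), u ≠ v → 3 ≤ D.dg u → 3 ≤ D.dg v → δ ≤ W.length

/-- **The facts given by the drawings** (weak form). -/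
structure Wk (k k2 : ℕ) : Prop where
  /-- E1: a cycle of `N` and a free ball on it -/
  e1 : ∀ v (Z : D.N.Walk v v), Z.IsCycle → ∀ y ∈ Z.support, ∀ ρ, 1 ≤ ρ →
    bv D (D.ball ρ y) ≤ k2 → (∀ q, ¬ Pn D ρ y q) → k * ρ < Z.length
  /-- no bypass of a thread between two hubs -/
  q1 : ∀ q y z, Nb D (Fq D q) (D.ha q) y → Nb D (Fq D q) (D.hb q) z →
    ¬ Rch D (Fq D q) (k * (D.wq q).length) y z
  /-- no bypass of a pin -/
  p1 : ∀ p, ¬ Byp D (Fp D p) (k * (D.w p).length) (D.x p) (D.hub p)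
  /-- no bypass of a pin in a ball without other pins -/
  p2 : ∀ p ρ, 1 ≤ ρ → bv D (D.ball ρ (D.x p)) ≤ k2 → (∀ q, q ≠ p → ¬ Pn D ρ (D.x p) q) →
    ¬ Byp D (Fp D p) (k * ρ) (D.x p) (D.hub p)
  /-- the unit `p`, `q` cannot be slid along a walk `W` between the same hubs which can be reached -/
  p3 : ∀ p q g ρ, 1 ≤ ρ → q ≠ p → D.hub q ≠ D.hub p → bv D (D.ball ρ (D.x p)) ≤ k2 →
    Nr D.N g (D.x p) (D.x q) → (∀ t, Nr D.N t (D.x p) (D.x q) → g ≤ t) →
    64 * ((D.w p).length + g + (D.w q).length) ≤ ρ →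
    (∀ s, s ≠ p → s ≠ q → ¬ Pn D ρ (D.x p) s) →
    ∀ y z (W : D.G.Walk y z), Nb D (Fp D p) (D.hub p) y → Nb D (Fp D p) (D.hub q) z →
      (∀ f ∈ W.edges, f ∉ Fp D p) → cw D W ≤ k * ((D.w p).length + g + (D.w q).length) →
      ∀ v ∈ W.support, ¬ Rch D (Fp D p) (k * ρ) (D.x p) v

/-- **The facts used in the counting.** They follow from `Wk` (theorem `badH_of_wk`). -/
structure BadH (k k2 : ℕ) : Prop where
  e1 : ∀ v (Z : D.N.Walk v v), Z.IsCycle → ∀ y ∈ Z.support, ∀ ρ, 1 ≤ ρ →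
    bv D (D.ball ρ y) ≤ k2 → (∀ q, ¬ Pn D ρ y q) → k * ρ < Z.length
  q1 : ∀ q y z, Nb D (Fq D q) (D.ha q) y → Nb D (Fq D q) (D.hb q) z →
    ¬ Rch D (Fq D q) (k * (D.wq q).length) y z
  p1 : ∀ p, ¬ Byp D (Fp D p) (k * (D.w p).length) (D.x p) (D.hub p)
  /-- no bypass of a pin in a ball with one hub -/
  p2 : ∀ p ρ, 1 ≤ ρ → bv D (D.ball ρ (D.x p)) ≤ k2 → (∀ q, Pn D ρ (D.x p) q → D.hub q = D.hub p) →
    ¬ Byp D (Fp D p) (k * ρ) (D.x p) (D.hub p)
  /-- a ball with two hubs `hub p` and `c`: no short walk `W` from `hub p` to `c` near `x p` -/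
  p3 : ∀ p c ρ, 1 ≤ ρ → c ∈ D.U → c ≠ D.hub p → bv D (D.ball ρ (D.x p)) ≤ k2 →
    (∀ q, Pn D ρ (D.x p) q → D.hub q = D.hub p ∨ D.hub q = c) →
    ∀ y z (W : D.G.Walk y z), Nb D (Fp D p) (D.hub p) y → Nb D (Fp D p) c z →
      (∀ f ∈ W.edges, f ∉ Fp D p) → cw D W ≤ k * ρ →
      (∀ q t, D.hub q = c → Nr D.N t (D.x p) (D.x q) →
        cw D W ≤ k * ((D.w p).length + t + (D.w q).length)) →
      ∀ v ∈ W.support, ¬ Rch D (Fp D p) (k * ρ) (D.x p) v
  /-- a ball with two hubs contains only the pin `p` and the nearest pin `q` of the other hub -/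
  iso : ∀ p c ρ, bv D (D.ball ρ (D.x p)) ≤ k2 → c ≠ D.hub p →
    (∀ q, Pn D ρ (D.x p) q → D.hub q = D.hub p ∨ D.hub q = c) →
    ∀ q τ, D.hub q = c → Pn D τ (D.x p) q → (∀ q' t, D.hub q' = c → Pn D t (D.x p) q' → τ ≤ t) →
    ∀ s, s ≠ p → s ≠ q → ¬ Pn D (ρ / 16) (D.x p) s

/-- distance to the nearest foot -/
noncomputable def fd (y : V) : ℕ := sInf ({t | ∃ p, Nr D.N t y (D.x p)} ∪ {cap D})

/-- distance to the third nearest pin -/
noncomputable def s2 (y : V) : ℕ := sInf ({t | 3 ≤ {p | Pn D t y p}.ncard} ∪ {cap D})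

end

end Pool.Agent.Helper63.PH
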