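import Pool.Agent.Helper23.PL.Scales
import Pool.Agent.Helper63.PH.T5

/-!
# PH: scales (adapted from Helper23/PL/Scales)

`hF` is the finiteness of the primary scale (theorem `finH`, consequence of the growth lemma).
-/

set_option autoImplicit false

open Set
open Pool.Agent.Helper83.OP Pool.Agent.Helper93.HH Pool.Agent.Helper23.PL Pool.Agent.Helper23.PL.Sca

namespace Pool.Agent.Helper63.PH

section

variable {V P Q : Type} {D : HD V P Q} {k k1 k2 : ℕ}

theorem sg_le [Finite V] [Finite P] [Finite Q] (hD : D.Ok) (hF : ∀ p, min (e1 D p) (Rb D k2 (D.x p)) < cap D)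
    (p : P) :
    2 ≤ sg D k2 p ∧ sg D k2 p ≤ Nat.card V + D.L ∧ 128 * sg D k2 p < cap D ∧
      sg D k2 p ≤ lam D p := by
  have hf := hF p
  have hxV : 0 < Nat.card V := by
    have : Nonempty V := ⟨D.x p⟩
    exact Nat.card_pos
  have hcap : cap D = 1000 * (Nat.card V + D.L) := rfl
  have hw2 : 2 ≤ (D.w p).length := hD.r_pos.trans (hD.w_ge p)
  have hwL := hD.w_le p
  have hsg : sg D k2 p = max (D.w p).length (min (e1 D p) (Rb D k2 (D.x p))) := rfl
  have hlam : lam D p = (D.w p).length + e1 D p := rfl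
  have hm : min (e1 D p) (Rb D k2 (D.x p)) ≤ Nat.card V + D.L := by
    rcases min_lt_iff.1 hf with h | h
    · obtain ⟨h1, s, h2, h3⟩ := e1_spec h
      have h4 := hD.w_le (pt1 D p)
      have h5 : e1 D p ≤ Nat.card V + D.L :=
        e1_le h1 ⟨Nat.card V, Nr.card h2.reachable, by omega⟩
      exact (min_le_left _ _).trans h5
    · have h1 := Rb_spec h
      have h2 : Rb D k2 (D.x p) ≤ Nat.card V := by
        refine Nat.sInf_le (Or.inl ?_)
        show k2 < bv D (D.ball (Nat.card V) (D.x p))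
        refine h1.trans_le (Set.ncard_le_ncard ?_ (Set.toFinite _))
        refine Set.inter_subset_inter_left _ ?_
        intro v hv
        have hv' : Nr D.N (Rb D k2 (D.x p)) (D.x p) v := hv
        exact Nr.card hv'.reachable
      exact (min_le_right _ _).trans (h2.trans (Nat.le_add_right _ _))
  have h0 : min (e1 D p) (Rb D k2 (D.x p)) ≤ e1 D p := min_le_left _ _
  have h1 : sg D k2 p ≤ Nat.card V + D.L := by
    rw [hsg]
    exact max_le (hwL.trans (Nat.le_add_left _ _)) hm
  refine ⟨?_, h1, by omega, ?_⟩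
  · rw [hsg]
    exact hw2.trans (le_max_left _ _)
  · rw [hsg, hlam]
    exact max_le (Nat.le_add_right _ _) (h0.trans (Nat.le_add_left _ _))

/-- **D1.** -/
theorem no_byp [Finite V] [Finite P] [Finite Q] (hD : D.Ok) (hB : BadH D k k2)
    (p : P) : ¬ Byp D (Fp D p) (k * (sg D k2 p - 1)) (D.x p) (D.hub p) := by
  intro hb
  have hsg : sg D k2 p = max (D.w p).length (min (e1 D p) (Rb D k2 (D.x p))) := rfl
  have hw2 : 2 ≤ (D.w p).length := hD.r_pos.trans (hD.w_ge p)
  rcases le_total (min (e1 D p) (Rb D k2 (D.x p))) (D.w p).length with h | h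
  · rw [max_eq_left h] at hsg
    rw [hsg] at hb
    exact hB.p1 p (Pool.Agent.Helper63.PL.Byp.mono hb (fun f hf => hf)
      (Nat.mul_le_mul_left _ (Nat.sub_le _ _)))
  · rw [max_eq_right h] at hsg
    rw [hsg] at hb
    obtain ⟨ρ, hρ⟩ : ∃ ρ, min (e1 D p) (Rb D k2 (D.x p)) = ρ + 1 :=
      ⟨min (e1 D p) (Rb D k2 (D.x p)) - 1, by omega⟩
    have h1 : ρ + 1 ≤ e1 D p := hρ ▸ min_le_left _ _
    have h2 : ρ + 1 ≤ Rb D k2 (D.x p) := hρ ▸ min_le_right _ _
    rw [hρ, Nat.add_sub_cancel] at hb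
    refine hB.p2 p ρ (by omega) (Rb_lt (by omega)) ?_ hb
    intro q hq
    by_contra hne
    have := e1_le hne hq
    omega

end

end Pool.Agent.Helper63.PH
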