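import Pool.Agent.Helper23.PL.SpecA
import Pool.Agent.Helper25.PL.CG
import Pool.Agent.Helper63.PH.Defs
import Pool.Agent.Helper43.HH.Leg

/-!
# PH-B4 (MP_0dbcb7_co): cells and groups of three marks, branch vertices far apart

Same as `Helper25.PL.CG` (PL-4), but the vertex loads cost no factor `D.Kh * D.r`: branch vertices are `δ` apart.
Paper proof. As in `Helper25/PL/CG.lean`: BFS forest from `C` in `N`, `groups` of three marks (edge load `≤ 2`, at most two marks per
tree are left), tripods with centre = common ancestor; legs: tree path to the foot `x p`, shortest path of `N` from `x p` to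
`x (q p)`, pin `q p` (or only the pin `p`); three different hubs. LOADS of the groups: an edge of the forest `≤ 2`; a vertex with
`dg ≤ 2`: tree paths `≤ 4`, local paths `≤ lm`; a branch vertex: tree paths `≤ 2 dg ≤ 2 (D.Kh * D.r)`, local paths and feet
`≤ D.Kh * D.r + lm`; inner vertices and edges of the pin `s`: `≤ 1 + lm` (marks `p = s` or `q p = s`); edges of local paths `≤ lm`
(one end of the edge has `dg ≤ 2`, since branch vertices are at distance `≥ δ ≥ 2`).
BRANCH VERTICES ON A LEG: a path of `N` of length `≤ R` has at most `R / δ + 1` of them (`hL.n`: two different branch vertices have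
distance `≥ δ`), and `D.Kh * D.r ≤ δ ≤ R`, so all branch vertices of a tripod together have load
`≤ 6 (R / δ + 1) * 3 (D.Kh * D.r + lm) ≤ 100 (R + 1) (1 + lm)`. All other vertices and edges of a tripod: at most `12 (R + 1)` of load `≤ 5 + lm`.
`el_uniform` (Helper43) with `mu = 1`, `b = A (R + 1) (1 + lm)`.
-/

set_option autoImplicit false

open Set
open Pool.Agent.Helper83.OP Pool.Agent.Helper93.HH Pool.Agent.Helper23.PL

namespace Pool.Agent.Helper63.PH

open Pool.Agent.Helper43.HH Pool.Agent.Helper25.PL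

/-- few branch vertices on a walk -/
theorem branch_count' {V P Q : Type} [Finite V] {D : HD V P Q} {δ : ℕ} (hL : Long D δ)
    (hδ : 1 ≤ δ) {u v : V}
    (p : D.N.Walk u v) : {z | z ∈ p.support ∧ 3 ≤ D.dg z}.ncard ≤ p.length / δ + 1 := by
  classical
  have hidx : ∀ z ∈ p.support, ∃ n, p.getVert n = z ∧ n ≤ p.length := by
    intro z hz
    exact SimpleGraph.Walk.mem_support_iff_exists_getVert.1 hz
  have : ∀ z, ∃ n, z ∈ p.support → p.getVert n = z ∧ n ≤ p.length := by
    intro z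
    by_cases hz : z ∈ p.support
    · obtain ⟨n, hn⟩ := hidx z hz
      exact ⟨n, fun _ => hn⟩
    · exact ⟨0, fun h => absurd h hz⟩
  choose idx hidx using this
  have key : ∀ z ∈ {z | z ∈ p.support ∧ 3 ≤ D.dg z}, ∀ z' ∈ {z | z ∈ p.support ∧ 3 ≤ D.dg z},
      z ≠ z' → idx z ≤ idx z' → idx z + δ ≤ idx z' := by
    intro z hz z' hz' hne hle
    obtain ⟨h1, h2⟩ := hidx z hz.1
    obtain ⟨h3, h4⟩ := hidx z' hz'.1
    have hv : (p.drop (idx z)).getVert (idx z' - idx z) = z' := by
      rw [SimpleGraph.Walk.drop_getVert]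
      rw [show idx z + (idx z' - idx z) = idx z' by omega]
      exact h3
    have h5 := hL.n (p.getVert (idx z)) _ ((p.drop (idx z)).take (idx z' - idx z))
      (by rw [hv, h1]; exact hne) (by rw [h1]; exact hz.2) (by rw [hv]; exact hz'.2)
    rw [SimpleGraph.Walk.take_length] at h5
    have := min_le_left (idx z' - idx z) (p.drop (idx z)).length
    omega
  have hinj : Set.InjOn (fun z => idx z / δ) {z | z ∈ p.support ∧ 3 ≤ D.dg z} := by
    intro z hz z' hz' h
    by_contra hne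
    have h' : idx z / δ = idx z' / δ := h
    rcases le_total (idx z) (idx z') with hle | hle
    · have h1 := key z hz z' hz' hne hle
      have h2 : (idx z + δ) / δ ≤ idx z' / δ := Nat.div_le_div_right h1
      rw [Nat.add_div_right _ (by omega)] at h2
      omega
    · have h1 := key z' hz' z hz (Ne.symm hne) hle
      have h2 : (idx z' + δ) / δ ≤ idx z / δ := Nat.div_le_div_right h1
      rw [Nat.add_div_right _ (by omega)] at h2
      omega
  have hmaps : ∀ z ∈ {z | z ∈ p.support ∧ 3 ≤ D.dg z},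
      (fun z => idx z / δ) z ∈ ((Finset.range (p.length / δ + 1) : Finset ℕ) : Set ℕ) := by
    intro z hz
    rw [Finset.mem_coe, Finset.mem_range]
    have := (hidx z hz.1).2
    exact Nat.lt_succ_of_le (Nat.div_le_div_right this)
  have h := Set.ncard_le_ncard_of_injOn (fun z => idx z / δ) hmaps hinj (Finset.finite_toSet _)
  rwa [Set.ncard_coe_finset, Finset.card_range] at h

open Classical in
/-- the energy lemma: load at most `m`, and at most `m + M` at the vertices `Br` -/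
theorem el_load2 {V : Type} [Fintype V] {H : SimpleGraph V} {U : Set V}
    (X : Sym2 V → Sym2 V → Prop) (hs : ∀ f f', X f f' → X f' f)
    (h1 : ∀ f ∈ H.edgeSet, {f' | f' ∈ H.edgeSet ∧ X f f'}.ncard ≤ 1)
    (hP : PlanarLike H X) {J : Type} [Fintype J] (T : J → Tri H U) (Br : V → Prop) (l m M K : ℕ)
    (hl : ∀ j k, ((T j).W k).length ≤ l)
    (hm : ∀ v, ¬ Br v → {j | v ∈ (T j).vs}.ncard ≤ m)
    (hM : ∀ v, {j | v ∈ (T j).vs}.ncard ≤ m + M)
    (hK : ∀ j, {v | v ∈ (T j).vs ∧ Br v}.ncard * M ≤ K)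
    (hE : ∀ j, ∀ f ∈ (T j).es, ∃ v ∈ f, v ∉ U ∧ ¬ Br v) :
    Fintype.card J ≤ 132 * ((6 * l + 3) * m + K) * U.ncard := by
  have hcv : ∀ v, phiV Finset.univ T (fun _ => 1) v = (({j | v ∈ (T j).vs}.ncard : ℕ) : ℝ) := by
    intro v
    unfold phiV
    rw [Finset.sum_const, nsmul_eq_mul, mul_one]
    rw [← Set.ncard_coe_finset]
    rw [show ((Finset.univ.filter fun j => v ∈ (T j).vs : Finset J) : Set J) =
      {j | v ∈ (T j).vs} by ext j; simp]
  have hV : ∀ v, phiV Finset.univ T (fun _ => 1) v ≤ (m : ℝ) + if Br v then (M : ℝ) else 0 := by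
    intro v
    rw [hcv]
    split_ifs with hv
    · exact_mod_cast hM v
    · rw [add_zero]
      exact_mod_cast hm v hv
  have hEl : ∀ j, ∀ f ∈ (T j).es, phiE Finset.univ T (fun _ => 1) f ≤ m := by
    intro j f hf
    obtain ⟨v, hv, hvU, hvB⟩ := hE j f hf
    have hv0 := hV v
    rw [if_neg hvB, add_zero] at hv0
    refine le_trans ?_ hv0
    unfold phiE phiV
    refine Finset.sum_le_sum_of_subset_of_nonneg ?_ (fun _ _ _ => zero_le_one)
    intro i hi
    rw [Finset.mem_filter] at hi ⊢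
    refine ⟨hi.1, hvU, ?_⟩
    obtain ⟨k, hk⟩ := hi.2
    exact ⟨k, SimpleGraph.Walk.mem_support_of_mem_edges hk hv⟩
  have hb : ∀ j ∈ (Finset.univ : Finset J), ∑ v ∈ (T j).vs.toFinset, phiV Finset.univ T (fun _ => 1) v +
      ∑ f ∈ (T j).es.toFinset, phiE Finset.univ T (fun _ => 1) f ≤
      (((6 * l + 3) * m + K : ℕ) : ℝ) := by
    intro j _
    have e1 : ∑ v ∈ (T j).vs.toFinset, phiV Finset.univ T (fun _ => 1) v ≤
        ((T j).vs.ncard : ℝ) * m + K := by
      refine (Finset.sum_le_sum fun v _ => hV v).trans ?_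
      rw [Finset.sum_add_distrib, Finset.sum_const, nsmul_eq_mul, ← Set.ncard_eq_toFinset_card']
      refine add_le_add le_rfl ?_
      rw [← Finset.sum_filter, Finset.sum_const, nsmul_eq_mul, ← Set.ncard_coe_finset]
      rw [show (((T j).vs.toFinset.filter fun v => Br v : Finset V) : Set V) =
        {v | v ∈ (T j).vs ∧ Br v} by ext v; simp]
      exact_mod_cast hK j
    have e2 : ∑ f ∈ (T j).es.toFinset, phiE Finset.univ T (fun _ => 1) f ≤
        ((T j).es.ncard : ℝ) * m := by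
      refine (Finset.sum_le_card_nsmul _ _ (m : ℝ) fun f hf => hEl j f (Set.mem_toFinset.1 hf)).trans ?_
      rw [nsmul_eq_mul, ← Set.ncard_eq_toFinset_card']
    have e3 : ((T j).vs.ncard : ℝ) ≤ 3 * (l + 1) := by exact_mod_cast vs_le (T j) l (hl j)
    have e4 : ((T j).es.ncard : ℝ) ≤ 3 * l := by exact_mod_cast es_le (T j) l (hl j)
    have hm0 : (0 : ℝ) ≤ m := Nat.cast_nonneg _
    have e5 := mul_le_mul_of_nonneg_right e3 hm0
    have e6 := mul_le_mul_of_nonneg_right e4 hm0
    push_cast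
    nlinarith
  have hfin := el_uniform X hs h1 hP Finset.univ T (fun _ => 1) (fun _ _ => zero_le_one)
    (((6 * l + 3) * m + K : ℕ) : ℝ) (Nat.cast_nonneg _) hb
  rw [Finset.sum_const, nsmul_eq_mul, mul_one, Finset.card_univ] at hfin
  have h7 : ((Fintype.card J : ℕ) : ℝ) ≤ ((132 * ((6 * l + 3) * m + K) * U.ncard : ℕ) : ℝ) := by
    push_cast at hfin ⊢
    nlinarith
  exact_mod_cast h7

/-- an edge of a path of length at least two has an end which is an inner vertex -/
theorem inner_end {V : Type} {G : SimpleGraph V} {u v : V} {p : G.Walk u v} (hp : p.IsPath)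
    (h2 : 2 ≤ p.length) {f : Sym2 V} (hf : f ∈ p.edges) :
    ∃ z ∈ f, z ∈ p.support ∧ z ≠ u ∧ z ≠ v := by
  classical
  induction f using Sym2.ind with
  | _ a b =>
    have ha := SimpleGraph.Walk.fst_mem_support_of_mem_edges _ hf
    have hb := SimpleGraph.Walk.snd_mem_support_of_mem_edges _ hf
    have hab := (SimpleGraph.Walk.adj_of_mem_edges _ hf).ne
    by_contra hno
    push Not at hno
    have h3 := hno a (Sym2.mem_mk_left _ _) ha
    have h4 := hno b (Sym2.mem_mk_right _ _) hb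
    have h5 : s(a, b) = s(u, v) := by
      by_cases hau : a = u
      · by_cases hbu : b = u
        · exact absurd (hau.trans hbu.symm) hab
        · rw [hau, h4 hbu]
      · by_cases hbu : b = u
        · rw [hbu, h3 hau, Sym2.eq_swap]
        · exact absurd ((h3 hau).trans (h4 hbu).symm) hab
    rw [h5] at hf
    cases p with
    | nil => simp at h2
    | @cons _ w _ h p' =>
      rw [SimpleGraph.Walk.cons_isPath_iff] at hp
      rw [SimpleGraph.Walk.edges_cons, List.mem_cons] at hf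
      rcases hf with hf | hf
      · rw [Sym2.eq_iff] at hf
        have hv : v = w := by
          rcases hf with ⟨-, h6⟩ | ⟨h6, h7⟩
          · exact h6
          · exact absurd h6 h.ne
        subst hv
        rw [SimpleGraph.Walk.isPath_iff_nil] at hp
        rw [SimpleGraph.Walk.length_cons, SimpleGraph.Walk.length_eq_zero_iff.2 hp.1] at h2
        simp at h2
      · exact hp.2 (SimpleGraph.Walk.fst_mem_support_of_mem_edges _ hf)

/-- **PH-B4 (CG).** -/
theorem CG : ∃ A : ℕ, ∀ (V P Q : Type) [Finite V] [Finite P] [Finite Q] (D : HD V P Q)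
    (H : SimpleGraph V) (e0 : Sym2 V) (X : Sym2 V → Sym2 V → Prop) (δ : ℕ), D.Ok → D.Dr H e0 X →
    Long D δ → D.Kh * D.r ≤ δ →
    ∀ (U' : Set V) (R R' lm : ℕ) (B C : Set P) (q : P → P), U' ⊆ D.U → C ⊆ B → R' ≤ R → δ ≤ R →
    (∀ p ∈ B, ∃ c ∈ C, Nr D.N R (D.x p) (D.x c)) →
    (∀ p ∈ B, D.hub p ∈ U' ∧ D.hub (q p) ∈ U' ∧ e0 ∉ (D.w p).edges ∧ e0 ∉ (D.w (q p)).edges ∧
      (D.w p).length ≤ R ∧ (D.w (q p)).length ≤ R ∧ Nr D.N R' (D.x p) (D.x (q p))) →
    (∀ v, {p | p ∈ B ∧ Nr D.N R' v (D.x p)}.ncard ≤ D.Kh * D.r + lm) →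
    (∀ v, D.dg v ≤ 2 → {p | p ∈ B ∧ Nr D.N R' v (D.x p)}.ncard ≤ lm) →
    (∀ s, {p | p ∈ B ∧ q p = s}.ncard ≤ lm) →
    (∀ p ∈ B, ∀ p' ∈ B, ∀ p'' ∈ B, p ≠ p' → p ≠ p'' → p' ≠ p'' → Nr D.N (2 * R) (D.x p) (D.x p') →
      Nr D.N (2 * R) (D.x p) (D.x p'') → Nr D.N (2 * R) (D.x p') (D.x p'') →
      3 ≤ ({D.hub p, D.hub (q p), D.hub p', D.hub (q p'), D.hub p'', D.hub (q p'')} : Set V).ncard) →
    B.ncard ≤ A * (R + 1) * (1 + lm) * U'.ncard + 2 * C.ncard := by
  classical
  refine ⟨100000, ?_⟩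
  intro V P Q _ _ _ D H e0 X δ hD hX hL hKδ U' R R' lm B C q hU hCB hR hδR hC hp hlA hlB hq h3
  have := Fintype.ofFinite V
  have := Fintype.ofFinite P
  let Y : Type := {p // p ∈ B}
  obtain ⟨par, dep, hadj, hpar, hroot⟩ := exists_forest D.N (D.x '' C)
  have hdep : ∀ p ∈ B, dep (D.x p) ≤ R ∧ par^[dep (D.x p)] (D.x p) ∈ D.x '' C := by
    intro p hpB
    obtain ⟨c, hc, h⟩ := hC p hpB
    exact hroot _ _ _ ⟨c, hc, rfl⟩ h
  obtain ⟨J, instJ, m, c, k, hinj, hk, hload, hleft⟩ :=
    groups par dep hpar (fun y : Y => D.x y.1)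
  have hdw : ∀ j a, ∃ p : D.N.Walk (c j) (D.x (m j a).1), p.length = k j a ∧
      ∀ z ∈ p.support, ∃ s ≤ k j a, z = par^[s] (D.x (m j a).1) := by
    intro j a
    obtain ⟨p, hp1, hp2⟩ := up_walk hadj hpar (k j a) _ _ (hk j a).1 (hk j a).2
    refine ⟨p, hp1, fun z hz => ?_⟩
    rw [SimpleGraph.Walk.mem_support_iff_exists_mem_edges] at hz
    rcases hz with rfl | ⟨f, hf, hz⟩
    · exact ⟨0, Nat.zero_le _, rfl⟩
    · obtain ⟨s, hs, rfl⟩ := hp2 f hf
      rw [Sym2.mem_iff] at hz
      rcases hz with rfl | rfl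
      · exact ⟨s, hs.le, rfl⟩
      · exact ⟨s + 1, hs, rfl⟩
  have hkR : ∀ j a, k j a ≤ R := fun j a => (hk j a).1.trans (hdep _ (m j a).2).1
  have hleg : ∀ j, ∃ T : Leg3 D e0, (∀ κ, D.hub (T.p κ) ∈ U') ∧
      (∀ κ, (T.W κ).length ≤ 2 * R ∧ (D.w (T.p κ)).length ≤ R) ∧
      ∀ κ, ∃ a, (T.p κ = (m j a).1 ∨ T.p κ = q (m j a).1) ∧
        ∀ z ∈ (T.W κ).support, (∃ s ≤ k j a, z = par^[s] (D.x (m j a).1)) ∨
          Nr D.N R' z (D.x (m j a).1) := by
    intro j
    have hne : ∀ a a', a ≠ a' → (m j a).1 ≠ (m j a').1 := fun a a' h h' =>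
      h (hinj j a j a' (Subtype.ext h')).2
    have hnr : ∀ a a', Nr D.N (2 * R) (D.x (m j a).1) (D.x (m j a').1) := by
      intro a a'
      obtain ⟨p, hp1, -⟩ := hdw j a
      obtain ⟨p', hp1', -⟩ := hdw j a'
      have e1 := hkR j a
      have e2 := hkR j a'
      exact ((Nr.of_walk p).symm.trans (Nr.of_walk p')).mono (by omega)
    have h6 := h3 _ (m j 0).2 _ (m j 1).2 _ (m j 2).2 (hne _ _ (by decide))
      (hne _ _ (by decide)) (hne _ _ (by decide)) (hnr _ _) (hnr _ _) (hnr _ _)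
    obtain ⟨a, b, d, ha, hb, hd, hab, had, hbd⟩ := (Set.two_lt_ncard_iff (Set.toFinite _)).1 h6
    have hmem : ∀ v ∈ ({D.hub (m j 0).1, D.hub (q (m j 0).1), D.hub (m j 1).1,
        D.hub (q (m j 1).1), D.hub (m j 2).1, D.hub (q (m j 2).1)} : Set V),
        ∃ (i : Fin 3) (t : P), (t = (m j i).1 ∨ t = q (m j i).1) ∧ D.hub t = v := by
      intro v hv
      simp only [Set.mem_insert_iff, Set.mem_singleton_iff] at hv
      rcases hv with h | h | h | h | h | h
      · exact ⟨0, _, Or.inl rfl, h.symm⟩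
      · exact ⟨0, _, Or.inr rfl, h.symm⟩
      · exact ⟨1, _, Or.inl rfl, h.symm⟩
      · exact ⟨1, _, Or.inr rfl, h.symm⟩
      · exact ⟨2, _, Or.inl rfl, h.symm⟩
      · exact ⟨2, _, Or.inr rfl, h.symm⟩
    have hf : ∀ κ : Fin 3, ∃ (i : Fin 3) (t : P), (t = (m j i).1 ∨ t = q (m j i).1) ∧
        D.hub t = (![a, b, d] : Fin 3 → V) κ := by
      intro κ
      fin_cases κ
      · exact hmem a ha
      · exact hmem b hb
      · exact hmem d hd
    choose i t ht1 ht2 using hf
    have hW : ∀ κ, ∃ W : D.N.Walk (c j) (D.x (t κ)),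
        W.length ≤ 2 * R ∧ ∀ z ∈ W.support, (∃ s ≤ k j (i κ), z = par^[s] (D.x (m j (i κ)).1)) ∨
          Nr D.N R' z (D.x (m j (i κ)).1) := by
      intro κ
      obtain ⟨p, hp1, hp2⟩ := hdw j (i κ)
      have e1 := hkR j (i κ)
      rcases ht1 κ with h | h
      · rw [h]
        exact ⟨p, by omega, fun z hz => Or.inl (hp2 z hz)⟩
      · rw [h]
        obtain ⟨p', hp'⟩ := (hp _ (m j (i κ)).2).2.2.2.2.2.2
        refine ⟨p.append p', ?_, ?_⟩
        · rw [SimpleGraph.Walk.length_append]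
          omega
        · intro z hz
          rw [SimpleGraph.Walk.mem_support_append_iff] at hz
          rcases hz with hz | hz
          · exact Or.inl (hp2 z hz)
          · exact Or.inr ((Nr.of_mem hz).mono hp').symm
    choose W hW1 hW2 using hW
    have hpt : ∀ κ, D.hub (t κ) ∈ U' ∧ e0 ∉ (D.w (t κ)).edges ∧ (D.w (t κ)).length ≤ R := by
      intro κ
      have h7 := hp _ (m j (i κ)).2
      rcases ht1 κ with h | h
      · rw [h]
        exact ⟨h7.1, h7.2.2.1, h7.2.2.2.2.1⟩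
      · rw [h]
        exact ⟨h7.2.1, h7.2.2.2.1, h7.2.2.2.2.2.1⟩
    refine ⟨{ c := c j, p := t, W := W, inj := ?_, e := fun κ => (hpt κ).2.1 },
      fun κ => (hpt κ).1, fun κ => ⟨hW1 κ, (hpt κ).2.2⟩, fun κ => ⟨i κ, ht1 κ, hW2 κ⟩⟩
    intro κ κ' hκ h
    rw [ht2, ht2] at h
    fin_cases κ <;> fin_cases κ' <;> simp at hκ h <;> tauto
  choose T hTU hTl hTm using hleg
  -- the load
  have hcnt : ∀ (S : Set J) (S' : Set P), (∀ j ∈ S, ∃ i, (m j i).1 ∈ S') →
      S.ncard ≤ S'.ncard := by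
    intro S S' h
    have : ∀ j, ∃ i, j ∈ S → (m j i).1 ∈ S' := by
      intro j
      by_cases hj : j ∈ S
      · obtain ⟨i, hi⟩ := h j hj
        exact ⟨i, fun _ => hi⟩
      · exact ⟨0, fun h => absurd h hj⟩
    choose i hi using this
    refine Set.ncard_le_ncard_of_injOn (fun j => (m j (i j)).1) (fun j hj => hi j hj) ?_
      (Set.toFinite _)
    intro j _ j' _ h
    exact (hinj _ _ _ _ (Subtype.ext h)).1
  have hldv : ∀ v, {j | v ∈ (tri' (T j) hD hX hU (hTU j)).vs}.ncard ≤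
      2 * D.dg v + {p | p ∈ B ∧ Nr D.N R' v (D.x p)}.ncard + lm + 3 := by
    intro v
    by_cases hvU : v ∈ D.U
    · have h0 : {j | v ∈ (tri' (T j) hD hX hU (hTU j)).vs} = ∅ := by
        rw [Set.eq_empty_iff_forall_notMem]
        rintro j ⟨h1, κ, h2⟩
        have h4 := ((T j).tri hD hX).inner κ v h2 hvU
        exact h1 (h4 ▸ hTU j κ)
      rw [h0, Set.ncard_empty]
      exact Nat.zero_le _
    set L : V → Set J := fun u => Prod.fst ''
      {a : J × Fin 3 | ∃ s < k a.1 a.2, par^[s] (D.x (m a.1 a.2).1) = u} with hL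
    have hLc : ∀ u, (L u).ncard ≤ 2 := fun u =>
      (Set.ncard_image_le (Set.toFinite _)).trans (hload u)
    set S2 : Set J := ⋃ u ∈ (Set.toFinite (D.N.neighborSet v)).toFinset, L u with hS2
    have hS2c : S2.ncard ≤ 2 * D.dg v := by
      refine (Finset.set_ncard_biUnion_le _ _).trans ?_
      refine (Finset.sum_le_card_nsmul _ _ 2 fun u _ => hLc u).trans ?_
      rw [smul_eq_mul, ← Set.ncard_eq_toFinset_card _ (Set.toFinite _)]
      have h6 : (D.N.neighborSet v).ncard ≤ D.dg v := by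
        unfold HD.dg deg
        omega
      omega
    set S3 : Set J := {j | ∃ i, Nr D.N R' v (D.x (m j i).1)} with hS3
    have hS3c : S3.ncard ≤ {p | p ∈ B ∧ Nr D.N R' v (D.x p)}.ncard := by
      refine hcnt S3 {p | p ∈ B ∧ Nr D.N R' v (D.x p)} ?_
      rintro j ⟨i, hi⟩
      exact ⟨i, (m j i).2, hi⟩
    set S4 : Set J := {j | ∃ i, v ∈ (D.w (m j i).1).support ∧ v ≠ D.x (m j i).1 ∧
      v ≠ D.hub (m j i).1} with hS4
    have hS4c : S4.ncard ≤ 1 := by
      refine (hcnt S4 {p | v ∈ (D.w p).support ∧ v ≠ D.x p ∧ v ≠ D.hub p} ?_).trans ?_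
      · rintro j ⟨i, hi⟩
        exact ⟨i, hi⟩
      · rw [Set.ncard_le_one (Set.toFinite _)]
        rintro p ⟨h1, h2, h4⟩ p' ⟨h1', -, -⟩
        exact hD.w_disj p p' v h1 h1' h2 h4
    set S5 : Set J := {j | ∃ i, v ∈ (D.w (q (m j i).1)).support ∧ v ≠ D.x (q (m j i).1) ∧
      v ≠ D.hub (q (m j i).1)} with hS5
    have hS5c : S5.ncard ≤ lm := by
      rcases S5.eq_empty_or_nonempty with h0 | ⟨j0, i0, h1, h2, h4⟩
      · rw [h0, Set.ncard_empty]
        exact Nat.zero_le _
      · refine (hcnt S5 {p | p ∈ B ∧ q p = q (m j0 i0).1} ?_).trans (hq _)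
        rintro j ⟨i, h1', -, -⟩
        exact ⟨i, (m j i).2, (hD.w_disj _ _ v h1 h1' h2 h4).symm⟩
    have hsub : {j | v ∈ (tri' (T j) hD hX hU (hTU j)).vs} ⊆ L v ∪ S2 ∪ S3 ∪ S4 ∪ S5 := by
      rintro j ⟨-, κ, hκ⟩
      rw [tri'_supp] at hκ
      obtain ⟨a, ha1, ha2⟩ := hTm j κ
      have hN : ∀ z ∈ ((T j).W κ).support, z = v → j ∈ L v ∪ S2 ∪ S3 ∪ S4 ∪ S5 := by
        rintro z hz rfl
        rcases ha2 z hz with ⟨s, hs, h⟩ | h
        · rcases hs.lt_or_eq with hs | rfl
          · exact Or.inl (Or.inl (Or.inl (Or.inl ⟨(j, a), ⟨s, hs, h.symm⟩, rfl⟩)))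
          · by_cases h0 : k j a = 0
            · rw [h0] at h
              have h' : z = D.x (m j a).1 := h
              refine Or.inl (Or.inl (Or.inr ⟨a, ?_⟩))
              rw [← h']
              exact Nr.refl _ _ _
            · refine Or.inl (Or.inl (Or.inl (Or.inr ?_)))
              have h5 := iter_dep hpar (D.x (m j a).1) (k j a - 1) (by
                have := (hk j a).1
                omega)
              have h6 : k j a ≤ dep (D.x (m j a).1) := (hk j a).1
              have h7 := hadj (par^[k j a - 1] (D.x (m j a).1)) (by omega)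
              have h8 : par (par^[k j a - 1] (D.x (m j a).1)) = z := by
                rw [h, ← Function.iterate_succ_apply' par]
                congr 1
                omega
              rw [h8] at h7
              simp only [hS2, Set.mem_iUnion]
              refine ⟨_, (Set.Finite.mem_toFinset _).2 h7.symm, (j, a), ⟨k j a - 1, ?_, rfl⟩, rfl⟩
              show k j a - 1 < k j a
              omega
        · exact Or.inl (Or.inl (Or.inr ⟨a, h⟩))
      rcases hκ with hκ | hκ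
      · exact hN v hκ rfl
      · by_cases hx : v = D.x ((T j).p κ)
        · refine hN v ?_ rfl
          rw [hx]
          exact SimpleGraph.Walk.end_mem_support _
        · have hh : v ≠ D.hub ((T j).p κ) := fun h => hvU (h ▸ hD.hub_U _)
          rcases ha1 with h | h
          · rw [h] at hκ hx hh
            exact Or.inl (Or.inr ⟨a, hκ, hx, hh⟩)
          · rw [h] at hκ hx hh
            exact Or.inr ⟨a, hκ, hx, hh⟩
    have hc := Set.ncard_le_ncard hsub (Set.toFinite _)
    have c1 := Set.ncard_union_le (L v ∪ S2 ∪ S3 ∪ S4) S5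
    have c2 := Set.ncard_union_le (L v ∪ S2 ∪ S3) S4
    have c3 := Set.ncard_union_le (L v ∪ S2) S3
    have c4 := Set.ncard_union_le (L v) S2
    have c5 := hLc v
    omega
  have hdg0 : ∀ p, ∀ z ∈ (D.w p).support, z ≠ D.x p → D.dg z = 0 := by
    intro p z hz hne
    have h4 := hD.w_N p z hz hne
    unfold HD.VN at h4
    rw [Set.mem_ofPred_eq, not_or, not_not, not_exists] at h4
    unfold HD.dg HD.pn
    rw [h4.1, zero_add, Set.ncard_eq_zero (Set.toFinite _), Set.eq_empty_iff_forall_notMem]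
    exact h4.2
  have hEe : ∀ j, ∀ f ∈ (tri' (T j) hD hX hU (hTU j)).es, ∃ v ∈ f, v ∉ U' ∧ ¬ 3 ≤ D.dg v := by
    rintro j f ⟨κ, hf⟩
    have hf' : f ∈ ((T j).W κ).edges ∨ f ∈ (D.w ((T j).p κ)).edges := by
      unfold tri' Leg3.tri at hf
      simpa only [SimpleGraph.Walk.edges_append, List.mem_append,
        SimpleGraph.Walk.edges_mapLe_eq_edges, SimpleGraph.Walk.edges_transfer] using hf
    rcases hf' with hf' | hf'
    · induction f using Sym2.ind with
      | _ a b =>
        have hab := SimpleGraph.Walk.adj_of_mem_edges _ hf'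
        by_cases ha : 3 ≤ D.dg a
        · refine ⟨b, Sym2.mem_mk_right _ _, fun h => hD.N_U _ _ hab.symm (hU h), fun hb => ?_⟩
          have h5 := hD.thr_ge a b hab.toWalk hab.ne ha hb
          have h6 := hD.r_pos
          rw [SimpleGraph.Adj.length_toWalk] at h5
          omega
        · exact ⟨a, Sym2.mem_mk_left _ _, fun h => hD.N_U _ _ hab (hU h), ha⟩
    · obtain ⟨z, hzf, hz, hz1, hz2⟩ := inner_end (hD.w_path _) (hD.r_pos.trans (hD.w_ge _)) hf'
      refine ⟨z, hzf, fun h => hD.w_U _ z hz hz2 (hU h), ?_⟩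
      rw [hdg0 _ z hz hz1]
      omega
  have hK : ∀ j, {v | v ∈ (tri' (T j) hD hX hU (hTU j)).vs ∧ 3 ≤ D.dg v}.ncard *
      (3 * (D.Kh * D.r)) ≤ 27 * R := by
    intro j
    rcases Nat.eq_zero_or_pos (D.Kh * D.r) with h0 | h0
    · rw [h0]
      simp
    have hδ : 1 ≤ δ := lt_of_lt_of_le h0 hKδ
    have h4 : {v | v ∈ (tri' (T j) hD hX hU (hTU j)).vs ∧ 3 ≤ D.dg v} ⊆
        ⋃ κ ∈ (Finset.univ : Finset (Fin 3)), {z | z ∈ ((T j).W κ).support ∧ 3 ≤ D.dg z} := by
      rintro v ⟨⟨hv, κ, hκ⟩, hvd⟩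
      rw [tri'_supp] at hκ
      simp only [Set.mem_iUnion]
      refine ⟨κ, Finset.mem_univ _, ?_, hvd⟩
      rcases hκ with hκ | hκ
      · exact hκ
      · by_cases hx : v = D.x ((T j).p κ)
        · rw [hx]
          exact SimpleGraph.Walk.end_mem_support _
        · have := hdg0 _ v hκ hx
          omega
    have h5 : ∀ κ, {z | z ∈ ((T j).W κ).support ∧ 3 ≤ D.dg z}.ncard ≤ 2 * R / δ + 1 := by
      intro κ
      exact (branch_count' hL hδ _).trans
        (Nat.add_le_add_right (Nat.div_le_div_right (hTl j κ).1) 1)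
    have h6 := ((Set.ncard_le_ncard h4 (Set.toFinite _)).trans
      (Finset.set_ncard_biUnion_le _ _)).trans (Finset.sum_le_card_nsmul _ _ _ fun κ _ => h5 κ)
    rw [Finset.card_univ, Fintype.card_fin, smul_eq_mul] at h6
    have h7 : 2 * R / δ * δ ≤ 2 * R := Nat.div_mul_le_self _ _
    calc _ ≤ 3 * (2 * R / δ + 1) * (3 * δ) := Nat.mul_le_mul h6 (Nat.mul_le_mul_left _ hKδ)
      _ = 9 * (2 * R / δ * δ + δ) := by ring
      _ ≤ 9 * (2 * R + R) := Nat.mul_le_mul_left _ (Nat.add_le_add h7 hδR)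
      _ = 27 * R := by ring
  have hJ : Fintype.card J ≤ 132 * ((6 * (3 * R) + 3) * (7 + 2 * lm) + 27 * R) * U'.ncard := by
    refine el_load2 X hX.sym hX.one hX.pl (fun j => tri' (T j) hD hX hU (hTU j))
      (fun v => 3 ≤ D.dg v) (3 * R) (7 + 2 * lm) (3 * (D.Kh * D.r)) (27 * R) ?_ ?_ ?_ hK hEe
    · intro j κ
      rw [tri'_len]
      have := hTl j κ
      omega
    · intro v hv
      have h4 := hldv v
      have h5 := hlB v (by omega)
      omega
    · intro v
      have h4 := hldv v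
      by_cases hvU : v ∈ D.U
      · refine le_trans (le_of_eq ?_) (Nat.zero_le _)
        rw [Set.ncard_eq_zero (Set.toFinite _), Set.eq_empty_iff_forall_notMem]
        rintro j ⟨h1, κ, h2⟩
        have h4 := ((T j).tri hD hX).inner κ v h2 hvU
        exact h1 (h4 ▸ hTU j κ)
      · have h5 := hD.dg_le v hvU
        by_cases hv : 3 ≤ D.dg v
        · have h6 := hlA v
          omega
        · have h6 := hlB v (by omega)
          omega
  -- count of the marks
  have hY : B.ncard = (Set.univ : Set Y).ncard := by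
    rw [Set.ncard_univ]
    rfl
  set G : Set Y := Set.range fun a : J × Fin 3 => m a.1 a.2 with hG
  have hGc : G.ncard ≤ 3 * Fintype.card J := by
    rw [hG, ← Set.image_univ]
    refine (Set.ncard_image_le (Set.toFinite _)).trans ?_
    rw [Set.ncard_univ, Nat.card_eq_fintype_card, Fintype.card_prod, Fintype.card_fin]
    omega
  set Rt : Set V := D.x '' C with hRt
  have hRc : Rt.ncard ≤ C.ncard := Set.ncard_image_le (Set.toFinite _)
  have hcov : (Set.univ : Set Y) ⊆ G ∪ ⋃ t ∈ (Set.toFinite Rt).toFinset,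
      {y : Y | par^[dep (D.x y.1)] (D.x y.1) = t ∧ ∀ j i, m j i ≠ y} := by
    intro y _
    by_cases hy : ∃ j i, m j i = y
    · obtain ⟨j, a, h⟩ := hy
      exact Or.inl ⟨(j, a), h⟩
    · right
      push Not at hy
      simp only [Set.mem_iUnion]
      exact ⟨_, (Set.Finite.mem_toFinset _).2 (hdep _ y.2).2, rfl, hy⟩
  have hle := (Set.ncard_le_ncard hcov (Set.toFinite _)).trans (Set.ncard_union_le _ _)
  have hle2 := (Finset.set_ncard_biUnion_le (Set.toFinite Rt).toFinset
    (fun t => {y : Y | par^[dep (D.x y.1)] (D.x y.1) = t ∧ ∀ j i, m j i ≠ y})).trans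
    (Finset.sum_le_card_nsmul _ _ 2 (fun t _ => hleft t))
  rw [smul_eq_mul, ← Set.ncard_eq_toFinset_card _ (Set.toFinite Rt)] at hle2
  have hB : B.ncard ≤ 3 * Fintype.card J + 2 * C.ncard := by
    rw [hY]
    omega
  refine hB.trans (Nat.add_le_add_right ?_ _)
  calc 3 * Fintype.card J ≤ 3 * (132 * ((6 * (3 * R) + 3) * (7 + 2 * lm) + 27 * R) * U'.ncard) :=
        Nat.mul_le_mul_left _ hJ
    _ ≤ 3 * (132 * ((18 * (R + 1)) * (7 * (1 + lm)) + 27 * ((R + 1) * (1 + lm))) * U'.ncard) := by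
        gcongr
        · omega
        · omega
        · nlinarith
    _ = 60588 * ((R + 1) * (1 + lm) * U'.ncard) := by ring
    _ ≤ 100000 * ((R + 1) * (1 + lm) * U'.ncard) := Nat.mul_le_mul_right _ (by norm_num)
    _ = _ := by ring

end Pool.Agent.Helper63.PH
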