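import Pool.Agent.Helper23.PL.SpecB
import Pool.Agent.Helper63.PH.Scales
import Pool.Agent.Helper63.PH.CG

/-!
# PH-B5 (CC): pins with large hubs, primary scale (adapted from Helper8/PL/CC, by helper8)
-/

set_option autoImplicit false
set_option linter.unusedSectionVars false

open Set
open Pool.Agent.Helper83.OP Pool.Agent.Helper93.HH Pool.Agent.Helper95.HH
open Pool.Agent.Helper23.PL

namespace Pool.Agent.Helper63.PH

/-! ## disjoint tripods -/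

private theorem card_vs {V : Type} [Fintype V] {H : SimpleGraph V} {U : Set V} (T : Tri H U)
    [Fintype T.vs] (l : ℕ) (hl : ∀ j, (T.W j).length ≤ l) : T.vs.toFinset.card ≤ 3 * (l + 1) := by
  classical
  have h1 : T.vs.toFinset ⊆ (Finset.univ : Finset (Fin 3)).biUnion
      fun j => (T.W j).support.toFinset := by
    intro v hv
    rw [Set.mem_toFinset] at hv
    obtain ⟨-, j, hj⟩ := hv
    exact Finset.mem_biUnion.2 ⟨j, Finset.mem_univ _, List.mem_toFinset.2 hj⟩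
  refine (Finset.card_le_card h1).trans (Finset.card_biUnion_le.trans ?_)
  calc ∑ j : Fin 3, (T.W j).support.toFinset.card ≤ ∑ j : Fin 3, (l + 1) := by
        refine Finset.sum_le_sum fun j _ => (List.toFinset_card_le _).trans ?_
        rw [SimpleGraph.Walk.length_support]
        exact Nat.succ_le_succ (hl j)
    _ = 3 * (l + 1) := by simp

private theorem card_es {V : Type} [Fintype V] {H : SimpleGraph V} {U : Set V} (T : Tri H U)
    [Fintype T.es] (l : ℕ) (hl : ∀ j, (T.W j).length ≤ l) : T.es.toFinset.card ≤ 3 * l := by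
  classical
  have h1 : T.es.toFinset ⊆ (Finset.univ : Finset (Fin 3)).biUnion
      fun j => (T.W j).edges.toFinset := by
    intro v hv
    rw [Set.mem_toFinset] at hv
    obtain ⟨j, hj⟩ := hv
    exact Finset.mem_biUnion.2 ⟨j, Finset.mem_univ _, List.mem_toFinset.2 hj⟩
  refine (Finset.card_le_card h1).trans (Finset.card_biUnion_le.trans ?_)
  calc ∑ j : Fin 3, (T.W j).edges.toFinset.card ≤ ∑ j : Fin 3, l := by
        refine Finset.sum_le_sum fun j _ => (List.toFinset_card_le _).trans ?_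
        rw [SimpleGraph.Walk.length_edges]
        exact hl j
    _ = 3 * l := by simp

private theorem es_vs {V : Type} {H : SimpleGraph V} {U : Set V} (T : Tri H U) {f : Sym2 V}
    (hf : f ∈ T.es) : ∃ a ∈ f, a ∈ T.vs := by
  obtain ⟨j, hj⟩ := hf
  induction f with
  | h a b =>
    have ha := SimpleGraph.Walk.fst_mem_support_of_mem_edges _ hj
    have hb := SimpleGraph.Walk.snd_mem_support_of_mem_edges _ hj
    have hab : H.Adj a b := SimpleGraph.Walk.adj_of_mem_edges _ hj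
    by_cases haU : a ∈ U
    · by_cases hbU : b ∈ U
      · have h1 := T.inner j a ha haU
        have h2 := T.inner j b hb hbU
        exact absurd (h1.trans h2.symm) hab.ne
      · exact ⟨b, by simp, hbU, j, hb⟩
    · exact ⟨a, by simp, haU, j, ha⟩

private theorem mem_vs_of_es {V : Type} {H : SimpleGraph V} {U : Set V} (T : Tri H U) {f : Sym2 V}
    (hf : f ∈ T.es) {a : V} (ha : a ∈ f) (haU : a ∉ U) : a ∈ T.vs := by
  obtain ⟨j, hj⟩ := hf
  exact ⟨haU, j, SimpleGraph.Walk.mem_support_of_mem_edges hj ha⟩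

private theorem disj_tri {V : Type} [Finite V] (H : SimpleGraph V) (X : Sym2 V → Sym2 V → Prop)
    (hs : ∀ f f', X f f' → X f' f)
    (h1 : ∀ f ∈ H.edgeSet, {f' | f' ∈ H.edgeSet ∧ X f f'}.ncard ≤ 1) (hP : PlanarLike H X)
    (U : Set V) {I : Type} [Finite I] (T : I → Tri H U) (l : ℕ)
    (hl : ∀ i j, ((T i).W j).length ≤ l)
    (hd : ∀ i j, i ≠ j → ∀ v ∈ (T i).vs, v ∉ (T j).vs) :
    Nat.card I ≤ (6 * l + 3) * (132 * U.ncard) := by
  classical
  have := Fintype.ofFinite V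
  have := Fintype.ofFinite I
  have h2 := Pool.Agent.Helper43.HH.el_uniform X hs h1 hP (Finset.univ : Finset I) T
    (fun _ => (1 : ℝ)) (fun _ _ => zero_le_one) ((6 * l + 3 : ℕ) : ℝ) (Nat.cast_nonneg _) ?_
  · rw [Finset.sum_const, Finset.card_univ, nsmul_eq_mul, mul_one] at h2
    rw [Nat.card_eq_fintype_card]
    exact_mod_cast h2
  · intro i _
    have hv : ∀ v ∈ (T i).vs.toFinset,
        Pool.Agent.Helper43.HH.phiV Finset.univ T (fun _ => (1 : ℝ)) v ≤ 1 := by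
      intro v hv
      rw [Set.mem_toFinset] at hv
      unfold Pool.Agent.Helper43.HH.phiV
      rw [Finset.sum_const, nsmul_eq_mul, mul_one]
      have h3 : ((Finset.univ : Finset I).filter fun j => v ∈ (T j).vs) ⊆ {i} := by
        intro j hj
        rw [Finset.mem_filter] at hj
        rw [Finset.mem_singleton]
        by_contra hne
        exact hd i j (fun h => hne h.symm) v hv hj.2
      have h4 := Finset.card_le_card h3
      rw [Finset.card_singleton] at h4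
      exact_mod_cast h4
    have he : ∀ f ∈ (T i).es.toFinset,
        Pool.Agent.Helper43.HH.phiE Finset.univ T (fun _ => (1 : ℝ)) f ≤ 1 := by
      intro f hf
      rw [Set.mem_toFinset] at hf
      obtain ⟨a, ha, hav⟩ := es_vs _ hf
      unfold Pool.Agent.Helper43.HH.phiE
      rw [Finset.sum_const, nsmul_eq_mul, mul_one]
      have h3 : ((Finset.univ : Finset I).filter fun j => f ∈ (T j).es) ⊆ {i} := by
        intro j hj
        rw [Finset.mem_filter] at hj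
        rw [Finset.mem_singleton]
        by_contra hne
        exact hd i j (fun h => hne h.symm) a hav (mem_vs_of_es _ hj.2 ha hav.1)
      have h4 := Finset.card_le_card h3
      rw [Finset.card_singleton] at h4
      exact_mod_cast h4
    have e1 := Finset.sum_le_card_nsmul _ _ _ hv
    have e2 := Finset.sum_le_card_nsmul _ _ _ he
    rw [nsmul_eq_mul, mul_one] at e1 e2
    have c1 : ((T i).vs.toFinset.card : ℝ) ≤ ((3 * (l + 1) : ℕ) : ℝ) := by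
      exact_mod_cast card_vs (T i) l (hl i)
    have c2 : ((T i).es.toFinset.card : ℝ) ≤ ((3 * l : ℕ) : ℝ) := by
      exact_mod_cast card_es (T i) l (hl i)
    calc _ ≤ ((3 * (l + 1) : ℕ) : ℝ) + ((3 * l : ℕ) : ℝ) :=
          add_le_add (e1.trans c1) (e2.trans c2)
      _ = ((6 * l + 3 : ℕ) : ℝ) := by
        push_cast
        ring

section

variable {V P Q : Type} [Finite V] [Finite P] [Finite Q] {D : HD V P Q}
  {H : SimpleGraph V} {e0 : Sym2 V} {X : Sym2 V → Sym2 V → Prop} {k k1 k2 j : ℕ}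

/-! ## zones and legs -/

/-- the vertices outside the hubs which are near `y`, pins included -/
private def Zn {V P Q : Type} (D : HD V P Q) (t : ℕ) (y : V) : Set V :=
  {z | z ∉ D.U ∧ (Nr D.N t y z ∨ ∃ q, Nr D.N t y (D.x q) ∧ z ∈ (D.w q).support)}

private theorem zn_cases (hD : D.Ok) {t : ℕ} {y z : V} (hy : y ∈ D.VN) (h : z ∈ Zn D t y) :
    (z ∈ D.VN ∧ Nr D.N t y z) ∨ (z ∉ D.VN ∧ z ∉ D.U ∧ ∃ q, Nr D.N t y (D.x q) ∧
      z ∈ (D.w q).support) := by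
  obtain ⟨hz, h | ⟨q, h, hq⟩⟩ := h
  · exact Or.inl ⟨HD.VN_of_nr h hy, h⟩
  · by_cases hzx : z = D.x q
    · left
      rw [hzx]
      exact ⟨HD.x_VN q, h⟩
    · exact Or.inr ⟨hD.w_N q z hq hzx, hz, q, h, hq⟩

private theorem zn_sep (hD : D.Ok) {t : ℕ} {y y' z : V} (hy : y ∈ D.VN) (hy' : y' ∈ D.VN)
    (h : z ∈ Zn D t y) (h' : z ∈ Zn D t y') : Nr D.N (2 * t) y y' := by
  rw [two_mul]
  rcases zn_cases hD hy h with ⟨a1, a2⟩ | ⟨a1, a2, q, a3, a4⟩
  · rcases zn_cases hD hy' h' with ⟨b1, b2⟩ | ⟨b1, -⟩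
    · exact a2.trans b2.symm
    · exact absurd a1 b1
  · rcases zn_cases hD hy' h' with ⟨b1, b2⟩ | ⟨b1, b2, q', b3, b4⟩
    · exact absurd b1 a1
    · have hzx : z ≠ D.x q := by
        rintro rfl
        exact a1 (HD.x_VN q)
      have hzh : z ≠ D.hub q := by
        rintro rfl
        exact a2 (hD.hub_U q)
      have := hD.w_disj q q' z a4 b4 hzx hzh
      subst this
      exact a3.trans b3.symm

private theorem nwalk (hD : D.Ok) (hH : D.Dr H e0 X) {t : ℕ} {u v : V} (h : Nr D.N t u v)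
    (hu : u ∈ D.VN) :
    ∃ W : H.Walk u v, W.length ≤ t ∧ ∀ z ∈ W.support, z ∉ D.U ∧ Nr D.N t u z := by
  obtain ⟨p, hp⟩ := h
  have hle : D.N ≤ H := by
    intro a b hab
    rw [hH.eq, SimpleGraph.deleteEdges_adj]
    refine ⟨hD.N_le hab, ?_⟩
    intro h
    rw [Set.mem_singleton_iff] at h
    exact hH.e0N (by rw [← h]; exact hab)
  refine ⟨p.mapLe hle, by simpa using hp, fun z hz => ?_⟩
  have hz' : z ∈ p.support := by simpa using hz
  exact ⟨HD.VN_U hD (HD.VN_of_walk p hu hz'), (Nr.of_mem hz').mono hp⟩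

private theorem pwalk (hH : D.Dr H e0 X) {q : P} (he : e0 ∉ (D.w q).edges) :
    ∃ W : H.Walk (D.x q) (D.hub q), W.length = (D.w q).length ∧ W.support = (D.w q).support := by
  have h1 : ∀ f ∈ (D.w q).edges, f ∈ H.edgeSet := by
    intro f hf
    rw [hH.eq, SimpleGraph.edgeSet_deleteEdges]
    refine ⟨(D.w q).edges_subset_edgeSet hf, ?_⟩
    rintro rfl
    exact he hf
  exact ⟨(D.w q).transfer H h1, by simp, by simp⟩

private theorem leg (hD : D.Ok) (hH : D.Dr H e0 X) {t : ℕ} {y : V} {q : P} (hy : y ∈ D.VN)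
    (h : Pn D t y q) (he : e0 ∉ (D.w q).edges) :
    ∃ W : H.Walk y (D.hub q), W.length ≤ t ∧ (∀ z ∈ W.support, z ∈ D.U → z = D.hub q) ∧
      ∀ z ∈ W.support, z ∉ D.U → z ∈ Zn D t y := by
  obtain ⟨s, h1, h2⟩ := h
  obtain ⟨W1, l1, s1⟩ := nwalk hD hH h1 hy
  obtain ⟨W2, l2, s2⟩ := pwalk hH he
  refine ⟨W1.append W2, ?_, ?_, ?_⟩
  · rw [SimpleGraph.Walk.length_append]
    omega
  · intro z hz hU
    rw [SimpleGraph.Walk.mem_support_append_iff] at hz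
    rcases hz with hz | hz
    · exact absurd hU (s1 z hz).1
    · rw [s2] at hz
      by_contra hne
      exact hD.w_U q z hz hne hU
  · intro z hz hU
    rw [SimpleGraph.Walk.mem_support_append_iff] at hz
    rcases hz with hz | hz
    · exact ⟨hU, Or.inl ((s1 z hz).2.mono (by omega))⟩
    · rw [s2] at hz
      exact ⟨hU, Or.inr ⟨q, h1.mono (by omega), hz⟩⟩

/-- two legs -/
private theorem link (hD : D.Ok) (hH : D.Dr H e0 X) {t : ℕ} {y : V} {q q' : P} (hy : y ∈ D.VN)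
    (h : Pn D t y q) (he : e0 ∉ (D.w q).edges) (h' : Pn D t y q') (he' : e0 ∉ (D.w q').edges) :
    ∃ W : H.Walk (D.hub q) (D.hub q'), W.length ≤ 2 * t ∧
      (∀ z ∈ W.support, z ∈ D.U → z = D.hub q ∨ z = D.hub q') ∧
      ∀ z ∈ W.support, z ∉ D.U → z ∈ Zn D t y := by
  obtain ⟨W1, l1, s1, t1⟩ := leg hD hH hy h he
  obtain ⟨W2, l2, s2, t2⟩ := leg hD hH hy h' he'
  have hmem : ∀ z, z ∈ (W1.reverse.append W2).support → z ∈ W1.support ∨ z ∈ W2.support := by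
    intro z hz
    rw [SimpleGraph.Walk.mem_support_append_iff, SimpleGraph.Walk.support_reverse,
      List.mem_reverse] at hz
    exact hz
  refine ⟨W1.reverse.append W2, ?_, ?_, ?_⟩
  · rw [SimpleGraph.Walk.length_append, SimpleGraph.Walk.length_reverse]
    omega
  · intro z hz hU
    rcases hmem z hz with h | h
    · exact Or.inl (s1 z h hU)
    · exact Or.inr (s2 z h hU)
  · intro z hz hU
    rcases hmem z hz with h | h
    · exact t1 z h hU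
    · exact t2 z h hU

private theorem pn_self {t : ℕ} (p : P) (h : (D.w p).length ≤ t) : Pn D t (D.x p) p :=
  ⟨0, Nr.refl _ _ _, by omega⟩

/-- the foot of a near pin is near -/
private theorem pn_nr {t : ℕ} {y : V} {q : P} (h : Pn D t y q) : Nr D.N t y (D.x q) := by
  obtain ⟨s, h1, h2⟩ := h
  exact h1.mono (by omega)

/-! ## one scale -/

/-- the classes of centres -/
private theorem cls (hD : D.Ok) (hB : BadH D k k2) (hF : ∀ p, min (e1 D p) (Rb D k2 (D.x p)) < cap D) (hk1 : 1 ≤ k) {p : P}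
    (hT : ¬ T5 D k k2 p) (hj : sg D k2 p < 2 ^ (j + 1)) :
    k2 < bv D (D.ball (2 ^ (j + 8)) (D.x p)) ∨
    (∃ q, D.hub q ≠ D.hub p ∧ Pn D (2 ^ (j + 8)) (D.x p) q ∧ D.hub q ∉ UL D k1 j) ∨
    (∃ q q', D.hub q ≠ D.hub p ∧ D.hub q' ≠ D.hub p ∧ D.hub q ≠ D.hub q' ∧
      Pn D (2 ^ (j + 8)) (D.x p) q ∧ Pn D (2 ^ (j + 8)) (D.x p) q' ∧ D.hub q ∈ UL D k1 j ∧
      D.hub q' ∈ UL D k1 j) ∨
    (D.hub (pt1 D p) ≠ D.hub p ∧ Pn D (2 ^ (j + 8)) (D.x p) (pt1 D p) ∧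
      Pn D (e1 D p) (D.x p) (pt1 D p) ∧ e1 D p ≤ 2 ^ (j + 1) ∧
      D.hub (pt1 D p) ∈ UL D k1 j ∧ ¬ NU D k p) := by
  obtain ⟨s2, s3, s4, s5⟩ := sg_le hD hF p
  have hpow : 2 ^ (j + 8) = 128 * 2 ^ (j + 1) := by
    rw [pow_add, pow_add]
    norm_num
    ring
  have hpos : 0 < 2 ^ (j + 1) := by positivity
  by_cases hrho : rho D k2 p ≤ 128 * sg D k2 p
  · -- near
    rcases min_choice (e2 D p) (Rb D k2 (D.x p)) with hm | hm
    · have hr : e2 D p ≤ 128 * sg D k2 p := by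
        unfold rho at hrho
        rwa [hm] at hrho
      have he2 : e2 D p < cap D := lt_of_le_of_lt hr s4
      have he12 := e1_le_e2 (D := D) p
      obtain ⟨q, h1, h2, h3⟩ := e2_spec he2
      obtain ⟨h4, h5⟩ := e1_spec (lt_of_le_of_lt he12 he2)
      have h3' : Pn D (2 ^ (j + 8)) (D.x p) q := Pn.mono h3 (by omega)
      have h5' : Pn D (2 ^ (j + 8)) (D.x p) (pt1 D p) := Pn.mono h5 (by omega)
      by_cases hq : D.hub q ∈ UL D k1 j
      · by_cases hq' : D.hub (pt1 D p) ∈ UL D k1 j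
        · exact Or.inr (Or.inr (Or.inl ⟨q, pt1 D p, h1, h4, h2, h3', h5', hq, hq'⟩))
        · exact Or.inr (Or.inl ⟨pt1 D p, h4, h5', hq'⟩)
      · exact Or.inr (Or.inl ⟨q, h1, h3', hq⟩)
    · left
      have hr : Rb D k2 (D.x p) ≤ 128 * sg D k2 p := by
        unfold rho at hrho
        rwa [hm] at hrho
      have h1 := Rb_spec (lt_of_le_of_lt hr s4)
      refine lt_of_lt_of_le h1 ?_
      unfold bv
      refine Set.ncard_le_ncard ?_ (Set.toFinite _)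
      exact Set.inter_subset_inter_left _ (D.ball_mono (by omega) _)
  · have hnu : ¬ NU D k p := fun h => hT ⟨by omega, h⟩
    have hRb : 128 * sg D k2 p < Rb D k2 (D.x p) := by
      have : rho D k2 p ≤ Rb D k2 (D.x p) := min_le_right _ _
      omega
    have he1 : e1 D p ≤ sg D k2 p := by
      have h1 : min (e1 D p) (Rb D k2 (D.x p)) ≤ sg D k2 p := le_max_right _ _
      rcases min_le_iff.1 h1 with h | h
      · exact h
      · omega
    obtain ⟨h4, h5⟩ := e1_spec (D := D) (p := p) (by omega)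
    have h5' : Pn D (2 ^ (j + 8)) (D.x p) (pt1 D p) := Pn.mono h5 (by omega)
    by_cases hq' : D.hub (pt1 D p) ∈ UL D k1 j
    · exact Or.inr (Or.inr (Or.inr ⟨h4, h5', h5, by omega, hq', hnu⟩))
    · exact Or.inr (Or.inl ⟨pt1 D p, h4, h5', hq'⟩)

/-- D1 at scale `2 ^ j` -/
private theorem d1 (hD : D.Ok) (hB : BadH D k k2) (hF : ∀ p, min (e1 D p) (Rb D k2 (D.x p)) < cap D) (hk1 : 10 ^ 6 * (k1 + 1) ≤ k) {p : P}
    (hj : 2 ^ j ≤ sg D k2 p) {t : ℕ} (ht : t ≤ 500000 * (k1 + 1) * 2 ^ j) :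
    ¬ Byp D (Fp D p) t (D.x p) (D.hub p) := by
  have hk' : 1 ≤ k := by
    have : 10 ^ 6 * 1 ≤ 10 ^ 6 * (k1 + 1) := Nat.mul_le_mul_left _ (by omega)
    omega
  intro h
  refine no_byp hD hB p (Byp.mono h subset_rfl ?_)
  obtain ⟨s2, -⟩ := sg_le hD hF p
  have h1 : 2 ^ j ≤ 2 * (sg D k2 p - 1) := by omega
  have h2 : 10 ^ 6 * (k1 + 1) * 2 ^ j ≤ k * (2 * (sg D k2 p - 1)) := Nat.mul_le_mul hk1 h1
  have h3 : 10 ^ 6 * (k1 + 1) * 2 ^ j = 2 * (500000 * (k1 + 1) * 2 ^ j) := by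
    norm_num
    ring
  have h4 : k * (2 * (sg D k2 p - 1)) = 2 * (k * (sg D k2 p - 1)) := by ring
  omega

/-- near pins have different hubs -/
private theorem d1_hub (hD : D.Ok) (hB : BadH D k k2) (hF : ∀ p, min (e1 D p) (Rb D k2 (D.x p)) < cap D) (hk1 : 10 ^ 6 * (k1 + 1) ≤ k)
    {p p' : P} (hj : 2 ^ j ≤ sg D k2 p) (hne : p ≠ p') {t : ℕ}
    (hr : Rch D (Fp D p) t (D.x p) (D.x p'))
    (ht : t + (D.w p').length ≤ 500000 * (k1 + 1) * 2 ^ j) : D.hub p ≠ D.hub p' := by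
  intro h
  have h1 := Byp.trans hr (Byp.pin hD (p := p) (q := p') (fun h => hne h.symm))
  have h2 : ∀ a, D.hub p' = a → Byp D (Fp D p) (t + (D.w p').length) (D.x p) a := by
    rintro _ rfl
    exact h1
  exact d1 hD hB hF hk1 hj ht (h2 _ h.symm)

/-- near pins with the same small hub have different hubs -/
private theorem d1_small (hD : D.Ok) (hB : BadH D k k2) (hF : ∀ p, min (e1 D p) (Rb D k2 (D.x p)) < cap D)
    (hk1 : 10 ^ 6 * (k1 + 1) ≤ k) {p p' q q' : P} (hj : 2 ^ j ≤ sg D k2 p) (hne : p ≠ p')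
    (hq : Pn D (2 ^ (j + 8)) (D.x p) q) (hq' : Pn D (2 ^ (j + 8)) (D.x p') q')
    (hh : D.hub q ≠ D.hub p) (hh' : D.hub q' ≠ D.hub p') (he : D.hub q = D.hub q')
    (hs : D.hub q ∉ UL D k1 j) (hl : (D.w p').length ≤ 2 ^ (j + 1)) : D.hub p ≠ D.hub p' := by
  intro hpp
  have hdeg : deg D.G (D.hub q) ≤ k1 * 2 ^ j := by
    by_contra hcon
    exact hs ⟨hD.hub_U q, by omega⟩
  obtain ⟨s, a1, a2⟩ := hq
  obtain ⟨s', b1, b2⟩ := hq'
  have hqp : q ≠ p := by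
    rintro rfl
    exact hh rfl
  have hqp' : q' ≠ p := by
    rintro rfl
    exact hh' hpp
  have r1 : Rch D (Fp D p) s (D.x p) (D.x q) := Rch.of_nr hD p (hD.x_U p) a1
  have r2 := Rch.pin hD hqp
  have r3 := (Rch.pin hD hqp').symm
  have r4 : Rch D (Fp D p) s' (D.x q') (D.x p') := Rch.of_nr hD p (hD.x_U q') b1.symm
  have r3' : ∀ a, D.hub q' = a → Rch D (Fp D p) ((D.w q').length + deg D.G a) a (D.x q') := by
    rintro _ rfl
    exact r3
  have r5 := ((r1.trans r2).trans (r3' _ he.symm)).trans r4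
  refine d1_hub hD hB hF hk1 hj hne r5 ?_ hpp
  have hpow : 2 ^ (j + 8) = 256 * 2 ^ j := by
    rw [pow_add]
    norm_num
    ring
  have hpow' : 2 ^ (j + 1) = 2 * 2 ^ j := by
    rw [pow_add]
    norm_num
    ring
  have e1 : 500000 * (k1 + 1) * 2 ^ j = 500000 * (k1 * 2 ^ j) + 500000 * 2 ^ j := by ring
  omega

/-- the units of different centres have different ends -/
private theorem d1_unit (hD : D.Ok) (hk1 : 10 ^ 6 * (k1 + 1) ≤ k) {p p' : P}
    (hj : 2 ^ j ≤ lam D p) (hne : p ≠ p') (hn : ¬ Nr D.N (2 ^ (j + 8)) (D.x p) (D.x p'))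
    (hNU : ¬ NU D k p) (h' : Pn D (e1 D p') (D.x p') (pt1 D p')) (he : e1 D p' ≤ 2 ^ (j + 1))
    (hl : (D.w p').length ≤ 2 ^ (j + 1)) :
    s(D.hub p, D.hub (pt1 D p)) ≠ s(D.hub p', D.hub (pt1 D p')) := by
  intro hpp
  apply hNU
  have hpow : 2 ^ (j + 8) = 256 * 2 ^ j := by
    rw [pow_add]
    norm_num
    ring
  have hpow' : 2 ^ (j + 1) = 2 * 2 ^ j := by
    rw [pow_add]
    norm_num
    ring
  have hpos : 0 < 2 ^ j := by positivity
  have hq : pt1 D p' ≠ p := by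
    intro h
    have h1 := pn_nr h'
    rw [h] at h1
    exact hn (h1.symm.mono (by omega))
  obtain ⟨s, a1, a2⟩ := h'
  obtain ⟨y, y1, y2⟩ := Byp.pin hD (p := p) (q := p') (fun h => hne h.symm)
  obtain ⟨z, z1, z2⟩ := Byp.pin hD hq
  have r1 : Rch D (Fp D p) s (D.x p') (D.x (pt1 D p')) := Rch.of_nr hD p (hD.x_U p') a1
  have hk4 : 6 * 2 ^ j ≤ k * lam D p := by
    have h6 : 6 ≤ k := by
      have : 10 ^ 6 * 1 ≤ 10 ^ 6 * (k1 + 1) := Nat.mul_le_mul_left _ (by omega)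
      omega
    exact Nat.mul_le_mul h6 hj
  rcases Sym2.eq_iff.1 hpp with ⟨c1, c2⟩ | ⟨c1, c2⟩
  · obtain ⟨W, w1, w2⟩ := (y2.symm.trans r1).trans z2
    refine ⟨y, z, W, ?_, ?_, w1, by omega⟩
    · rw [c1]
      exact y1
    · rw [c2]
      exact z1
  · obtain ⟨W, w1, w2⟩ := ((y2.symm.trans r1).trans z2).symm
    refine ⟨z, y, W, ?_, ?_, w1, by omega⟩
    · rw [c1]
      exact z1
    · rw [c2]
      exact y1

/-- nobody is near the pin with `e0` -/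
private theorem e0_free {S : Set P} {T : ℕ}
    (h0 : ∀ p ∈ S, ∀ q, Nr D.N T (D.x p) (D.x q) → e0 ∉ (D.w q).edges) {p q : P} (hp : p ∈ S)
    (h : Pn D T (D.x p) q) : e0 ∉ (D.w q).edges := h0 p hp q (pn_nr h)

/-- T4 -/
private theorem cnt4 (hD : D.Ok) (hH : D.Dr H e0 X) (hk1 : 10 ^ 6 * (k1 + 1) ≤ k) (S : Set P)
    (hsep : ∀ p ∈ S, ∀ p' ∈ S, p ≠ p' → ¬ Nr D.N (2 * 2 ^ (j + 8)) (D.x p) (D.x p'))
    (h0 : ∀ p ∈ S, ∀ q, Nr D.N (2 ^ (j + 8)) (D.x p) (D.x q) → e0 ∉ (D.w q).edges)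
    (hlam : ∀ p ∈ S, 2 ^ j ≤ lam D p) (hw : ∀ p ∈ S, (D.w p).length ≤ 2 ^ (j + 1))
    (hUL : ∀ p ∈ S, D.hub p ∈ UL D k1 j)
    (h : ∀ p ∈ S, D.hub (pt1 D p) ≠ D.hub p ∧ Pn D (2 ^ (j + 8)) (D.x p) (pt1 D p) ∧
      Pn D (e1 D p) (D.x p) (pt1 D p) ∧ e1 D p ≤ 2 ^ (j + 1) ∧
      D.hub (pt1 D p) ∈ UL D k1 j ∧ ¬ NU D k p) :
    S.ncard ≤ 4 * (2 * 2 ^ (j + 8) + 1) * (UL D k1 j).ncard := by
  have hT : 2 ^ (j + 1) ≤ 2 ^ (j + 8) := Nat.pow_le_pow_right (by norm_num) (by omega)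
  have hW : ∀ p : S, ∃ W : H.Walk (D.hub p) (D.hub (pt1 D p)), W.length ≤ 2 * 2 ^ (j + 8) ∧
      (∀ z ∈ W.support, z ∈ D.U → z = D.hub p ∨ z = D.hub (pt1 D p)) ∧
      ∀ z ∈ W.support, z ∉ D.U → z ∈ Zn D (2 ^ (j + 8)) (D.x p) := by
    rintro ⟨p, hp⟩
    have hself : Pn D (2 ^ (j + 8)) (D.x p) p := pn_self p ((hw p hp).trans hT)
    exact link hD hH (HD.x_VN p) hself (e0_free h0 hp hself) (h p hp).2.1
      (e0_free h0 hp (h p hp).2.1)
  choose W w1 w2 w3 using hW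
  have key := DP H X hH.sym hH.one hH.pl (UL D k1 j) (I := S) (fun p => D.hub p)
    (fun p => D.hub (pt1 D p)) W (2 * 2 ^ (j + 8)) (fun p => hUL p p.2)
    (fun p => (h p p.2).2.2.2.2.1) (fun p => (h p p.2).1.symm)
    (fun p z hz hU => w2 p z hz hU.1) ?_ w1 ?_
  · rwa [Nat.card_coe_set_eq] at key
  · intro p p' hne z hz hz'
    by_cases hU : z ∈ D.U
    · rcases w2 p z hz hU with e | e
      · rw [e]
        exact hUL p p.2
      · rw [e]
        exact (h p p.2).2.2.2.2.1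
    · exact absurd (zn_sep hD (HD.x_VN _) (HD.x_VN _) (w3 p z hz hU) (w3 p' z hz' hU))
        (hsep p p.2 p' p'.2 fun e => hne (Subtype.ext e))
  · intro p p' hne
    have hne' : (p : P) ≠ p' := fun e => hne (Subtype.ext e)
    refine d1_unit hD hk1 (hlam p p.2) hne' ?_ (h p p.2).2.2.2.2.2 (h p' p'.2).2.2.1
      (h p' p'.2).2.2.2.1 (hw p' p'.2)
    intro hn
    exact hsep p p.2 p' p'.2 hne' (hn.mono (by omega))

/-- T2 -/
private theorem cnt2 (hD : D.Ok) (hH : D.Dr H e0 X) (S : Set P)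
    (hsep : ∀ p ∈ S, ∀ p' ∈ S, p ≠ p' → ¬ Nr D.N (2 * 2 ^ (j + 8)) (D.x p) (D.x p'))
    (h0 : ∀ p ∈ S, ∀ q, Nr D.N (2 ^ (j + 8)) (D.x p) (D.x q) → e0 ∉ (D.w q).edges)
    (hw : ∀ p ∈ S, (D.w p).length ≤ 2 ^ (j + 1))
    (hUL : ∀ p ∈ S, D.hub p ∈ UL D k1 j)
    (h : ∀ p ∈ S, ∃ q q', D.hub q ≠ D.hub p ∧ D.hub q' ≠ D.hub p ∧ D.hub q ≠ D.hub q' ∧
      Pn D (2 ^ (j + 8)) (D.x p) q ∧ Pn D (2 ^ (j + 8)) (D.x p) q' ∧ D.hub q ∈ UL D k1 j ∧
      D.hub q' ∈ UL D k1 j) :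
    S.ncard ≤ (6 * 2 ^ (j + 8) + 3) * (132 * (UL D k1 j).ncard) := by
  have hT : 2 ^ (j + 1) ≤ 2 ^ (j + 8) := Nat.pow_le_pow_right (by norm_num) (by omega)
  have hW : ∀ p : S, ∃ T : Tri H (UL D k1 j), (∀ i, (T.W i).length ≤ 2 ^ (j + 8)) ∧
      ∀ z ∈ T.vs, z ∈ Zn D (2 ^ (j + 8)) (D.x p) := by
    rintro ⟨p, hp⟩
    have hself : Pn D (2 ^ (j + 8)) (D.x p) p := pn_self p ((hw p hp).trans hT)
    obtain ⟨q, q', a1, a2, a3, a4, a5, a6, a7⟩ := h p hp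
    have hleg : ∀ i : Fin 3, ∃ s : P, s = ![p, q, q'] i ∧ D.hub s ∈ UL D k1 j ∧
        ∃ W : H.Walk (D.x p) (D.hub s), W.length ≤ 2 ^ (j + 8) ∧
          (∀ z ∈ W.support, z ∈ D.U → z = D.hub s) ∧
          ∀ z ∈ W.support, z ∉ D.U → z ∈ Zn D (2 ^ (j + 8)) (D.x p) := by
      intro i
      match i with
      | 0 => exact ⟨p, rfl, hUL p hp, leg hD hH (HD.x_VN p) hself (e0_free h0 hp hself)⟩
      | 1 => exact ⟨q, rfl, a6, leg hD hH (HD.x_VN p) a4 (e0_free h0 hp a4)⟩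
      | 2 => exact ⟨q', rfl, a7, leg hD hH (HD.x_VN p) a5 (e0_free h0 hp a5)⟩
    choose s s1 s2 W w1 w2 w3 using hleg
    refine ⟨⟨D.x p, fun i => D.hub (s i), W, fun hc => hD.x_U p hc.1, s2, ?_,
      fun i z hz hU => w2 i z hz hU.1⟩, w1, ?_⟩
    · intro i i' hii
      simp only [s1] at hii
      fin_cases i <;> fin_cases i' <;> simp_all
    · rintro z ⟨hz, i, hi⟩
      refine w3 i z hi fun hU => hz ?_
      rw [w2 i z hi hU]
      exact s2 i
  choose T t1 t2 using hW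
  have key := disj_tri H X hH.sym hH.one hH.pl (UL D k1 j) (I := S) T (2 ^ (j + 8)) t1 ?_
  · rwa [Nat.card_coe_set_eq] at key
  · intro p p' hne z hz hz'
    exact absurd (zn_sep hD (HD.x_VN _) (HD.x_VN _) (t2 p z hz) (t2 p' z hz'))
        (hsep p p.2 p' p'.2 fun e => hne (Subtype.ext e))

end

/-- T3 -/
private theorem cnt3 : ∃ A : ℕ, ∀ (V P Q : Type) [Finite V] [Finite P] [Finite Q] (D : HD V P Q)
    (H : SimpleGraph V) (e0 : Sym2 V) (X : Sym2 V → Sym2 V → Prop) (k k1 k2 j : ℕ), D.Ok →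
    D.Dr H e0 X → BadH D k k2 → (∀ p, min (e1 D p) (Rb D k2 (D.x p)) < cap D) → 10 ^ 6 * (k1 + 1) ≤ k → ∀ (S : Set P),
    (∀ p ∈ S, ∀ p' ∈ S, p ≠ p' → ¬ Nr D.N (2 * 2 ^ (j + 8)) (D.x p) (D.x p')) →
    (∀ p ∈ S, ∀ q, Nr D.N (2 ^ (j + 8)) (D.x p) (D.x q) → e0 ∉ (D.w q).edges) →
    (∀ p ∈ S, 2 ^ j ≤ sg D k2 p) → (∀ p ∈ S, (D.w p).length ≤ 2 ^ (j + 1)) →
    (∀ p ∈ S, D.hub p ∈ UL D k1 j) →
    (∀ p ∈ S, ∃ q, D.hub q ≠ D.hub p ∧ Pn D (2 ^ (j + 8)) (D.x p) q ∧ D.hub q ∉ UL D k1 j) →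
    S.ncard ≤ A * ((2 * 2 ^ (j + 8) + 1) * (UL D k1 j).ncard + D.U.ncard) := by
  obtain ⟨A, hA⟩ := TSa
  refine ⟨A, fun V P Q _ _ _ D H e0 X k k1 k2 j hD hH hB hF hk1 S hsep h0 hsg hw hUL h => ?_⟩
  have hT : 2 ^ (j + 1) ≤ 2 ^ (j + 8) := Nat.pow_le_pow_right (by norm_num) (by omega)
  have hW : ∀ p : S, ∃ q, D.hub q ≠ D.hub p ∧ Pn D (2 ^ (j + 8)) (D.x p) q ∧
      D.hub q ∉ UL D k1 j ∧ ∃ W : H.Walk (D.hub q) (D.hub p), W.length ≤ 2 * 2 ^ (j + 8) ∧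
      (∀ z ∈ W.support, z ∈ D.U → z = D.hub q ∨ z = D.hub p) ∧
      ∀ z ∈ W.support, z ∉ D.U → z ∈ Zn D (2 ^ (j + 8)) (D.x p) := by
    rintro ⟨p, hp⟩
    have hself : Pn D (2 ^ (j + 8)) (D.x p) p := pn_self p ((hw p hp).trans hT)
    obtain ⟨q, a1, a2, a3⟩ := h p hp
    exact ⟨q, a1, a2, a3, link hD hH (HD.x_VN p) a2 (e0_free h0 hp a2) hself
      (e0_free h0 hp hself)⟩
  choose q q1 q2 q3 W w1 w2 w3 using hW
  have key := hA H X hH.sym hH.one hH.pl (UL D k1 j) (I := S) (fun p => D.hub (q p))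
    (fun p => D.hub p) W (2 * 2 ^ (j + 8)) q3 (fun p => hUL p p.2) ?_ ?_ w1 ?_
  · rw [Nat.card_coe_set_eq] at key
    refine key.trans (Nat.mul_le_mul_left _ (Nat.add_le_add_left ?_ _))
    refine Set.ncard_le_ncard ?_ (Set.toFinite _)
    rintro _ ⟨p, rfl⟩
    exact hD.hub_U _
  · intro p z hz hU
    rcases w2 p z hz hU.1 with e | e
    · exact absurd (e ▸ hU) (q3 p)
    · exact e
  · intro p p' hne z hz hz'
    by_cases hU : z ∈ D.U
    · rcases w2 p z hz hU with e | e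
      · rcases w2 p' z hz' hU with e' | e'
        · exact Or.inr ⟨e, e'⟩
        · left
          rw [e']
          exact hUL p' p'.2
      · left
        rw [e]
        exact hUL p p.2
    · exact absurd (zn_sep hD (HD.x_VN _) (HD.x_VN _) (w3 p z hz hU) (w3 p' z hz' hU))
        (hsep p p.2 p' p'.2 fun e => hne (Subtype.ext e))
  · intro p p' hne he
    have hne' : (p : P) ≠ p' := fun e => hne (Subtype.ext e)
    exact d1_small hD hB hF hk1 (hsg p p.2) hne' (q2 p) (q2 p') (q1 p) (q1 p') he (q3 p)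
      (hw p' p'.2)

/-- the final inequality -/
private theorem arith (A0 A1 x κ u U n m B B0 C c0 c1 c2 c3 c4 : ℕ) (hx : 1 ≤ x) (hκ : 1 ≤ κ)
    (hB : B ≤ B0 + U) (hB0 : B0 ≤ A0 * (2048 * x + 1) * (κ + κ) * u + 2 * C)
    (hC : C ≤ c0 + c1 + c2 + c3 + c4) (h0 : c0 ≤ U) (h1 : m * c1 ≤ n)
    (h2 : c2 ≤ (6 * (256 * x) + 3) * (132 * u))
    (h3 : c3 ≤ A1 * ((2 * (256 * x) + 1) * u + U))
    (h4 : c4 ≤ 4 * (2 * (256 * x) + 1) * u) :
    m * B ≤ (10 ^ 6 + 5000 * A0 + 2000 * A1) * (m * (κ * x * u + U) + n) := by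
  obtain ⟨y, hy⟩ : ∃ y, y = κ * x * u := ⟨_, rfl⟩
  rw [← hy]
  have e1 : x * u ≤ y := by
    rw [hy]
    exact Nat.mul_le_mul_right _ (Nat.le_mul_of_pos_left _ hκ)
  have e2 : u ≤ x * u := Nat.le_mul_of_pos_left _ hx
  have e3 : κ * u ≤ y := by
    rw [hy, Nat.mul_right_comm]
    exact Nat.le_mul_of_pos_right _ hx
  have f0 : A0 * (2048 * x + 1) * (κ + κ) * u ≤ A0 * (4098 * y) := by
    calc A0 * (2048 * x + 1) * (κ + κ) * u = A0 * (4096 * (κ * x * u) + 2 * (κ * u)) := by ring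
      _ ≤ A0 * (4098 * y) := Nat.mul_le_mul_left _ (by rw [← hy]; omega)
  have f2 : c2 ≤ 300000 * y := by
    calc c2 ≤ (6 * (256 * x) + 3) * (132 * u) := h2
      _ = 202752 * (x * u) + 396 * u := by ring
      _ ≤ 300000 * y := by omega
  have f3 : c3 ≤ A1 * (513 * y + U) := by
    refine h3.trans (Nat.mul_le_mul_left _ (Nat.add_le_add_right ?_ _))
    calc (2 * (256 * x) + 1) * u = 512 * (x * u) + u := by ring
      _ ≤ 513 * y := by omega
  have f4 : c4 ≤ 2052 * y := by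
    calc c4 ≤ 4 * (2 * (256 * x) + 1) * u := h4
      _ = 2048 * (x * u) + 4 * u := by ring
      _ ≤ 2052 * y := by omega
  have g1 : B ≤ A0 * (4098 * y) + 2 * (U + c1 + 300000 * y + A1 * (513 * y + U) + 2052 * y) + U := by
    omega
  have g2 : A0 * (4098 * y) + 2 * (U + c1 + 300000 * y + A1 * (513 * y + U) + 2052 * y) + U ≤
      (10 ^ 6 + 5000 * A0 + 2000 * A1) * (y + U) + 2 * c1 := by
    have : A0 * (4098 * y) + 2 * (U + c1 + 300000 * y + A1 * (513 * y + U) + 2052 * y) + U =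
      (604104 + 4098 * A0 + 1026 * A1) * y + (3 + 2 * A1) * U + 2 * c1 := by ring
    rw [this, Nat.mul_add]
    refine Nat.add_le_add_right (Nat.add_le_add (Nat.mul_le_mul_right _ ?_)
      (Nat.mul_le_mul_right _ ?_)) _
    · norm_num
      omega
    · norm_num
      omega
  calc m * B ≤ m * ((10 ^ 6 + 5000 * A0 + 2000 * A1) * (y + U) + 2 * c1) :=
        Nat.mul_le_mul_left _ (g1.trans g2)
    _ = (10 ^ 6 + 5000 * A0 + 2000 * A1) * (m * (y + U)) + 2 * (m * c1) := by ring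
    _ ≤ (10 ^ 6 + 5000 * A0 + 2000 * A1) * (m * (y + U)) +
        (10 ^ 6 + 5000 * A0 + 2000 * A1) * n :=
      Nat.add_le_add_left (Nat.mul_le_mul (by norm_num; omega) h1) _
    _ = _ := by ring

/-- **PH-B5 (CC).** Pins with large hubs, primary scale. -/
theorem CC : ∃ A : ℕ, ∀ (V P Q : Type) [Finite V] [Finite P] [Finite Q] (D : HD V P Q)
    (H : SimpleGraph V) (e0 : Sym2 V) (X : Sym2 V → Sym2 V → Prop) (k k1 k2 j δ : ℕ), D.Ok →
    D.Dr H e0 X → Long D δ → D.Kh * D.r ≤ δ → BadH D k k2 →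
    (∀ p, min (e1 D p) (Rb D k2 (D.x p)) < cap D) → 10 ^ 6 * (k1 + 1) ≤ k →
    (k2 + 1) * {p | Lg D k1 k2 p ∧ ¬ T5 D k k2 p ∧ Nat.log 2 (sg D k2 p) = j}.ncard ≤
      A * ((k2 + 1) * (2 ^ j * (UL D k1 j).ncard + D.U.ncard) + (Vb D).ncard) := by
  classical
  obtain ⟨A0, hCG⟩ := CG
  obtain ⟨A1, hC3⟩ := cnt3
  refine ⟨10 ^ 6 + 5000 * A0 + 2000 * A1, fun V P Q _ _ _ D H e0 X k k1 k2 j δ hD hH hLo hKδ hB hF hk1 => ?_⟩
  have hk' : 1 ≤ k := by
    have : 10 ^ 6 * 1 ≤ 10 ^ 6 * (k1 + 1) := Nat.mul_le_mul_left _ (by omega)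
    omega
  obtain ⟨B, hBd⟩ : ∃ B, B = {p | Lg D k1 k2 p ∧ ¬ T5 D k k2 p ∧ Nat.log 2 (sg D k2 p) = j} :=
    ⟨_, rfl⟩
  rw [← hBd]
  rcases B.eq_empty_or_nonempty with hem | ⟨p0, hp0⟩
  · rw [hem, Set.ncard_empty, Nat.mul_zero]
    exact Nat.zero_le _
  have hU1 : 1 ≤ D.U.ncard := (Set.ncard_pos (Set.toFinite _)).2 ⟨D.hub p0, hD.hub_U p0⟩
  have hKr : 1 ≤ D.Kh * D.r := by
    have h1 := hD.dg_le _ (hD.x_U p0)
    have h2 := hD.three p0
    omega
  -- facts about `B`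
  have hmem : ∀ p ∈ B, Lg D k1 k2 p ∧ ¬ T5 D k k2 p ∧ Nat.log 2 (sg D k2 p) = j := by
    intro p hp
    rw [hBd] at hp
    exact hp
  have hlog : ∀ p ∈ B, 2 ^ j ≤ sg D k2 p ∧ sg D k2 p < 2 ^ (j + 1) := by
    intro p hp
    obtain ⟨-, -, h3⟩ := hmem p hp
    have h4 := (sg_le hD hF p).1
    rw [← h3]
    exact ⟨Nat.pow_log_le_self 2 (by omega), Nat.lt_pow_succ_log_self (by norm_num) _⟩
  have hw : ∀ p ∈ B, (D.w p).length ≤ 2 ^ (j + 1) := by
    intro p hp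
    have h1 : (D.w p).length ≤ sg D k2 p := le_max_left _ _
    have h2 := (hlog p hp).2
    omega
  have hUL : ∀ p ∈ B, D.hub p ∈ UL D k1 j := by
    intro p hp
    exact ⟨hD.hub_U p, lt_of_le_of_lt (Nat.mul_le_mul_left _ (hlog p hp).1) (hmem p hp).1⟩
  have hlam : ∀ p ∈ B, 2 ^ j ≤ lam D p := fun p hp =>
    (hlog p hp).1.trans (sg_le hD hF p).2.2.2
  -- powers
  have hpos : 0 < 2 ^ j := by positivity
  have p1 : 2 ^ (j + 1) = 2 * 2 ^ j := by
    rw [pow_add]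
    norm_num
    ring
  have p8 : 2 ^ (j + 8) = 256 * 2 ^ j := by
    rw [pow_add]
    norm_num
    ring
  have p11 : 2 ^ (j + 11) = 2048 * 2 ^ j := by
    rw [pow_add]
    norm_num
    ring
  -- the pin with `e0`
  obtain ⟨B0, hB0d⟩ : ∃ B0 : Set P, B0 = {p | p ∈ B ∧ e0 ∉ (D.w p).edges} := ⟨_, rfl⟩
  have hB0 : B.ncard ≤ B0.ncard + D.U.ncard := by
    have h1 : B ⊆ B0 ∪ {p | e0 ∈ (D.w p).edges} := by
      intro p hp
      by_cases h : e0 ∈ (D.w p).edges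
      · exact Or.inr h
      · left
        rw [hB0d]
        exact ⟨hp, h⟩
    have h2 : {p | e0 ∈ (D.w p).edges}.ncard ≤ 1 := by
      rw [Set.ncard_le_one (Set.toFinite _)]
      exact fun p hp q hq => pin_uniq hD hp hq
    have h3 := Set.ncard_le_ncard h1 (Set.toFinite _)
    have h4 := Set.ncard_union_le B0 {p | e0 ∈ (D.w p).edges}
    omega
  have hBB : ∀ p ∈ B0, p ∈ B ∧ e0 ∉ (D.w p).edges := by
    intro p hp
    rw [hB0d] at hp
    exact hp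
  -- centres
  obtain ⟨C, hCB, hsep, hcov⟩ := exists_sep D B0 (2 ^ (j + 11))
  have hδR : δ ≤ 2 ^ (j + 11) := by
    have a1 := hw p0 hp0
    have a2 := hLo.w p0
    omega
  have hcells : B0.ncard ≤ A0 * (2048 * 2 ^ j + 1) * (1 + 1) *
      (UL D k1 j).ncard + 2 * C.ncard := by
    rw [← p11]
    refine hCG V P Q D H e0 X δ hD hH hLo hKδ (UL D k1 j) (2 ^ (j + 11)) 0 1 B0 C id
      (fun a ha => ha.1) hCB (Nat.zero_le _) hδR hcov ?_ ?_ ?_ ?_ ?_
    · intro p hp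
      obtain ⟨a1, a2⟩ := hBB p hp
      have a3 := hw p a1
      exact ⟨hUL p a1, hUL p a1, a2, a2, by omega, by show (D.w p).length ≤ _; omega,
        Nr.refl _ _ _⟩
    · intro v
      by_cases hv : v ∈ D.U
      · have : {p | p ∈ B0 ∧ Nr D.N 0 v (D.x p)} = ∅ := by
          ext p
          constructor
          · rintro ⟨-, h⟩
            exact absurd ((Nr.eq h) ▸ hv) (hD.x_U p)
          · exact fun h => absurd h (Set.notMem_empty _)
        rw [this, Set.ncard_empty]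
        exact Nat.zero_le _
      · refine le_trans ?_ ((hD.dg_le v hv).trans (Nat.le_add_right _ _))
        refine le_trans (Set.ncard_le_ncard (t := {p | D.x p = v}) ?_ (Set.toFinite _)) ?_
        · rintro p ⟨-, h⟩
          exact (Nr.eq h).symm
        · show D.pn v ≤ deg D.N v + D.pn v
          exact Nat.le_add_left _ _
    · intro v hv
      have : {p | p ∈ B0 ∧ Nr D.N 0 v (D.x p)} = ∅ := by
        ext p
        constructor
        · rintro ⟨-, h⟩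
          have h1 := hD.three p
          rw [← Nr.eq h] at h1
          omega
        · exact fun h => absurd h (Set.notMem_empty _)
      rw [this, Set.ncard_empty]
      exact Nat.zero_le _
    · intro s
      rw [Set.ncard_le_one (Set.toFinite _)]
      rintro a ⟨-, ha⟩ b ⟨-, hb⟩
      exact ha.trans hb.symm
    · intro p hp p' hp' p'' hp'' n1 n2 n3 r1 r2 r3
      have hdiff : ∀ a ∈ B0, ∀ b ∈ B0, a ≠ b → Nr D.N (2 * 2 ^ (j + 11)) (D.x a) (D.x b) →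
          D.hub a ≠ D.hub b := by
        intro a ha b hb hab hr
        refine d1_hub hD hB hF hk1 (hlog a (hBB a ha).1).1 hab (Rch.of_nr hD a (hD.x_U a) hr) ?_
        have a3 := hw b (hBB b hb).1
        have : 500000 * (k1 + 1) * 2 ^ j = 500000 * (k1 * 2 ^ j) + 500000 * 2 ^ j := by ring
        omega
      have m1 := hdiff p hp p' hp' n1 r1
      have m2 := hdiff p hp p'' hp'' n2 r2
      have m3 := hdiff p' hp' p'' hp'' n3 r3
      have h3 : ({D.hub p, D.hub p', D.hub p''} : Set V).ncard = 3 := by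
        rw [Set.ncard_eq_three]
        exact ⟨_, _, _, m1, m2, m3, rfl⟩
      rw [← h3]
      refine Set.ncard_le_ncard ?_ (Set.toFinite _)
      rintro z (rfl | rfl | rfl) <;> simp
  -- classes
  have hsep' : ∀ p ∈ C, ∀ p' ∈ C, p ≠ p' → ¬ Nr D.N (2 * 2 ^ (j + 8)) (D.x p) (D.x p') :=
    fun p hp p' hp' hne h => hsep p hp p' hp' hne (h.mono (by omega))
  have hCB' : ∀ p ∈ C, p ∈ B := fun p hp => (hBB p (hCB hp)).1
  obtain ⟨C0, hC0⟩ : ∃ C0 : Set P, C0 = {p | p ∈ C ∧ ∃ q, e0 ∈ (D.w q).edges ∧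
    Nr D.N (2 ^ (j + 8)) (D.x p) (D.x q)} := ⟨_, rfl⟩
  obtain ⟨S1, hS1⟩ : ∃ S : Set P, S = {p | p ∈ C ∧ k2 < bv D (D.ball (2 ^ (j + 8)) (D.x p))} :=
    ⟨_, rfl⟩
  obtain ⟨S2, hS2⟩ : ∃ S : Set P, S = {p | (p ∈ C ∧ p ∉ C0) ∧ ∃ q q', D.hub q ≠ D.hub p ∧
    D.hub q' ≠ D.hub p ∧ D.hub q ≠ D.hub q' ∧
    Pn D (2 ^ (j + 8)) (D.x p) q ∧ Pn D (2 ^ (j + 8)) (D.x p) q' ∧ D.hub q ∈ UL D k1 j ∧
    D.hub q' ∈ UL D k1 j} := ⟨_, rfl⟩
  obtain ⟨S3, hS3⟩ : ∃ S : Set P, S = {p | (p ∈ C ∧ p ∉ C0) ∧ ∃ q, D.hub q ≠ D.hub p ∧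
    Pn D (2 ^ (j + 8)) (D.x p) q ∧ D.hub q ∉ UL D k1 j} := ⟨_, rfl⟩
  obtain ⟨S4, hS4⟩ : ∃ S : Set P, S = {p | (p ∈ C ∧ p ∉ C0) ∧ D.hub (pt1 D p) ≠ D.hub p ∧
    Pn D (2 ^ (j + 8)) (D.x p) (pt1 D p) ∧
    Pn D (e1 D p) (D.x p) (pt1 D p) ∧ e1 D p ≤ 2 ^ (j + 1) ∧
    D.hub (pt1 D p) ∈ UL D k1 j ∧ ¬ NU D k p} := ⟨_, rfl⟩
  have hfree : ∀ p, p ∈ C → p ∉ C0 → ∀ q, Nr D.N (2 ^ (j + 8)) (D.x p) (D.x q) →
      e0 ∉ (D.w q).edges := by
    intro p hp hn q hq he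
    apply hn
    rw [hC0]
    exact ⟨hp, q, he, hq⟩
  have hun : C ⊆ (((C0 ∪ S1) ∪ S2) ∪ S3) ∪ S4 := by
    intro p hp
    by_cases h0 : p ∈ C0
    · exact Or.inl (Or.inl (Or.inl (Or.inl h0)))
    · rcases cls (k1 := k1) hD hB hF hk' (hmem p (hCB' p hp)).2.1 (hlog p (hCB' p hp)).2 with
        h | h | h | h
      · refine Or.inl (Or.inl (Or.inl (Or.inr ?_)))
        rw [hS1]
        exact ⟨hp, h⟩
      · refine Or.inl (Or.inr ?_)
        rw [hS3]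
        exact ⟨⟨hp, h0⟩, h⟩
      · refine Or.inl (Or.inl (Or.inr ?_))
        rw [hS2]
        exact ⟨⟨hp, h0⟩, h⟩
      · refine Or.inr ?_
        rw [hS4]
        exact ⟨⟨hp, h0⟩, h⟩
  have hcard : C.ncard ≤ C0.ncard + S1.ncard + S2.ncard + S3.ncard + S4.ncard := by
    have a1 := Set.ncard_le_ncard hun (Set.toFinite _)
    have a2 := Set.ncard_union_le (((C0 ∪ S1) ∪ S2) ∪ S3) S4
    have a3 := Set.ncard_union_le ((C0 ∪ S1) ∪ S2) S3
    have a4 := Set.ncard_union_le (C0 ∪ S1) S2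
    have a5 := Set.ncard_union_le C0 S1
    omega
  have b0 : C0.ncard ≤ D.U.ncard := by
    refine le_trans ?_ hU1
    rw [Set.ncard_le_one (Set.toFinite _), hC0]
    rintro p ⟨hp, q, e, n⟩ p' ⟨hp', q', e', n'⟩
    by_contra hne
    have := pin_uniq hD e e'
    subst this
    refine hsep' p hp p' hp' hne ?_
    rw [two_mul]
    exact n.trans n'.symm
  have b1 : (k2 + 1) * S1.ncard ≤ (Vb D).ncard := by
    refine big_few D (2 ^ (j + 8)) S1 ?_ ?_
    · rw [hS1]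
      exact fun p hp p' hp' => hsep' p hp.1 p' hp'.1
    · rw [hS1]
      exact fun p hp => hp.2
  have b2 : S2.ncard ≤ (6 * 2 ^ (j + 8) + 3) * (132 * (UL D k1 j).ncard) := by
    subst hS2
    exact cnt2 hD hH _ (fun p hp p' hp' => hsep' p hp.1.1 p' hp'.1.1)
      (fun p hp => hfree p hp.1.1 hp.1.2) (fun p hp => hw p (hCB' p hp.1.1))
      (fun p hp => hUL p (hCB' p hp.1.1)) (fun p hp => hp.2)
  have b3 : S3.ncard ≤ A1 * ((2 * 2 ^ (j + 8) + 1) * (UL D k1 j).ncard + D.U.ncard) := by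
    subst hS3
    exact hC3 V P Q D H e0 X k k1 k2 j hD hH hB hF hk1 _
      (fun p hp p' hp' => hsep' p hp.1.1 p' hp'.1.1)
      (fun p hp => hfree p hp.1.1 hp.1.2) (fun p hp => (hlog p (hCB' p hp.1.1)).1)
      (fun p hp => hw p (hCB' p hp.1.1)) (fun p hp => hUL p (hCB' p hp.1.1)) (fun p hp => hp.2)
  have b4 : S4.ncard ≤ 4 * (2 * 2 ^ (j + 8) + 1) * (UL D k1 j).ncard := by
    subst hS4
    exact cnt4 hD hH hk1 _ (fun p hp p' hp' => hsep' p hp.1.1 p' hp'.1.1)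
      (fun p hp => hfree p hp.1.1 hp.1.2) (fun p hp => hlam p (hCB' p hp.1.1))
      (fun p hp => hw p (hCB' p hp.1.1)) (fun p hp => hUL p (hCB' p hp.1.1)) (fun p hp => hp.2)
  rw [p8] at b2 b3 b4
  have hfin := arith A0 A1 (2 ^ j) 1 (UL D k1 j).ncard D.U.ncard (Vb D).ncard (k2 + 1)
    B.ncard B0.ncard C.ncard C0.ncard S1.ncard S2.ncard S3.ncard S4.ncard hpos le_rfl hB0 hcells
    hcard b0 b1 b2 b3 b4
  rwa [Nat.one_mul] at hfin

end Pool.Agent.Helper63.PH
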