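import Pool.Agent.Helper63.PH.SG
import Pool.Agent.Helper63.PH.Defs
import Pool.Agent.Helper23.PL.SpecB

/-!
# PH-C5 (MP_0dbcb7_co): threads between two hubs

Paper proof (model: the proof of PL-11 (HQ); only the third case is new). `S := {q | log |wq q| = j}`, lengths in `[2 ^ j, 2 ^ (j + 1))`. Drop the thread with
`e0` (`1 ≤ |U|`). Two threads of `S` with the same ends: `wq q'` without its ends is a walk from a neighbour of `ha q` to a neighbour of
`hb q` of cost `≤ 2 ^ (j + 1) ≤ k |wq q|` (no hub on it: `wq_U`; it avoids `Fq q`: `wq_disj`), contradiction to `hB.q1` (for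
threads of length 1 or 2 use `GOk` as in PL-11). (i) both ends in `UL j`: `DP`. (ii) exactly one end in `UL j`: `TSa` (`s` = the other hub; `b` different for
the same `s`). (iii) both ends have degree `≤ k1 2 ^ j`: `SG2` with `l = 2 ^ (j + 1)`, `U = D.U`, `T q n u v := u = v ∨ Rch D (Fq D q) (n * ((2 * k1 + 2) * 2 ^ j)) u v`
(`Tstep`: the thread `q'`), `Tno`: from a walk from `ha q` to `hb q` which avoids `Fq q` of cost `≤ (8 ρ + 4) (2 k1 + 2) 2 ^ j` cut the first edge after the last visit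
of `ha q` and the last edge before the first visit of `hb q` (as in `Rch.byp`): `hB.q1`.
-/

set_option autoImplicit false

open Set
open Pool.Agent.Helper83.OP Pool.Agent.Helper93.HH Pool.Agent.Helper95.HH Pool.Agent.Helper23.PL

namespace Pool.Agent.Helper63.PH

section

variable {V P Q : Type} {D : HD V P Q} {k k1 k2 : ℕ}

/-- a thread between two hubs has no edge between two hubs -/
private theorem not_ends (hD : D.Ok) (hG : GOk D) {q : Q} {a b : V}
    (h : s(a, b) ∈ (D.wq q).edges) (ha : a ∈ D.U) (hb : b ∈ D.U) : False := by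
  have key : ∀ z, z ∈ (D.wq q).support → z ∈ D.U → z = D.ha q ∨ z = D.hb q := by
    intro z hz hU
    by_contra hcon
    rw [not_or] at hcon
    exact hD.wq_U q z hz hcon.1 hcon.2 hU
  have h1 := key a (SimpleGraph.Walk.fst_mem_support_of_mem_edges _ h) ha
  have h2 := key b (SimpleGraph.Walk.snd_mem_support_of_mem_edges _ h) hb
  have hab : a ≠ b := (SimpleGraph.Walk.adj_of_mem_edges _ h).ne
  have hlen : 2 ≤ (D.wq q).length := hD.r_pos.trans (hG.wq_ge q)
  have h3 : s(D.ha q, D.hb q) ∈ (D.wq q).edges := by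
    rcases h1 with rfl | rfl
    · rcases h2 with rfl | rfl
      · exact absurd rfl hab
      · exact h
    · rcases h2 with rfl | rfl
      · rwa [Sym2.eq_swap] at h
      · exact absurd rfl hab
  have := (hD.wq_path q).length_eq_one_of_mem_edges h3
  omega

/-- an edge is on at most one thread between two hubs -/
private theorem q_uniq (hD : D.Ok) (hG : GOk D) {q q' : Q} {f : Sym2 V} (h : f ∈ (D.wq q).edges)
    (h' : f ∈ (D.wq q').edges) : q = q' := by
  induction f using Sym2.ind with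
  | _ a b =>
    by_cases ha : a ∈ D.U
    · by_cases hb : b ∈ D.U
      · exact (not_ends hD hG h ha hb).elim
      · exact hD.wq_disj q q' b (SimpleGraph.Walk.snd_mem_support_of_mem_edges _ h)
          (SimpleGraph.Walk.snd_mem_support_of_mem_edges _ h') hb
    · exact hD.wq_disj q q' a (SimpleGraph.Walk.fst_mem_support_of_mem_edges _ h)
        (SimpleGraph.Walk.fst_mem_support_of_mem_edges _ h') ha

open Classical in
private theorem cw_noU {u v : V} {W : D.G.Walk u v} (h : ∀ z ∈ W.support, z ∉ D.U) :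
    cw D W = W.length := by
  unfold cw
  have : (W.support.map fun z => if z ∈ D.U then deg D.G z else 0).sum = 0 := by
    rw [List.sum_eq_zero_iff]
    intro n hn
    rw [List.mem_map] at hn
    obtain ⟨z, hz, rfl⟩ := hn
    exact if_neg (h z hz)
  rw [this]
  rfl

/-- the cost of a path with hubs only at its ends -/
private theorem cw_path {u v : V} {W : D.G.Walk u v} (hW : W.IsPath)
    (h : ∀ z ∈ W.support, z ∈ D.U → z = u ∨ z = v) :
    cw D W ≤ W.length + (deg D.G u + deg D.G v) := by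
  classical
  unfold cw
  refine Nat.add_le_add_left ?_ _
  rw [← List.sum_toFinset _ hW.support_nodup]
  calc ∑ z ∈ W.support.toFinset, (if z ∈ D.U then deg D.G z else 0)
      ≤ ∑ z ∈ W.support.toFinset, ((if z = u then deg D.G u else 0) +
          (if z = v then deg D.G v else 0)) := by
        refine Finset.sum_le_sum fun z hz => ?_
        rw [List.mem_toFinset] at hz
        by_cases hU : z ∈ D.U
        · rw [if_pos hU]
          rcases h z hz hU with rfl | rfl
          · rw [if_pos rfl]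
            exact Nat.le_add_right _ _
          · rw [if_pos rfl]
            exact Nat.le_add_left _ _
        · rw [if_neg hU]
          exact Nat.zero_le _
    _ ≤ deg D.G u + deg D.G v := by
        rw [Finset.sum_add_distrib, Finset.sum_ite_eq', Finset.sum_ite_eq']
        refine Nat.add_le_add ?_ ?_
        · split_ifs
          · exact le_rfl
          · exact Nat.zero_le _
        · split_ifs
          · exact le_rfl
          · exact Nat.zero_le _

/-- the inner part of a path between two hubs -/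
private theorem inner_walk {F : Set (Sym2 V)} {a b : V} (W : D.G.Walk a b) (hW : W.IsPath)
    (hl : 2 ≤ W.length) (hU : ∀ z ∈ W.support, z ≠ a → z ≠ b → z ∉ D.U)
    (hF : ∀ f ∈ W.edges, f ∉ F) :
    ∃ y z, Nb D F a y ∧ Nb D F b z ∧ Rch D F W.length y z := by
  cases W with
  | nil => simp at hl
  | cons h W1 =>
    rename_i y
    rw [SimpleGraph.Walk.length_cons] at hl
    have h1 : ¬ W1.Nil := by
      intro h0
      have := h0.length_eq_zero
      omega
    have h2 := (SimpleGraph.Walk.cons_isPath_iff h W1).1 hW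
    have h3 := SimpleGraph.Walk.support_dropLast_concat h1
    have h4 : ∀ z ∈ W1.dropLast.support, z ∈ W1.support ∧ z ≠ b := by
      intro z hz
      have h5 := h2.1.support_nodup
      rw [← h3, List.nodup_append] at h5
      refine ⟨?_, h5.2.2 z hz _ (List.mem_singleton_self _)⟩
      rw [← h3]
      exact List.mem_append_left _ hz
    refine ⟨y, W1.penultimate, ⟨h, hF _ (by simp)⟩,
      ⟨(SimpleGraph.Walk.adj_penultimate h1).symm, ?_⟩, W1.dropLast, ?_, ?_⟩
    · have h6 : s(W1.penultimate, b) ∈ W1.edges :=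
        SimpleGraph.Walk.mk_penultimate_end_eq_getLast_edges h1 ▸ List.getLast_mem _
      rw [Sym2.eq_swap] at h6
      refine hF _ ?_
      rw [SimpleGraph.Walk.edges_cons]
      exact List.mem_cons_of_mem _ h6
    · intro f hf
      refine hF f ?_
      rw [SimpleGraph.Walk.edges_cons]
      rw [SimpleGraph.Walk.edges_dropLast] at hf
      exact List.mem_cons_of_mem _ (List.mem_of_mem_dropLast hf)
    · rw [cw_noU, SimpleGraph.Walk.length_cons]
      · have := SimpleGraph.Walk.length_dropLast_add_one h1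
        omega
      · intro z hz
        refine hU z ?_ ?_ (h4 z hz).2
        · rw [SimpleGraph.Walk.support_cons]
          exact List.mem_cons_of_mem _ (h4 z hz).1
        · rintro rfl
          exact h2.2 (h4 _ hz).1

/-- two threads with the same hubs -/
private theorem no_pair [Finite V] [Finite P] [Finite Q] (hD : D.Ok) (hG : GOk D) (hB : BadH D k k2) {q q' : Q} (hne : q ≠ q')
    (hl : (D.wq q').length ≤ k * (D.wq q).length) : s(D.ha q, D.hb q) ≠ s(D.ha q', D.hb q') := by
  intro he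
  obtain ⟨y, z, h1, h2, h3⟩ := inner_walk (F := Fq D q) (D.wq q') (hD.wq_path q')
    (hD.r_pos.trans (hG.wq_ge q')) (hD.wq_U q')
    (fun f hf hf' => hne (q_uniq hD hG hf' hf))
  rw [Sym2.eq_iff] at he
  rcases he with ⟨e1, e2⟩ | ⟨e1, e2⟩
  · rw [← e1] at h1
    rw [← e2] at h2
    exact hB.q1 q y z h1 h2 (Rch.mono h3 subset_rfl hl)
  · rw [← e2] at h1
    rw [← e1] at h2
    exact hB.q1 q z y h2 h1 (Rch.mono (Rch.symm h3) subset_rfl hl)

/-- no cheap bypass of a thread between two hubs -/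
private theorem no_rch [Finite V] [Finite P] [Finite Q] (hD : D.Ok) (hB : BadH D k k2) (q : Q) {c : ℕ}
    (hc : c ≤ k * (D.wq q).length) : ¬ Rch D (Fq D q) c (D.ha q) (D.hb q) := by
  intro h
  obtain ⟨z, hz, h1⟩ := Rch.byp h (hD.q_ne q)
  by_cases hza : z = D.ha q
  · subst hza
    refine hB.q1 q (D.hb q) (D.ha q) ⟨hz.1.symm, ?_⟩ hz (Rch.mono (Rch.symm h) subset_rfl hc)
    rw [Sym2.eq_swap]
    exact hz.2
  · obtain ⟨y, hy, h2⟩ := Rch.byp (Rch.symm h1) hza
    exact hB.q1 q y z hy hz (Rch.mono (Rch.symm h2) subset_rfl hc)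

/-- a thread between hubs in the drawn graph -/
private theorem qwalk [Finite V] {H : SimpleGraph V} {e0 : Sym2 V}
    {X : Sym2 V → Sym2 V → Prop} (hH : D.Dr H e0 X) {q : Q} (he : e0 ∉ (D.wq q).edges) :
    ∃ W : H.Walk (D.ha q) (D.hb q), W.length = (D.wq q).length ∧
      W.support = (D.wq q).support := by
  have h1 : ∀ f ∈ (D.wq q).edges, f ∈ H.edgeSet := by
    intro f hf
    rw [hH.eq, SimpleGraph.edgeSet_deleteEdges]
    refine ⟨(D.wq q).edges_subset_edgeSet hf, ?_⟩
    rintro rfl
    exact he hf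
  exact ⟨(D.wq q).transfer H h1, by simp, by simp⟩

end

/-- the final inequality -/
private theorem arith (A x u U q T T0 T1 T2 T3 : ℕ) (hx : 1 ≤ x) (hU : 1 ≤ U) (hq : 2 ≤ q)
    (hT : T ≤ T0 + T1 + T2 + T3) (h0 : T0 ≤ 1) (h1 : T1 ≤ 4 * (2 * x + 1) * u)
    (h2 : T2 ≤ A * ((2 * x + 1) * u + U)) (h3 : T3 ≤ q * U) :
    T ≤ (4 * A + 15) * (x * u + q * U) := by
  have e0 : U ≤ q * U := Nat.le_mul_of_pos_left _ (by omega)
  have e1 : u ≤ x * u := Nat.le_mul_of_pos_left _ hx
  have e2 : (2 * x + 1) * u ≤ 3 * (x * u) := by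
    have : (2 * x + 1) * u = 2 * (x * u) + u := by ring
    omega
  have e3 : T1 ≤ 12 * (x * u) := by
    have : 4 * (2 * x + 1) * u = 4 * ((2 * x + 1) * u) := by ring
    omega
  have e4 : T2 ≤ A * (3 * (x * u + q * U)) := h2.trans (Nat.mul_le_mul_left _ (by omega))
  have e5 : A * (3 * (x * u + q * U)) = 3 * (A * (x * u + q * U)) := by ring
  have e6 : (4 * A + 15) * (x * u + q * U) =
      4 * (A * (x * u + q * U)) + 15 * (x * u) + 15 * (q * U) := by ring
  omega

/-- **PH-C5.** -/
theorem hq : ∃ A : ℕ, ∀ (V P Q : Type) [Finite V] [Finite P] [Finite Q] (D : HD V P Q)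
    (H : SimpleGraph V) (e0 : Sym2 V) (X : Sym2 V → Sym2 V → Prop) (k k1 k2 j ρ q : ℕ), D.Ok →
    GOk D → D.U.Nonempty → D.Dr H e0 X → BadH D k k2 → 10 ^ 6 * (k1 + 1) * (ρ + 1) ≤ k → 2 ≤ q →
    24 * (4 * ((4 * ρ + 1) * 2 ^ (j + 1)) + 1) < q ^ ρ →
    {t | Nat.log 2 (D.wq t).length = j}.ncard ≤
      A * (2 ^ j * (UL D k1 j).ncard + q * D.U.ncard) := by
  obtain ⟨A, hA⟩ := TSa
  refine ⟨4 * A + 15, fun V P Q _ _ _ D H e0 X k k1 k2 j ρ r hD hG hU hH hB hk hr hbig => ?_⟩
  set T : Set Q := {q | Nat.log 2 (D.wq q).length = j} with hTdef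
  have hlen : ∀ q ∈ T, 2 ^ j ≤ (D.wq q).length ∧ (D.wq q).length < 2 ^ (j + 1) := by
    intro q hq
    have hq' : Nat.log 2 (D.wq q).length = j := hq
    have h0 : (D.wq q).length ≠ 0 := by
      have := hD.r_pos.trans (hG.wq_ge q)
      omega
    rw [← hq']
    exact ⟨Nat.pow_log_le_self 2 h0, Nat.lt_pow_succ_log_self (by norm_num) _⟩
  have hk2 : 2 ≤ k := by
    have h1 : 10 ^ 6 ≤ 10 ^ 6 * ((k1 + 1) * (ρ + 1)) :=
      Nat.le_mul_of_pos_right _ (Nat.mul_pos (Nat.succ_pos _) (Nat.succ_pos _))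
    rw [← Nat.mul_assoc] at h1
    omega
  have hpair : ∀ q ∈ T, ∀ q' ∈ T, q ≠ q' → s(D.ha q, D.hb q) ≠ s(D.ha q', D.hb q') := by
    intro q hq q' hq' hne
    refine no_pair hD hG hB hne ?_
    have h1 := hlen q hq
    have h2 := hlen q' hq'
    calc (D.wq q').length ≤ 2 * 2 ^ j := by
          have : 2 ^ (j + 1) = 2 * 2 ^ j := by ring
          omega
      _ ≤ k * (D.wq q).length := Nat.mul_le_mul hk2 h1.1
  have hsup : ∀ q, ∀ z ∈ (D.wq q).support, z ∈ D.U → z = D.ha q ∨ z = D.hb q := by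
    intro q z hz hzU
    by_contra hcon
    rw [not_or] at hcon
    exact hD.wq_U q z hz hcon.1 hcon.2 hzU
  set UL' : Set V := UL D k1 j with hUL
  set T0 : Set Q := {q | q ∈ T ∧ e0 ∈ (D.wq q).edges} with hT0
  set T1 : Set Q := {q | q ∈ T ∧ e0 ∉ (D.wq q).edges ∧ D.ha q ∈ UL' ∧ D.hb q ∈ UL'} with hT1
  set T2 : Set Q := {q | q ∈ T ∧ e0 ∉ (D.wq q).edges ∧
    ((D.ha q ∈ UL' ∧ D.hb q ∉ UL') ∨ (D.ha q ∉ UL' ∧ D.hb q ∈ UL'))} with hT2
  set T3 : Set Q := {q | q ∈ T ∧ e0 ∉ (D.wq q).edges ∧ D.ha q ∉ UL' ∧ D.hb q ∉ UL'} with hT3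
  have hcov : T ⊆ ((T0 ∪ T1) ∪ T2) ∪ T3 := by
    intro q hq
    by_cases he : e0 ∈ (D.wq q).edges
    · exact Or.inl (Or.inl (Or.inl ⟨hq, he⟩))
    · by_cases ha : D.ha q ∈ UL'
      · by_cases hb : D.hb q ∈ UL'
        · exact Or.inl (Or.inl (Or.inr ⟨hq, he, ha, hb⟩))
        · exact Or.inl (Or.inr ⟨hq, he, Or.inl ⟨ha, hb⟩⟩)
      · by_cases hb : D.hb q ∈ UL'
        · exact Or.inl (Or.inr ⟨hq, he, Or.inr ⟨ha, hb⟩⟩)
        · exact Or.inr ⟨hq, he, ha, hb⟩
  have c : T.ncard ≤ T0.ncard + T1.ncard + T2.ncard + T3.ncard := by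
    refine (Set.ncard_le_ncard hcov (Set.toFinite _)).trans ?_
    refine (Set.ncard_union_le _ _).trans (Nat.add_le_add_right ?_ _)
    refine (Set.ncard_union_le _ _).trans (Nat.add_le_add_right ?_ _)
    exact Set.ncard_union_le _ _
  have c0 : T0.ncard ≤ 1 := by
    rw [Set.ncard_le_one (Set.toFinite _)]
    intro q hq q' hq'
    exact q_uniq hD hG hq.2 hq'.2
  have hx2 : 2 ^ (j + 1) = 2 * 2 ^ j := by ring
  have c1 : T1.ncard ≤ 4 * (2 * 2 ^ j + 1) * UL'.ncard := by
    have hW : ∀ q : T1, ∃ W : H.Walk (D.ha q) (D.hb q), W.length = (D.wq q).length ∧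
        W.support = (D.wq q).support := fun q => qwalk hH q.2.2.1
    choose W w1 w2 using hW
    have key := DP H X hH.sym hH.one hH.pl UL' (I := T1) (fun q => D.ha q) (fun q => D.hb q) W
      (2 * 2 ^ j) (fun q => q.2.2.2.1) (fun q => q.2.2.2.2) (fun q => hD.q_ne q) ?_ ?_ ?_ ?_
    · rwa [Nat.card_coe_set_eq] at key
    · intro q z hz hzU
      rw [w2] at hz
      exact hsup q z hz hzU.1
    · intro q q' hne z hz hz'
      rw [w2] at hz hz'
      by_cases hzU : z ∈ D.U
      · rcases hsup q z hz hzU with e | e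
        · rw [e]
          exact q.2.2.2.1
        · rw [e]
          exact q.2.2.2.2
      · exact absurd (Subtype.ext (hD.wq_disj q q' z hz hz' hzU)) hne
    · intro q
      rw [w1]
      have := (hlen q q.2.1).2
      omega
    · intro q q' hne
      exact hpair q q.2.1 q' q'.2.1 fun e => hne (Subtype.ext e)
  have c2 : T2.ncard ≤ A * ((2 * 2 ^ j + 1) * UL'.ncard + D.U.ncard) := by
    have hW : ∀ q : T2, ∃ s b, ∃ W : H.Walk s b, s ∉ UL' ∧ b ∈ UL' ∧ s ∈ D.U ∧
        s(s, b) = s(D.ha q, D.hb q) ∧ W.length ≤ 2 * 2 ^ j ∧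
        (∀ z ∈ W.support, z ∈ (D.wq q).support) ∧ (∀ z ∈ W.support, z ∈ D.U → z = s ∨ z = b) := by
      rintro ⟨q, hq, he, hab⟩
      obtain ⟨W, w1, w2⟩ := qwalk hH he
      have hl := (hlen q hq).2
      rcases hab with ⟨ha, hb⟩ | ⟨ha, hb⟩
      · refine ⟨D.hb q, D.ha q, W.reverse, hb, ha, hD.hb_U q, Sym2.eq_swap, ?_, ?_, ?_⟩
        · rw [SimpleGraph.Walk.length_reverse, w1]
          omega
        · intro z hz
          rw [SimpleGraph.Walk.support_reverse, List.mem_reverse, w2] at hz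
          exact hz
        · intro z hz hzU
          rw [SimpleGraph.Walk.support_reverse, List.mem_reverse, w2] at hz
          exact (hsup q z hz hzU).symm
      · refine ⟨D.ha q, D.hb q, W, ha, hb, hD.ha_U q, rfl, ?_, ?_, ?_⟩
        · rw [w1]
          omega
        · intro z hz
          rwa [w2] at hz
        · intro z hz hzU
          rw [w2] at hz
          exact hsup q z hz hzU
    choose s b W s1 b1 s2 e w1 w2 w3 using hW
    have key := hA H X hH.sym hH.one hH.pl UL' (I := T2) s b W (2 * 2 ^ j) s1 b1 ?_ ?_ w1 ?_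
    · rw [Nat.card_coe_set_eq] at key
      refine key.trans (Nat.mul_le_mul_left _ (Nat.add_le_add_left ?_ _))
      refine Set.ncard_le_ncard ?_ (Set.toFinite _)
      rintro _ ⟨q, rfl⟩
      exact s2 q
    · intro q z hz hzU
      rcases w3 q z hz hzU.1 with h | h
      · exact absurd (h ▸ hzU) (s1 q)
      · exact h
    · intro q q' hne z hz hz'
      by_cases hzU : z ∈ D.U
      · rcases w3 q z hz hzU with h | h
        · rcases w3 q' z hz' hzU with h' | h'
          · exact Or.inr ⟨h, h'⟩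
          · left
            rw [h']
            exact b1 q'
        · left
          rw [h]
          exact b1 q
      · exact absurd (Subtype.ext (hD.wq_disj q q' z (w2 q z hz) (w2 q' z hz') hzU)) hne
    · intro q q' hne hs hb
      refine hpair q q.2.1 q' q'.2.1 (fun e => hne (Subtype.ext e)) ?_
      rw [← e q, ← e q', hs, hb]
  have c3 : T3.ncard ≤ r * D.U.ncard := by
    have hdeg : ∀ a ∈ D.U, a ∉ UL' → deg D.G a ≤ k1 * 2 ^ j := by
      intro a ha hna
      by_contra hcon
      exact hna ⟨ha, by omega⟩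
    have hW : ∀ q : T3, ∃ W : H.Walk (D.ha q) (D.hb q), W.length = (D.wq q).length ∧
        W.support = (D.wq q).support := fun q => qwalk hH q.2.2.1
    choose W w1 w2 using hW
    set t0 : ℕ := 2 * 2 ^ j + (k1 * 2 ^ j + k1 * 2 ^ j) with ht0
    have key := SG2 ρ r (2 ^ (j + 1)) hr hbig H X hH.one hH.pl D.U (I := T3)
      (fun q => D.ha q) (fun q => D.hb q) W (fun q => hD.ha_U q) (fun q => hD.hb_U q)
      (fun q => hD.q_ne q) ?_ ?_ ?_
      (fun q n u v => u = v ∨ Rch D (Fq D q) (n * t0) u v) ?_ ?_ ?_ ?_ ?_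
    · rwa [Nat.card_coe_set_eq] at key
    · intro q z hz hzU
      rw [w2] at hz
      exact hsup q z hz hzU
    · intro q q' hne z hz hz'
      rw [w2] at hz hz'
      by_contra hzU
      exact hne (Subtype.ext (hD.wq_disj q q' z hz hz' hzU))
    · intro q
      rw [w1]
      exact (hlen q q.2.1).2.le
    · intro q v
      exact Or.inl rfl
    · rintro q n u v (h | h)
      · exact Or.inl h.symm
      · exact Or.inr (Rch.symm h)
    · rintro q m n u v w (h | h) (h' | h')
      · exact Or.inl (h.trans h')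
      · right
        rw [h]
        exact Rch.mono h' subset_rfl (Nat.mul_le_mul_right _ (Nat.le_add_left _ _))
      · right
        rw [← h']
        exact Rch.mono h subset_rfl (Nat.mul_le_mul_right _ (Nat.le_add_right _ _))
      · right
        rw [Nat.add_mul]
        exact Rch.trans h h'
    · intro q q' hne
      right
      refine ⟨D.wq q', fun f hf hf' => hne (Subtype.ext (q_uniq hD hG hf hf')), ?_⟩
      refine (cw_path (hD.wq_path q') (hsup q')).trans ?_
      have h1 := (hlen q' q'.2.1).2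
      have h2 := hdeg _ (hD.ha_U q') q'.2.2.2.1
      have h3 := hdeg _ (hD.hb_U q') q'.2.2.2.2
      omega
    · rintro q n hn (h | h)
      · exact hD.q_ne q h
      · refine no_rch hD hB q ?_ h
        calc n * t0 ≤ (8 * ρ + 4) * t0 := Nat.mul_le_mul_right _ hn
          _ = (8 * (2 * ρ + 1) * (k1 + 1)) * 2 ^ j := by
            rw [ht0]
            ring
          _ ≤ k * (D.wq q).length := by
            refine Nat.mul_le_mul (le_trans ?_ hk) (hlen q q.2.1).1
            calc 8 * (2 * ρ + 1) * (k1 + 1) ≤ (10 ^ 6 * (ρ + 1)) * (k1 + 1) :=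
                  Nat.mul_le_mul_right _ (by omega)
              _ = 10 ^ 6 * (k1 + 1) * (ρ + 1) := by ring
  exact arith A (2 ^ j) UL'.ncard D.U.ncard r T.ncard T0.ncard T1.ncard T2.ncard T3.ncard
    Nat.one_le_two_pow ((Set.ncard_pos (Set.toFinite _)).2 hU) hr c c0 c1 c2 c3

end Pool.Agent.Helper63.PH
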