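import Pool.Agent.Helper63.PH.Iso

/-!
# PH-B3 (MP_0dbcb7_co): `Wk` implies `BadH`; paper proof in `Iso.lean`
-/

set_option autoImplicit false

open Set
open Pool.Agent.Helper83.OP Pool.Agent.Helper93.HH Pool.Agent.Helper23.PL

namespace Pool.Agent.Helper63.PH

section

variable {V P Q : Type} [Finite V] [Finite P] [Finite Q] {D : HD V P Q} {K k k2 : ℕ}

omit [Finite V] [Finite P] [Finite Q] in
private theorem cw_takeUntil {u v w : V} (W : D.G.Walk u w) (hv : v ∈ W.support) :
    ∃ W' : D.G.Walk u v, (∀ f ∈ W'.edges, f ∈ W.edges) ∧ cw D W' ≤ cw D W := by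
  classical
  refine ⟨W.takeUntil v hv, ?_, ?_⟩
  · intro f hf
    exact W.edges_takeUntil_subset_edges hv hf
  · have h : W = (W.takeUntil v hv).append (W.dropUntil v hv) := (W.take_spec hv).symm
    conv_rhs => rw [h]
    unfold cw
    rw [SimpleGraph.Walk.length_append, SimpleGraph.Walk.support_append, List.map_append,
      List.sum_append]
    omega

omit [Finite V] [Finite P] [Finite Q] in
private theorem cw_rev {u v : V} (W : D.G.Walk u v) : cw D W.reverse = cw D W := by
  unfold cw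
  rw [SimpleGraph.Walk.length_reverse, SimpleGraph.Walk.support_reverse, List.map_reverse,
    List.sum_reverse]

omit [Finite P] [Finite Q] in
private theorem bv_ball' {r ρ : ℕ} {x0 : V} (hb : bv D (D.ball ρ x0) ≤ k2) (h : r ≤ ρ) :
    bv D (D.ball r x0) ≤ k2 := by
  refine le_trans ?_ hb
  unfold bv
  refine Set.ncard_le_ncard (Set.inter_subset_inter_left _ ?_) (Set.toFinite _)
  intro v hv
  exact Nr.mono hv h

/-- **PH-B3.** -/
theorem badH_of_wk (hD : D.Ok) (hδ : ∀ p, 10 ≤ (D.w p).length) (hW : Wk D K k2)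
    (hK : 10 ^ 6 * (k + 1) ≤ K) : BadH D k k2 := by
  classical
  have hkK : k ≤ K := by omega
  have hkK' : ∀ n, k * n ≤ K * n := fun n => Nat.mul_le_mul_right _ hkK
  have hsub : ∀ F : Set (Sym2 V), F ⊆ F := fun F => subset_refl _
  refine ⟨?_, ?_, ?_, ?_, ?_, ?_⟩
  · intro v Z hZ y hy ρ hρ hb hno
    exact lt_of_le_of_lt (hkK' ρ) (hW.e1 v Z hZ y hy ρ hρ hb hno)
  · intro q y z hy hz h
    exact hW.q1 q y z hy hz (PL.Rch.mono h (hsub _) (hkK' _))
  · intro p h
    exact hW.p1 p (PL.Byp.mono h (hsub _) (hkK' _))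
  · exact wk_p2 hD hδ hW hkK (by omega)
  · intro p c ρ hρ hcU hc hb hac y z W hy hz hWe hcW hcw v hv hR
    -- the bypass
    have hB : Byp D (Fp D p) (2 * (k * ρ)) (D.x p) (D.hub p) := by
      obtain ⟨W', h1, h2⟩ := cw_takeUntil W hv
      have h3 : Rch D (Fp D p) (k * ρ) v y := by
        refine ⟨W'.reverse, ?_, ?_⟩
        · intro f hf
          rw [SimpleGraph.Walk.edges_reverse, List.mem_reverse] at hf
          exact hWe f (h1 f hf)
        · rw [cw_rev]
          exact h2.trans hcW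
      refine ⟨y, hy, PL.Rch.mono (PL.Rch.trans hR h3) (hsub _) (by omega)⟩
    -- (i)
    have hi : 4096 * (D.w p).length < ρ := by
      by_contra hcon
      refine hW.p1 p (PL.Byp.mono hB (hsub _) ?_)
      have h1 : k * ρ ≤ k * (4096 * (D.w p).length) := Nat.mul_le_mul_left _ (by omega)
      have h2 : 8192 * k * (D.w p).length ≤ K * (D.w p).length :=
        Nat.mul_le_mul_right _ (by omega)
      calc 2 * (k * ρ) ≤ 2 * (k * (4096 * (D.w p).length)) := Nat.mul_le_mul_left _ h1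
        _ = 8192 * k * (D.w p).length := by ring
        _ ≤ K * (D.w p).length := h2
    have hpl := hδ p
    -- (ii)
    have hii : ∃ τ, (∃ q, D.hub q = c ∧ Pn D τ (D.x p) q) ∧ τ ≤ ρ / 4096 := by
      by_contra hcon
      have hno : ∀ q, Pn D (ρ / 4096) (D.x p) q → D.hub q = D.hub p := by
        intro q hq
        have hq' : Pn D ρ (D.x p) q := by
          obtain ⟨s, h1, h2⟩ := hq
          exact ⟨s, h1, by omega⟩
        rcases hac q hq' with h | h
        · exact h
        · exact absurd ⟨ρ / 4096, ⟨q, h, hq⟩, le_rfl⟩ hcon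
      refine wk_p2 (k := K) hD hδ hW le_rfl (by omega) p (ρ / 4096) (by omega)
        (bv_ball' hb (by omega)) hno (PL.Byp.mono hB (hsub _) ?_)
      have h1 : ρ ≤ 8192 * (ρ / 4096) := by omega
      calc 2 * (k * ρ) ≤ 2 * (k * (8192 * (ρ / 4096))) :=
            Nat.mul_le_mul_left _ (Nat.mul_le_mul_left _ h1)
        _ = (16384 * k) * (ρ / 4096) := by ring
        _ ≤ K * (ρ / 4096) := Nat.mul_le_mul_right _ (by omega)
    -- (iii)
    obtain ⟨τ1, hτ1, hτ2⟩ := hii
    have hex : ∃ τ, ∃ q, D.hub q = c ∧ Pn D τ (D.x p) q := ⟨τ1, hτ1⟩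
    have hτle : Nat.find hex ≤ ρ / 4096 := (Nat.find_min' hex hτ1).trans hτ2
    obtain ⟨q, hqc, hqP⟩ := Nat.find_spec hex
    have hmin : ∀ q' t, D.hub q' = c → Pn D t (D.x p) q' → Nat.find hex ≤ t :=
      fun q' t h1 h2 => Nat.find_min' hex ⟨q', h1, h2⟩
    generalize Nat.find hex = τ at hτle hqP hmin
    have hiso := wk_iso hD hδ hW (by omega) p c ρ hb hc hac q τ hqc hqP hmin
    obtain ⟨g0, hg0, hg0'⟩ := hqP
    have hexg : ∃ t, Nr D.N t (D.x p) (D.x q) := ⟨g0, hg0⟩
    have hg1 := Nat.find_spec hexg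
    have hg2 : ∀ t, Nr D.N t (D.x p) (D.x q) → Nat.find hexg ≤ t :=
      fun t ht => Nat.find_min' hexg ht
    generalize Nat.find hexg = g at hg1 hg2
    have hgg := hg2 g0 hg0
    have hqh : D.hub q ≠ D.hub p := by
      rw [hqc]
      exact hc
    have hqp : q ≠ p := by
      rintro rfl
      exact hqh rfl
    refine hW.p3 p q g (ρ / 16) (by omega) hqp hqh (bv_ball' hb (by omega)) hg1 hg2 (by omega)
      hiso y z W hy (by rw [hqc]; exact hz) hWe ((hcw q g hqc hg1).trans (hkK' _)) v hv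
      (PL.Rch.mono hR (hsub _) ?_)
    have h1 : ρ ≤ 32 * (ρ / 16) := by omega
    calc k * ρ ≤ k * (32 * (ρ / 16)) := Nat.mul_le_mul_left _ h1
      _ = (32 * k) * (ρ / 16) := by ring
      _ ≤ K * (ρ / 16) := Nat.mul_le_mul_right _ (by omega)
  · exact wk_iso hD hδ hW (by omega)

end

end Pool.Agent.Helper63.PH
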