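import Pool.Agent.Helper63.PH.SPd

/-!
# PH-C4 (MP_0dbcb7_co): pins with small hubs

`XX k k2`: pins `p` with `128 sg p < rho p`, `e1 p ≤ sg p` whose partner `pt1 p` has a large hub.
**xx_inj.** `p, p' ∈ XX`, `pt1 p = pt1 p' = q`, `p ≠ p'`: let `sg p' ≤ sg p`. Same hub: `p` has the bypass `x p - x q - x p' - hub` of cost
`≤ e1 p + e1 p' + |p'| ≤ 3 sg p ≤ k (sg p - 1)`: `no_byp`. Different hubs: `hub p'` is different from `hub p` and `hub q`, so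
`e2 p ≤ e1 p + e1 p' + |p'| ≤ 3 sg p`, contradiction to `128 sg p < rho p ≤ e2 p`. (As `t5_inj` in `T5.lean`.)

**sp.** `B := {p | ¬ Lg p ∧ log sg p = j}`, `2 ^ j ≤ sg p < 2 ^ (j + 1)`, `deg (hub p) ≤ k1 sg p ≤ k1 2 ^ (j + 1)`. `exists_sep` with `R = 2 ^ (j + 14)`: `C ⊆ B`.
`spa` with `R = 2 ^ (j + 14)`, `R' = k1 2 ^ (j + 1)`, `M = k (sg p - 1) ≥ k 2 ^ j / 2` (use `M = k 2 ^ (j - 1)` or `no_byp` and `mono`):
`|B| ≤ |C| + q |U| + 1`. Classes of `p ∈ C`: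
(a) `Rb (x p) ≤ 2 ^ (j + 9)` (`< cap`, since `2 ^ j ≤ sg p ≤ |V| + L` by `sg_le`): `Rb_spec`, `big_few` with balls of radius `2 ^ (j + 9)`.
Otherwise `e1 p ≤ sg p` (`min (e1 p) (Rb (x p)) ≤ sg p < 2 ^ (j + 1)`).
(b) `hub (pt1 p)` has degree `≤ k1 2 ^ (j + 10)`: `spb` with `t = pt1`, `R = 2 ^ (j + 10)`, `R' = k1 2 ^ (j + 10)`.
(c) `hub (pt1 p)` large, `128 sg p < rho p`: `p ∈ XX` (`sg (pt1 p) ≤ lam p ≤ 2 sg p`, so `Lg (pt1 p)`).
(d) otherwise `rho p ≤ 128 sg p < 2 ^ (j + 8)` and `rho p = e2 p`: a pin `r` of a third hub within `2 ^ (j + 8)`. (d1) `deg (hub r) ≤ k1 2 ^ (j + 10)`: `spb` with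
`t p = r`. (d2) `hub r` large: the family is `Cc`: `spc`.
-/

set_option autoImplicit false

open Set
open Pool.Agent.Helper83.OP Pool.Agent.Helper93.HH Pool.Agent.Helper23.PL

namespace Pool.Agent.Helper63.PH

/-- pins isolated with a partner whose hub is large -/
def XX {V P Q : Type} (D : HD V P Q) (k1 k2 : ℕ) : Set P :=
  {p | 128 * sg D k2 p < rho D k2 p ∧ e1 D p ≤ sg D k2 p ∧ Lg D k1 k2 (pt1 D p)}

private theorem xx_inj1 {V P Q : Type} [Finite V] [Finite P] [Finite Q] {D : HD V P Q}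
    {k k1 k2 : ℕ} (hD : D.Ok) (hB : BadH D k k2)
    (hF : ∀ p, min (e1 D p) (Rb D k2 (D.x p)) < cap D)
    (hk : 100 ≤ k) {p p' : P} (h : p ∈ XX D k1 k2) (h' : p' ∈ XX D k1 k2)
    (hq : pt1 D p = pt1 D p') (hl : sg D k2 p' ≤ sg D k2 p) : p = p' := by
  by_contra hne
  obtain ⟨a1, a2, -⟩ := h
  obtain ⟨-, a2', -⟩ := h'
  obtain ⟨b1, -, b3, -⟩ := sg_le hD hF p
  obtain ⟨b1', -, b3', -⟩ := sg_le hD hF p'
  have hw : (D.w p').length ≤ sg D k2 p' := le_max_left _ _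
  obtain ⟨c1, s, c2, c3⟩ := e1_spec (p := p) (D := D) (by omega)
  obtain ⟨c1', s', c2', c3'⟩ := e1_spec (p := p') (D := D) (by omega)
  rw [← hq] at c1' c2' c3'
  have hn : Nr D.N (s + s') (D.x p) (D.x p') := c2.trans c2'.symm
  by_cases hh : D.hub p' = D.hub p
  · have d1 : Byp D (Fp D p) (s + s' + (D.w p').length) (D.x p) (D.hub p') :=
      Byp.trans (Rch.of_nr hD p (hD.x_U p) hn) (Byp.pin hD (fun e => hne e.symm))
    obtain ⟨m, hm⟩ : ∃ m, m = s + s' + (D.w p').length := ⟨_, rfl⟩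
    rw [← hm, hh] at d1
    refine no_byp hD hB p (Byp.mono d1 Subset.rfl ?_)
    have d2 : 100 * (sg D k2 p - 1) ≤ k * (sg D k2 p - 1) := Nat.mul_le_mul hk le_rfl
    omega
  · have d1 : e2 D p ≤ s + s' + (D.w p').length :=
      e2_le hh (fun e => c1' e.symm) ⟨s + s', hn, le_rfl⟩
    have d2 : rho D k2 p ≤ e2 D p := min_le_left _ _
    omega

theorem xx_inj {V P Q : Type} [Finite V] [Finite P] [Finite Q] {D : HD V P Q} {k k1 k2 : ℕ}
    (hD : D.Ok) (hB : BadH D k k2) (hF : ∀ p, min (e1 D p) (Rb D k2 (D.x p)) < cap D)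
    (hk : 100 ≤ k) {p p' : P} (h : p ∈ XX D k1 k2) (h' : p' ∈ XX D k1 k2)
    (hq : pt1 D p = pt1 D p') : p = p' := by
  rcases le_total (sg D k2 p') (sg D k2 p) with hl | hl
  · exact xx_inj1 hD hB hF hk h h' hq hl
  · exact (xx_inj1 hD hB hF hk h' h hq.symm hl).symm

private theorem sp_arith (A k2 B C q U S1 S2 S3 S5 L Vb X : ℕ) (hq : 2 ≤ q) (hU : 1 ≤ U)
    (h1 : B ≤ C + q * U + 1) (h2 : C ≤ S1 + S2 + S3 + S5) (h3 : (k2 + 1) * S1 ≤ Vb)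
    (h4 : S2 ≤ q * U + 2) (h5 : S3 ≤ X) (h6 : S5 ≤ A * (L + q * U)) :
    (k2 + 1) * B ≤ (A + 5) * ((k2 + 1) * (L + q * U) + Vb) + (k2 + 1) * X := by
  have h7 : 2 ≤ q * U := by
    calc 2 ≤ q := hq
      _ ≤ q * U := Nat.le_mul_of_pos_right _ hU
  have h8 : B ≤ S1 + (A + 5) * (L + q * U) + X := by
    have : (A + 5) * (L + q * U) = A * (L + q * U) + 5 * L + 5 * (q * U) := by ring
    omega
  calc (k2 + 1) * B ≤ (k2 + 1) * (S1 + (A + 5) * (L + q * U) + X) := Nat.mul_le_mul le_rfl h8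
    _ = (k2 + 1) * S1 + (A + 5) * ((k2 + 1) * (L + q * U)) + (k2 + 1) * X := by ring
    _ ≤ (A + 5) * Vb + (A + 5) * ((k2 + 1) * (L + q * U)) + (k2 + 1) * X := by
        have : Vb ≤ (A + 5) * Vb := Nat.le_mul_of_pos_left _ (by omega)
        omega
    _ = (A + 5) * ((k2 + 1) * (L + q * U) + Vb) + (k2 + 1) * X := by ring

/-- **PH-C4.** -/
theorem sp : ∃ A : ℕ, ∀ (V P Q : Type) [Finite V] [Finite P] [Finite Q] (D : HD V P Q)
    (H : SimpleGraph V) (e0 : Sym2 V) (X : Sym2 V → Sym2 V → Prop) (k k1 k2 j ρ q : ℕ), D.Ok →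
    D.Dr H e0 X → BadH D k k2 → (∀ p, min (e1 D p) (Rb D k2 (D.x p)) < cap D) →
    10 ^ 9 * (k1 + 1) * (ρ + 1) ≤ k → 2 ≤ q →
    24 * (4 * ((4 * ρ + 1) * (4 * 2 ^ (j + 14))) + 1) < q ^ ρ →
    (k2 + 1) * {p | ¬ Lg D k1 k2 p ∧ Nat.log 2 (sg D k2 p) = j}.ncard ≤
      A * ((k2 + 1) * (2 ^ j * (UL D k1 j).ncard + q * D.U.ncard) + (Vb D).ncard) +
        (k2 + 1) * {p | p ∈ XX D k1 k2 ∧ Nat.log 2 (sg D k2 p) = j}.ncard := by
  classical
  obtain ⟨A, hA⟩ := spc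
  refine ⟨A + 5, ?_⟩
  intro V P Q _ _ _ D H e0 X k k1 k2 j ρ q hD hH hB hF hk hq hbig
  obtain ⟨B, hBd⟩ : ∃ B : Set P, B = {p | ¬ Lg D k1 k2 p ∧ Nat.log 2 (sg D k2 p) = j} := ⟨_, rfl⟩
  rw [← hBd]
  rcases B.eq_empty_or_nonempty with h0 | ⟨p0, hp0⟩
  · rw [h0, Set.ncard_empty, Nat.mul_zero]
    exact Nat.zero_le _
  -- the hypotheses on a pin of `B`
  have hmem : ∀ p ∈ B, deg D.G (D.hub p) ≤ k1 * 2 ^ (j + 1) ∧ 2 ^ j ≤ sg D k2 p ∧
      sg D k2 p < 2 ^ (j + 1) ∧ 1 ≤ j ∧ Nat.log 2 (sg D k2 p) = j := by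
    intro p hp
    rw [hBd] at hp
    obtain ⟨h1, h2⟩ := hp
    obtain ⟨s1, -, -, -⟩ := sg_le hD hF p
    have h3 : 2 ^ j ≤ sg D k2 p := by
      rw [← h2]
      exact Nat.pow_log_le_self 2 (by omega)
    have h4 : sg D k2 p < 2 ^ (j + 1) := by
      rw [← h2]
      exact Nat.lt_pow_succ_log_self (by norm_num) _
    have h5 : 1 ≤ j := by
      rw [← h2]
      exact Nat.log_pos (by norm_num) s1
    refine ⟨?_, h3, h4, h5, h2⟩
    have h6 : deg D.G (D.hub p) ≤ k1 * sg D k2 p := by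
      by_contra hcon
      exact h1 (by unfold Lg; omega)
    exact h6.trans (Nat.mul_le_mul le_rfl h4.le)
  have hj1 : 1 ≤ j := (hmem p0 hp0).2.2.2.1
  -- powers of two
  have q0 : 1 ≤ 2 ^ (j - 1) := Nat.one_le_two_pow
  have qj : 2 ^ j = 2 * 2 ^ (j - 1) := by
    rw [← pow_succ']
    congr 1
    omega
  have q1 : 2 ^ (j + 1) = 2 * 2 ^ j := by rw [pow_succ]; ring
  have q8 : 2 ^ (j + 8) = 256 * 2 ^ j := by rw [pow_add]; norm_num; ring
  have q9 : 2 ^ (j + 9) = 512 * 2 ^ j := by rw [pow_add]; norm_num; ring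
  have q10 : 2 ^ (j + 10) = 1024 * 2 ^ j := by rw [pow_add]; norm_num; ring
  have q14 : 2 ^ (j + 14) = 16384 * 2 ^ j := by rw [pow_add]; norm_num; ring
  obtain ⟨E, hE⟩ : ∃ E, E = 2 ^ j := ⟨_, rfl⟩
  rw [← hE] at q1 q8 q9 q10 q14 qj
  -- the cost
  obtain ⟨M, hM⟩ : ∃ M, M = k * (E - 1) := ⟨_, rfl⟩
  have hM2 : (ρ + 1) * ((k1 + 1) * (500000000 * E)) ≤ M := by
    have h1 : 2 * (E - 1) ≥ E := by omega
    have h2 : 10 ^ 9 * (k1 + 1) * (ρ + 1) * (E - 1) ≤ M := by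
      rw [hM]
      exact Nat.mul_le_mul hk le_rfl
    calc (ρ + 1) * ((k1 + 1) * (500000000 * E))
        ≤ (ρ + 1) * ((k1 + 1) * (500000000 * (2 * (E - 1)))) := by gcongr
      _ = 10 ^ 9 * (k1 + 1) * (ρ + 1) * (E - 1) := by ring
      _ ≤ M := h2
  have hnb : ∀ p ∈ B, ¬ Byp D (Fp D p) M (D.x p) (D.hub p) := by
    intro p hp hb
    have h1 := (hmem p hp).2.1
    refine no_byp hD hB p (Byp.mono hb Subset.rfl ?_)
    rw [hM]
    exact Nat.mul_le_mul le_rfl (by omega)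
  have hw : ∀ p ∈ B, (D.w p).length < 2 * E := by
    intro p hp
    have h1 : (D.w p).length ≤ sg D k2 p := le_max_left _ _
    have h2 := (hmem p hp).2.2.1
    omega
  obtain ⟨C, hCB, hsep, hcov⟩ := exists_sep D B (2 ^ (j + 14))
  have hBC : B.ncard ≤ C.ncard + q * D.U.ncard + 1 := by
    refine spa V P Q D H e0 X hD hH ρ q (2 ^ (j + 14)) (k1 * 2 ^ (j + 1)) M hq hbig ?_ B C hCB hcov
      fun p hp => ⟨?_, (hmem p hp).1, hnb p hp⟩
    · rw [q14, q1]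
      refine le_trans ?_ hM2
      calc (16 * ρ + 16) * (2 * (16384 * E) + k1 * (2 * E))
          = (ρ + 1) * (524288 * E + 32 * (k1 * E)) := by ring
        _ ≤ (ρ + 1) * ((k1 + 1) * (500000000 * E)) := by
            refine Nat.mul_le_mul le_rfl ?_
            have : (k1 + 1) * (500000000 * E) = 500000000 * (k1 * E) + 500000000 * E := by ring
            omega
    · have := hw p hp
      rw [q14]
      omega
  have hbig2 : 24 * (4 * ((4 * ρ + 1) * (2 * 2 ^ (j + 10))) + 1) < q ^ ρ := by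
    refine lt_of_le_of_lt ?_ hbig
    have : (4 * ρ + 1) * (2 * 2 ^ (j + 10)) ≤ (4 * ρ + 1) * (4 * 2 ^ (j + 14)) :=
      Nat.mul_le_mul le_rfl (by omega)
    omega
  have hE0 : 2 ≤ E := by omega
  -- the classes
  obtain ⟨S1, hS1⟩ : ∃ S : Set P, S = {p | p ∈ C ∧ k2 < bv D (D.ball (2 ^ (j + 9)) (D.x p))} :=
    ⟨_, rfl⟩
  obtain ⟨S2, hS2⟩ : ∃ S : Set P, S = {p | p ∈ C ∧ ∃ r, D.hub r ≠ D.hub p ∧
    deg D.G (D.hub r) ≤ k1 * 2 ^ (j + 10) ∧ Pn D (2 ^ (j + 10)) (D.x p) r} := ⟨_, rfl⟩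
  obtain ⟨S3, hS3⟩ : ∃ S : Set P, S = {p | p ∈ C ∧ p ∈ XX D k1 k2} := ⟨_, rfl⟩
  obtain ⟨S5, hS5⟩ : ∃ S : Set P, S = {p | p ∈ C ∧ 2 ^ (j + 9) < Rb D k2 (D.x p) ∧ ∃ r r',
    D.hub r ≠ D.hub p ∧ D.hub r' ≠ D.hub p ∧ D.hub r ≠ D.hub r' ∧
    Pn D (2 ^ (j + 8)) (D.x p) r ∧ Pn D (2 ^ (j + 8)) (D.x p) r' ∧
    k1 * 2 ^ (j + 10) < deg D.G (D.hub r) ∧ k1 * 2 ^ (j + 10) < deg D.G (D.hub r')} := ⟨_, rfl⟩
  have hun : C ⊆ ((S1 ∪ S2) ∪ S3) ∪ S5 := by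
    intro p hp
    obtain ⟨m1, m2, m3, -, m5⟩ := hmem p (hCB hp)
    obtain ⟨s1, s2, s3, -⟩ := sg_le hD hF p
    have hcap : cap D = 1000 * (Nat.card V + D.L) := rfl
    by_cases hR : 2 ^ (j + 9) < Rb D k2 (D.x p)
    swap
    · refine Or.inl (Or.inl (Or.inl ?_))
      rw [hS1]
      refine ⟨hp, lt_of_lt_of_le (Rb_spec (D := D) (y := D.x p) (by omega)) ?_⟩
      refine Set.ncard_le_ncard ?_ (Set.toFinite _)
      exact Set.inter_subset_inter_left _ (HD.ball_mono D (by omega) _)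
    have g0 : min (e1 D p) (Rb D k2 (D.x p)) ≤ sg D k2 p := le_max_right _ _
    have g1 : e1 D p ≤ sg D k2 p := by
      rcases min_le_iff.1 g0 with h | h
      · exact h
      · omega
    obtain ⟨g2, g3⟩ := e1_spec (p := p) (D := D) (by omega)
    by_cases hd : deg D.G (D.hub (pt1 D p)) ≤ k1 * 2 ^ (j + 10)
    · refine Or.inl (Or.inl (Or.inr ?_))
      rw [hS2]
      exact ⟨hp, pt1 D p, g2, hd, Pn.mono g3 (by omega)⟩
    by_cases hr : 128 * sg D k2 p < rho D k2 p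
    · refine Or.inl (Or.inr ?_)
      rw [hS3]
      refine ⟨hp, hr, g1, ?_⟩
      obtain ⟨s, g4, g5⟩ := g3
      have g6 : e1 D (pt1 D p) ≤ s + (D.w p).length :=
        e1_le (fun e => g2 e.symm) ⟨s, g4.symm, le_rfl⟩
      have g7 := hw p (hCB hp)
      have g8 : sg D k2 (pt1 D p) ≤ 4 * E := by
        unfold sg
        have : min (e1 D (pt1 D p)) (Rb D k2 (D.x (pt1 D p))) ≤ e1 D (pt1 D p) := min_le_left _ _
        exact max_le (by omega) (by omega)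
      have g9 : k1 * sg D k2 (pt1 D p) ≤ k1 * 2 ^ (j + 10) := Nat.mul_le_mul le_rfl (by omega)
      unfold Lg
      omega
    · have r1 : rho D k2 p ≤ 128 * sg D k2 p := not_lt.1 hr
      have r2 : rho D k2 p = min (e2 D p) (Rb D k2 (D.x p)) := rfl
      have r3 : e2 D p < 2 ^ (j + 8) := by
        rcases min_choice (e2 D p) (Rb D k2 (D.x p)) with h | h
        · omega
        · omega
      obtain ⟨r, t1, t2, t3⟩ := e2_spec (p := p) (D := D) (by omega)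
      by_cases hd' : deg D.G (D.hub r) ≤ k1 * 2 ^ (j + 10)
      · refine Or.inl (Or.inl (Or.inr ?_))
        rw [hS2]
        exact ⟨hp, r, t1, hd', Pn.mono t3 (by omega)⟩
      · refine Or.inr ?_
        rw [hS5]
        exact ⟨hp, hR, pt1 D p, r, g2, t1, fun e => t2 e.symm, Pn.mono g3 (by omega),
          Pn.mono t3 (by omega), not_le.1 hd, not_le.1 hd'⟩
  have hcard : C.ncard ≤ S1.ncard + S2.ncard + S3.ncard + S5.ncard := by
    have a1 := Set.ncard_le_ncard hun (Set.toFinite _)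
    have a2 := Set.ncard_union_le ((S1 ∪ S2) ∪ S3) S5
    have a3 := Set.ncard_union_le (S1 ∪ S2) S3
    have a4 := Set.ncard_union_le S1 S2
    omega
  have hsep' : ∀ R, R ≤ 2 ^ (j + 14) → ∀ p ∈ C, ∀ p' ∈ C, p ≠ p' → ¬ Nr D.N R (D.x p) (D.x p') :=
    fun R hR p hp p' hp' hne h => hsep p hp p' hp' hne (h.mono hR)
  have b1 : (k2 + 1) * S1.ncard ≤ (Vb D).ncard := by
    refine big_few D (2 ^ (j + 9)) S1 ?_ ?_
    · rw [hS1]
      exact fun p hp p' hp' => hsep' _ (by omega) p hp.1 p' hp'.1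
    · rw [hS1]
      exact fun p hp => hp.2
  have b2 : S2.ncard ≤ q * D.U.ncard + 2 := by
    have hch : ∀ p, ∃ r, p ∈ S2 → (D.hub r ≠ D.hub p ∧
        deg D.G (D.hub r) ≤ k1 * 2 ^ (j + 10) ∧ Pn D (2 ^ (j + 10)) (D.x p) r) := by
      intro p
      by_cases h : p ∈ S2
      · have h' := h
        rw [hS2] at h'
        obtain ⟨-, r, hr⟩ := h'
        exact ⟨r, fun _ => hr⟩
      · exact ⟨p, fun h' => absurd h' h⟩
    choose t ht using hch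
    have hSC : ∀ p ∈ S2, p ∈ C := by
      intro p hp
      rw [hS2] at hp
      exact hp.1
    refine spb V P Q D H e0 X hD hH ρ q (2 ^ (j + 10)) (k1 * 2 ^ (j + 10)) M hq hbig2 ?_ S2 t
      (fun p hp p' hp' => hsep' _ (by omega) p (hSC p hp) p' (hSC p' hp')) fun p hp => ?_
    · rw [q10]
      refine le_trans ?_ hM2
      calc (8 * ρ + 8) * (2 * (1024 * E) + 2 * (k1 * (1024 * E)))
          = (ρ + 1) * ((k1 + 1) * (16384 * E)) := by ring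
        _ ≤ (ρ + 1) * ((k1 + 1) * (500000000 * E)) := by
            refine Nat.mul_le_mul le_rfl (Nat.mul_le_mul le_rfl ?_)
            omega
    · obtain ⟨t1, t2, t3⟩ := ht p hp
      have hpB := hCB (hSC p hp)
      have a1 := hw p hpB
      refine ⟨by omega, (hmem p hpB).1.trans (Nat.mul_le_mul le_rfl (by omega)), t1, t2, t3,
        hnb p hpB⟩
  have b3 : S3.ncard ≤ {p | p ∈ XX D k1 k2 ∧ Nat.log 2 (sg D k2 p) = j}.ncard := by
    refine Set.ncard_le_ncard ?_ (Set.toFinite _)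
    intro p hp
    rw [hS3] at hp
    exact ⟨hp.2, (hmem p (hCB hp.1)).2.2.2.2⟩
  have b5 : S5.ncard ≤ A * (2 ^ j * (UL D k1 j).ncard + q * D.U.ncard) := by
    refine hA V P Q D H e0 X k k1 k2 j ρ q hD hH hB hF hk hq hbig2 S5 ?_
    rw [hS5]
    exact ⟨fun p hp p' hp' => hsep p hp.1 p' hp'.1, fun p hp => (hmem p (hCB hp.1)).2.1,
      fun p hp => (hmem p (hCB hp.1)).2.2.1, fun p hp => (hmem p (hCB hp.1)).1,
      fun p hp => hp.2.1, fun p hp => hp.2.2⟩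
  have hU : 1 ≤ D.U.ncard := (Set.ncard_pos (Set.toFinite _)).2 ⟨_, hD.hub_U p0⟩
  exact sp_arith A k2 B.ncard C.ncard q D.U.ncard S1.ncard S2.ncard S3.ncard S5.ncard
    (2 ^ j * (UL D k1 j).ncard) (Vb D).ncard _ hq hU hBC hcard b1 b2 b3 b5

end Pool.Agent.Helper63.PH
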