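import Pool.Agent.Helper63.PH.Cy
import Pool.Agent.Helper63.PH.Super
import Pool.Agent.Helper63.HH.TC
import Pool.Agent.Helper63.HH.Vor
import Pool.Agent.Helper66.HH.Exits
import Pool.Agent.Helper63.UP.Cells

/-!
# PH-B7 (MP_0dbcb7_co): the number of branch vertices of `N` is at most `A q` times the number of pins

`fd y` = distance to the nearest foot, `Rb y` = radius where the ball gets more than `k2` branch vertices, `R y := min (fd y) (Rb y)`;
`fd y ≤ s2 y` or `s2 y = cap` (a pin with `Pn t y` has its foot within `t`), so by `cy` every cycle `Z ∋ y` of `N` has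
`K * R y < |Z|`, `K = k / 1000`, and by `cyc_long` `|Z| > k (δ - 1) / 2`.
Paper proof. `y` is thick if `100 * Rb y < fd y`. `Z0` := family of thick points, chosen greedily by increasing `Rb`, with pairwise disjoint
balls `B(z, Rb z)` (`exists_thick` in `Helper63/HH/CE.lean` is the model): for every thick `y` there is `z ∈ Z0` with `Rb z ≤ Rb y` and
`Nr (Rb y + Rb z) y z`. Centres: all feet (radius 0) and `z ∈ Z0` (radius `Rb z`); no foot is within `100 Rb z` of `z`. Cells: `vor`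
(`Helper63/HH/Vor.lean`), score `sc y = dep y - ra (ctr y)`.
(1) Every component of `N` (vertices in `D.VN`) contains a centre: otherwise it has no feet and at most `k2` branch vertices (`R y = cap` for
all its points `y`), all its `N`-degrees are `≥ 2` (`hD.two`), so it contains a cycle, contradiction to `hB.e1` with `ρ = cap D`.
(2) `|sc y| ≤ 100 R y`: `y` thick: `sc y ≤ Rb y + Rb z - Rb z = R y`. `y` not thick: `sc y ≤ fd y ≤ 100 R y`. If `sc y < 0` then
`y ∈ B(z, Rb z)`, `z = ctr y`, `Rb y ≥ Rb z - d(y,z) = - sc y` and `fd y ≥ fd z - d(y,z) ≥ - sc y`.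
(3) So the cells form `Fr D.N (fun y => (sc y).natAbs)` (`toFr` in `Helper63/HH/TC.lean`), and `Sparse` holds with constant
`K' = k / 10 ^ 6`: `K' (|sc y| + 1) ≤ K' (100 R y + 1)`, and `|Z| > (k / 1000) R y`, `|Z| > k (δ - 1) / 2`.
(4) Depths: `dep y ≤ |sc y| + ra (ctr y) ≤ 300 Λ` (`hΛ`; `Rb z = R z` for thick `z`). By `Fr.girth` the cell graph `Q0 = C.Q0` has no cycle
of length `≤ 8 ρ + 2`, its links are realised by walks of length `2 * 300 Λ + 1` inside the two cells (`C.join`), so `edges_le` gives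
`{e | Q0.Adj e.1 e.2}.ncard ≤ 2 q * (number of centres)`.
(5) `Fr.deg_Q0` for every cell `S` with centre `s`: `∑ v ∈ S, deg N v + 2 ≤ 2 |S| + deg Q0 s`. Sum over all cells (vertices outside `VN` have
degree 0 in `N` and are their own cells; use only the cells of centres): `∑ v ∈ VN, (deg N v - 2) ≤ ∑ deg Q0 ≤ 2 q (#feet + |Z0|)`
(in `ℤ`; a foot may have `deg N v < 2`, then `pn v ≥ 1`, `dg v = deg N v + pn v ≥ 3`).
(6) For `z ∈ Z0` the cell contains `B(z, Rb z)`, whose `> k2` branch vertices have no feet, `deg N ≥ 3`, so `deg Q0 z ≥ k2`; hence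
`k2 |Z0| ≤ 2 q (#P + |Z0|)` and, as `8 q ≤ k2`, `|Z0| ≤ #P`.
(7) `|Vb| ≤ ∑ v ∈ VN, (dg v - 2) = ∑ (deg N v - 2) + #P ≤ 4 q #P + #P ≤ 8 q #P`.
-/

set_option autoImplicit false

open Set
open Pool.Agent.Helper83.OP Pool.Agent.Helper93.HH Pool.Agent.Helper23.PL

namespace Pool.Agent.Helper63.PH

section

variable {V P Q : Type} [Finite V] [Finite P] [Finite Q] {D : HD V P Q} {k k2 δ : ℕ}

private theorem fd_le {y : V} {t : ℕ} {p : P} (h : Nr D.N t y (D.x p)) : fd D y ≤ t :=
  Nat.sInf_le (Or.inl ⟨p, h⟩)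

private theorem fd_cap (y : V) : fd D y ≤ cap D := Nat.sInf_le (Or.inr rfl)

private theorem fd_spec {y : V} (h : fd D y < cap D) : ∃ p, Nr D.N (fd D y) y (D.x p) := by
  have h1 : fd D y ∈ ({t | ∃ p, Nr D.N t y (D.x p)} ∪ {cap D} : Set ℕ) :=
    Nat.sInf_mem ⟨cap D, Or.inr rfl⟩
  rcases h1 with h1 | h1
  · exact h1
  · exact absurd h1 h.ne

private theorem fd_lip {t : ℕ} {y y' : V} (h : Nr D.N t y y') : fd D y ≤ fd D y' + t := by
  by_cases h1 : fd D y' < cap D
  · obtain ⟨p, hp⟩ := fd_spec h1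
    have := fd_le (h.trans hp)
    omega
  · have := fd_cap (D := D) y
    omega

private theorem fd_s2 (y : V) : fd D y ≤ s2 D y := by
  have h1 : s2 D y ∈ ({t | 3 ≤ {p | Pn D t y p}.ncard} ∪ {cap D} : Set ℕ) :=
    Nat.sInf_mem ⟨cap D, Or.inr rfl⟩
  rcases h1 with h1 | h1
  · have h2 : 0 < {p | Pn D (s2 D y) y p}.ncard := by
      have h3 : 3 ≤ {p | Pn D (s2 D y) y p}.ncard := h1
      omega
    obtain ⟨p, s, hs, hl⟩ := (Set.ncard_pos (Set.toFinite _)).1 h2
    exact (fd_le hs).trans (by omega)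
  · rw [h1]
    exact fd_cap y

private theorem Rb_card {y : V} (h : Rb D k2 y < cap D) : Rb D k2 y ≤ Nat.card V := by
  have h1 := Sca.Rb_spec h
  refine Nat.sInf_le (Or.inl ?_)
  show k2 < bv D (D.ball (Nat.card V) y)
  refine h1.trans_le (Set.ncard_le_ncard ?_ (Set.toFinite _))
  refine Set.inter_subset_inter_left _ ?_
  intro v hv
  have hv' : Nr D.N (Rb D k2 y) y v := hv
  exact Nr.card hv'.reachable

open Classical in
private theorem sum_pn [Fintype V] [Fintype P] (S : Finset V) :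
    ∑ v ∈ S, D.pn v = ∑ p : P, if D.x p ∈ S then 1 else 0 := by
  have h1 : ∀ v, D.pn v = ∑ p : P, if D.x p = v then 1 else 0 := by
    intro v
    unfold HD.pn
    rw [Finset.sum_boole, Nat.cast_id, ← Set.ncard_coe_finset]
    congr 1
    ext p
    simp
  rw [Finset.sum_congr rfl fun v _ => h1 v, Finset.sum_comm]
  refine Finset.sum_congr rfl fun p _ => ?_
  rw [Finset.sum_ite_eq]

/-- the main part, for given cells -/
private theorem vn_cells [Fintype V] [Fintype P] (H : SimpleGraph V) (e0 : Sym2 V)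
    (X : Sym2 V → Sym2 V → Prop) (hD : D.Ok) (hDr : D.Dr H e0 X) (ρ q Λ : ℕ) (hq2 : 2 ≤ q)
    (hqk : 8 * q ≤ k2)
    (hbig : 24 * (4 * ((4 * ρ + 1) * (1000 * (Λ + 1))) + 1) < q ^ ρ)
    (Z0 : Set V) (hZVN : ∀ z ∈ Z0, z ∈ D.VN) (hZcap : ∀ z ∈ Z0, Rb D k2 z < cap D)
    (hZΛ : ∀ z ∈ Z0, Rb D k2 z ≤ Λ) (hZx : ∀ p, D.x p ∉ Z0) (ra : V → ℕ)
    (hraZ : ∀ z ∈ Z0, ra z = Rb D k2 z) (hrax : ∀ p, ra (D.x p) = 0)
    (C : Set V) (hC : C = Z0 ∪ Set.range D.x) (E : Cel D C ra) (hdep : ∀ v, E.dep v ≤ 200 * Λ)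
    (K : ℕ) (hK : 32 * ρ + 12 ≤ K) (hsp : Pool.Agent.Helper63.HH.Sparse D.N
      (fun y => (E.sc y).natAbs) K) :
    (Vb D).ncard ≤ 5 * q * Nat.card P := by
  classical
  set F := Pool.Agent.Helper63.HH.toFr E with hF
  have hFc : ∀ v, F.ctr v = E.ctr v := fun v => rfl
  have hFd : ∀ v, F.dep v = E.dep v := fun v => rfl
  have hCZ : ∀ z ∈ Z0, z ∈ C := fun z hz => by rw [hC]; exact Or.inl hz
  have hCx : ∀ p, D.x p ∈ C := fun p => by rw [hC]; exact Or.inr ⟨p, rfl⟩
  have hCVN : ∀ c ∈ C, c ∈ D.VN := by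
    intro c hc
    rw [hC] at hc
    rcases hc with hc | ⟨p, rfl⟩
    · exact hZVN c hc
    · exact HD.x_VN p
  have hNH : D.N ≤ H := by
    intro u v huv
    rw [hDr.eq, SimpleGraph.deleteEdges_adj]
    refine ⟨hD.N_le huv, ?_⟩
    rw [Set.mem_singleton_iff]
    intro h
    exact hDr.e0N (h ▸ (SimpleGraph.mem_edgeSet _).2 huv)
  -- the links
  have hE := edges_le ρ F.Q0 (fun u c hc => by
      by_contra hl
      exact F.girth hsp (M := 8 * ρ + 2) (by omega) c hc (by omega)) H X hDr.one hDr.pl F.ctr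
    (1000 * (Λ + 1)) (by
      intro s t h
      obtain ⟨hs, ht⟩ := F.Q0_ctr h
      obtain ⟨_, u, v, h2, h3, h4⟩ := id h
      obtain ⟨q1, a1, b1, -⟩ := F.join (u := s) (v := u) (by rw [h3, hs])
      obtain ⟨q2, a2, b2, -⟩ := F.join (u := v) (v := t) (by rw [h4, ht])
      refine ⟨hs, ht, (q1.append (SimpleGraph.Walk.cons h2 q2)).mapLe hNH, ?_, ?_⟩
      · have d1 : F.dep s = 0 := (F.dep_zero s).2 hs
        have d2 : F.dep t = 0 := (F.dep_zero t).2 ht
        have d3 := hdep u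
        have d4 := hdep v
        have d5 := hFd u
        have d6 := hFd v
        rw [SimpleGraph.Walk.length_mapLe, SimpleGraph.Walk.length_append,
          SimpleGraph.Walk.length_cons, a1, a2]
        omega
      · intro x hx
        rw [SimpleGraph.Walk.support_mapLe_eq_support,
          SimpleGraph.Walk.mem_support_append_iff, SimpleGraph.Walk.support_cons,
          List.mem_cons] at hx
        rcases hx with hx | hx | hx
        · left
          rw [b1 x hx, h3]
        · left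
          rw [hx, h3]
        · right
          rw [b2 x hx, ht])
    C (by
      rintro s t ⟨_, u, v, h2, h3, -⟩
      rw [← h3, hFc]
      exact E.ctr_mem u (HD.VN_of_adj h2)) q hq2 hbig
  -- number of centres
  have hCc : C.ncard ≤ Z0.ncard + Nat.card P := by
    rw [hC]
    refine (Set.ncard_union_le _ _).trans (Nat.add_le_add_left ?_ _)
    rw [← Set.image_univ]
    refine (Set.ncard_image_le (Set.toFinite _)).trans (le_of_eq ?_)
    exact Set.ncard_univ _
  -- the cells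
  let cell : V → Finset V := fun c => Finset.univ.filter fun v => E.ctr v = c
  have hcell : ∀ c v, v ∈ cell c ↔ E.ctr v = c := fun c v => by simp [cell]
  have hcVN : ∀ c ∈ C, ∀ v ∈ cell c, v ∈ D.VN := by
    intro c hc v hv
    rw [hcell] at hv
    by_cases h0 : E.dep v = 0
    · have := (E.dep_zero v).1 h0
      rw [← this, hv]
      exact hCVN c hc
    · exact Pool.Agent.Helper63.HH.dep_VN E h0
  have hdeg : ∀ c ∈ C, ∑ v ∈ cell c, (D.dg v - 2) + 2 ≤ deg F.Q0 c + ∑ v ∈ cell c, D.pn v := by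
    intro c hc
    have h1 := F.deg_Q0 hsp (by omega) (s := c) (by rw [hFc]; exact E.ctr_C c hc) (cell c)
      (fun v => by rw [hFc]; exact hcell c v)
    have h2 : ∑ v ∈ cell c, (D.dg v - 2) + 2 * (cell c).card =
        ∑ v ∈ cell c, deg D.N v + ∑ v ∈ cell c, D.pn v := by
      rw [mul_comm, ← smul_eq_mul, ← Finset.sum_const, ← Finset.sum_add_distrib,
        ← Finset.sum_add_distrib]
      refine Finset.sum_congr rfl fun v hv => ?_
      have := hD.two v (hcVN c hc v hv)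
      unfold HD.dg at this ⊢
      omega
    omega
  -- the sum of the degrees of the cell graph
  have hsumdeg : ∀ T : Finset V, (∀ c ∈ T, c ∈ C) →
      ∑ c ∈ T, deg F.Q0 c ≤ 2 * q * (Z0.ncard + Nat.card P) := by
    intro T hT
    have h4 : {e : V × V | e.1 ∈ T ∧ F.Q0.Adj e.1 e.2}.ncard = ∑ c ∈ T, deg F.Q0 c := by
      rw [ncard_fiber _ T (fun e : V × V => e.1) (fun e he => he.1)]
      refine Finset.sum_congr rfl fun z hz => ?_
      unfold deg
      refine (Set.ncard_congr (fun w _ => (z, w)) ?_ ?_ ?_).symm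
      · intro w hw
        exact ⟨⟨hz, hw⟩, rfl⟩
      · intro b c _ _ hbc
        exact (Prod.mk.inj hbc).2
      · rintro ⟨b, c⟩ ⟨⟨_, h5⟩, rfl⟩
        exact ⟨c, h5, rfl⟩
    rw [← h4]
    refine (Set.ncard_le_ncard (fun e he => he.2) (Set.toFinite _)).trans (hE.trans ?_)
    exact Nat.mul_le_mul_left _ hCc
  -- thick cells
  have hthick : ∀ z ∈ Z0, k2 + 3 ≤ deg F.Q0 z := by
    intro z hz
    have hzC : z ∈ C := hCZ z hz
    have h1 := hdeg z hzC
    have h2 : ∑ v ∈ cell z, D.pn v = 0 := by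
      refine Finset.sum_eq_zero fun v hv => ?_
      unfold HD.pn
      rw [Set.ncard_eq_zero (Set.toFinite _)]
      apply Set.eq_empty_of_forall_notMem
      intro p hp
      have hp' : D.x p = v := hp
      rw [hcell, ← hp', E.ctr_C _ (hCx p)] at hv
      exact hZx p (hv ▸ hz)
    have h3 : k2 < ∑ v ∈ cell z, (D.dg v - 2) := by
      have h4 := Sca.Rb_spec (hZcap z hz)
      refine h4.trans_le ?_
      unfold bv
      have h5 : D.ball (Rb D k2 z) z ∩ Vb D ⊆
          (((cell z).filter fun v => 3 ≤ D.dg v : Finset V) : Set V) := by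
        rintro v ⟨h6, h7⟩
        rw [Finset.mem_coe, Finset.mem_filter, hcell]
        refine ⟨E.ball z hzC v ?_, h7⟩
        rw [hraZ z hz]
        exact h6
      refine (Set.ncard_le_ncard h5 (Set.toFinite _)).trans ?_
      rw [Set.ncard_coe_finset, Finset.card_eq_sum_ones, Finset.sum_filter]
      refine Finset.sum_le_sum fun v _ => ?_
      split_ifs with h8
      · omega
      · exact Nat.zero_le _
    omega
  have hZc : Z0.ncard ≤ Nat.card P := by
    have h1 : (k2 + 3) * Z0.ncard ≤ ∑ c ∈ Z0.toFinset, deg F.Q0 c := by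
      rw [Set.ncard_eq_toFinset_card' Z0, mul_comm, ← smul_eq_mul, ← Finset.sum_const]
      exact Finset.sum_le_sum fun z hz => hthick z (by simpa using hz)
    have h2 := hsumdeg Z0.toFinset (fun c hc => hCZ c (by simpa using hc))
    have h3 : 8 * q * Z0.ncard ≤ (k2 + 3) * Z0.ncard := Nat.mul_le_mul_right _ (by omega)
    have h4 : 8 * q * Z0.ncard ≤ 2 * q * (Z0.ncard + Nat.card P) := h3.trans (h1.trans h2)
    have h5 : 2 * q * (4 * Z0.ncard) ≤ 2 * q * (Z0.ncard + Nat.card P) := by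
      have : 2 * q * (4 * Z0.ncard) = 8 * q * Z0.ncard := by ring
      rw [this]
      exact h4
    have h6 := Nat.le_of_mul_le_mul_left h5 (by omega)
    omega
  -- the total
  have hVb : (Vb D).ncard ≤ ∑ c ∈ C.toFinset, ∑ v ∈ cell c, (D.dg v - 2) := by
    have h1 : Vb D ⊆ ((C.toFinset.biUnion fun c => (cell c).filter fun v => 3 ≤ D.dg v :
        Finset V) : Set V) := by
      intro v hv
      have hv' : 3 ≤ D.dg v := hv
      have hVN : v ∈ D.VN := by
        by_cases h0 : deg D.N v = 0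
        · right
          unfold HD.dg HD.pn at hv'
          have h2 : 0 < {p | D.x p = v}.ncard := by omega
          obtain ⟨p, hp⟩ := (Set.ncard_pos (Set.toFinite _)).1 h2
          exact ⟨p, hp⟩
        · exact Or.inl h0
      rw [Finset.mem_coe, Finset.mem_biUnion]
      refine ⟨E.ctr v, by simpa using E.ctr_mem v hVN, ?_⟩
      rw [Finset.mem_filter, hcell]
      exact ⟨rfl, hv'⟩
    refine (Set.ncard_le_ncard h1 (Set.toFinite _)).trans ?_
    rw [Set.ncard_coe_finset]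
    refine Finset.card_biUnion_le.trans (Finset.sum_le_sum fun c _ => ?_)
    rw [Finset.card_eq_sum_ones, Finset.sum_filter]
    refine Finset.sum_le_sum fun v _ => ?_
    split_ifs with h8
    · omega
    · exact Nat.zero_le _
  have hpn : ∑ c ∈ C.toFinset, ∑ v ∈ cell c, D.pn v ≤ Nat.card P := by
    rw [Finset.sum_congr rfl fun c _ => sum_pn (D := D) (cell c), Finset.sum_comm]
    have h1 : ∀ p : P, (∑ c ∈ C.toFinset, if D.x p ∈ cell c then 1 else 0) ≤ 1 := by
      intro p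
      have h2 : ∀ c, (D.x p ∈ cell c) = (D.x p = c) := by
        intro c
        rw [hcell, E.ctr_C _ (hCx p)]
      simp only [h2]
      rw [Finset.sum_ite_eq]
      split_ifs
      · exact le_rfl
      · exact Nat.zero_le _
    refine (Finset.sum_le_sum fun p _ => h1 p).trans (le_of_eq ?_)
    rw [Finset.sum_const, smul_eq_mul, mul_one, Finset.card_univ, Nat.card_eq_fintype_card]
  have h1 : ∑ c ∈ C.toFinset, ∑ v ∈ cell c, (D.dg v - 2) ≤
      ∑ c ∈ C.toFinset, deg F.Q0 c + ∑ c ∈ C.toFinset, ∑ v ∈ cell c, D.pn v := by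
    rw [← Finset.sum_add_distrib]
    refine Finset.sum_le_sum fun c hc => ?_
    have := hdeg c (by simpa using hc)
    omega
  have h2 := hsumdeg C.toFinset (fun c hc => by simpa using hc)
  have h3 : 2 * q * (Z0.ncard + Nat.card P) ≤ 2 * q * (2 * Nat.card P) :=
    Nat.mul_le_mul_left _ (by omega)
  have h4 : Nat.card P ≤ q * Nat.card P := Nat.le_mul_of_pos_left _ (by omega)
  have h5 : 2 * q * (2 * Nat.card P) = 4 * (q * Nat.card P) := by ring
  have h6 : 5 * q * Nat.card P = 5 * (q * Nat.card P) := by ring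
  omega

end

/-- **PH-B7.** -/
theorem vn : ∃ A : ℕ, ∀ (V P Q : Type) [Finite V] [Finite P] [Finite Q] (D : HD V P Q)
    (H : SimpleGraph V) (e0 : Sym2 V) (X : Sym2 V → Sym2 V → Prop) (k k2 δ ρ q Λ : ℕ), D.Ok →
    D.Dr H e0 X → Long D δ → BadH D k k2 → 3 ≤ δ → 2 ≤ q → 8 * q ≤ k2 →
    10 ^ 9 * (ρ + 1) ≤ k → (∀ y ∈ D.VN, min (s2 D y) (Rb D k2 y) ≤ Λ) →
    (∀ y ∈ D.VN, min (s2 D y) (Rb D k2 y) < cap D) →
    24 * (4 * ((4 * ρ + 1) * (1000 * (Λ + 1))) + 1) < q ^ ρ →
    (Vb D).ncard ≤ A * q * Nat.card P := by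
  refine ⟨5, ?_⟩
  intro V P Q _ _ _ D H e0 X k k2 δ ρ q Λ hD hDr hL hB hδ hq2 hqk hk hΛ hcap hbig
  classical
  have := Fintype.ofFinite V
  have := Fintype.ofFinite P
  -- `R y = min (fd y) (Rb y)`
  have hRs : ∀ y, min (fd D y) (Rb D k2 y) ≤ min (s2 D y) (Rb D k2 y) := fun y =>
    min_le_min_right _ (fd_s2 y)
  have hcapV : ∀ y : V, 100 * Nat.card V < cap D := by
    intro y
    have : Nonempty V := ⟨y⟩
    have h1 : 0 < Nat.card V := Nat.card_pos
    unfold cap
    omega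
  -- a point without feet in its component is thick
  have hth0 : ∀ y ∈ D.VN, ¬ fd D y < cap D → Rb D k2 y < cap D ∧ 100 * Rb D k2 y < fd D y := by
    intro y hy h
    have h1 := hcap y hy
    have h2 := fd_s2 (D := D) y
    have h3 : Rb D k2 y < cap D := by
      rcases min_lt_iff.1 h1 with h4 | h4
      · omega
      · exact h4
    have h4 := Rb_card h3
    have h5 := hcapV y
    exact ⟨h3, by omega⟩
  -- thick centres
  obtain ⟨C0, hC1, hC2⟩ := Pool.Agent.Helper63.UP.centres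
    (V := {v // v ∈ D.VN ∧ 100 * Rb D k2 v < fd D v})
    (fun v => Rb D k2 v.1)
    (fun x y => ∃ u, Nr D.N (Rb D k2 x.1) x.1 u ∧ Nr D.N (Rb D k2 y.1) y.1 u)
    (fun x y ⟨u, h1, h2⟩ => ⟨u, h2, h1⟩) (fun x => ⟨x.1, Nr.refl _ _ _, Nr.refl _ _ _⟩)
  set Z : Set V := Subtype.val '' C0 with hZ
  have hZVN : ∀ z ∈ Z, z ∈ D.VN := by
    rintro z ⟨z', -, rfl⟩
    exact z'.2.1
  have hZth : ∀ z ∈ Z, 100 * Rb D k2 z < fd D z := by
    rintro z ⟨z', -, rfl⟩
    exact z'.2.2
  have hZsep : ∀ z ∈ Z, ∀ z' ∈ Z, z ≠ z' → ∀ u,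
      ¬ (Nr D.N (Rb D k2 z) z u ∧ Nr D.N (Rb D k2 z') z' u) := by
    rintro z ⟨a, ha, rfl⟩ z' ⟨b, hb, rfl⟩ hne u h
    exact hC1 a ha b hb (fun h => hne (congrArg Subtype.val h)) ⟨u, h⟩
  have hZdom : ∀ y ∈ D.VN, 100 * Rb D k2 y < fd D y → ∃ z ∈ Z, Rb D k2 z ≤ Rb D k2 y ∧
      Nr D.N (Rb D k2 y + Rb D k2 z) y z := by
    intro y hy hth
    obtain ⟨c, hc, h1, u, h2, h3⟩ := hC2 ⟨y, hy, hth⟩
    exact ⟨c.1, ⟨c, hc, rfl⟩, h1, h2.trans h3.symm⟩
  have hZx : ∀ p, D.x p ∉ Z := by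
    intro p hp
    have h1 := hZth _ hp
    have h2 := fd_le (Nr.refl D.N 0 (D.x p))
    omega
  have hZmin : ∀ z ∈ Z, min (s2 D z) (Rb D k2 z) = Rb D k2 z := by
    intro z hz
    have h1 := hZth z hz
    have h2 := fd_s2 (D := D) z
    exact min_eq_right (by omega)
  set ra : V → ℕ := fun v => if v ∈ Z then Rb D k2 v else 0 with hra
  have hraZ : ∀ z ∈ Z, ra z = Rb D k2 z := fun z hz => by
    rw [hra]; simp only [hz, if_true]
  have hrax : ∀ p, ra (D.x p) = 0 := fun p => by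
    rw [hra]; simp only [hZx p, if_false]
  set C : Set V := Z ∪ Set.range D.x with hC
  have hsep : ∀ c ∈ C, ∀ c' ∈ C, c ≠ c' → ∀ u, ¬ (Nr D.N (ra c) c u ∧ Nr D.N (ra c') c' u) := by
    have key : ∀ z ∈ Z, ∀ p, ∀ u,
        ¬ (Nr D.N (ra z) z u ∧ Nr D.N (ra (D.x p)) (D.x p) u) := by
      rintro z hz p u ⟨h1, h2⟩
      rw [hraZ z hz] at h1
      rw [hrax p] at h2
      rw [← Nr.eq h2] at h1
      have h3 := fd_le h1
      have h4 := hZth z hz
      omega
    rintro c (hc | ⟨p, rfl⟩) c' (hc' | ⟨p', rfl⟩) hne u ⟨h1, h2⟩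
    · rw [hraZ c hc] at h1
      rw [hraZ c' hc'] at h2
      exact hZsep c hc c' hc' hne u ⟨h1, h2⟩
    · exact key c hc p' u ⟨h1, h2⟩
    · exact key c' hc' p u ⟨h2, h1⟩
    · rw [hrax p] at h1
      rw [hrax p'] at h2
      exact hne ((Nr.eq h1).trans (Nr.eq h2).symm)
  have hcomp : ∀ y ∈ D.VN, ∃ c ∈ C, D.N.Reachable y c := by
    intro y hy
    by_cases h : fd D y < cap D
    · obtain ⟨p, hp⟩ := fd_spec h
      exact ⟨D.x p, Or.inr ⟨p, rfl⟩, hp.reachable⟩
    · obtain ⟨z, hz, -, h1⟩ := hZdom y hy (hth0 y hy h).2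
      exact ⟨z, Or.inl hz, h1.reachable⟩
  obtain ⟨ctr, par, dep, c1, c2, c3, c4, c5, c6, c7, c8, c9, c10, c11, c12⟩ :=
    Pool.Agent.Helper63.HH.vor D.N C ra hsep
  let E : Cel D C ra :=
    { ctr := ctr, par := par, dep := dep
      ctr_mem := fun v hv => (c1 v (hcomp v hv)).1
      ctr_C := c3, ctr_ctr := c4, dep_zero := c5, par_adj := c6, par_dep := c7, par_ctr := c8
      dep_min := c9, score := fun v _ c hc t h => c10 v c hc t h, ball := c11 }
  have hsc : ∀ v, E.sc v = (dep v : ℤ) - ra (ctr v) := fun v => rfl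
  -- scores
  have scup : ∀ y ∈ D.VN, E.sc y ≤ 100 * min (fd D y) (Rb D k2 y) := by
    intro y hy
    by_cases hth : 100 * Rb D k2 y < fd D y
    · obtain ⟨z, hz, -, hn⟩ := hZdom y hy hth
      have h1 := c10 y z (Or.inl hz) _ hn
      rw [hraZ z hz] at h1
      rw [hsc]
      push_cast at h1 ⊢
      omega
    · have h : fd D y < cap D := by
        by_contra h
        exact hth (hth0 y hy h).2
      obtain ⟨p, hp⟩ := fd_spec h
      have h1 := c10 y (D.x p) (Or.inr ⟨p, rfl⟩) _ hp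
      rw [hrax p] at h1
      rw [hsc]
      push_cast at h1 ⊢
      omega
  have sclow : ∀ y ∈ D.VN, - E.sc y ≤ 100 * min (fd D y) (Rb D k2 y) := by
    intro y hy
    rw [hsc]
    rcases (c1 y (hcomp y hy)).1 with hz | ⟨p, hpe⟩
    · have h1 := hZth _ hz
      have h2 := fd_lip (D := D) (c12 y).symm
      have h3 : Rb D k2 (ctr y) ≤ Rb D k2 y + dep y := Sca.Rb_le (c12 y)
      rw [hraZ _ hz]
      push_cast
      omega
    · rw [← hpe, hrax p]
      push_cast
      omega
  have scle : ∀ y ∈ D.VN, (E.sc y).natAbs ≤ 100 * min (s2 D y) (Rb D k2 y) := by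
    intro y hy
    have h1 := scup y hy
    have h2 := sclow y hy
    have h3 := hRs y
    omega
  -- depths
  have hdep : ∀ v, E.dep v ≤ 200 * Λ := by
    intro v
    by_cases h0 : E.dep v = 0
    · omega
    · have hv := Pool.Agent.Helper63.HH.dep_VN E h0
      have h1 := scle v hv
      have h2 := hΛ v hv
      have h4 : ra (ctr v) ≤ Λ := by
        rcases (c1 v (hcomp v hv)).1 with hz | ⟨p, hpe⟩
        · rw [hraZ _ hz, ← hZmin _ hz]
          exact hΛ _ (hZVN _ hz)
        · rw [← hpe, hrax p]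
          exact Nat.zero_le _
      have h5 := hsc v
      have h6 : E.dep v = dep v := rfl
      omega
  -- cycles
  have hk1 : 10 ^ 9 ≤ k := by
    have : 10 ^ 9 * 1 ≤ 10 ^ 9 * (ρ + 1) := Nat.mul_le_mul_left _ (by omega)
    omega
  have hsp : Pool.Agent.Helper63.HH.Sparse D.N (fun y => (E.sc y).natAbs) (k / 10 ^ 6) := by
    intro y W hW
    have hy : y ∈ D.VN := by
      cases W with
      | nil => exact absurd hW (by simp)
      | cons h W' => exact HD.VN_of_adj h
    have h1 := cy hD hL hB hδ (by omega) (k / 1000) (by omega) (by omega) y W hW y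
      W.start_mem_support
    have h2 := cyc_long hD hL hB hδ (by omega) y W hW
    have h3 : k * 1 ≤ k * ((δ - 1) / 2) := Nat.mul_le_mul_left _ (by omega)
    have h4 := scle y hy
    set m := min (s2 D y) (Rb D k2 y) with hm
    have h5 : k / 10 ^ 6 * ((E.sc y).natAbs + 1) ≤ k / 10 ^ 6 * (100 * m + 1) :=
      Nat.mul_le_mul_left _ (by omega)
    have h6 : k / 10 ^ 6 * (100 * m + 1) = (100 * (k / 10 ^ 6)) * m + k / 10 ^ 6 := by ring
    have h7 : (200 * (k / 10 ^ 6)) * m ≤ k / 1000 * m := Nat.mul_le_mul_right _ (by omega)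
    have h8 : (200 * (k / 10 ^ 6)) * m = 2 * ((100 * (k / 10 ^ 6)) * m) := by ring
    have h9 : 2 * (k / 10 ^ 6) ≤ k := by omega
    show k / 10 ^ 6 * ((E.sc y).natAbs + 1) < W.length
    omega
  exact vn_cells H e0 X hD hDr ρ q Λ hq2 hqk hbig Z hZVN (fun z hz => by
      have h1 := hcap z (hZVN z hz)
      rwa [hZmin z hz] at h1) (fun z hz => by
      have h1 := hΛ z (hZVN z hz)
      rwa [hZmin z hz] at h1) hZx ra hraZ hrax C rfl E hdep (k / 10 ^ 6) (by omega) hsp

end Pool.Agent.Helper63.PH
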