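import Pool.Agent.Helper63.PH.VN
import Pool.Agent.Helper63.PH.Red
import Pool.Agent.Helper63.PH.CC
import Pool.Agent.Helper63.PH.CD
import Pool.Agent.Helper63.PH.SP
import Pool.Agent.Helper63.PH.HQ

/-!
# PH-D (MP_0dbcb7_co): the final count

**t5lg.** `T5` pins without `Lg2`: `p ↦ pt1 p` is injective (`t5_inj`) and maps into `{Lg ∧ (¬ T5 ∨ Lg2)}` (`t5_A`).

**count_PH.** Constants: `A` = maximum of the constants of CC, CD, sp, hq, vn; `k1 = 10^3 (A + 1)^3` (say), `ρ = 2 (B + 4)`, `K = 10^20 (k1 + 1) (ρ + 1)` in `Wk`,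
`k = 10^9 (k1 + 1) (ρ + 1)` in `BadH` (`badH_of_wk`; pins are long: `Long D (s ^ 8)`), `q = s`, `k2 = s ^ 4`, `δ = s ^ 8 = D.Kh * D.r`.
Scales: by `gr1`, `gr2` all `sg p`, and `rho p` for `T5` pins, are `< 2 ^ J0` with `2 ^ J0 ≤ s ^ (B + 1)` for `s ≥ s0`, and all `|wq q| ≤ D.L`; so `j < J0`, and the
number `J0` of scales is `≤ s` (for `s ≥ s0`). `hbig` holds for all these `j` with `q = s`: `24 (4 ((4 ρ + 1) (4 * 2 ^ (j + 14))) + 1) < s ^ ρ`. For `vn` take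
`Λ = 2 ^ J0` (`gr`), `min (s2 y) (Rb y) ≤ |V| + L < cap`.
`M := ∑ a ∈ U, deg a = #P + 2 #Q` (`hD.hub_sum`; every pin and every end of a `Q`-thread is at one hub), `|U| s ^ 8 ≤ M` (`hD.hub_deg`), `1 ≤ |U|`.
`∑_j 2 ^ j |UL j| = ∑_a ∑_(j : k1 2 ^ j < deg a) 2 ^ j ≤ ∑_a 2 deg a / k1`, so `k1 ∑_j 2 ^ j |UL j| ≤ 2 M`.
`vn`: `|Vb| ≤ A s #P ≤ A s M`, so `|Vb| / (k2 + 1) ≤ A M / s ^ 3`.
`#(Lg) ≤ 2 (∑_j CC_j + ∑_j CD_j)` (t5lg), `#(¬ Lg) = ∑_j sp_j`, `#XX ≤ #(Lg)` (`xx_inj`), `#Q = ∑_j hq_j`. Sum: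
`M ≤ #P + 2 #Q ≤ C A (∑_j 2 ^ j |UL j|) + C A J0 (s |U| + |Vb| / (k2 + 1) + 1) ≤ C A (2 M / k1) + C A^2 s (s M / s ^ 8 + M / s ^ 3 + 1) < M`.
-/

set_option autoImplicit false

open Set
open Pool.Agent.Helper83.OP Pool.Agent.Helper93.HH Pool.Agent.Helper95.HH Pool.Agent.Helper23.PL

namespace Pool.Agent.Helper63.PH

private theorem numeric (A s K2 k1 J M u nb S X Y Z l xx p q : ℝ) (hA : 1 ≤ A)
    (hM : 0 < M) (hu0 : 0 ≤ u) (hJ0 : 0 ≤ J) (hnb0 : 0 ≤ nb) (hq0 : 0 ≤ q)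
    (hs : 100 * A ^ 2 ≤ s) (hk1 : 100 * A ≤ k1) (hJ : J ≤ s) (hK2 : s ^ 4 ≤ K2)
    (hu : s ^ 8 * u ≤ M) (hnb : nb ≤ A * s * p) (hS0 : 0 ≤ S) (hS : k1 * S ≤ 2 * M)
    (hX : K2 * X ≤ A * (K2 * (S + J * u) + J * nb))
    (hY : K2 * Y ≤ A * (K2 * (S + J * u) + J * nb)) (hl : l ≤ 2 * (X + Y))
    (hZ : K2 * Z ≤ A * (K2 * (S + J * (s * u)) + J * nb) + K2 * xx) (hxx : xx ≤ l)
    (hq : q ≤ A * (S + J * (s * u))) (hp : p ≤ l + Z) (hMpq : M = p + 2 * q) : False := by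
  have hA0 : 0 < A := by linarith
  have hA2 : 1 ≤ A ^ 2 := one_le_pow₀ hA
  have hAA : A ≤ A ^ 2 := le_self_pow₀ hA (by norm_num)
  have hs1 : 1 ≤ s := by linarith
  have hs0 : 0 < s := by linarith
  have hs4 : 1 ≤ s ^ 4 := one_le_pow₀ hs1
  have hK0 : 0 < K2 := by linarith
  obtain ⟨w, hw⟩ : ∃ w, w = nb / K2 := ⟨_, rfl⟩
  have hw0 : 0 ≤ w := by rw [hw]; positivity
  have hwK : K2 * w = nb := by rw [hw]; field_simp
  obtain ⟨T, hT⟩ : ∃ T, T = S + J * (s * u) + J * w := ⟨_, rfl⟩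
  have hus : u ≤ s * u := by nlinarith
  have hJu : J * u ≤ J * (s * u) := mul_le_mul_of_nonneg_left hus hJ0
  have hJw : 0 ≤ J * w := by positivity
  have eX : X ≤ A * T := by
    have : K2 * X ≤ K2 * (A * T) := by
      calc K2 * X ≤ A * (K2 * (S + J * u) + J * nb) := hX
        _ = K2 * (A * (S + J * u + J * w)) := by rw [← hwK]; ring
        _ ≤ K2 * (A * T) := by
          apply mul_le_mul_of_nonneg_left _ hK0.le
          apply mul_le_mul_of_nonneg_left _ hA0.le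
          rw [hT]
          linarith
    exact le_of_mul_le_mul_left this hK0
  have eY : Y ≤ A * T := by
    have : K2 * Y ≤ K2 * (A * T) := by
      calc K2 * Y ≤ A * (K2 * (S + J * u) + J * nb) := hY
        _ = K2 * (A * (S + J * u + J * w)) := by rw [← hwK]; ring
        _ ≤ K2 * (A * T) := by
          apply mul_le_mul_of_nonneg_left _ hK0.le
          apply mul_le_mul_of_nonneg_left _ hA0.le
          rw [hT]
          linarith
    exact le_of_mul_le_mul_left this hK0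
  have eZ : Z ≤ A * T + xx := by
    have : K2 * Z ≤ K2 * (A * T + xx) := by
      calc K2 * Z ≤ A * (K2 * (S + J * (s * u)) + J * nb) + K2 * xx := hZ
        _ = K2 * (A * (S + J * (s * u) + J * w) + xx) := by rw [← hwK]; ring
        _ = K2 * (A * T + xx) := by rw [hT]
    exact le_of_mul_le_mul_left this hK0
  have eq : q ≤ A * T := by
    refine hq.trans (mul_le_mul_of_nonneg_left ?_ hA0.le)
    rw [hT]
    linarith
  have hMT : M ≤ 11 * (A * T) := by linarith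
  have hpM : p ≤ M := by linarith
  -- the three terms
  have t1 : A * S ≤ M / 50 := by
    have : 100 * A * S ≤ k1 * S := mul_le_mul_of_nonneg_right hk1 hS0
    linarith
  have hs100 : 100 * A ≤ s := by linarith
  have t2 : A * (J * (s * u)) ≤ M / 100 := by
    have r1 : J * (s * u) ≤ s * (s * u) := mul_le_mul_of_nonneg_right hJ (by positivity)
    have r2 : 100 * A * (s * (s * u)) ≤ s * (s * (s * u)) :=
      mul_le_mul_of_nonneg_right hs100 (by positivity)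
    have r3 : s * (s * (s * u)) ≤ s ^ 8 * u := by
      have : s ^ 3 ≤ s ^ 8 := pow_le_pow_right₀ hs1 (by norm_num)
      calc s * (s * (s * u)) = s ^ 3 * u := by ring
        _ ≤ _ := mul_le_mul_of_nonneg_right this hu0
    have r4 : A * (J * (s * u)) ≤ A * (s * (s * u)) := mul_le_mul_of_nonneg_left r1 hA0.le
    linarith
  have t3 : A * (J * w) ≤ M / 100 := by
    have r1 : J * w ≤ s * w := mul_le_mul_of_nonneg_right hJ hw0
    have r2 : s ^ 4 * w ≤ A * s * M := by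
      calc s ^ 4 * w ≤ K2 * w := mul_le_mul_of_nonneg_right hK2 hw0
        _ = nb := hwK
        _ ≤ A * s * p := hnb
        _ ≤ A * s * M := mul_le_mul_of_nonneg_left hpM (by positivity)
    have r3 : s * (s * w) * s ≤ A * M := by
      have : s * (s * (s * w) * s) ≤ s * (A * M) := by
        calc s * (s * (s * w) * s) = s ^ 4 * w := by ring
          _ ≤ A * s * M := r2
          _ = _ := by ring
      exact le_of_mul_le_mul_left this hs0
    have r4 : s * w * 1 ≤ s * w * s := mul_le_mul_of_nonneg_left hs1 (by positivity)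
    have r5 : s * w * (100 * A ^ 2) ≤ s * w * s := mul_le_mul_of_nonneg_left hs (by positivity)
    have r6 : s * (s * w) ≤ A * M := by
      have : s * (s * w) * 1 ≤ s * (s * w) * s := mul_le_mul_of_nonneg_left hs1 (by positivity)
      linarith
    have r7 : A * (100 * (A * (s * w))) ≤ A * M := by
      calc A * (100 * (A * (s * w))) = s * w * (100 * A ^ 2) := by ring
        _ ≤ s * w * s := r5
        _ = s * (s * w) := by ring
        _ ≤ A * M := r6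
    have r8 : 100 * (A * (s * w)) ≤ M := le_of_mul_le_mul_left r7 hA0
    have r9 : A * (J * w) ≤ A * (s * w) := mul_le_mul_of_nonneg_left r1 hA0.le
    linarith
  have hAT : A * T = A * S + A * (J * (s * u)) + A * (J * w) := by rw [hT]; ring
  linarith

private theorem ev_pow (c d : ℕ) : ∃ s0 : ℕ, ∀ s, s0 ≤ s → d * s ^ c < 2 ^ s := by
  have h := tendsto_pow_const_div_const_pow_of_one_lt c (r := (2 : ℝ)) (by norm_num)
  have h1 := h.eventually_lt_const (u := 1 / ((d : ℝ) + 1)) (by positivity)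
  obtain ⟨s0, hs⟩ := Filter.eventually_atTop.1 h1
  refine ⟨s0, fun s hs0 => ?_⟩
  have h2 := hs s hs0
  rw [div_lt_div_iff₀ (by positivity) (by positivity), one_mul] at h2
  have h3 : ((s ^ c * (d + 1) : ℕ) : ℝ) < ((2 ^ s : ℕ) : ℝ) := by
    push_cast
    exact h2
  have h4 := Nat.cast_lt.1 h3
  calc d * s ^ c = s ^ c * d := mul_comm _ _
    _ ≤ s ^ c * (d + 1) := Nat.mul_le_mul_left _ (Nat.le_succ _)
    _ < _ := h4

private theorem geo (k1 d n : ℕ) :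
    k1 * ∑ j ∈ Finset.range n, (if k1 * 2 ^ j < d then 2 ^ j else 0) ≤ 2 * d := by
  have h1 : ∀ n, ∑ j ∈ Finset.range n, (if k1 * 2 ^ j < d then 2 ^ j else 0) + 1 ≤ 2 ^ n := by
    intro n
    induction n with
    | zero => simp
    | succ n ih =>
      rw [Finset.sum_range_succ, pow_succ]
      split_ifs <;> omega
  induction n with
  | zero => simp
  | succ n ih =>
    by_cases h : k1 * 2 ^ n < d
    · have h2 := h1 (n + 1)
      calc k1 * ∑ j ∈ Finset.range (n + 1), (if k1 * 2 ^ j < d then 2 ^ j else 0)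
          ≤ k1 * 2 ^ (n + 1) := Nat.mul_le_mul_left _ (by omega)
        _ = 2 * (k1 * 2 ^ n) := by ring
        _ ≤ 2 * d := by omega
    · rw [Finset.sum_range_succ, if_neg h, add_zero]
      exact ih

private theorem ncard_le_sum {P : Type} [Finite P] (S : Set P) (f : P → ℕ) (m : ℕ)
    (h : ∀ p ∈ S, f p < m) : S.ncard ≤ ∑ j ∈ Finset.range m, {p | p ∈ S ∧ f p = j}.ncard := by
  classical
  have := Fintype.ofFinite P
  rw [Set.ncard_eq_toFinset_card' S,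
    Finset.card_eq_sum_card_fiberwise (f := f) (t := Finset.range m)
      (fun p hp => by
        have hp' : p ∈ S := by simpa using hp
        simpa using h p hp')]
  refine Finset.sum_le_sum fun j _ => ?_
  rw [Set.ncard_eq_toFinset_card']
  refine Finset.card_le_card fun p hp => ?_
  rw [Finset.mem_filter, Set.mem_toFinset] at hp
  rw [Set.mem_toFinset]
  exact hp

private theorem sum_le_ncard {P : Type} [Finite P] (S : Set P) (f : P → ℕ) (m : ℕ) :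
    ∑ j ∈ Finset.range m, {p | p ∈ S ∧ f p = j}.ncard ≤ S.ncard := by
  classical
  have := Fintype.ofFinite P
  have h1 : ∑ j ∈ Finset.range m, {p | p ∈ S ∧ f p = j}.ncard =
      ∑ j ∈ Finset.range m, ((S.toFinset).filter fun p => f p = j).card := by
    refine Finset.sum_congr rfl fun j _ => ?_
    rw [Set.ncard_eq_toFinset_card']
    congr 1
    ext p
    simp
  rw [h1, Set.ncard_eq_toFinset_card' S, ← Finset.card_biUnion]
  · exact Finset.card_le_card (Finset.biUnion_subset.2 fun j _ => Finset.filter_subset _ _)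
  · intro i _ j _ hij
    rw [Function.onFun, Finset.disjoint_left]
    intro p hp hp'
    exact hij ((Finset.mem_filter.1 hp).2.symm.trans (Finset.mem_filter.1 hp').2)

private theorem card_sum {V S : Type} [Finite S] (Us : Finset V) (f : S → V)
    (h : ∀ s, f s ∈ Us) : ∑ a ∈ Us, {s | f s = a}.ncard = Nat.card S := by
  classical
  have := Fintype.ofFinite S
  rw [Nat.card_eq_fintype_card, ← Finset.card_univ,
    Finset.card_eq_sum_card_fiberwise (f := f) (s := Finset.univ) (t := Us) (fun s _ => h s)]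
  refine Finset.sum_congr rfl fun a _ => ?_
  rw [Set.ncard_eq_toFinset_card']
  congr 1
  ext s
  simp

private theorem card_split {P : Type} [Finite P] (R : P → Prop) :
    Nat.card P ≤ {p | R p}.ncard + {p | ¬ R p}.ncard := by
  rw [← Set.ncard_univ]
  have : (Set.univ : Set P) ⊆ {p | R p} ∪ {p | ¬ R p} := fun p _ => by
    by_cases h : R p
    · exact Or.inl h
    · exact Or.inr h
  exact (Set.ncard_le_ncard this (Set.toFinite _)).trans (Set.ncard_union_le _ _)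

private theorem sumA (J A K2 u nb : ℕ) (a : ℕ → ℕ) :
    ∑ j ∈ Finset.range J, A * (K2 * (a j + u) + nb) =
      A * (K2 * (∑ j ∈ Finset.range J, a j + J * u) + J * nb) := by
  rw [← Finset.mul_sum, Finset.sum_add_distrib, ← Finset.mul_sum, Finset.sum_add_distrib,
    Finset.sum_const, Finset.sum_const, Finset.card_range, smul_eq_mul, smul_eq_mul]

/-- **PH-D2.** -/
theorem count_PH (B : ℕ) : ∃ K s0 : ℕ, ∀ (V P Q : Type) [Finite V] [Finite P] [Finite Q]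
    (D : HD V P Q) (H : SimpleGraph V) (e0 : Sym2 V) (X : Sym2 V → Sym2 V → Prop) (s : ℕ), D.Ok →
    GOk D → D.U.Nonempty → D.Dr H e0 X → s0 ≤ s → D.Kh * D.r = s ^ 8 → D.L ≤ s ^ B →
    Long D (s ^ 8) → ¬ Wk D K (s ^ 4) := by
  classical
  obtain ⟨A1, hCC⟩ := CC
  obtain ⟨A2, hCD⟩ := CDx.CD
  obtain ⟨A3, hSP⟩ := sp
  obtain ⟨A4, hHQ⟩ := hq
  obtain ⟨A5, hVN⟩ := vn
  obtain ⟨A, hA⟩ : ∃ A, A = A1 + A2 + A3 + A4 + A5 + 1 := ⟨_, rfl⟩
  have hA1 : A1 ≤ A := by omega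
  have hA2 : A2 ≤ A := by omega
  have hA3 : A3 ≤ A := by omega
  have hA4 : A4 ≤ A := by omega
  have hA5 : A5 ≤ A := by omega
  have hApos : 1 ≤ A := by omega
  obtain ⟨k1, hk1⟩ : ∃ k1, k1 = 100 * A := ⟨_, rfl⟩
  obtain ⟨ρ, hρ⟩ : ∃ ρ, ρ = B + 4 := ⟨_, rfl⟩
  obtain ⟨k, hk⟩ : ∃ k, k = 10 ^ 9 * (k1 + 1) * (ρ + 1) := ⟨_, rfl⟩
  obtain ⟨c, hc⟩ : ∃ c, c = 24 * (4 * ((4 * ρ + 1) * (4 * 2 ^ 14)) + 1) := ⟨_, rfl⟩
  obtain ⟨s1, hs1⟩ := ev_pow (B + 2) 1
  obtain ⟨s2, hs2⟩ := ev_pow 12 (2 ^ 14)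
  refine ⟨10 ^ 6 * (k + 1), s1 + s2 + c + 100 * A ^ 2 + 100, ?_⟩
  intro V P Q _ _ _ D H e0 X s hD hG hU hDr hs hKr hL hLo hW
  have := Fintype.ofFinite V
  have := Fintype.ofFinite P
  have := Fintype.ofFinite Q
  have hsA : 100 * A ^ 2 ≤ s := by omega
  have hsc : c ≤ s := by omega
  have hs100 : 100 ≤ s := by omega
  have hs1' := hs1 s (by omega)
  have hs2' := hs2 s (by omega)
  rw [one_mul] at hs1'
  have hs8 : s ≤ s ^ 8 := Nat.le_self_pow (by norm_num) s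
  have hs4 : s ≤ s ^ 4 := Nat.le_self_pow (by norm_num) s
  have hB : BadH D k (s ^ 4) := badH_of_wk hD (fun p => by
    have := hLo.w p
    omega) hW le_rfl
  -- conditions on k
  have hk9 : 10 ^ 9 * (k1 + 1) * (ρ + 1) ≤ k := hk.ge
  have hk6ρ : 10 ^ 6 * (k1 + 1) * (ρ + 1) ≤ k := by
    rw [hk]
    exact Nat.mul_le_mul_right _ (Nat.mul_le_mul_right _ (by norm_num))
  have hk6 : 10 ^ 6 * (k1 + 1) ≤ k := (Nat.le_mul_of_pos_right _ (by omega)).trans hk6ρ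
  have hkρ : 10 ^ 9 * (ρ + 1) ≤ k := by
    rw [hk]
    exact Nat.mul_le_mul_right _ (Nat.le_mul_of_pos_right _ (by omega))
  have hk100 : 100 * (k1 + 1) ≤ k := (Nat.mul_le_mul_right _ (by norm_num)).trans hk6
  have hk4 : 10 ^ 4 ≤ k := by
    refine le_trans ?_ hk6
    calc 10 ^ 4 ≤ 10 ^ 6 * 1 := by norm_num
      _ ≤ _ := Nat.mul_le_mul_left _ (Nat.succ_le_succ (Nat.zero_le _))
  have hk100' : 100 ≤ k := le_trans (by norm_num) hk4
  have hδ : 3 ≤ s ^ 8 := by omega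
  have hk2 : 1 ≤ s ^ 4 := by omega
  have hF : ∀ p, min (e1 D p) (Rb D (s ^ 4) (D.x p)) < cap D := fun p =>
    finH hD hLo hB hδ hk2 hk4 p
  -- scales
  obtain ⟨Λ, hΛ⟩ : ∃ Λ, Λ = s ^ (B + 1) := ⟨_, rfl⟩
  have hΛ1 : 1 ≤ Λ := by
    rw [hΛ]
    exact Nat.one_le_pow _ _ (by omega)
  obtain ⟨Y0, hY0⟩ : ∃ Y0, Y0 = s ^ (B + 2) := ⟨_, rfl⟩
  have hYΛ : Y0 = s * Λ := by
    rw [hY0, hΛ, pow_succ s (B + 1), mul_comm]
  have hY1 : 1 ≤ Y0 := by
    rw [hY0]
    exact Nat.one_le_pow _ _ (by omega)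
  have hΛY : 100 * Λ ≤ Y0 := by
    rw [hYΛ]
    exact Nat.mul_le_mul_right _ hs100
  have hLL : D.L * (Nat.log 2 (D.Kh * D.r * (s ^ 4 + 1) + 2) + 12) ≤ Λ := by
    have e1 : s ^ 8 * (s ^ 4 + 1) + 2 ≤ 4 * s ^ 12 := by
      have f1 : s ^ 8 * (s ^ 4 + 1) = s ^ 12 + s ^ 8 := by ring
      have f2 : s ^ 8 ≤ s ^ 12 := Nat.pow_le_pow_right (by omega) (by norm_num)
      omega
    have e0 : 14 < s := by omega
    have e2 : 4 * s ^ 12 < 2 ^ (s - 12) := by
      have f1 : 2 ^ s = 2 ^ (s - 12) * 2 ^ 12 := by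
        rw [← pow_add]
        congr 1
        omega
      have f2 : (2 : ℕ) ^ 12 = 4096 := by norm_num
      have f3 : (2 : ℕ) ^ 14 = 16384 := by norm_num
      rw [f1, f2] at hs2'
      rw [f3] at hs2'
      omega
    have e3 : Nat.log 2 (D.Kh * D.r * (s ^ 4 + 1) + 2) < s - 12 := by
      rw [hKr]
      exact Nat.log_lt_of_lt_pow (by omega) (lt_of_le_of_lt e1 e2)
    calc D.L * (Nat.log 2 (D.Kh * D.r * (s ^ 4 + 1) + 2) + 12) ≤ s ^ B * s :=
          Nat.mul_le_mul hL (by omega)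
      _ = Λ := by rw [hΛ, pow_succ]
  obtain ⟨J, hJ⟩ : ∃ J, J = Nat.log 2 Y0 + 1 := ⟨_, rfl⟩
  have hJs : J ≤ s := by
    have : Nat.log 2 Y0 < s := Nat.log_lt_of_lt_pow (by omega) (by rw [hY0]; exact hs1')
    omega
  have hJlog : ∀ x, x ≤ Y0 → Nat.log 2 x < J := fun x hx => by
    have := Nat.log_mono_right (b := 2) hx
    omega
  have hJpow : ∀ j, j < J → 2 ^ j ≤ Y0 := fun j hj =>
    (Nat.pow_le_pow_right (by norm_num) (by omega)).trans (Nat.pow_log_le_self 2 (by omega))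
  have hsg : ∀ p, Nat.log 2 (sg D (s ^ 4) p) < J := fun p => hJlog _ (by
    have h1 := (gr1 hD hLo hB hδ hk2 hk4 p).trans hLL
    omega)
  have hrho : ∀ p, T5 D k (s ^ 4) p → Nat.log 2 (rho D (s ^ 4) p) < J := fun p hp => hJlog _ (by
    have h1 := gr2 hD hLo hB hδ hk2 hk4 p hp
    omega)
  have hwq : ∀ q, Nat.log 2 (D.wq q).length < J := fun q => hJlog _ (by
    have h1 := (hD.wq_le q).trans hL
    have h2 : s ^ B ≤ s ^ (B + 2) := Nat.pow_le_pow_right (by omega) (by omega)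
    omega)
  have hbig : ∀ x, x ≤ 4 * 2 ^ 14 * Y0 → 24 * (4 * ((4 * ρ + 1) * x) + 1) < s ^ ρ := by
    intro x hx
    have f1 : (4 * ρ + 1) * x ≤ (4 * ρ + 1) * (4 * 2 ^ 14 * Y0) := Nat.mul_le_mul_left _ hx
    have f2 : 24 * (4 * ((4 * ρ + 1) * (4 * 2 ^ 14 * Y0)) + 1) ≤ c * Y0 := by
      calc 24 * (4 * ((4 * ρ + 1) * (4 * 2 ^ 14 * Y0)) + 1) ≤
            24 * (4 * ((4 * ρ + 1) * (4 * 2 ^ 14 * Y0)) + Y0) :=
            Nat.mul_le_mul_left _ (Nat.add_le_add_left hY1 _)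
        _ = c * Y0 := by rw [hc]; ring
    calc 24 * (4 * ((4 * ρ + 1) * x) + 1) ≤
          24 * (4 * ((4 * ρ + 1) * (4 * 2 ^ 14 * Y0)) + 1) :=
          Nat.mul_le_mul_left _ (Nat.add_le_add_right (Nat.mul_le_mul_left _ f1) _)
      _ ≤ c * Y0 := f2
      _ ≤ s * Y0 := Nat.mul_le_mul_right _ hsc
      _ < s * (s * Y0) := Nat.mul_lt_mul_of_pos_left
          ((Nat.lt_mul_iff_one_lt_left (by omega)).2 (by omega)) (by omega)
      _ = s ^ ρ := by rw [hρ, hY0]; ring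
  have hbig1 : ∀ j, j < J → 24 * (4 * ((4 * ρ + 1) * (4 * 2 ^ (j + 14))) + 1) < s ^ ρ := by
    intro j hj
    refine hbig _ ?_
    calc 4 * 2 ^ (j + 14) = 4 * 2 ^ 14 * 2 ^ j := by rw [pow_add]; ring
      _ ≤ _ := Nat.mul_le_mul_left _ (hJpow j hj)
  have hbig2 : ∀ j, j < J → 24 * (4 * ((4 * ρ + 1) * 2 ^ (j + 1)) + 1) < s ^ ρ := by
    intro j hj
    refine hbig _ ?_
    calc 2 ^ (j + 1) = 2 * 2 ^ j := by rw [pow_succ]; ring
      _ ≤ 4 * 2 ^ 14 * 2 ^ j := Nat.mul_le_mul_right _ (by norm_num)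
      _ ≤ _ := Nat.mul_le_mul_left _ (hJpow j hj)
  have hbig3 : 24 * (4 * ((4 * ρ + 1) * (1000 * (Λ + 1))) + 1) < s ^ ρ := by
    refine hbig _ ?_
    have e1 : Λ + 1 ≤ Y0 := by omega
    calc 1000 * (Λ + 1) ≤ 1000 * Y0 := Nat.mul_le_mul_left _ e1
      _ ≤ 4 * 2 ^ 14 * Y0 := Nat.mul_le_mul_right _ (by norm_num)
  -- the branch vertices
  have hV1 : 1 ≤ Nat.card V := by
    obtain ⟨a, -⟩ := hU
    have : Nonempty V := ⟨a⟩
    exact Nat.card_pos
  have hnb : (Vb D).ncard ≤ A * s * Nat.card P := by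
    have h8 : 8 * s ≤ s ^ 4 := by
      calc 8 * s ≤ s * s := Nat.mul_le_mul_right _ (by omega)
        _ = s ^ 2 := by ring
        _ ≤ s ^ 4 := Nat.pow_le_pow_right (by omega) (by norm_num)
    have h1 := hVN V P Q D H e0 X k (s ^ 4) (s ^ 8) ρ s Λ hD hDr hLo hB hδ (by omega) h8 hkρ
      (fun y hy => ((gr hD hLo hB hδ hk2 hk4 y hy).2).trans hLL)
      (fun y hy => by
        have h2 := (gr hD hLo hB hδ hk2 hk4 y hy).1
        have h3 : cap D = 1000 * (Nat.card V + D.L) := rfl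
        omega) hbig3
    exact h1.trans (Nat.mul_le_mul_right _ (Nat.mul_le_mul_right _ hA5))
  -- the sum of the degrees
  obtain ⟨Us, hUs⟩ : ∃ Us : Finset V, ∀ a, a ∈ Us ↔ a ∈ D.U := ⟨D.U.toFinset, fun a => by simp⟩
  have hUc : D.U.ncard = Us.card := by
    rw [← Set.ncard_coe_finset]
    congr 1
    ext a
    exact (hUs a).symm
  obtain ⟨M, hM⟩ : ∃ M, M = ∑ a ∈ Us, deg D.G a := ⟨_, rfl⟩
  have hMpq : M = Nat.card P + 2 * Nat.card Q := by
    rw [hM, Finset.sum_congr rfl (fun a ha => hD.hub_sum a ((hUs a).1 ha)),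
      Finset.sum_add_distrib, Finset.sum_add_distrib,
      card_sum Us D.hub (fun p => (hUs _).2 (hD.hub_U p)),
      card_sum Us D.ha (fun q => (hUs _).2 (hD.ha_U q)),
      card_sum Us D.hb (fun q => (hUs _).2 (hD.hb_U q))]
    ring
  have hMu : s ^ 8 * D.U.ncard ≤ M := by
    rw [hM, hUc, mul_comm, ← smul_eq_mul, ← Finset.sum_const]
    refine Finset.sum_le_sum fun a ha => ?_
    rw [← hKr]
    exact (hD.hub_deg a ((hUs a).1 ha)).le
  have hupos : 1 ≤ D.U.ncard := (Set.ncard_pos (Set.toFinite _)).2 hU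
  have hMpos : 1 ≤ M := le_trans (Nat.mul_pos (by omega) hupos) hMu
  obtain ⟨S, hS⟩ : ∃ S, S = ∑ j ∈ Finset.range J, 2 ^ j * (UL D k1 j).ncard := ⟨_, rfl⟩
  have hSM : k1 * S ≤ 2 * M := by
    have e1 : ∀ j, 2 ^ j * (UL D k1 j).ncard =
        ∑ a ∈ Us, if k1 * 2 ^ j < deg D.G a then 2 ^ j else 0 := by
      intro j
      have e2 : (UL D k1 j).ncard = (Us.filter fun a => k1 * 2 ^ j < deg D.G a).card := by
        rw [← Set.ncard_coe_finset]
        congr 1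
        ext a
        rw [Finset.mem_coe, Finset.mem_filter, hUs]
        rfl
      rw [e2, ← Finset.sum_filter, Finset.sum_const, smul_eq_mul, mul_comm]
    rw [hS, Finset.sum_congr rfl (fun j _ => e1 j), Finset.sum_comm, Finset.mul_sum, hM,
      Finset.mul_sum]
    exact Finset.sum_le_sum fun a _ => geo k1 (deg D.G a) J
  -- the classes
  obtain ⟨SX, hSX⟩ : ∃ SX : Set P, SX = {p | Lg D k1 (s ^ 4) p ∧ ¬ T5 D k (s ^ 4) p} := ⟨_, rfl⟩
  obtain ⟨SY, hSY⟩ : ∃ SY : Set P, SY = {p | T5 D k (s ^ 4) p ∧ Lg2 D k1 (s ^ 4) p} := ⟨_, rfl⟩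
  obtain ⟨SA, hSA⟩ : ∃ SA : Set P,
      SA = {p | Lg D k1 (s ^ 4) p ∧ (¬ T5 D k (s ^ 4) p ∨ Lg2 D k1 (s ^ 4) p)} := ⟨_, rfl⟩
  obtain ⟨SL, hSL⟩ : ∃ SL : Set P, SL = {p | Lg D k1 (s ^ 4) p} := ⟨_, rfl⟩
  obtain ⟨SZ, hSZ⟩ : ∃ SZ : Set P, SZ = {p | ¬ Lg D k1 (s ^ 4) p} := ⟨_, rfl⟩
  have bX : (s ^ 4 + 1) * SX.ncard ≤
      A * ((s ^ 4 + 1) * (S + J * D.U.ncard) + J * (Vb D).ncard) := by
    have e1 := ncard_le_sum SX (fun p => Nat.log 2 (sg D (s ^ 4) p)) J (fun p _ => hsg p)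
    have e2 : ∀ j ∈ Finset.range J,
        (s ^ 4 + 1) * {p | p ∈ SX ∧ Nat.log 2 (sg D (s ^ 4) p) = j}.ncard ≤
        A * ((s ^ 4 + 1) * (2 ^ j * (UL D k1 j).ncard + D.U.ncard) + (Vb D).ncard) := by
      intro j _
      have e3 := hCC V P Q D H e0 X k k1 (s ^ 4) j (s ^ 8) hD hDr hLo hKr.le hB hF hk6
      have e4 : {p | p ∈ SX ∧ Nat.log 2 (sg D (s ^ 4) p) = j} =
          {p | Lg D k1 (s ^ 4) p ∧ ¬ T5 D k (s ^ 4) p ∧ Nat.log 2 (sg D (s ^ 4) p) = j} := by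
        ext p
        rw [hSX]
        constructor
        · rintro ⟨⟨a, b⟩, c⟩
          exact ⟨a, b, c⟩
        · rintro ⟨a, b, c⟩
          exact ⟨⟨a, b⟩, c⟩
      rw [e4]
      exact e3.trans (Nat.mul_le_mul_right _ hA1)
    calc (s ^ 4 + 1) * SX.ncard ≤ (s ^ 4 + 1) *
          ∑ j ∈ Finset.range J, {p | p ∈ SX ∧ Nat.log 2 (sg D (s ^ 4) p) = j}.ncard :=
          Nat.mul_le_mul_left _ e1
      _ = ∑ j ∈ Finset.range J,
          (s ^ 4 + 1) * {p | p ∈ SX ∧ Nat.log 2 (sg D (s ^ 4) p) = j}.ncard := Finset.mul_sum _ _ _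
      _ ≤ ∑ j ∈ Finset.range J,
          A * ((s ^ 4 + 1) * (2 ^ j * (UL D k1 j).ncard + D.U.ncard) + (Vb D).ncard) :=
          Finset.sum_le_sum e2
      _ = _ := by rw [sumA, ← hS]
  have bY : (s ^ 4 + 1) * SY.ncard ≤
      A * ((s ^ 4 + 1) * (S + J * D.U.ncard) + J * (Vb D).ncard) := by
    have e1 := ncard_le_sum SY (fun p => Nat.log 2 (rho D (s ^ 4) p)) J
      (fun p hp => hrho p (by rw [hSY] at hp; exact hp.1))
    have e2 : ∀ j ∈ Finset.range J,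
        (s ^ 4 + 1) * {p | p ∈ SY ∧ Nat.log 2 (rho D (s ^ 4) p) = j}.ncard ≤
        A * ((s ^ 4 + 1) * (2 ^ j * (UL D k1 j).ncard + D.U.ncard) + (Vb D).ncard) := by
      intro j _
      have e3 := hCD V P Q D H e0 X k k1 (s ^ 4) j (s ^ 8) hD hDr hLo hKr.le hB hF hk6
      have e4 : {p | p ∈ SY ∧ Nat.log 2 (rho D (s ^ 4) p) = j} =
          {p | T5 D k (s ^ 4) p ∧ Lg2 D k1 (s ^ 4) p ∧ Nat.log 2 (rho D (s ^ 4) p) = j} := by
        ext p
        rw [hSY]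
        constructor
        · rintro ⟨⟨a, b⟩, c⟩
          exact ⟨a, b, c⟩
        · rintro ⟨a, b, c⟩
          exact ⟨⟨a, b⟩, c⟩
      rw [e4]
      exact e3.trans (Nat.mul_le_mul_right _ hA2)
    calc (s ^ 4 + 1) * SY.ncard ≤ (s ^ 4 + 1) *
          ∑ j ∈ Finset.range J, {p | p ∈ SY ∧ Nat.log 2 (rho D (s ^ 4) p) = j}.ncard :=
          Nat.mul_le_mul_left _ e1
      _ = ∑ j ∈ Finset.range J,
          (s ^ 4 + 1) * {p | p ∈ SY ∧ Nat.log 2 (rho D (s ^ 4) p) = j}.ncard := Finset.mul_sum _ _ _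
      _ ≤ ∑ j ∈ Finset.range J,
          A * ((s ^ 4 + 1) * (2 ^ j * (UL D k1 j).ncard + D.U.ncard) + (Vb D).ncard) :=
          Finset.sum_le_sum e2
      _ = _ := by rw [sumA, ← hS]
  have bA : SA.ncard ≤ SX.ncard + SY.ncard := by
    refine (Set.ncard_le_ncard (t := SX ∪ SY) ?_ (Set.toFinite _)).trans (Set.ncard_union_le _ _)
    intro p hp
    rw [hSA] at hp
    by_cases h : T5 D k (s ^ 4) p
    · right
      rw [hSY]
      exact ⟨h, hp.2.resolve_left (fun h' => h' h)⟩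
    · left
      rw [hSX]
      exact ⟨hp.1, h⟩
  have bT : {p | T5 D k (s ^ 4) p ∧ ¬ Lg2 D k1 (s ^ 4) p}.ncard ≤ SA.ncard := by
    refine Set.ncard_le_ncard_of_injOn (pt1 D) ?_ ?_ (Set.toFinite _)
    · rintro p ⟨h5, h6⟩
      rw [hSA]
      exact t5_A hD hB hk100 h5 h6
    · rintro p ⟨h5, h6⟩ p' ⟨h5', h6'⟩ h8
      exact t5_inj hD hB hk100' h5 h5' h8
  have bL : SL.ncard ≤ 2 * (SX.ncard + SY.ncard) := by
    have e1 : SL.ncard ≤ SA.ncard + {p | T5 D k (s ^ 4) p ∧ ¬ Lg2 D k1 (s ^ 4) p}.ncard := by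
      refine (Set.ncard_le_ncard (t := SA ∪ {p | T5 D k (s ^ 4) p ∧ ¬ Lg2 D k1 (s ^ 4) p}) ?_
        (Set.toFinite _)).trans (Set.ncard_union_le _ _)
      intro p hp
      rw [hSL] at hp
      by_cases h : ¬ T5 D k (s ^ 4) p ∨ Lg2 D k1 (s ^ 4) p
      · left
        rw [hSA]
        exact ⟨hp, h⟩
      · right
        push Not at h
        exact h
    omega
  have bXX : (XX D k1 (s ^ 4)).ncard ≤ SL.ncard := by
    refine Set.ncard_le_ncard_of_injOn (pt1 D) ?_ ?_ (Set.toFinite _)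
    · intro p hp
      rw [hSL]
      exact hp.2.2
    · intro p hp p' hp' h8
      exact xx_inj hD hB hF hk100' hp hp' h8
  have bZ : (s ^ 4 + 1) * SZ.ncard ≤
      A * ((s ^ 4 + 1) * (S + J * (s * D.U.ncard)) + J * (Vb D).ncard) +
        (s ^ 4 + 1) * (XX D k1 (s ^ 4)).ncard := by
    have e1 := ncard_le_sum SZ (fun p => Nat.log 2 (sg D (s ^ 4) p)) J (fun p _ => hsg p)
    have e2 : ∀ j ∈ Finset.range J,
        (s ^ 4 + 1) * {p | p ∈ SZ ∧ Nat.log 2 (sg D (s ^ 4) p) = j}.ncard ≤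
        A * ((s ^ 4 + 1) * (2 ^ j * (UL D k1 j).ncard + s * D.U.ncard) + (Vb D).ncard) +
          (s ^ 4 + 1) * {p | p ∈ XX D k1 (s ^ 4) ∧ Nat.log 2 (sg D (s ^ 4) p) = j}.ncard := by
      intro j hj
      have e3 := hSP V P Q D H e0 X k k1 (s ^ 4) j ρ s hD hDr hB hF hk9 (by omega)
        (hbig1 j (Finset.mem_range.1 hj))
      have e4 : {p | p ∈ SZ ∧ Nat.log 2 (sg D (s ^ 4) p) = j} =
          {p | ¬ Lg D k1 (s ^ 4) p ∧ Nat.log 2 (sg D (s ^ 4) p) = j} := by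
        rw [hSZ]
        rfl
      rw [e4]
      exact e3.trans (Nat.add_le_add_right (Nat.mul_le_mul_right _ hA3) _)
    calc (s ^ 4 + 1) * SZ.ncard ≤ (s ^ 4 + 1) *
          ∑ j ∈ Finset.range J, {p | p ∈ SZ ∧ Nat.log 2 (sg D (s ^ 4) p) = j}.ncard :=
          Nat.mul_le_mul_left _ e1
      _ = ∑ j ∈ Finset.range J,
          (s ^ 4 + 1) * {p | p ∈ SZ ∧ Nat.log 2 (sg D (s ^ 4) p) = j}.ncard := Finset.mul_sum _ _ _
      _ ≤ ∑ j ∈ Finset.range J,
          (A * ((s ^ 4 + 1) * (2 ^ j * (UL D k1 j).ncard + s * D.U.ncard) + (Vb D).ncard) +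
            (s ^ 4 + 1) * {p | p ∈ XX D k1 (s ^ 4) ∧ Nat.log 2 (sg D (s ^ 4) p) = j}.ncard) :=
          Finset.sum_le_sum e2
      _ = A * ((s ^ 4 + 1) * (S + J * (s * D.U.ncard)) + J * (Vb D).ncard) +
            (s ^ 4 + 1) * ∑ j ∈ Finset.range J,
              {p | p ∈ XX D k1 (s ^ 4) ∧ Nat.log 2 (sg D (s ^ 4) p) = j}.ncard := by
          rw [Finset.sum_add_distrib, sumA, ← hS, Finset.mul_sum]
      _ ≤ _ := Nat.add_le_add_left (Nat.mul_le_mul_left _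
          (sum_le_ncard (XX D k1 (s ^ 4)) (fun p => Nat.log 2 (sg D (s ^ 4) p)) J)) _
  have bP : Nat.card P ≤ SL.ncard + SZ.ncard := by
    rw [hSL, hSZ]
    exact card_split _
  have bQ : Nat.card Q ≤ A * (S + J * (s * D.U.ncard)) := by
    have e1 := ncard_le_sum (Set.univ : Set Q) (fun q => Nat.log 2 (D.wq q).length) J
      (fun q _ => hwq q)
    rw [Set.ncard_univ] at e1
    have e2 : ∀ j ∈ Finset.range J,
        {q | q ∈ (Set.univ : Set Q) ∧ Nat.log 2 (D.wq q).length = j}.ncard ≤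
        A * (2 ^ j * (UL D k1 j).ncard + s * D.U.ncard) := by
      intro j hj
      have e3 := hHQ V P Q D H e0 X k k1 (s ^ 4) j ρ s hD hG hU hDr hB hk6ρ (by omega)
        (hbig2 j (Finset.mem_range.1 hj))
      have e4 : {q | q ∈ (Set.univ : Set Q) ∧ Nat.log 2 (D.wq q).length = j} =
          {q | Nat.log 2 (D.wq q).length = j} := by
        ext q
        simp
      rw [e4]
      exact e3.trans (Nat.mul_le_mul_right _ hA4)
    calc Nat.card Q ≤ ∑ j ∈ Finset.range J,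
          {q | q ∈ (Set.univ : Set Q) ∧ Nat.log 2 (D.wq q).length = j}.ncard := e1
      _ ≤ ∑ j ∈ Finset.range J, A * (2 ^ j * (UL D k1 j).ncard + s * D.U.ncard) :=
          Finset.sum_le_sum e2
      _ = _ := by
          rw [← Finset.mul_sum, Finset.sum_add_distrib, ← hS, Finset.sum_const, Finset.card_range,
            smul_eq_mul]
  -- reals
  refine numeric (A : ℝ) s ((s ^ 4 + 1 : ℕ) : ℝ) k1 J M D.U.ncard (Vb D).ncard S SX.ncard SY.ncard
    SZ.ncard SL.ncard (XX D k1 (s ^ 4)).ncard (Nat.card P) (Nat.card Q) ?_ ?_ ?_ ?_ ?_ ?_ ?_ ?_ ?_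
    ?_ ?_ ?_ ?_ ?_ ?_ ?_ ?_ ?_ ?_ ?_ ?_ ?_
  · exact_mod_cast hApos
  · exact_mod_cast hMpos
  · positivity
  · positivity
  · positivity
  · positivity
  · exact_mod_cast hsA
  · exact_mod_cast hk1.ge
  · exact_mod_cast hJs
  · push_cast
    linarith
  · exact_mod_cast hMu
  · exact_mod_cast hnb
  · positivity
  · exact_mod_cast hSM
  · exact_mod_cast bX
  · exact_mod_cast bY
  · exact_mod_cast bL
  · exact_mod_cast bZ
  · exact_mod_cast bXX
  · exact_mod_cast bQ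
  · exact_mod_cast bP
  · exact_mod_cast hMpq

end Pool.Agent.Helper63.PH
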