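import Pool.Agent.Helper63.PH.Scales
import Pool.Agent.Helper27.HH.Cyc
import Pool.Agent.Helper27.HH.Growth

/-!
# PH-B1 (MP_0dbcb7_co): cycles of `N` are long, balls with two pins grow

`R y := min (s2 D y) (Rb D k2 y)`: `s2` is the distance to the third nearest pin (in the sense of `Pn`), `Rb` the radius where
the ball gets more than `k2` branch vertices. `R` is 1-Lipschitz.

**cyc_long.** Every cycle of `N` has length `> k * ((δ - 1) / 2)`: two branch vertices have distance `≥ δ` (`hL.n`), so the ball of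
radius `(δ - 1) / 2` about a point `y` of the cycle has at most one branch vertex, and no pin is within `(δ - 1) / 2` (pins have
length `≥ δ`): `hB.e1`.

**cy.** Strong induction on `n = |Z|` as in `Helper27.HH.Cyc` (`cyc_aux`). Suppose `n ≤ K * R y`, `y ∈ Z`; by `cyc_long`
`R y ≥ 500` (as `k (δ-1)/2 ≥ 500 K`). Let `m := min (n / 4) (R y / 8)` and `y_i = Z.getVert (i m)`, `i = 0, 1, 2` (`Z` starts at
`y`). (A) If two of them have distance `≤ m / 8` in `N`: the arc between them (a path of length `≥ m`) and a shortest path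
give a cycle `Z'` of length `≤ 2 m + m / 8 < n` with a point `y'` within `2 m + m / 8` of `y`, so `R y' ≥ R y / 2` and by
induction `K (R y) / 2 < 2 m + m / 8 ≤ R y / 3`, contradiction. (B) Otherwise some `y_i` has no pin within `Pn`-distance
`m / 16`: such pins are within `2 m + m / 16 < s2 y` of `y`, so there are at most two of them, and one pin near two of the
`y_i` would give distance `≤ m / 8`. `hB.e1` at `y_i` with radius `m / 16 ≥ 1` (`< Rb y_i`): `k (m / 16) < n`, contradiction to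
`n ≤ K R y` and `n ≤ 4 m + 3` resp. `R y ≤ 8 m + 7`.

**gr.** `UP D.N y (R y)` as `up_of` in `Helper27.HH.Growth` (from `cy` with `K = 10`); feet in the ball of radius `t` are pins with
`Pn D (t + D.L) y`, so at most two while `t + D.L < s2 y`. `sph_ge` and `vol_step` give `2 vol (ball t) ≤ vol (ball (t + L))`, and
`vol (ball t y) ≤ D.Kh * D.r * bv (ball t y) ≤ D.Kh * D.r * k2` for `t < Rb y`. For the first bound: if
`Nat.card V + D.L < R y` then with `t = Nat.card V` the sphere of radius `t + 1` is empty, so by `sph_ge` the component of `y` has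
volume 0, hence no feet (feet have `dg ≥ 3`), so `2 + 0 ≤ 0 + 0`.

**e1_s2.** For `t < min (e1 p) (Rb (x p))` all pins with `Pn D t (x p)` have the hub of `p`; if there is one `q ≠ p` then `p` has the
bypass `x p - q - hub` of cost `t` (`Byp.trans (Rch.of_nr ..) (Byp.pin ..)`), contradiction to `hB.p2` (radius `max 1 t`, `t ≥ 2`).
So only `p` counts. **finH, gr1** follow. **gr2**: `hB.iso` with `ρ = rho p - 1`, `q = pt1 p`, `τ = e1 p` (all pins within
`rho p - 1` have hub `hub p` or `hub (pt1 p)` by `e2_le`): the pins within `(rho p - 1) / 16` are `p` and `pt1 p`.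
-/

set_option autoImplicit false

open Set
open Pool.Agent.Helper83.OP Pool.Agent.Helper93.HH Pool.Agent.Helper23.PL

namespace Pool.Agent.Helper63.PH

section

variable {V P Q : Type} [Finite V] [Finite P] [Finite Q] {D : HD V P Q} {k k1 k2 δ : ℕ}

open Pool.Agent.Helper23.PL.Sca
open Pool.Agent.Helper63.PL (Rch.of_nr Byp.pin Byp.trans Byp.mono)

omit [Finite V] [Finite P] [Finite Q] in
private theorem s2_cap (y : V) : s2 D y ≤ cap D := Nat.sInf_le (Or.inr rfl)

omit [Finite V] [Finite P] [Finite Q] in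
private theorem s2_le_of {y : V} {t : ℕ} (h : 3 ≤ {p | Pn D t y p}.ncard) : s2 D y ≤ t :=
  Nat.sInf_le (Or.inl h)

omit [Finite V] [Finite P] [Finite Q] in
private theorem s2_spec {y : V} (h : s2 D y < cap D) : 3 ≤ {p | Pn D (s2 D y) y p}.ncard := by
  have h1 : s2 D y ∈ ({t | 3 ≤ {p | Pn D t y p}.ncard} ∪ {cap D} : Set ℕ) :=
    Nat.sInf_mem ⟨cap D, Or.inr rfl⟩
  rcases h1 with h1 | h1
  · exact h1
  · exact absurd h1 h.ne

omit [Finite V] [Finite P] [Finite Q] in
private theorem s2_min {y : V} {t : ℕ} (h : t < s2 D y) : {p | Pn D t y p}.ncard ≤ 2 := by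
  by_contra hcon
  exact absurd (s2_le_of (D := D) (t := t) (y := y) (by omega)) (by omega)

omit [Finite V] [Finite Q] in
/-- three different pins -/
private theorem s2_three {y : V} {t : ℕ} {p q s : P} (hpq : p ≠ q) (hps : p ≠ s) (hqs : q ≠ s)
    (hp : Pn D t y p) (hq : Pn D t y q) (hs : Pn D t y s) : s2 D y ≤ t := by
  refine s2_le_of ?_
  have h1 : ({p, q, s} : Set P).ncard = 3 := by
    rw [Set.ncard_eq_three]
    exact ⟨p, q, s, hpq, hps, hqs, rfl⟩
  rw [← h1]
  refine Set.ncard_le_ncard ?_ (Set.toFinite _)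
  rintro a (rfl | rfl | rfl)
  · exact hp
  · exact hq
  · exact hs

omit [Finite V] [Finite P] [Finite Q] in
private theorem Pn_of_nr {s t : ℕ} {y y' : V} {q : P} (h : Nr D.N s y y') (h' : Pn D t y' q) :
    Pn D (s + t) y q := by
  obtain ⟨a, h1, h2⟩ := h'
  exact ⟨s + a, h.trans h1, by omega⟩

theorem s2_lip {t : ℕ} {y y' : V} (h : Nr D.N t y y') : s2 D y ≤ s2 D y' + t := by
  rcases (s2_cap (D := D) y').lt_or_eq with h1 | h1
  · refine s2_le_of ((s2_spec h1).trans (Set.ncard_le_ncard ?_ (Set.toFinite _)))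
    intro p hp
    have hp' : Pn D (s2 D y') y' p := hp
    show Pn D (s2 D y' + t) y p
    rw [Nat.add_comm]
    exact Pn_of_nr h hp'
  · have := s2_cap (D := D) y
    omega

omit [Finite Q] in
private theorem R_lip {t : ℕ} {y y' : V} (h : Nr D.N t y y') :
    min (s2 D y) (Rb D k2 y) ≤ min (s2 D y') (Rb D k2 y') + t := by
  have h1 : s2 D y ≤ s2 D y' + t := by
    rcases (s2_cap (D := D) y').lt_or_eq with h1 | h1
    · refine s2_le_of ((s2_spec h1).trans (Set.ncard_le_ncard ?_ (Set.toFinite _)))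
      intro p hp
      have hp' : Pn D (s2 D y') y' p := hp
      show Pn D (s2 D y' + t) y p
      rw [Nat.add_comm]
      exact Pn_of_nr h hp'
    · have := s2_cap (D := D) y
      omega
  have h2 : Rb D k2 y ≤ Rb D k2 y' + t := Rb_le h.symm
  omega

omit [Finite P] [Finite Q] in
theorem cyc_long (hD : D.Ok) (hL : Long D δ) (hB : BadH D k k2) (hδ : 3 ≤ δ) (hk2 : 1 ≤ k2) :
    ∀ v (Z : D.N.Walk v v), Z.IsCycle → k * ((δ - 1) / 2) < Z.length := by
  intro v Z hZ
  have hρ : 1 ≤ (δ - 1) / 2 := by omega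
  refine hB.e1 v Z hZ v Z.start_mem_support _ hρ ?_ ?_
  · refine le_trans ?_ hk2
    rw [bv, Set.ncard_le_one (Set.toFinite _)]
    rintro a ⟨ha, ha3⟩ b ⟨hb, hb3⟩
    by_contra hne
    have ha' : Nr D.N ((δ - 1) / 2) v a := ha
    have hb' : Nr D.N ((δ - 1) / 2) v b := hb
    obtain ⟨W, hW⟩ := ha'.symm.trans hb'
    have := hL.n a b W hne ha3 hb3
    omega
  · rintro q ⟨s, -, hs⟩
    have := hL.w q
    omega

/-- the arc of a cycle between the positions `a ≤ b` -/
private theorem arc {V : Type} {N : SimpleGraph V} {y : V} {Z : N.Walk y y} (hZ : Z.IsCycle)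
    {a b : ℕ} (hab : a ≤ b) (hb : b < Z.length) :
    ∃ A : N.Walk (Z.getVert a) (Z.getVert b), A.IsPath ∧ A.length = b - a ∧
      ∀ w ∈ A.support, Nr N b y w := by
  have h1 : (Z.take b).IsPath := hZ.isPath_take hb
  have e1 : (Z.take b).getVert a = Z.getVert a := by
    rw [SimpleGraph.Walk.take_getVert, min_eq_right hab]
  refine ⟨((Z.take b).drop a).copy e1 rfl, ?_, ?_, ?_⟩
  · rw [SimpleGraph.Walk.isPath_copy]
    exact h1.drop a
  · rw [SimpleGraph.Walk.length_copy, SimpleGraph.Walk.drop_length,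
      SimpleGraph.Walk.take_length, min_eq_left hb.le]
  · intro w hw
    rw [SimpleGraph.Walk.support_copy] at hw
    have h2 : w ∈ (Z.take b).support :=
      ((Z.take b).isSubwalk_drop a).support_subset hw
    refine (Nr.of_mem h2).mono ?_
    rw [SimpleGraph.Walk.take_length]
    exact min_le_left _ _

omit [Finite Q] in
private theorem cy_aux (hD : D.Ok) (hL : Long D δ) (hB : BadH D k k2) (hδ : 3 ≤ δ)
    (hk2 : 1 ≤ k2) (K : ℕ) (hK : 1 ≤ K) (hk : 1000 * K ≤ k) :
    ∀ (n : ℕ) (y : V) (Z : D.N.Walk y y), Z.IsCycle → Z.length = n →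
      K * min (s2 D y) (Rb D k2 y) < n := by
  classical
  intro n
  induction n using Nat.strong_induction_on with
  | _ n ih =>
  intro y Z hZ hn
  by_contra hcon
  rw [not_lt] at hcon
  obtain ⟨R, hR⟩ : ∃ R, R = min (s2 D y) (Rb D k2 y) := ⟨_, rfl⟩
  rw [← hR] at hcon
  have hRs : R ≤ s2 D y := hR ▸ min_le_left _ _
  have hRb : R ≤ Rb D k2 y := hR ▸ min_le_right _ _
  have h0 := cyc_long hD hL hB hδ hk2 y Z hZ
  rw [hn] at h0
  have hk' : 1000 * K ≤ k * ((δ - 1) / 2) :=
    hk.trans (Nat.le_mul_of_pos_right _ (by omega))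
  have hR0 : 1000 < R := by
    by_contra h
    have : K * R ≤ K * 1000 := Nat.mul_le_mul_left _ (by omega)
    omega
  have hn0 : 1000 < n := by omega
  obtain ⟨m, hm⟩ : ∃ m, m = min (n / 4) (R / 8) := ⟨_, rfl⟩
  have hm1 : m ≤ n / 4 := hm ▸ min_le_left _ _
  have hm2 : m ≤ R / 8 := hm ▸ min_le_right _ _
  have hm3 : 125 ≤ m := by omega
  -- a point of the cycle has a pin nearby
  have hfree : ∀ a, a ≤ 2 * m → ∃ q, Pn D (m / 16) (Z.getVert a) q := by
    intro a ha
    by_contra hno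
    push Not at hno
    have h1 : Nr D.N a y (Z.getVert a) :=
      ⟨Z.take a, by rw [SimpleGraph.Walk.take_length]; exact min_le_left _ _⟩
    have h2 : Rb D k2 y ≤ Rb D k2 (Z.getVert a) + a := Rb_le h1.symm
    have h3 := hB.e1 y Z hZ (Z.getVert a) (Z.getVert_mem_support a) (m / 16) (by omega)
      (Rb_lt (by omega)) hno
    rw [hn] at h3
    have h4 : 1000 * K * (m / 16) ≤ k * (m / 16) := Nat.mul_le_mul_right _ hk
    have h5 : 1000 * K * (m / 16) = K * (1000 * (m / 16)) := by ring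
    have h6 : K * (8 * m + 7) ≤ K * (1000 * (m / 16)) := Nat.mul_le_mul_left _ (by omega)
    have h7 : 8 * m + 7 ≤ K * (8 * m + 7) := Nat.le_mul_of_pos_left _ hK
    rcases min_choice (n / 4) (R / 8) with h8 | h8
    · omega
    · have h9 : K * R ≤ K * (8 * m + 7) := Nat.mul_le_mul_left _ (by omega)
      omega
  -- two points with the same pin
  have hpair : ∀ a b, a + m ≤ b → b ≤ 2 * m → ∀ q, Pn D (m / 16) (Z.getVert a) q →
      Pn D (m / 16) (Z.getVert b) q → False := by
    intro a b hab hb p ha hb'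
    obtain ⟨A, hA, hAl, hAs⟩ := arc hZ (show a ≤ b by omega) (show b < Z.length by omega)
    obtain ⟨s, hs1, hs2⟩ := ha
    obtain ⟨s', hs1', hs2'⟩ := hb'
    obtain ⟨q, hq⟩ := hs1.trans hs1'.symm
    have hq2 := q.length_bypass_le_length
    have hne : A ≠ q.bypass := by
      intro he
      have := congrArg SimpleGraph.Walk.length he
      omega
    obtain ⟨w, hw, -, c, hc, hcl⟩ := hA.exists_isCycle_length_le_add_of_ne q.bypass_isPath hne
    have h1 := ih c.length (by omega) w c hc rfl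
    have h2 : R ≤ min (s2 D w) (Rb D k2 w) + b := hR ▸ R_lip (hAs w hw)
    have h3 : min (s2 D w) (Rb D k2 w) ≤ K * min (s2 D w) (Rb D k2 w) :=
      Nat.le_mul_of_pos_left _ hK
    omega
  obtain ⟨p0, hp0⟩ := hfree 0 (by omega)
  obtain ⟨p1, hp1⟩ := hfree m (by omega)
  obtain ⟨p2, hp2⟩ := hfree (2 * m) le_rfl
  have hnr : ∀ a p, a ≤ 2 * m → Pn D (m / 16) (Z.getVert a) p → Pn D (2 * m + m / 16) y p := by
    intro a p ha hp
    have h1 : Nr D.N a y (Z.getVert a) :=
      ⟨Z.take a, by rw [SimpleGraph.Walk.take_length]; exact min_le_left _ _⟩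
    exact Pn_mono (Pn_of_nr h1 hp) (by omega)
  by_cases h01 : p0 = p1
  · subst h01
    exact hpair 0 m (by omega) (by omega) p0 hp0 hp1
  by_cases h02 : p0 = p2
  · subst h02
    exact hpair 0 (2 * m) (by omega) (by omega) p0 hp0 hp2
  by_cases h12 : p1 = p2
  · subst h12
    exact hpair m (2 * m) (by omega) (by omega) p1 hp1 hp2
  have := s2_three h01 h02 h12 (hnr 0 p0 (by omega) hp0) (hnr _ p1 (by omega) hp1)
    (hnr _ p2 (by omega) hp2)
  omega

omit [Finite Q] in
/-- **PH-B1a.** -/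
theorem cy (hD : D.Ok) (hL : Long D δ) (hB : BadH D k k2) (hδ : 3 ≤ δ) (hk2 : 1 ≤ k2) (K : ℕ)
    (hK : 1 ≤ K) (hk : 1000 * K ≤ k) :
    ∀ v (Z : D.N.Walk v v), Z.IsCycle → ∀ y ∈ Z.support,
      K * min (s2 D y) (Rb D k2 y) < Z.length := by
  classical
  intro v Z hZ y hy
  have h := cy_aux hD hL hB hδ hk2 K hK hk _ y (Z.rotate y hy) (hZ.rotate hy) rfl
  rwa [SimpleGraph.Walk.length_rotate] at h

open Pool.Agent.Helper27.HH (UP sph pins sph_ge vol_step ball_zero nr_iff)

omit [Finite Q] in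
private theorem up_of' (hc : ∀ v (Z : D.N.Walk v v), Z.IsCycle → ∀ y ∈ Z.support,
    10 * min (s2 D y) (Rb D k2 y) < Z.length) (y : V) :
    UP D.N y (min (s2 D y) (Rb D k2 y)) := by
  intro v p q hp hq hpl hql
  by_contra hne
  obtain ⟨u, z, p', q', ⟨a, b, hab⟩, ⟨a', b', hab'⟩, hcyc⟩ := hp.exists_isCycle_of_ne hq hne
  have h1 := congrArg SimpleGraph.Walk.length hab
  have h2 := congrArg SimpleGraph.Walk.length hab'
  rw [SimpleGraph.Walk.length_append, SimpleGraph.Walk.length_append] at h1 h2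
  have h3 := hc _ _ hcyc u (SimpleGraph.Walk.start_mem_support _)
  rw [SimpleGraph.Walk.length_append, SimpleGraph.Walk.length_reverse] at h3
  have h4 := R_lip (D := D) (k2 := k2) (Nr.of_walk a)
  have h5 := R_lip (D := D) (k2 := k2) (Nr.of_walk a')
  omega

omit [Finite P] [Finite Q] in
/-- volume and number of branch vertices -/
private theorem vol_le_bv (hD : D.Ok) {y : V} (hy : y ∈ D.VN) (t : ℕ) :
    D.vol (D.ball t y) ≤ D.Kh * D.r * bv D (D.ball t y) := by
  classical
  have hfin : (D.ball t y ∩ Vb D).Finite := Set.toFinite _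
  have h1 : D.vol (D.ball t y) ≤ ∑ v ∈ hfin.toFinset, (D.dg v - 2) := by
    unfold HD.vol
    refine (Finset.sum_subset_zero_on_sdiff ?_ ?_ (fun _ _ => rfl)).ge
    · intro v hv
      rw [Set.Finite.mem_toFinset] at hv ⊢
      exact hv.1
    · intro v hv
      rw [Finset.mem_sdiff, Set.Finite.mem_toFinset, Set.Finite.mem_toFinset] at hv
      have h3 : ¬ 3 ≤ D.dg v := fun h => hv.2 ⟨hv.1, h⟩
      omega
  refine h1.trans ?_
  have h2 : ∑ v ∈ hfin.toFinset, (D.dg v - 2) ≤ hfin.toFinset.card • (D.Kh * D.r) := by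
    refine Finset.sum_le_card_nsmul _ _ _ fun v hv => ?_
    rw [Set.Finite.mem_toFinset] at hv
    have h4 : Nr D.N t y v := hv.1
    have := hD.dg_le v (HD.VN_U hD (HD.VN_of_nr h4 hy))
    omega
  rw [smul_eq_mul, Nat.mul_comm, ← Set.ncard_eq_toFinset_card _ hfin] at h2
  exact h2

/-- **PH-B1b.** -/
theorem gr (hD : D.Ok) (hL : Long D δ) (hB : BadH D k k2) (hδ : 3 ≤ δ) (hk2 : 1 ≤ k2)
    (hk : 10 ^ 4 ≤ k) : ∀ y ∈ D.VN, min (s2 D y) (Rb D k2 y) ≤ Nat.card V + D.L ∧
      min (s2 D y) (Rb D k2 y) ≤ D.L * (Nat.log 2 (D.Kh * D.r * (k2 + 1) + 2) + 12) := by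
  classical
  intro y hy
  have hU := up_of' (cy hD hL hB hδ hk2 10 (by norm_num) (by omega)) y
  obtain ⟨R, hR⟩ : ∃ R, R = min (s2 D y) (Rb D k2 y) := ⟨_, rfl⟩
  rw [← hR] at hU ⊢
  have hRs : R ≤ s2 D y := hR ▸ min_le_left _ _
  have hRb : R ≤ Rb D k2 y := hR ▸ min_le_right _ _
  have hL2 := hD.r_le
  have hr := hD.r_pos
  -- at most two pins
  have hpins : ∀ t, t + D.L < R → pins D (D.ball t y) ≤ 2 := by
    intro t ht
    refine le_trans ?_ (s2_min (D := D) (t := t + D.L) (y := y) (by omega))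
    refine Set.ncard_le_ncard ?_ (Set.toFinite _)
    intro p hp
    have hp' : Nr D.N t y (D.x p) := hp
    exact ⟨t, hp', Nat.add_le_add_left (hD.w_le p) _⟩
  have hdbl : ∀ t, t + D.L < R → 2 * D.vol (D.ball t y) ≤ D.vol (D.ball (t + D.L) y) := by
    intro t ht
    have h1 := sph_ge hD hy hU t (by omega)
    have h2 := vol_step hD hy hU t (by omega)
    have h3 := hpins t (by omega)
    omega
  -- a pin at a vertex of the ball
  have hpos : ∀ t, 0 < pins D (D.ball t y) → 0 < D.vol (D.ball t y) := by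
    intro t h
    unfold pins at h
    obtain ⟨p, hp⟩ := (Set.ncard_pos (Set.toFinite _)).1 h
    have h6 : D.x p ∈ D.ball t y := hp
    have h7 := hD.three p
    unfold HD.vol
    refine Finset.sum_pos' (fun _ _ => Nat.zero_le _) ⟨D.x p, ?_, by omega⟩
    rw [Set.Finite.mem_toFinset]
    exact h6
  refine ⟨?_, ?_⟩
  · by_contra hcon
    have h1 := sph_ge hD hy hU (Nat.card V) (by omega)
    have h2 := hpins (Nat.card V) (by omega)
    have h3 : sph D y (Nat.card V + 1) = ∅ := by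
      rw [Set.eq_empty_iff_forall_notMem]
      rintro v ⟨hv1, hv2⟩
      have h4 := (nr_iff.1 (Nr.card hv1)).2
      omega
    rw [h3, Set.ncard_empty] at h1
    have h5 := hpos (Nat.card V) (by omega)
    omega
  have hpow : ∀ j, D.L * (j + 1) < R → 2 ^ j ≤ D.vol (D.ball (D.L * (j + 1)) y) := by
    intro j
    induction j with
    | zero =>
      intro h
      rw [Nat.zero_add, Nat.mul_one] at h ⊢
      have h1 := sph_ge hD hy hU 0 (by omega)
      have h2 := vol_step hD hy hU 0 (by omega)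
      have h3 := hpos 0
      simp only [Nat.zero_add] at h1 h2
      rw [pow_zero]
      omega
    | succ j ih =>
      intro h
      have e1 : D.L * (j + 1 + 1) = D.L * (j + 1) + D.L := by ring
      rw [e1] at h ⊢
      have h1 := ih (by omega)
      have h2 := hdbl _ h
      rw [pow_succ]
      omega
  obtain ⟨j, hj⟩ : ∃ j, j = (R - 1) / D.L := ⟨_, rfl⟩
  have h1 : D.L * j ≤ R - 1 := by rw [hj]; exact Nat.mul_div_le _ _
  have h2 : R - 1 < D.L * (j + 1) := by
    rw [hj]
    exact Nat.lt_mul_div_succ _ (by omega)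
  have h3 : j ≤ Nat.log 2 (D.Kh * D.r * (k2 + 1) + 2) + 1 := by
    rcases Nat.eq_zero_or_pos j with h0 | h0
    · omega
    · obtain ⟨i, rfl⟩ : ∃ i, j = i + 1 := ⟨j - 1, by omega⟩
      have h4 : D.L * (i + 1) < R := by
        have : 0 < D.L * (i + 1) := Nat.mul_pos (by omega) (by omega)
        omega
      have h5 := hpow i h4
      have h6 := vol_le_bv hD hy (D.L * (i + 1))
      have h8 : bv D (D.ball (D.L * (i + 1)) y) ≤ k2 := Rb_lt (by omega)
      have h9 : D.Kh * D.r * bv D (D.ball (D.L * (i + 1)) y) ≤ D.Kh * D.r * (k2 + 1) :=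
        Nat.mul_le_mul_left _ (by omega)
      have h7 : i ≤ Nat.log 2 (D.Kh * D.r * (k2 + 1) + 2) :=
        Nat.le_log_of_pow_le one_lt_two (by omega)
      omega
  have h4 : D.L * (j + 1) ≤ D.L * (Nat.log 2 (D.Kh * D.r * (k2 + 1) + 2) + 2) :=
    Nat.mul_le_mul_left _ (by omega)
  have h5 : D.L * (Nat.log 2 (D.Kh * D.r * (k2 + 1) + 2) + 2) ≤
      D.L * (Nat.log 2 (D.Kh * D.r * (k2 + 1) + 2) + 12) := Nat.mul_le_mul_left _ (by omega)
  omega

omit [Finite V] [Finite P] [Finite Q] in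
private theorem ncard_two {S : Set P} {a b : P} (h : ∀ s ∈ S, s = a ∨ s = b) : S.ncard ≤ 2 := by
  have h1 : S ⊆ {a, b} := fun s hs => h s hs
  exact (Set.ncard_le_ncard h1 (Set.toFinite _)).trans (Set.ncard_insert_le _ _ |>.trans
    (by rw [Set.ncard_singleton]))

theorem e1_s2 (hD : D.Ok) (hB : BadH D k k2) (hk : 10 ≤ k) (p : P) :
    min (e1 D p) (Rb D k2 (D.x p)) ≤ s2 D (D.x p) := by
  by_contra hcon
  rw [not_le] at hcon
  have h1 : s2 D (D.x p) < e1 D p := hcon.trans_le (min_le_left _ _)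
  have h2 : s2 D (D.x p) < Rb D k2 (D.x p) := hcon.trans_le (min_le_right _ _)
  have h3 := e1_cap (D := D) p
  have h4 := s2_spec (D := D) (y := D.x p) (by omega)
  have h5 : ∃ q, q ≠ p ∧ Pn D (s2 D (D.x p)) (D.x p) q := by
    by_contra hno
    push Not at hno
    have h6 : {q | Pn D (s2 D (D.x p)) (D.x p) q}.ncard ≤ 2 := by
      refine ncard_two (a := p) (b := p) fun s hs => Or.inl ?_
      by_contra hne
      exact hno s hne hs
    omega
  obtain ⟨q, hqp, s, hs1, hs2⟩ := h5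
  have hub : ∀ q', Pn D (s2 D (D.x p)) (D.x p) q' → D.hub q' = D.hub p := by
    intro q' hq'
    by_contra hne
    have := e1_le hne hq'
    omega
  have hw := hD.w_ge q
  have hr := hD.r_pos
  refine hB.p2 p (s2 D (D.x p)) (by omega) (Rb_lt h2) hub ?_
  rw [← hub q ⟨s, hs1, hs2⟩]
  refine Byp.mono (Byp.trans (Rch.of_nr hD p (hD.x_U p) hs1) (Byp.pin hD hqp)) (fun _ h => h) ?_
  exact hs2.trans (Nat.le_mul_of_pos_left _ (by omega))

private theorem min_le_R (hD : D.Ok) (hB : BadH D k k2) (hk : 10 ≤ k) (p : P) :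
    min (e1 D p) (Rb D k2 (D.x p)) ≤ min (s2 D (D.x p)) (Rb D k2 (D.x p)) :=
  le_min (e1_s2 hD hB hk p) (min_le_right _ _)

/-- **PH-B1c.** The primary scale is finite. -/
theorem finH (hD : D.Ok) (hL : Long D δ) (hB : BadH D k k2) (hδ : 3 ≤ δ) (hk2 : 1 ≤ k2)
    (hk : 10 ^ 4 ≤ k) (p : P) : min (e1 D p) (Rb D k2 (D.x p)) < cap D := by
  have h1 := min_le_R hD hB (k2 := k2) (by omega) p
  have h2 := (gr hD hL hB hδ hk2 hk (D.x p) (HD.x_VN p)).1
  have hxV : 0 < Nat.card V := by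
    have : Nonempty V := ⟨D.x p⟩
    exact Nat.card_pos
  have hcap : cap D = 1000 * (Nat.card V + D.L) := rfl
  omega

theorem gr1 (hD : D.Ok) (hL : Long D δ) (hB : BadH D k k2) (hδ : 3 ≤ δ) (hk2 : 1 ≤ k2)
    (hk : 10 ^ 4 ≤ k) (p : P) :
    sg D k2 p ≤ D.L * (Nat.log 2 (D.Kh * D.r * (k2 + 1) + 2) + 12) := by
  have h1 := min_le_R hD hB (k2 := k2) (by omega) p
  have h2 := (gr hD hL hB hδ hk2 hk (D.x p) (HD.x_VN p)).2
  refine max_le ?_ (h1.trans h2)
  exact (hD.w_le p).trans (Nat.le_mul_of_pos_right _ (by omega))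

theorem gr2 (hD : D.Ok) (hL : Long D δ) (hB : BadH D k k2) (hδ : 3 ≤ δ) (hk2 : 1 ≤ k2)
    (hk : 10 ^ 4 ≤ k) (p : P) (h : T5 D k k2 p) :
    rho D k2 p ≤ 32 * (D.L * (Nat.log 2 (D.Kh * D.r * (k2 + 1) + 2) + 12)) + 32 := by
  have hs := h.1
  have h2 := (gr hD hL hB hδ hk2 hk (D.x p) (HD.x_VN p)).2
  obtain ⟨hc, h3, h4, -⟩ := t5_cap hD hB (by omega) h
  have h5 : rho D k2 p ≤ e2 D p := min_le_left _ _
  have h6 : rho D k2 p ≤ Rb D k2 (D.x p) := min_le_right _ _
  have hr1 : 1 ≤ rho D k2 p := by omega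
  have key := hB.iso p (D.hub (pt1 D p)) (rho D k2 p - 1) (Rb_lt (by omega)) h3
    (fun q hq => by
      by_contra hcon
      rw [not_or] at hcon
      have := e2_le hcon.1 hcon.2 hq
      omega) (pt1 D p) (e1 D p) rfl h4
    (fun q' t hq' ht => e1_le (by rw [hq']; exact h3) ht)
  have h7 : (rho D k2 p - 1) / 16 < s2 D (D.x p) := by
    by_contra hcon
    have h8 := s2_spec (D := D) (y := D.x p) (by omega)
    have h9 : {q | Pn D (s2 D (D.x p)) (D.x p) q}.ncard ≤ 2 := by
      refine ncard_two (a := p) (b := pt1 D p) fun s hs => ?_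
      by_contra hne
      rw [not_or] at hne
      exact key s hne.1 hne.2 (Pn_mono hs (by omega))
    omega
  have h8 : (rho D k2 p - 1) / 16 < min (s2 D (D.x p)) (Rb D k2 (D.x p)) :=
    lt_min h7 (by omega)
  omega

end

end Pool.Agent.Helper63.PH
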