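import Pool.Agent.Helper63.PL.Walks
import Pool.Agent.Helper63.PH.Defs

/-!
# PH-B2, PH-B3 (MP_0dbcb7_co): from the weak facts `Wk` to the facts `BadH`

All pins are long: `δ ≤ |pin|`, `δ` large. `K` = constant of `Wk`, `Pn t y s` = the pin `s` ends within `t` of `y`.

**PH-B2a (wk_p2).** PL-form of p2. Let all pins with `Pn ρ (x p)` have the hub of `p`, and `Byp (Fp p) (k ρ) (x p) (hub p)`, `k ≤ K`,
`2 ≤ K`. If there is a pin `q ≠ p` with `Pn t (x p) q`, `t ≤ ρ`, take `t` minimal: then `Byp (Fp p) t (x p) (hub p)` (via `q`: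
`Byp.trans (Rch.of_nr ..) (Byp.pin ..)`) and no pin `≠ p` has `Pn (t - 1)`; `t ≥ δ ≥ 2`, so `t ≤ K (t - 1)`: `hW.p2` with radius
`t - 1`. Otherwise `hW.p2` with radius `ρ`.

**PH-B2b (wk_iso).** `K ≥ 10^5`. Setting: `x0 = x p`, `a = hub p`, `ρ`, all pins with `Pn ρ x0` have hub `a` or `c`; `q` is a nearest
`c`-pin. Choose `star s` = a nearest pin of another hub for every `s` (if there is one), with `star p = q`; `n s` its `Pn`-distance.
FACT A. `Nr d x0 (x s)`, `d ≤ ρ / 2`, `s' ≠ s` of the same hub, `Pn t (x s) s'`, `t ≤ ρ / 2`: then `K |s| < t` (p1: bypass of `s`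
through `s'` of cost `t`), there is a pin of the other hub within `t` and `K (n s - 1) < t` (otherwise, with `t1` = distance to the
nearest pin `≠ s`: if it has the hub of `s`: bypass of cost `t1`, radius `t1 - 1`, p2; otherwise `t1 = n s`, bypass of cost `t`
and radius `n s - 1`, p2). So `lam s := |s| + n s ≤ 3 t / K`.
FACT B. `s' ∉ {s, star s}`, `Pn t (x s) s'`, `t ≤ ρ / 8`, `Nr d x0 (x s)`, `d ≤ ρ / 8`: then `lam s ≤ 5 t / K`. If `hub s' = hub s`: A. Otherwise
`hub s' = hub (star s)`, `n s ≤ t`, so `s'` is within `2 t` of `x (star s)`: A for `star s`: `K |star s| < 2 t` and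
`K (n (star s) - 1) < 2 t`. `s'' :=` a nearest pin of the hub of `s` for `star s`: if `s'' = s` then `|s| + d(x s, x (star s)) ≤ n (star s)` and
`lam s ≤ n (star s) + |star s|`; otherwise `s''` is within `n s + n (star s) ≤ 2 t` of `x s` and has the hub of `s`: A.
MAIN. Suppose `s ∉ {p, q}`, `Pn t (x p) s`, `16 t ≤ ρ`. Among all triples `(s, s', t)` with `Nr d x0 (x s)`, `hub s ∈ {a, c}`, `s' ∉ {s, star s}`,
`Pn t (x s) s'`, `8 (d + 2 t) ≤ ρ` take one with `t` minimal (`(p, s, t)`, `d = 0`, is one). Then no pin `∉ {s, star s}` is within `t - 1`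
of `x s`, and no pin `s'' ∉ {s', star s'}` is within `t''` of `x s'` if `2 t'' < t` (its displacement is `d + t`, and
`d + t + 2 t'' ≤ d + 2 t`). B: `lam s ≤ 5 t / K`. `star s' ≠ s` (otherwise `hub s' = hub (star s)`, and `star s ∉ {s', star s'}` is within
`t + n s ≤ 2 t` of `x s'`: B gives `lam s' ≤ 10 t / K`, so `s'` is within `10 t / K < t` of `x s`: contradiction), so `s ∉ {s', star s'}` is
within `2 t` of `x s'`, and B: `lam s' ≤ 10 t / K`. If `lam s' ≤ lam s`: `hW.p3` for `s`, `star s`, radius `t - 1`, `W` = the unit of `s'` (the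
pin `s'`, a shortest path from `x s'` to `x (star s')`, the pin `star s'`, without the two hubs; its hubs are `a`, `c` too; reversed if
`hub s' ≠ hub s`), `v = x s'`, reached at cost `t ≤ K (t - 1)`. Otherwise `hW.p3` for `s'`, `star s'`, radius `(t - 1) / 2`, `W` = unit of
`s`, `v = x s`. Here `64 lam ≤` radius since `K ≥ 10^5`.

**PH-B3 (badH_of_wk).** e1, q1, p1: monotone. p2: wk_p2, iso: wk_iso. p3 (PL-form): suppose `v ∈ W` with `Rch (Fp p) (k ρ) (x p) v`.
Then `Byp (Fp p) (2 k ρ) (x p) (hub p)` (back along `W` to `y ~ hub p`). (i) `ρ ≤ 2^12 |p|`: `hW.p1`. (ii) otherwise, no `c`-pin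
within `ρ / 2^12`: wk_p2 with radius `ρ / 2^12` (`≥ 1` since `|p| ≥ 10`). (iii) otherwise `q` = nearest `c`-pin, `g = d(x p, x q)`, distance `τ = g + |q|`,
`64 (|p| + τ) ≤ ρ / 16`: by iso no other pin is within `ρ / 16`, and `hW.p3` with radius `ρ / 16` applies: `cw W ≤ k (|p| + g + |q|)`,
`k ρ ≤ K (ρ / 16)`.
-/

set_option autoImplicit false

open Set
open Pool.Agent.Helper83.OP Pool.Agent.Helper93.HH Pool.Agent.Helper23.PL

namespace Pool.Agent.Helper63.PH

section

variable {V P Q : Type} [Finite V] [Finite P] [Finite Q] {D : HD V P Q} {K k k2 : ℕ}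

omit [Finite V] [Finite P] [Finite Q] in
private theorem cw_reverse' {u v : V} (W : D.G.Walk u v) : cw D W.reverse = cw D W := by
  unfold cw
  rw [SimpleGraph.Walk.length_reverse, SimpleGraph.Walk.support_reverse, List.map_reverse,
    List.sum_reverse]

omit [Finite V] [Finite P] [Finite Q] in
open Classical in
private theorem cw_append_le' {u v w : V} (W : D.G.Walk u v) (W' : D.G.Walk v w) :
    cw D (W.append W') ≤ cw D W + cw D W' := by
  unfold cw
  rw [SimpleGraph.Walk.length_append, SimpleGraph.Walk.support_append, List.map_append,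
    List.sum_append]
  have h : (W'.support.map fun z => if z ∈ D.U then deg D.G z else 0).sum
      = (if v ∈ D.U then deg D.G v else 0)
        + (W'.support.tail.map fun z => if z ∈ D.U then deg D.G z else 0).sum := by
    conv_lhs => rw [← SimpleGraph.Walk.cons_tail_support W']
    rw [List.map_cons, List.sum_cons]
  rw [h]
  omega

omit [Finite V] [Finite P] [Finite Q] in
private theorem pn_mono {t t' : ℕ} {y : V} {q : P} (h : Pn D t y q) (ht : t ≤ t') :
    Pn D t' y q := by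
  obtain ⟨s, h1, h2⟩ := h
  exact ⟨s, h1, h2.trans ht⟩

omit [Finite V] [Finite P] [Finite Q] in
private theorem pn_move {t d : ℕ} {y y' : V} {q : P} (h : Nr D.N d y y') (h' : Pn D t y' q) :
    Pn D (d + t) y q := by
  obtain ⟨s, h1, h2⟩ := h'
  exact ⟨d + s, h.trans h1, by omega⟩

omit [Finite P] [Finite Q] in
private theorem bv_ball {r d ρ : ℕ} {x0 y : V} (hb : bv D (D.ball ρ x0) ≤ k2)
    (hd : Nr D.N d x0 y) (h : d + r ≤ ρ) : bv D (D.ball r y) ≤ k2 := by
  refine le_trans ?_ hb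
  unfold bv
  refine Set.ncard_le_ncard (Set.inter_subset_inter_left _ ?_) (Set.toFinite _)
  intro v hv
  exact (hd.trans hv).mono h

omit [Finite P] [Finite Q] in
/-- a bypass through another pin of the same hub -/
private theorem byp_of_pn (hD : D.Ok) {s r : P} {t : ℕ} (hne : r ≠ s) (hh : D.hub r = D.hub s)
    (h : Pn D t (D.x s) r) : Byp D (Fp D s) t (D.x s) (D.hub s) := by
  obtain ⟨g, h1, h2⟩ := h
  have h3 : Byp D (Fp D s) t (D.x s) (D.hub r) := PL.Byp.mono
    (PL.Byp.trans (PL.Rch.of_nr hD s (hD.x_U s) h1) (PL.Byp.pin hD hne)) (subset_refl _) h2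
  rwa [hh] at h3

/-- `σ` is a nearest pin of another hub, at distance `m` -/
private def Near (D : HD V P Q) (s σ : P) (m : ℕ) : Prop :=
  D.hub σ ≠ D.hub s ∧ Pn D m (D.x s) σ ∧ ∀ r t, D.hub r ≠ D.hub s → Pn D t (D.x s) r → m ≤ t

omit [Finite V] [Finite P] [Finite Q] in
private theorem near_exists {s r : P} {t : ℕ} (h : D.hub r ≠ D.hub s) (h' : Pn D t (D.x s) r) :
    ∃ σ m, Near D s σ m ∧ m ≤ t := by
  classical
  have hex : ∃ m, ∃ σ, D.hub σ ≠ D.hub s ∧ Pn D m (D.x s) σ := ⟨t, r, h, h'⟩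
  obtain ⟨σ, h1, h2⟩ := Nat.find_spec hex
  exact ⟨σ, Nat.find hex, ⟨h1, h2, fun r t hr ht => Nat.find_min' hex ⟨r, hr, ht⟩⟩,
    Nat.find_min' hex ⟨r, h, h'⟩⟩

omit [Finite V] [Finite P] [Finite Q] in
private theorem near_uniq {s σ σ' : P} {m m' : ℕ} (h : Near D s σ m) (h' : Near D s σ' m') :
    m = m' :=
  le_antisymm (h.2.2 _ _ h'.1 h'.2.1) (h'.2.2 _ _ h.1 h.2.1)

/-- **PH-B2a.** -/
theorem wk_p2 (hD : D.Ok) (hδ : ∀ p, 10 ≤ (D.w p).length) (hW : Wk D K k2) (hk : k ≤ K)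
    (hK : 2 ≤ K) : ∀ p ρ, 1 ≤ ρ → bv D (D.ball ρ (D.x p)) ≤ k2 →
    (∀ q, Pn D ρ (D.x p) q → D.hub q = D.hub p) → ¬ Byp D (Fp D p) (k * ρ) (D.x p) (D.hub p) := by
  classical
  intro p ρ hρ hb hhub hB
  by_cases hex : ∃ t, ∃ q, q ≠ p ∧ Pn D t (D.x p) q ∧ t ≤ ρ
  · obtain ⟨q, hq1, hq2, hq3⟩ := Nat.find_spec hex
    set t := Nat.find hex with ht
    have h10 : 10 ≤ t := by
      obtain ⟨g, -, hg⟩ := hq2
      have := hδ q
      omega
    have hh := hhub q (pn_mono hq2 hq3)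
    have h1 := byp_of_pn hD hq1 hh hq2
    refine hW.p2 p (t - 1) (by omega) (bv_ball hb (Nr.refl _ 0 _) (by omega)) ?_
      (PL.Byp.mono h1 (subset_refl _) ?_)
    · intro r hr hr'
      have := Nat.find_min' hex ⟨r, hr, hr', by omega⟩
      omega
    · have : 2 * (t - 1) ≤ K * (t - 1) := Nat.mul_le_mul_right _ hK
      omega
  · refine hW.p2 p ρ hρ hb ?_ (PL.Byp.mono hB (subset_refl _) (Nat.mul_le_mul_right _ hk))
    intro q hq hq'
    exact hex ⟨ρ, q, hq, hq', le_rfl⟩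

omit [Finite P] [Finite Q] in
/-- FACT A -/
private theorem factA (hD : D.Ok) (hδ : ∀ p, 10 ≤ (D.w p).length) (hW : Wk D K k2) (hK : 2 ≤ K)
    {x0 : V} {ρ : ℕ} (hb : bv D (D.ball ρ x0) ≤ k2) {s s' : P} {d t : ℕ}
    (hd : Nr D.N d x0 (D.x s)) (hdt : d + t ≤ ρ) (hne : s' ≠ s) (hh : D.hub s' = D.hub s)
    (h : Pn D t (D.x s) s') :
    K * (D.w s).length < t ∧ ∃ σ m, Near D s σ m ∧ m ≤ t ∧ K * (m - 1) < t := by
  classical
  have hB := byp_of_pn hD hne hh h
  refine ⟨?_, ?_⟩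
  · by_contra hcon
    exact hW.p1 s (PL.Byp.mono hB (subset_refl _) (by omega))
  · have hex : ∃ u, ∃ r, r ≠ s ∧ Pn D u (D.x s) r := ⟨t, s', hne, h⟩
    obtain ⟨r, hr1, hr2⟩ := Nat.find_spec hex
    have ht1 : Nat.find hex ≤ t := Nat.find_min' hex ⟨s', hne, h⟩
    have hmin : ∀ u r, r ≠ s → Pn D u (D.x s) r → Nat.find hex ≤ u :=
      fun u r h1 h2 => Nat.find_min' hex ⟨r, h1, h2⟩
    generalize Nat.find hex = t1 at hr2 ht1 hmin
    have h10 : 10 ≤ t1 := by
      obtain ⟨g, -, hg⟩ := hr2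
      have := hδ r
      omega
    have hno : ∀ r, r ≠ s → ¬ Pn D (t1 - 1) (D.x s) r := by
      intro r hr hr'
      have := hmin _ _ hr hr'
      omega
    have hbv : bv D (D.ball (t1 - 1) (D.x s)) ≤ k2 := bv_ball hb hd (by omega)
    have hrh : D.hub r ≠ D.hub s := by
      intro hrh
      refine hW.p2 s (t1 - 1) (by omega) hbv hno
        (PL.Byp.mono (byp_of_pn hD hr1 hrh hr2) (subset_refl _) ?_)
      have : 2 * (t1 - 1) ≤ K * (t1 - 1) := Nat.mul_le_mul_right _ hK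
      omega
    obtain ⟨σ, m, hN, hm⟩ := near_exists hrh hr2
    have hσ : σ ≠ s := by
      rintro rfl
      exact hN.1 rfl
    have hm' : m = t1 := le_antisymm hm (hmin _ _ hσ hN.2.1)
    refine ⟨σ, m, hN, by omega, ?_⟩
    by_contra hcon
    refine hW.p2 s (t1 - 1) (by omega) hbv hno (PL.Byp.mono hB (subset_refl _) ?_)
    rw [← hm']
    omega

omit [Finite P] [Finite Q] in
/-- FACT B -/
private theorem factB (hD : D.Ok) (hδ : ∀ p, 10 ≤ (D.w p).length) (hW : Wk D K k2) (hK : 100 ≤ K)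
    {x0 : V} {ρ : ℕ} (hb : bv D (D.ball ρ x0) ≤ k2) {a c : V}
    (hac : ∀ q, Pn D ρ x0 q → D.hub q = a ∨ D.hub q = c) {s σ s' : P} {d t m : ℕ}
    (hd : Nr D.N d x0 (D.x s)) (hd8 : 8 * d ≤ ρ) (ht8 : 8 * t ≤ ρ)
    (hs : D.hub s = a ∨ D.hub s = c) (hN : Near D s σ m) (hne : s' ≠ s) (hneσ : s' ≠ σ)
    (h : Pn D t (D.x s) s') : K * ((D.w s).length + m) ≤ 5 * t := by
  have hK2 : 2 ≤ K := by omega
  have hAs : ∀ s' t, s' ≠ s → D.hub s' = D.hub s → Pn D t (D.x s) s' → d + t ≤ ρ →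
      K * (D.w s).length < t ∧ m ≤ t ∧ K * (m - 1) < t := by
    intro s' t h1 h2 h3 h4
    obtain ⟨h5, σ', m', h6, h7, h8⟩ := factA hD hδ hW hK2 hb hd h4 h1 h2 h3
    rw [near_uniq hN h6]
    exact ⟨h5, h7, h8⟩
  have hm1 : 10 ≤ m := by
    obtain ⟨g, -, hg⟩ := hN.2.1
    have := hδ σ
    omega
  have hKm : K * m = K * (m - 1) + K := by
    obtain ⟨m', rfl⟩ : ∃ m', m = m' + 1 := ⟨m - 1, by omega⟩
    rw [Nat.add_sub_cancel]
    ring
  by_cases hh : D.hub s' = D.hub s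
  · obtain ⟨h1, h2, h3⟩ := hAs s' t hne hh h (by omega)
    have h4 : K * 10 ≤ K * (D.w s).length := Nat.mul_le_mul_left _ (hδ s)
    rw [Nat.mul_add, hKm]
    omega
  · have hmt : m ≤ t := hN.2.2 _ _ hh h
    have hs' := hac s' (pn_mono (pn_move hd h) (by omega))
    have hσ := hac σ (pn_mono (pn_move hd hN.2.1) (by omega))
    have hσh := hN.1
    have hsσ : D.hub s' = D.hub σ := by
      rcases hs with hs | hs <;> rcases hs' with hs' | hs' <;> rcases hσ with hσ | hσ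
      · exact absurd (hs'.trans hs.symm) hh
      · exact absurd (hs'.trans hs.symm) hh
      · exact absurd (hσ.trans hs.symm) hσh
      · exact hs'.trans hσ.symm
      · exact hs'.trans hσ.symm
      · exact absurd (hσ.trans hs.symm) hσh
      · exact absurd (hs'.trans hs.symm) hh
      · exact absurd (hs'.trans hs.symm) hh
    obtain ⟨g, hg1, hg2⟩ := hN.2.1
    have hPσ : Pn D (2 * t) (D.x σ) s' := pn_mono (pn_move hg1.symm h) (by omega)
    have hdσ : Nr D.N (d + g) x0 (D.x σ) := hd.trans hg1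
    obtain ⟨h1, s'', m', h2, h3, h4⟩ :=
      factA hD hδ hW hK2 hb hdσ (by omega) hneσ hsσ hPσ
    have hm2 : 10 ≤ m' := by
      obtain ⟨g', -, hg'⟩ := h2.2.1
      have := hδ s''
      omega
    have hKm' : K * m' = K * (m' - 1) + K := by
      obtain ⟨m'', rfl⟩ : ∃ m'', m' = m'' + 1 := ⟨m' - 1, by omega⟩
      rw [Nat.add_sub_cancel]
      ring
    have h10K : K * 10 ≤ K * (D.w σ).length := Nat.mul_le_mul_left _ (hδ σ)
    have hs''h : D.hub s'' = D.hub s := by
      have h5 := hac s'' (pn_mono (pn_move hdσ h2.2.1) (by omega))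
      have h6 := h2.1
      rcases hs with hs | hs <;> rcases h5 with h5 | h5 <;> rcases hσ with hσ | hσ
      · exact h5.trans hs.symm
      · exact h5.trans hs.symm
      · exact absurd (hσ.trans hs.symm) hσh
      · exact absurd (h5.trans hσ.symm) h6
      · exact absurd (h5.trans hσ.symm) h6
      · exact absurd (hσ.trans hs.symm) hσh
      · exact h5.trans hs.symm
      · exact h5.trans hs.symm
    by_cases hss : s'' = s
    · subst hss
      obtain ⟨g', hg1', hg2'⟩ := h2.2.1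
      have h5 : m ≤ g' + (D.w σ).length := hN.2.2 σ _ hσh ⟨g', hg1'.symm, le_rfl⟩
      have h6 : K * ((D.w s'').length + m) ≤ K * (m' + (D.w σ).length) :=
        Nat.mul_le_mul_left _ (by omega)
      rw [Nat.mul_add K m', hKm'] at h6
      omega
    · have h100 : 100 * (m' - 1) ≤ K * (m' - 1) := Nat.mul_le_mul_right _ hK
      have h5 : Pn D (2 * t) (D.x s) s'' := pn_mono (pn_move hg1 h2.2.1) (by omega)
      obtain ⟨h6, h7, h8⟩ := hAs s'' (2 * t) hss hs''h h5 (by omega)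
      have h9 : K * 10 ≤ K * (D.w s).length := Nat.mul_le_mul_left _ (hδ s)
      rw [Nat.mul_add, hKm]
      omega

omit [Finite P] [Finite Q] in
/-- sliding the unit `s`, `σ` along the unit `s'`, `σ'` -/
private theorem slide (hD : D.Ok) (hW : Wk D K k2) {s σ s' σ' : P} {g g' R u : ℕ}
    (hR : 1 ≤ R) (h1 : D.hub σ ≠ D.hub s) (hbv : bv D (D.ball R (D.x s)) ≤ k2)
    (hg : Nr D.N g (D.x s) (D.x σ)) (hgm : ∀ t, Nr D.N t (D.x s) (D.x σ) → g ≤ t)
    (h64 : 64 * ((D.w s).length + g + (D.w σ).length) ≤ R)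
    (hno : ∀ r, r ≠ s → r ≠ σ → ¬ Pn D R (D.x s) r) (hs' : s' ≠ s) (hσ' : σ' ≠ s)
    (hh : (D.hub s' = D.hub s ∧ D.hub σ' = D.hub σ) ∨
      (D.hub s' = D.hub σ ∧ D.hub σ' = D.hub s))
    (hg' : Nr D.N g' (D.x s') (D.x σ'))
    (hle : (D.w s').length + g' + (D.w σ').length ≤ K * ((D.w s).length + g + (D.w σ).length))
    (hu : Nr D.N u (D.x s) (D.x s')) (huR : u ≤ K * R) : False := by
  have hσs : σ ≠ s := by
    rintro rfl
    exact h1 rfl
  obtain ⟨y, hy, W1, hW1, hc1⟩ := PL.Byp.pin hD hs'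
  obtain ⟨z, hz, W3, hW3, hc3⟩ := PL.Byp.pin hD hσ'
  obtain ⟨W2, hW2, hc2⟩ := PL.Rch.of_nr hD s (hD.x_U s') hg'
  have hRch : Rch D (Fp D s) (K * R) (D.x s) (D.x s') :=
    PL.Rch.mono (PL.Rch.of_nr hD s (hD.x_U s) hu) (subset_refl _) huR
  have e1 : ∀ f ∈ W1.reverse.edges, f ∉ Fp D s := by
    intro f hf
    rw [SimpleGraph.Walk.edges_reverse, List.mem_reverse] at hf
    exact hW1 f hf
  have e3 : ∀ f ∈ W3.reverse.edges, f ∉ Fp D s := by
    intro f hf
    rw [SimpleGraph.Walk.edges_reverse, List.mem_reverse] at hf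
    exact hW3 f hf
  have e2 : ∀ f ∈ W2.reverse.edges, f ∉ Fp D s := by
    intro f hf
    rw [SimpleGraph.Walk.edges_reverse, List.mem_reverse] at hf
    exact hW2 f hf
  rcases hh with ⟨h2, h3⟩ | ⟨h2, h3⟩
  · rw [h2] at hy
    rw [h3] at hz
    refine hW.p3 s σ g R hR hσs h1 hbv hg hgm h64 hno y z (W1.reverse.append (W2.append W3))
      hy hz ?_ ?_ (D.x s') ?_ hRch
    · intro f hf
      rw [SimpleGraph.Walk.edges_append, SimpleGraph.Walk.edges_append, List.mem_append,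
        List.mem_append] at hf
      rcases hf with hf | hf | hf
      · exact e1 f hf
      · exact hW2 f hf
      · exact hW3 f hf
    · have h4 := cw_append_le' W1.reverse (W2.append W3)
      have h5 := cw_append_le' W2 W3
      have h6 := cw_reverse' W1
      omega
    · rw [SimpleGraph.Walk.mem_support_append_iff]
      exact Or.inl (SimpleGraph.Walk.end_mem_support _)
  · rw [h2] at hy
    rw [h3] at hz
    refine hW.p3 s σ g R hR hσs h1 hbv hg hgm h64 hno z y
      (W3.reverse.append (W2.reverse.append W1)) hz hy ?_ ?_ (D.x s') ?_ hRch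
    · intro f hf
      rw [SimpleGraph.Walk.edges_append, SimpleGraph.Walk.edges_append, List.mem_append,
        List.mem_append] at hf
      rcases hf with hf | hf | hf
      · exact e3 f hf
      · exact e2 f hf
      · exact hW1 f hf
    · have h4 := cw_append_le' W3.reverse (W2.reverse.append W1)
      have h5 := cw_append_le' W2.reverse W1
      have h6 := cw_reverse' W3
      have h7 := cw_reverse' W2
      omega
    · rw [SimpleGraph.Walk.mem_support_append_iff]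
      right
      rw [SimpleGraph.Walk.mem_support_append_iff]
      exact Or.inl (SimpleGraph.Walk.end_mem_support _)

omit [Finite V] [Finite P] [Finite Q] in
/-- the distance of a nearest pin -/
private theorem near_dist {s σ : P} {m : ℕ} (h : Near D s σ m) :
    ∃ g, Nr D.N g (D.x s) (D.x σ) ∧ (∀ t, Nr D.N t (D.x s) (D.x σ) → g ≤ t) ∧
      g + (D.w σ).length = m := by
  classical
  obtain ⟨h1, ⟨g0, h2, h3⟩, h4⟩ := h
  have hex : ∃ t, Nr D.N t (D.x s) (D.x σ) := ⟨g0, h2⟩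
  refine ⟨Nat.find hex, Nat.find_spec hex, fun t ht => Nat.find_min' hex ht, ?_⟩
  have h5 := Nat.find_min' hex h2
  have h6 := h4 σ _ h1 ⟨Nat.find hex, Nat.find_spec hex, le_rfl⟩
  omega

/-- **PH-B2b.** -/
theorem wk_iso (hD : D.Ok) (hδ : ∀ p, 10 ≤ (D.w p).length) (hW : Wk D K k2) (hK : 10 ^ 5 ≤ K) :
    ∀ p c ρ, bv D (D.ball ρ (D.x p)) ≤ k2 → c ≠ D.hub p →
    (∀ q, Pn D ρ (D.x p) q → D.hub q = D.hub p ∨ D.hub q = c) →
    ∀ q τ, D.hub q = c → Pn D τ (D.x p) q → (∀ q' t, D.hub q' = c → Pn D t (D.x p) q' → τ ≤ t) →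
    ∀ s, s ≠ p → s ≠ q → ¬ Pn D (ρ / 16) (D.x p) s := by
  classical
  intro p c ρ hb hc hac q τ hq hqτ hτ s0 hs0p hs0q hs0
  have hK100 : 100 ≤ K := by omega
  have hK2 : 2 ≤ K := by omega
  have hqp : D.hub q ≠ D.hub p := by
    rw [hq]
    exact hc
  -- the nearest pin of `p`
  have hNp : Near D p q τ := by
    refine ⟨hqp, hqτ, ?_⟩
    have hτρ : τ ≤ ρ := by
      rcases hac s0 (pn_mono hs0 (by omega)) with h | h
      · obtain ⟨-, σ, m, h1, h2, -⟩ := factA hD hδ hW hK2 hb (Nr.refl _ 0 _) (by omega) hs0p h hs0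
        have h3 : D.hub σ = c := (hac σ (pn_mono h1.2.1 (by omega))).resolve_left h1.1
        have := hτ σ m h3 h1.2.1
        omega
      · have := hτ s0 _ h hs0
        omega
    intro r t hr ht
    by_cases htρ : t ≤ ρ
    · exact hτ r t ((hac r (pn_mono ht htρ)).resolve_left hr) ht
    · omega
  -- the minimal triple
  let T : ℕ → Prop := fun t => ∃ s s' σ m d, Nr D.N d (D.x p) (D.x s) ∧
    (D.hub s = D.hub p ∨ D.hub s = c) ∧ Near D s σ m ∧ s' ≠ s ∧ s' ≠ σ ∧ Pn D t (D.x s) s' ∧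
    8 * (d + 2 * t) ≤ ρ
  have hex : ∃ t, T t := ⟨ρ / 16, p, s0, q, τ, 0, Nr.refl _ _ _, Or.inl rfl, hNp, hs0p, hs0q, hs0,
    by omega⟩
  obtain ⟨s, s', σ, m, d, hd, hs, hN, hs's, hs'σ, hPs, h8⟩ := Nat.find_spec hex
  have hmin : ∀ t, T t → Nat.find hex ≤ t := fun t ht => Nat.find_min' hex ht
  generalize Nat.find hex = t at hPs h8 hmin
  have h10 : 10 ≤ t := by
    obtain ⟨g, -, hg⟩ := hPs
    have := hδ s'
    omega
  have hB := factB hD hδ hW hK100 hb hac hd (by omega) (by omega) hs hN hs's hs'σ hPs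
  have hlam : 10 ^ 5 * ((D.w s).length + m) ≤ 5 * t :=
    (Nat.mul_le_mul_right _ hK).trans hB
  obtain ⟨u, hu1, hu2⟩ := hPs
  have hd' : Nr D.N (d + u) (D.x p) (D.x s') := hd.trans hu1
  have hs' : D.hub s' = D.hub p ∨ D.hub s' = c :=
    hac s' (pn_mono (pn_move hd ⟨u, hu1, hu2⟩) (by omega))
  obtain ⟨g, hg, hgm, hgeq⟩ := near_dist hN
  have hσ : D.hub σ = D.hub p ∨ D.hub σ = c :=
    hac σ (pn_mono (pn_move hd hN.2.1) (by omega))
  have hσh := hN.1
  -- the nearest pin of `s'`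
  obtain ⟨σ', m', hN'⟩ : ∃ σ' m', Near D s' σ' m' := by
    by_cases hh : D.hub s' = D.hub s
    · have h1 : Pn D (u + m) (D.x s') σ := pn_move hu1.symm hN.2.1
      obtain ⟨σ', m', h2, -⟩ := near_exists (s := s') (by rw [hh]; exact hσh) h1
      exact ⟨σ', m', h2⟩
    · have h1 : Pn D (u + (D.w s).length) (D.x s') s := ⟨u, hu1.symm, le_rfl⟩
      obtain ⟨σ', m', h2, -⟩ := near_exists (s := s') (fun h => hh h.symm) h1
      exact ⟨σ', m', h2⟩
  -- `σ' ≠ s`
  have hσ's : σ' ≠ s := by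
    rintro rfl
    have h1 : Pn D (2 * t) (D.x s') σ := pn_mono (pn_move hu1.symm hN.2.1) (by omega)
    have h2 := factB hD hδ hW hK100 hb hac hd' (by omega) (by omega) hs' hN' (fun h => hs'σ h.symm)
      (fun h => hσh (by rw [h])) h1
    have h3 : 10 ^ 5 * ((D.w s').length + m') ≤ 5 * (2 * t) :=
      (Nat.mul_le_mul_right _ hK).trans h2
    obtain ⟨g1, hg1, hg1'⟩ := hN'.2.1
    have h4 : T (g1 + (D.w s').length) := by
      refine ⟨σ', s', σ, m, d, hd, hs, hN, hs's, hs'σ, ⟨g1, hg1.symm, le_rfl⟩, ?_⟩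
      omega
    have := hmin _ h4
    omega
  have hB' : 10 ^ 5 * ((D.w s').length + m') ≤ 5 * (2 * t) := by
    have h1 : Pn D (2 * t) (D.x s') s := ⟨u, hu1.symm, by omega⟩
    exact (Nat.mul_le_mul_right _ hK).trans
      (factB hD hδ hW hK100 hb hac hd' (by omega) (by omega) hs' hN' (fun h => hs's h.symm)
        (fun h => hσ's h.symm) h1)
  obtain ⟨g', hg', hgm', hgeq'⟩ := near_dist hN'
  have hσ' : D.hub σ' = D.hub p ∨ D.hub σ' = c :=
    hac σ' (pn_mono (pn_move hd' hN'.2.1) (by omega))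
  have hσ'h := hN'.1
  have hσs' : σ ≠ s' := fun h => hs'σ h.symm
  have hh : (D.hub s' = D.hub s ∧ D.hub σ' = D.hub σ) ∨
      (D.hub s' = D.hub σ ∧ D.hub σ' = D.hub s) := by
    rcases hs with hs | hs <;> rcases hσ with hσ | hσ
    · exact absurd (hσ.trans hs.symm) hσh
    · rcases hs' with hs' | hs' <;> rcases hσ' with hσ' | hσ'
      · exact absurd (hσ'.trans hs'.symm) hσ'h
      · exact Or.inl ⟨hs'.trans hs.symm, hσ'.trans hσ.symm⟩
      · exact Or.inr ⟨hs'.trans hσ.symm, hσ'.trans hs.symm⟩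
      · exact absurd (hσ'.trans hs'.symm) hσ'h
    · rcases hs' with hs' | hs' <;> rcases hσ' with hσ' | hσ'
      · exact absurd (hσ'.trans hs'.symm) hσ'h
      · exact Or.inr ⟨hs'.trans hσ.symm, hσ'.trans hs.symm⟩
      · exact Or.inl ⟨hs'.trans hs.symm, hσ'.trans hσ.symm⟩
      · exact absurd (hσ'.trans hs'.symm) hσ'h
    · exact absurd (hσ.trans hs.symm) hσh
  have hKK : ∀ n, n ≤ K * n := fun n => Nat.le_mul_of_pos_left _ (by omega)
  rcases le_total ((D.w s').length + m') ((D.w s).length + m) with hle | hle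
  · refine slide hD hW (s := s) (σ := σ) (s' := s') (σ' := σ') (R := t - 1) (by omega) hσh
      (bv_ball hb hd (by omega)) hg hgm (by omega) ?_ hs's hσ's hh hg' ?_ hu1 ?_
    · intro r hr1 hr2 hr3
      have := hmin (t - 1) ⟨s, r, σ, m, d, hd, hs, hN, hr1, hr2, hr3, by omega⟩
      omega
    · have := hKK ((D.w s).length + g + (D.w σ).length)
      omega
    · have : 2 * (t - 1) ≤ K * (t - 1) := Nat.mul_le_mul_right _ hK2
      omega
  · have hh' : (D.hub s = D.hub s' ∧ D.hub σ = D.hub σ') ∨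
        (D.hub s = D.hub σ' ∧ D.hub σ = D.hub s') := by
      rcases hh with ⟨h1, h2⟩ | ⟨h1, h2⟩
      · exact Or.inl ⟨h1.symm, h2.symm⟩
      · exact Or.inr ⟨h2.symm, h1.symm⟩
    refine slide hD hW (s := s') (σ := σ') (s' := s) (σ' := σ) (R := (t - 1) / 2) (by omega) hσ'h
      (bv_ball hb hd' (by omega)) hg' hgm' (by omega) ?_ (fun h => hs's h.symm) hσs' hh' hg ?_
      hu1.symm ?_
    · intro r hr1 hr2 hr3
      have := hmin ((t - 1) / 2) ⟨s', r, σ', m', d + u, hd', hs', hN', hr1, hr2, hr3, by omega⟩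
      omega
    · have := hKK ((D.w s').length + g' + (D.w σ').length)
      omega
    · have : 100 * ((t - 1) / 2) ≤ K * ((t - 1) / 2) := Nat.mul_le_mul_right _ hK100
      omega

end

end Pool.Agent.Helper63.PH
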