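import Pool.Agent.Helper63.PH.Super

/-!
# PH-A2, PH-A3 (MP_0dbcb7_co): growth lemmas for marks in cells and for paths between hubs (abstract)

`T i n u v` means: there is a walk of cost `n` units from `u` to `v` which avoids the mark `i`.

**SG** (marks `i` in cells: walk `W i` from the centre `c i` of the cell to the hub `b i`; cells of different centres are
disjoint outside `U`). Paper proof. For every centre `c` choose an owner mark `o c` with `c (o c) = c`, `own c := b (o c)`.
Graph `Q0` on the hubs: `s ~ t` iff `s ≠ t` and there is a mark `i` with `{s, t} = {b i, own (c i)}`. Territories: `ter z = z`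
for `z ∈ U`, `ter z = own (c i)` if `z ∉ U` is on `W i` (well defined by `hd`), `ter z = z` otherwise. A link is realised by
the walk `b i - c i - own (c i)` of length `≤ 2 l`. A mark is bad if `i = o (c i)`; there are `(range c).ncard` bad marks. For
a mark `i` which is not bad `b i ≠ own (c i)` (otherwise `T i 1 (c i) (b i)` by the mark `o (c i)`). The map
`i ↦ s(b i, own (c i))` is injective on the marks which are not bad (otherwise `T i 3 (c i) (b i)`: go `c i - own (c i)`, then
through the cell of `j`: `own (c j) - c j - b j`; `i` is not used, since `i` is not an owner). Girth: in a cycle of `Q0` of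
length `m ≤ 8 ρ + 2` take one edge, given by the mark `i`; every other edge is `T i 2` (cell of the mark `j ≠ i`: marks `j` and
`o (c j)`, both `≠ i`), so with `c i - own (c i)` one gets `T i (2 (m - 1) + 1) (c i) (b i)`, contradiction to `Tno`. Now
`edges_le` with `S = range b` and walks of length `2 l`: twice the number of good marks is `≤ 2 q (range b).ncard`.

**SG2** (paths `W i` between two different hubs, disjoint outside `U`). Paper proof. `Q0`: `s ~ t` iff `{s, t} = {a i, b i}` for
some `i`; `ter z = z` for `z ∈ U`, `ter z = a i` for `z ∉ U` on `W i`, `ter z = z` otherwise. `i ↦ s(a i, b i)` is injective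
(otherwise `T i 1 (a i) (b i)`); a cycle of length `m ≤ 8 ρ + 2` gives `T i (m - 1) (a i) (b i)`. `edges_le` with `S = U`.
-/

set_option autoImplicit false

namespace Pool.Agent.Helper63.PH

open Pool.Agent.Helper83.OP Set


/-- a walk all of whose edges are realised by `T` -/
private theorem walkT {V : Type} {Q0 : SimpleGraph V} (k : ℕ) (T : ℕ → V → V → Prop) (Trefl : ∀ v, T 0 v v)
    (Ttrans : ∀ m n u v w, T m u v → T n v w → T (m + n) u w) {u v : V} (p : Q0.Walk u v) :
    (∀ s t, s(s, t) ∈ p.edges → T k s t) → T (k * p.length) u v := by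
  induction p with
  | nil => intro _; simpa using Trefl _
  | @cons s c t h p ih =>
    intro hp
    have h1 := hp s c (by simp)
    have h2 := ih (fun x y hxy => hp x y (by
      rw [SimpleGraph.Walk.edges_cons]
      exact List.mem_cons_of_mem _ hxy))
    have h3 := Ttrans _ _ _ _ _ h1 h2
    rw [SimpleGraph.Walk.length_cons, mul_add, mul_one, add_comm]
    exact h3

/-- **PH-A2.** -/
theorem SG {V : Type} [Finite V] (ρ q l : ℕ) (hq2 : 2 ≤ q)
    (hbig : 24 * (4 * ((4 * ρ + 1) * (2 * l)) + 1) < q ^ ρ)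
    (H : SimpleGraph V) (X : Sym2 V → Sym2 V → Prop)
    (hX : ∀ f ∈ H.edgeSet, {f' | f' ∈ H.edgeSet ∧ X f f'}.ncard ≤ 1) (hP : PlanarLike H X)
    (U : Set V) {I : Type} [Finite I] (c b : I → V) (W : ∀ i, H.Walk (c i) (b i))
    (hc : ∀ i, c i ∉ U) (hb : ∀ i, b i ∈ U) (hin : ∀ i, ∀ z ∈ (W i).support, z ∈ U → z = b i)
    (hd : ∀ i j, c i ≠ c j → ∀ z ∈ (W i).support, z ∈ (W j).support → z ∈ U)
    (hl : ∀ i, (W i).length ≤ l)
    (T : I → ℕ → V → V → Prop) (Trefl : ∀ i v, T i 0 v v)
    (Tsymm : ∀ i n u v, T i n u v → T i n v u)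
    (Ttrans : ∀ i m n u v w, T i m u v → T i n v w → T i (m + n) u w)
    (Tstep : ∀ i j, j ≠ i → T i 1 (c j) (b j))
    (Tno : ∀ i n, n ≤ 16 * ρ + 8 → ¬ T i n (c i) (b i)) :
    Nat.card I ≤ (Set.range c).ncard + q * (Set.range b).ncard := by
  classical
  rcases isEmpty_or_nonempty I with hI | hI
  · rw [Nat.card_of_isEmpty]; exact Nat.zero_le _
  let o : V → I := Function.invFun c
  have ho : ∀ i, c (o (c i)) = c i := fun i => Function.invFun_eq ⟨i, rfl⟩
  let Q0 : SimpleGraph V :=
    { Adj := fun s t => s ≠ t ∧ ∃ i, s(s, t) = s(b i, b (o (c i)))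
      symm := ⟨fun s t ⟨h1, i, h2⟩ => ⟨h1.symm, i, by rw [Sym2.eq_swap]; exact h2⟩⟩
      loopless := ⟨fun s h => h.1 rfl⟩ }
  -- the owner mark gives a step from the centre to the owner
  have hown : ∀ i j, i ≠ o (c i) → T i 1 (c j) (b (o (c j))) := by
    intro i j hi
    have h1 : o (c j) ≠ i := by
      intro h
      have h2 : c i = c j := by rw [← h]; exact ho j
      exact hi (by rw [h2]; exact h.symm)
    have h3 := Tstep i (o (c j)) h1
    rwa [ho j] at h3
  have hgood : ∀ i, i ≠ o (c i) → b i ≠ b (o (c i)) := by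
    intro i hi h
    exact Tno i 1 (by omega) (by have := hown i i hi; rwa [← h] at this)
  -- injectivity
  have hinj : ∀ i j, i ≠ o (c i) → s(b i, b (o (c i))) = s(b j, b (o (c j))) → i = j := by
    intro i j hi h
    by_contra hij
    have h1 := Tstep i j (fun e => hij e.symm)
    have h2 := hown i i hi
    have h3 := hown i j hi
    rw [Sym2.eq_iff] at h
    rcases h with ⟨h4, h5⟩ | ⟨h4, h5⟩
    · refine Tno i (1 + 1 + 1) (by omega) ?_
      refine Ttrans _ _ _ _ (c j) _ (Ttrans _ _ _ _ _ _ h2 ?_) ?_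
      · rw [h5]; exact Tsymm _ _ _ _ h3
      · rw [h4]; exact h1
    · refine Tno i (1 + 1 + 1) (by omega) ?_
      refine Ttrans _ _ _ _ (c j) _ (Ttrans _ _ _ _ _ _ h2 ?_) ?_
      · rw [h5]; exact Tsymm _ _ _ _ h1
      · rw [h4]; exact h3
  -- girth
  have hgir : ∀ (u : V) (c : Q0.Walk u u), c.IsCycle → 8 * ρ + 2 < c.length := by
    intro u cc hc
    by_contra hlen
    push Not at hlen
    cases cc with
    | nil => exact hc.ne_nil rfl
    | @cons _ v _ h p =>
      obtain ⟨huv, i, hi⟩ := id h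
      have hgi : i ≠ o (c i) := by
        intro hgi
        rw [← hgi, Sym2.eq_iff] at hi
        rcases hi with ⟨h2, h3⟩ | ⟨h2, h3⟩ <;> exact huv (h2.trans h3.symm)
      have htr := hc.isTrail.edges_nodup
      rw [SimpleGraph.Walk.edges_cons, List.nodup_cons] at htr
      have hT := walkT 2 (T i) (Trefl i) (Ttrans i) p (by
        intro s t hst
        have hadj := p.adj_of_mem_edges hst
        obtain ⟨hne', j, hj⟩ := id hadj
        have hji : j ≠ i := by
          rintro rfl
          rw [hj, ← hi] at hst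
          exact htr.1 hst
        have h1 : T i (1 + 1) (b j) (b (o (c j))) :=
          Ttrans _ _ _ _ _ _ (Tsymm _ _ _ _ (Tstep i j hji)) (hown i j hgi)
        rw [Sym2.eq_iff] at hj
        rcases hj with ⟨h2, h3⟩ | ⟨h2, h3⟩
        · rw [h2, h3]; exact h1
        · rw [h2, h3]; exact Tsymm _ _ _ _ h1)
      rw [SimpleGraph.Walk.length_cons] at hlen
      refine Tno i (1 + 2 * p.length) (by omega) ?_
      rw [Sym2.eq_iff] at hi
      rcases hi with ⟨h2, h3⟩ | ⟨h2, h3⟩
      · refine Ttrans _ _ _ _ _ _ (hown i i hgi) ?_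
        rw [← h2, ← h3]
        exact hT
      · refine Ttrans _ _ _ _ _ _ (hown i i hgi) ?_
        rw [← h2, ← h3]
        exact Tsymm _ _ _ _ hT
  -- territories
  let ter : V → V := fun z => if z ∈ U then z else
    if h : ∃ i, z ∈ (W i).support then b (o (c h.choose)) else z
  have terU : ∀ z ∈ U, ter z = z := fun z hz => by simp only [ter, if_pos hz]
  have terW : ∀ i, ∀ z ∈ (W i).support, z ∉ U → ter z = b (o (c i)) := by
    intro i z hz hzU
    have h : ∃ i, z ∈ (W i).support := ⟨i, hz⟩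
    have h1 : c h.choose = c i := by
      by_contra hne'
      exact hzU (hd _ _ hne' z h.choose_spec hz)
    simp only [ter, if_neg hzU, dif_pos h, h1]
  have hsup : ∀ i, ∀ x ∈ (W i).support, ter x = b i ∨ ter x = b (o (c i)) := by
    intro i x hx
    by_cases hxU : x ∈ U
    · rw [terU x hxU]
      exact Or.inl (hin i x hx hxU)
    · exact Or.inr (terW i x hx hxU)
  have hlink : ∀ i, ∃ p : H.Walk (b i) (b (o (c i))), p.length ≤ 2 * l ∧
      ∀ x ∈ p.support, ter x = b i ∨ ter x = b (o (c i)) := by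
    intro i
    refine ⟨(W i).reverse.append ((W (o (c i))).copy (ho i) rfl), ?_, ?_⟩
    · rw [SimpleGraph.Walk.length_append, SimpleGraph.Walk.length_reverse,
        SimpleGraph.Walk.length_copy]
      have := hl i
      have := hl (o (c i))
      omega
    · intro x hx
      rw [SimpleGraph.Walk.mem_support_append_iff, SimpleGraph.Walk.support_reverse,
        List.mem_reverse, SimpleGraph.Walk.support_copy] at hx
      rcases hx with hx | hx
      · exact hsup i x hx
      · have h1 := hsup _ x hx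
        rw [ho i] at h1
        exact Or.inr (or_self_iff.1 h1)
  have hreal : ∀ s t, Q0.Adj s t → ter s = s ∧ ter t = t ∧ ∃ p : H.Walk s t, p.length ≤ 2 * l ∧
      ∀ x ∈ p.support, ter x = s ∨ ter x = t := by
    rintro s t ⟨-, i, hi⟩
    obtain ⟨p, hp1, hp2⟩ := hlink i
    rw [Sym2.eq_iff] at hi
    rcases hi with ⟨rfl, rfl⟩ | ⟨rfl, rfl⟩
    · exact ⟨terU _ (hb i), terU _ (hb _), p, hp1, hp2⟩
    · refine ⟨terU _ (hb _), terU _ (hb i), p.reverse, ?_, ?_⟩
      · rw [SimpleGraph.Walk.length_reverse]; exact hp1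
      · intro x hx
        rw [SimpleGraph.Walk.support_reverse, List.mem_reverse] at hx
        exact (hp2 x hx).symm
  have hE := edges_le ρ Q0 hgir H X hX hP ter (2 * l) hreal (Set.range b) (by
    rintro s t ⟨-, i, hi⟩
    rw [Sym2.eq_iff] at hi
    rcases hi with ⟨rfl, rfl⟩ | ⟨rfl, rfl⟩ <;> exact ⟨_, rfl⟩) q hq2 hbig
  have hcard : 2 * {i | i ≠ o (c i)}.ncard ≤ {e : V × V | Q0.Adj e.1 e.2}.ncard := by
    have h1 : 2 * {i | i ≠ o (c i)}.ncard =
        ((Set.univ : Set Bool) ×ˢ {i | i ≠ o (c i)}).ncard := by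
      rw [Set.ncard_prod, Set.ncard_univ]
      simp
    rw [h1]
    refine Set.ncard_le_ncard_of_injOn
      (fun x : Bool × I => if x.1 then (b x.2, b (o (c x.2))) else (b (o (c x.2)), b x.2))
      ?_ ?_ (Set.toFinite _)
    · rintro ⟨x, i⟩ ⟨-, hi⟩
      cases x
      · exact ⟨(hgood i hi).symm, i, Sym2.eq_swap⟩
      · exact ⟨hgood i hi, i, rfl⟩
    · rintro ⟨x, i⟩ ⟨-, hi⟩ ⟨y, j⟩ - hxy
      have hs : s(b i, b (o (c i))) = s(b j, b (o (c j))) := by
        cases x <;> cases y <;> simp only [Bool.false_eq_true, if_false, if_true, Prod.mk.injEq] at hxy <;>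
          rw [Sym2.eq_iff] <;> tauto
      have hgi := hgood i hi
      obtain rfl := hinj i j hi hs
      cases x <;> cases y <;> simp only [Bool.false_eq_true, if_false, if_true, Prod.mk.injEq] at hxy ⊢ <;>
        first | trivial | exact absurd hxy.1 hgi | exact absurd hxy.1.symm hgi
  have hbad : {i | i = o (c i)}.ncard ≤ (Set.range c).ncard := by
    refine Set.ncard_le_ncard_of_injOn c ?_ ?_ (Set.toFinite _)
    · intro i _
      exact ⟨i, rfl⟩
    · intro i (hi : i = o (c i)) j (hj : j = o (c j)) hij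
      rw [hi, hj, hij]
  have hsum : Nat.card I = {i | i = o (c i)}.ncard + {i | i ≠ o (c i)}.ncard := by
    rw [← Set.ncard_univ, ← Set.ncard_union_eq ?_ (Set.toFinite _) (Set.toFinite _)]
    · congr 1
      ext i
      simp only [Set.mem_univ, Set.mem_union, Set.mem_ofPred_eq, true_iff]
      exact em _
    · rw [Set.disjoint_left]
      intro i h1 h2
      exact h2 h1
  have h3 : 2 * {i | i ≠ o (c i)}.ncard ≤ 2 * (q * (Set.range b).ncard) := by
    rw [← mul_assoc]
    exact hcard.trans hE
  omega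

/-- **PH-A3.** -/
theorem SG2 {V : Type} [Finite V] (ρ q l : ℕ) (hq2 : 2 ≤ q)
    (hbig : 24 * (4 * ((4 * ρ + 1) * l) + 1) < q ^ ρ)
    (H : SimpleGraph V) (X : Sym2 V → Sym2 V → Prop)
    (hX : ∀ f ∈ H.edgeSet, {f' | f' ∈ H.edgeSet ∧ X f f'}.ncard ≤ 1) (hP : PlanarLike H X)
    (U : Set V) {I : Type} [Finite I] (a b : I → V) (W : ∀ i, H.Walk (a i) (b i))
    (ha : ∀ i, a i ∈ U) (hb : ∀ i, b i ∈ U) (hne : ∀ i, a i ≠ b i)
    (hin : ∀ i, ∀ z ∈ (W i).support, z ∈ U → z = a i ∨ z = b i)
    (hd : ∀ i j, i ≠ j → ∀ z ∈ (W i).support, z ∈ (W j).support → z ∈ U)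
    (hl : ∀ i, (W i).length ≤ l)
    (T : I → ℕ → V → V → Prop) (Trefl : ∀ i v, T i 0 v v)
    (Tsymm : ∀ i n u v, T i n u v → T i n v u)
    (Ttrans : ∀ i m n u v w, T i m u v → T i n v w → T i (m + n) u w)
    (Tstep : ∀ i j, j ≠ i → T i 1 (a j) (b j))
    (Tno : ∀ i n, n ≤ 8 * ρ + 4 → ¬ T i n (a i) (b i)) :
    Nat.card I ≤ q * U.ncard := by
  classical
  let Q0 : SimpleGraph V :=
    { Adj := fun s t => s ≠ t ∧ ∃ i, s(s, t) = s(a i, b i)
      symm := ⟨fun s t ⟨h1, i, h2⟩ => ⟨h1.symm, i, by rw [Sym2.eq_swap]; exact h2⟩⟩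
      loopless := ⟨fun s h => h.1 rfl⟩ }
  -- injectivity
  have hinj : ∀ i j, s(a i, b i) = s(a j, b j) → i = j := by
    intro i j h
    by_contra hij
    have h1 := Tstep i j (fun e => hij e.symm)
    rw [Sym2.eq_iff] at h
    rcases h with ⟨h2, h3⟩ | ⟨h2, h3⟩
    · exact Tno i 1 (by omega) (by rw [h2, h3]; exact h1)
    · exact Tno i 1 (by omega) (by rw [h2, h3]; exact Tsymm _ _ _ _ h1)
  -- girth
  have hgir : ∀ (u : V) (c : Q0.Walk u u), c.IsCycle → 8 * ρ + 2 < c.length := by
    intro u c hc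
    by_contra hlen
    push Not at hlen
    cases c with
    | nil => exact hc.ne_nil rfl
    | @cons _ v _ h p =>
      obtain ⟨huv, i, hi⟩ := id h
      have htr := hc.isTrail.edges_nodup
      rw [SimpleGraph.Walk.edges_cons, List.nodup_cons] at htr
      have hT := walkT 1 (T i) (Trefl i) (Ttrans i) p (by
        intro s t hst
        have hadj := p.adj_of_mem_edges hst
        obtain ⟨hne', j, hj⟩ := id hadj
        have hji : j ≠ i := by
          rintro rfl
          rw [hj, ← hi] at hst
          exact htr.1 hst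
        have h1 := Tstep i j hji
        rw [Sym2.eq_iff] at hj
        rcases hj with ⟨h2, h3⟩ | ⟨h2, h3⟩
        · rw [h2, h3]; exact h1
        · rw [h2, h3]; exact Tsymm _ _ _ _ h1)
      rw [SimpleGraph.Walk.length_cons] at hlen
      rw [Sym2.eq_iff] at hi
      rcases hi with ⟨h2, h3⟩ | ⟨h2, h3⟩
      · refine Tno i (1 * p.length) (by omega) ?_
        rw [← h2, ← h3]
        exact Tsymm _ _ _ _ hT
      · refine Tno i (1 * p.length) (by omega) ?_
        rw [← h2, ← h3]
        exact hT
  -- territories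
  let ter : V → V := fun z => if z ∈ U then z else
    if h : ∃ i, z ∈ (W i).support then a h.choose else z
  have terU : ∀ z ∈ U, ter z = z := fun z hz => by simp only [ter, if_pos hz]
  have terW : ∀ i, ∀ z ∈ (W i).support, z ∉ U → ter z = a i := by
    intro i z hz hzU
    have h : ∃ i, z ∈ (W i).support := ⟨i, hz⟩
    have h1 : h.choose = i := by
      by_contra hne'
      exact hzU (hd _ _ hne' z h.choose_spec hz)
    simp only [ter, if_neg hzU, dif_pos h, h1]
  have hreal : ∀ s t, Q0.Adj s t → ter s = s ∧ ter t = t ∧ ∃ p : H.Walk s t, p.length ≤ l ∧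
      ∀ x ∈ p.support, ter x = s ∨ ter x = t := by
    rintro s t ⟨-, i, hi⟩
    have hsup : ∀ x ∈ (W i).support, ter x = a i ∨ ter x = b i := by
      intro x hx
      by_cases hxU : x ∈ U
      · rw [terU x hxU]
        exact hin i x hx hxU
      · exact Or.inl (terW i x hx hxU)
    rw [Sym2.eq_iff] at hi
    rcases hi with ⟨rfl, rfl⟩ | ⟨rfl, rfl⟩
    · exact ⟨terU _ (ha i), terU _ (hb i), W i, hl i, hsup⟩
    · refine ⟨terU _ (hb i), terU _ (ha i), (W i).reverse, ?_, ?_⟩
      · rw [SimpleGraph.Walk.length_reverse]; exact hl i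
      · intro x hx
        rw [SimpleGraph.Walk.support_reverse, List.mem_reverse] at hx
        exact (hsup x hx).symm
  have hE := edges_le ρ Q0 hgir H X hX hP ter l hreal U (by
    rintro s t ⟨-, i, hi⟩
    rw [Sym2.eq_iff] at hi
    rcases hi with ⟨rfl, rfl⟩ | ⟨rfl, rfl⟩
    · exact ha i
    · exact hb i) q hq2 hbig
  have hcard : 2 * Nat.card I ≤ {e : V × V | Q0.Adj e.1 e.2}.ncard := by
    have h1 : 2 * Nat.card I = (Set.univ : Set (Bool × I)).ncard := by
      rw [Set.ncard_univ, Nat.card_prod]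
      simp
    rw [h1]
    refine Set.ncard_le_ncard_of_injOn
      (fun x : Bool × I => if x.1 then (a x.2, b x.2) else (b x.2, a x.2)) ?_ ?_ (Set.toFinite _)
    · rintro ⟨x, i⟩ -
      cases x
      · exact ⟨(hne i).symm, i, Sym2.eq_swap⟩
      · exact ⟨hne i, i, rfl⟩
    · rintro ⟨x, i⟩ - ⟨y, j⟩ - hxy
      have hs : s(a i, b i) = s(a j, b j) := by
        cases x <;> cases y <;> simp only [Bool.false_eq_true, if_false, if_true, Prod.mk.injEq] at hxy <;>
          rw [Sym2.eq_iff] <;> tauto
      obtain rfl := hinj i j hs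
      cases x <;> cases y <;> simp only [Bool.false_eq_true, if_false, if_true, Prod.mk.injEq] at hxy ⊢ <;>
        first | trivial | exact absurd hxy.1 (hne i) | exact absurd hxy.1.symm (hne i)
  have h3 : 2 * Nat.card I ≤ 2 * (q * U.ncard) := by
    rw [← mul_assoc]
    exact hcard.trans hE
  omega

end Pool.Agent.Helper63.PH
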