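import Pool.Agent.Helper63.PH.SG
import Pool.Agent.Helper63.PL.Walks
import Pool.Agent.Helper63.HH.Vor
import Pool.Agent.Helper63.PH.Defs

/-!
# PH-C1, PH-C2 (MP_0dbcb7_co): pins with cheap hubs, growth

**spa.** Marks: the pins `p ∈ B` with `e0 ∉ (D.w p).edges` (at most one pin of `B` is lost, `pin_uniq`). Cells: `vor D.N` (Helper63/HH/Vor) with the
centres `x c`, `c ∈ C`, and radii 0: `c p := ctr (x p)`, there is a path of `N` of length `dep (x p) ≤ R` from `x p` to `ctr (x p)` inside the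
cell (iterate `par`); `W p` = this path reversed, then the pin `p`. `e0 ∉ N` (`hH.e0N`). Different cells: a common vertex outside
`D.U` would be in both cells or on two pins (`w_disj`, `w_N`: a vertex of a pin in `VN` is its foot). `b p := hub p`, `T p n u v :=
Rch D (Fp D p) (n * (2 * R + R')) u v` (`Rch.trans`, `Rch.symm`; `Tstep`: `Rch.of_nr`, `Rch.pin`: cost `R + R + R'`; `T p 0 v v` is only true for
`v ∉ D.U`: use instead `T p n u v := u = v ∨ Rch ..`). `Tno`: `x p - ctr (x p)` has cost `≤ R`, so `Rch (Fp p) (R + n t0) (x p) (hub p)`,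
`Rch.byp`: bypass of cost `≤ M`. `SG` with `l = 2 R`.

**spb.** Marks: `p ∈ B` with `e0` neither on `p` nor on `t p` (at most two are lost: `t p = t p'` implies `x p`, `x p'` within `2 R`).
Path: pin `p` reversed, path of `N` from `x p` to `x (t p)`, pin `t p`: length `≤ 2 R`. Disjoint outside `D.U` by `hsep` and `w_disj`
(all vertices in `VN` on it are within `R` of `x p`). `T p n u v := u = v ∨ Rch D (Fp D p) (n * (2 * R + 2 * R')) u v`. `Tno`: from `x p` through `t p` to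
`hub (t p)` (cost `≤ R + R'`, `t p ≠ p` since the hubs are different), then to `hub p`: `Rch.byp`. `SG2` with `l = 2 R`.
-/

set_option autoImplicit false

open Set
open Pool.Agent.Helper83.OP Pool.Agent.Helper93.HH Pool.Agent.Helper23.PL

namespace Pool.Agent.Helper63.PH

private theorem cell_walk {V : Type} {N : SimpleGraph V} {ctr par : V → V} {dep : V → ℕ}
    (h0 : ∀ v, dep v = 0 ↔ ctr v = v) (h1 : ∀ v, dep v ≠ 0 → N.Adj v (par v))
    (h2 : ∀ v, dep v ≠ 0 → dep (par v) + 1 = dep v)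
    (h3 : ∀ v, dep v ≠ 0 → ctr (par v) = ctr v) :
    ∀ n v, dep v = n → ∃ W : N.Walk v (ctr v), W.length = n ∧ ∀ z ∈ W.support, ctr z = ctr v := by
  intro n
  induction n with
  | zero =>
    intro v hv
    have h4 := (h0 v).1 hv
    refine ⟨(SimpleGraph.Walk.nil : N.Walk v v).copy rfl h4.symm, ?_, ?_⟩
    · rw [SimpleGraph.Walk.length_copy, SimpleGraph.Walk.length_nil]
    · intro z hz
      rw [SimpleGraph.Walk.support_copy, SimpleGraph.Walk.support_nil, List.mem_singleton] at hz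
      rw [hz]
  | succ n ih =>
    intro v hv
    have hv0 : dep v ≠ 0 := by omega
    have h4 := h2 v hv0
    obtain ⟨W, hW1, hW2⟩ := ih (par v) (by omega)
    refine ⟨(SimpleGraph.Walk.cons (h1 v hv0) W).copy rfl (h3 v hv0), ?_, ?_⟩
    · rw [SimpleGraph.Walk.length_copy, SimpleGraph.Walk.length_cons, hW1]
    · intro z hz
      rw [SimpleGraph.Walk.support_copy, SimpleGraph.Walk.support_cons, List.mem_cons] at hz
      rcases hz with rfl | hz
      · rfl
      · rw [hW2 z hz, h3 v hv0]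

/-- a walk of `N` as a walk of `H` -/
private theorem toH_N {V P Q : Type} [Finite V] {D : HD V P Q} {H : SimpleGraph V}
    {e0 : Sym2 V} {X : Sym2 V → Sym2 V → Prop} (hD : D.Ok) (hH : D.Dr H e0 X) {u v : V}
    (W : D.N.Walk u v) : ∃ W' : H.Walk u v, W'.support = W.support ∧ W'.length = W.length := by
  have h : ∀ e ∈ W.edges, e ∈ H.edgeSet := by
    intro e he
    have h1 := SimpleGraph.Walk.edges_subset_edgeSet W he
    rw [hH.eq, SimpleGraph.edgeSet_deleteEdges]
    refine ⟨SimpleGraph.edgeSet_mono hD.N_le h1, fun h2 => ?_⟩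
    rw [Set.mem_singleton_iff] at h2
    rw [h2] at h1
    exact hH.e0N h1
  exact ⟨W.transfer H h, W.support_transfer h, W.length_transfer h⟩

/-- a walk of `G` without `e0` as a walk of `H` -/
private theorem toH_G {V P Q : Type} [Finite V] {D : HD V P Q} {H : SimpleGraph V}
    {e0 : Sym2 V} {X : Sym2 V → Sym2 V → Prop} (hH : D.Dr H e0 X) {u v : V}
    (W : D.G.Walk u v) (hW : e0 ∉ W.edges) :
    ∃ W' : H.Walk u v, W'.support = W.support ∧ W'.length = W.length := by
  have h : ∀ e ∈ W.edges, e ∈ H.edgeSet := by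
    intro e he
    have h1 := SimpleGraph.Walk.edges_subset_edgeSet W he
    rw [hH.eq, SimpleGraph.edgeSet_deleteEdges]
    refine ⟨h1, fun h2 => ?_⟩
    rw [Set.mem_singleton_iff] at h2
    rw [h2] at he
    exact hW he
  exact ⟨W.transfer H h, W.support_transfer h, W.length_transfer h⟩

/-- the relation `T` -/
private def TT {V P Q : Type} (D : HD V P Q) (A : ℕ) (p : P) (n : ℕ) (u v : V) : Prop :=
  u = v ∨ Rch D (Fp D p) (n * A) u v

private theorem TT_symm {V P Q : Type} {D : HD V P Q} {A : ℕ} {p : P} {n : ℕ} {u v : V}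
    (h : TT D A p n u v) : TT D A p n v u := by
  rcases h with h | h
  · exact Or.inl h.symm
  · exact Or.inr (Pool.Agent.Helper63.PL.Rch.symm h)

private theorem TT_trans {V P Q : Type} {D : HD V P Q} {A : ℕ} {p : P} {m n : ℕ} {u v w : V}
    (h : TT D A p m u v) (h' : TT D A p n v w) : TT D A p (m + n) u w := by
  rcases h with h | h
  · rcases h' with h' | h'
    · exact Or.inl (h.trans h')
    · rw [h]
      exact Or.inr (Pool.Agent.Helper63.PL.Rch.mono h' Subset.rfl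
        (Nat.mul_le_mul_right _ (Nat.le_add_left _ _)))
  · rcases h' with h' | h'
    · rw [← h']
      exact Or.inr (Pool.Agent.Helper63.PL.Rch.mono h Subset.rfl
        (Nat.mul_le_mul_right _ (Nat.le_add_right _ _)))
    · refine Or.inr ?_
      rw [Nat.add_mul]
      exact Pool.Agent.Helper63.PL.Rch.trans h h'

/-- at most one pin contains `e0` -/
private theorem pin_le_one {V P Q : Type} [Finite P] {D : HD V P Q} (hD : D.Ok) (e0 : Sym2 V) :
    {p | e0 ∈ (D.w p).edges}.ncard ≤ 1 := by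
  rw [Set.ncard_le_one (Set.toFinite _)]
  intro p hp p' hp'
  exact Pool.Agent.Helper63.PL.pin_uniq hD hp hp'

/-- **PH-C1 (spa).** -/
theorem spa (V P Q : Type) [Finite V] [Finite P] [Finite Q] (D : HD V P Q) (H : SimpleGraph V)
    (e0 : Sym2 V) (X : Sym2 V → Sym2 V → Prop) (hD : D.Ok) (hH : D.Dr H e0 X)
    (ρ q R R' M : ℕ) (hq2 : 2 ≤ q) (hbig : 24 * (4 * ((4 * ρ + 1) * (4 * R)) + 1) < q ^ ρ)
    (hM : (16 * ρ + 16) * (2 * R + R') ≤ M) (B C : Set P) (hCB : C ⊆ B)
    (hcov : ∀ p ∈ B, ∃ c ∈ C, Nr D.N R (D.x p) (D.x c))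
    (hB : ∀ p ∈ B, (D.w p).length ≤ R ∧ deg D.G (D.hub p) ≤ R' ∧
      ¬ Byp D (Fp D p) M (D.x p) (D.hub p)) :
    B.ncard ≤ C.ncard + q * D.U.ncard + 1 := by
  classical
  obtain ⟨ctr, par, dep, v1, -, -, -, v5, v6, v7, v8, -, v10, -, -⟩ :=
    Pool.Agent.Helper63.HH.vor D.N (D.x '' C) (fun _ => 0) (by
      rintro c - c' - hne u ⟨h1, h2⟩
      exact hne (h1.eq.trans h2.eq.symm))
  -- the marks
  have hmem : ∀ p ∈ B, ctr (D.x p) ∈ D.x '' C ∧ dep (D.x p) ≤ R := by
    intro p hp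
    obtain ⟨c, hc, hn⟩ := hcov p hp
    refine ⟨(v1 (D.x p) ⟨D.x c, ⟨c, hc, rfl⟩, hn.reachable⟩).1, ?_⟩
    have h1 := v10 (D.x p) (D.x c) ⟨c, hc, rfl⟩ R hn
    simp only [Nat.cast_zero, sub_zero] at h1
    exact_mod_cast h1
  -- the walks
  have hwalk : ∀ i : {p : P // p ∈ B ∧ e0 ∉ (D.w p).edges}, ∃ W : H.Walk (ctr (D.x i.1)) (D.hub i.1),
      W.length ≤ 2 * R ∧ ∀ z ∈ W.support, (z ∈ D.VN ∧ ctr z = ctr (D.x i.1)) ∨
        z ∈ (D.w i.1).support := by
    rintro ⟨p, hp, he⟩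
    obtain ⟨W1, hW1, hW2⟩ := cell_walk v5 v6 v7 v8 _ (D.x p) rfl
    obtain ⟨W1', h1, h2⟩ := toH_N hD hH W1
    obtain ⟨W2', h3, h4⟩ := toH_G hH (D.w p) he
    refine ⟨W1'.reverse.append W2', ?_, ?_⟩
    · rw [SimpleGraph.Walk.length_append, SimpleGraph.Walk.length_reverse, h2, hW1, h4]
      have := (hB p hp).1
      have := (hmem p hp).2
      omega
    · intro z hz
      rw [SimpleGraph.Walk.mem_support_append_iff, SimpleGraph.Walk.support_reverse,
        List.mem_reverse, h1, h3] at hz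
      rcases hz with hz | hz
      · exact Or.inl ⟨HD.VN_of_walk W1 (HD.x_VN p) hz, hW2 z hz⟩
      · exact Or.inr hz
  choose W hW1 hW2 using hwalk
  have hbd := SG ρ q (2 * R) hq2 (by
      have e1 : 2 * (2 * R) = 4 * R := by ring
      rw [e1]
      exact hbig) H X hH.one hH.pl D.U
    (fun i : {p : P // p ∈ B ∧ e0 ∉ (D.w p).edges} => ctr (D.x i.1)) (fun i => D.hub i.1) W
    (fun i => by
      obtain ⟨c, -, hc⟩ := (hmem i.1 i.2.1).1
      rw [← hc]
      exact hD.x_U c)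
    (fun i => hD.hub_U i.1)
    (fun i z hz hzU => by
      rcases hW2 i z hz with ⟨h1, -⟩ | h1
      · exact absurd hzU (HD.VN_U hD h1)
      · by_contra hne
        exact hD.w_U i.1 z h1 hne hzU)
    (fun i j hij z hz hz' => by
      by_contra hzU
      -- a vertex of `VN` on `W i` is in the cell
      have key : ∀ i : {p : P // p ∈ B ∧ e0 ∉ (D.w p).edges}, z ∈ (W i).support → z ∈ D.VN →
          ctr z = ctr (D.x i.1) := by
        intro i hz hV
        rcases hW2 i z hz with ⟨-, h1⟩ | h1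
        · exact h1
        · have h2 : z = D.x i.1 := by
            by_contra hne
            exact hD.w_N i.1 z h1 hne hV
          rw [h2]
      by_cases hV : z ∈ D.VN
      · exact hij ((key i hz hV).symm.trans (key j hz' hV))
      · rcases hW2 i z hz with ⟨h1, -⟩ | h1
        · exact hV h1
        rcases hW2 j z hz' with ⟨h2, -⟩ | h2
        · exact hV h2
        have h3 : i.1 = j.1 := hD.w_disj i.1 j.1 z h1 h2 (fun h => hV (by
          rw [h]
          exact HD.x_VN _)) (fun h => hzU (by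
          rw [h]
          exact hD.hub_U _))
        exact hij (by rw [h3]))
    hW1
    (fun i n u v => TT D (2 * R + R') i.1 n u v)
    (fun i v => Or.inl rfl)
    (fun i n u v h => TT_symm h)
    (fun i m n u v w h h' => TT_trans h h')
    (fun i j hij => by
      have hji : j.1 ≠ i.1 := fun h => hij (Subtype.ext h)
      obtain ⟨W1, hW1, -⟩ := cell_walk v5 v6 v7 v8 _ (D.x j.1) rfl
      obtain ⟨h1, h2⟩ := hmem j.1 j.2.1
      have h3 : Nr D.N (dep (D.x j.1)) (D.x j.1) (ctr (D.x j.1)) := ⟨W1, hW1.le⟩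
      have h4 := Pool.Agent.Helper63.PL.Rch.of_nr hD i.1 (hD.x_U j.1) h3
      have h5 := Pool.Agent.Helper63.PL.Rch.trans (Pool.Agent.Helper63.PL.Rch.symm h4)
        (Pool.Agent.Helper63.PL.Rch.pin hD hji)
      refine Or.inr (Pool.Agent.Helper63.PL.Rch.mono h5 Subset.rfl ?_)
      have h6 := (hB j.1 j.2.1).1
      have h7 := (hB j.1 j.2.1).2.1
      omega)
    (fun i n hn hT => by
      obtain ⟨h1, h2⟩ := hmem i.1 i.2.1
      obtain ⟨g1, g2, g3⟩ := hB i.1 i.2.1
      rcases hT with hT | hT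
      · obtain ⟨c, -, hc⟩ := h1
        rw [← hc] at hT
        exact hD.x_U c (by
          rw [hT]
          exact hD.hub_U _)
      · obtain ⟨W1, hW1, -⟩ := cell_walk v5 v6 v7 v8 _ (D.x i.1) rfl
        have h3 : Nr D.N (dep (D.x i.1)) (D.x i.1) (ctr (D.x i.1)) := ⟨W1, hW1.le⟩
        have h4 := Pool.Agent.Helper63.PL.Rch.of_nr hD i.1 (hD.x_U i.1) h3
        have h5 := Pool.Agent.Helper63.PL.Rch.trans h4 hT
        have h6 := Pool.Agent.Helper63.PL.Rch.byp h5 (fun h => hD.x_U i.1 (by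
          rw [h]
          exact hD.hub_U _))
        refine g3 (Pool.Agent.Helper63.PL.Byp.mono h6 Subset.rfl (le_trans ?_ hM))
        have h7 : n * (2 * R + R') ≤ (16 * ρ + 8) * (2 * R + R') := Nat.mul_le_mul_right _ hn
        have h8 : (16 * ρ + 16) * (2 * R + R') = (16 * ρ + 8) * (2 * R + R') + 8 * (2 * R + R') := by
          ring
        omega)
  have hr1 : (Set.range fun i : {p : P // p ∈ B ∧ e0 ∉ (D.w p).edges} => ctr (D.x i.1)).ncard ≤
      C.ncard := by
    refine (Set.ncard_le_ncard ?_ (Set.toFinite _)).trans (Set.ncard_image_le (Set.toFinite C) (f := D.x))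
    rintro _ ⟨i, rfl⟩
    exact (hmem i.1 i.2.1).1
  have hr2 : (Set.range fun i : {p : P // p ∈ B ∧ e0 ∉ (D.w p).edges} => D.hub i.1).ncard ≤
      D.U.ncard := by
    refine Set.ncard_le_ncard ?_ (Set.toFinite _)
    rintro _ ⟨i, rfl⟩
    exact hD.hub_U _
  have hcard : B.ncard ≤ Nat.card {p : P // p ∈ B ∧ e0 ∉ (D.w p).edges} + 1 := by
    have h1 : B ⊆ {p | p ∈ B ∧ e0 ∉ (D.w p).edges} ∪ {p | e0 ∈ (D.w p).edges} := by
      intro p hp
      by_cases h : e0 ∈ (D.w p).edges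
      · exact Or.inr h
      · exact Or.inl ⟨hp, h⟩
    have h2 := Set.ncard_le_ncard h1 (Set.toFinite _)
    have h3 := Set.ncard_union_le {p | p ∈ B ∧ e0 ∉ (D.w p).edges} {p | e0 ∈ (D.w p).edges}
    have h4 := pin_le_one hD e0
    have h5 : Nat.card {p : P // p ∈ B ∧ e0 ∉ (D.w p).edges} =
        {p | p ∈ B ∧ e0 ∉ (D.w p).edges}.ncard := rfl
    omega
  have h1 := Nat.mul_le_mul_left q hr2
  omega

/-- **PH-C2 (spb).** -/
theorem spb (V P Q : Type) [Finite V] [Finite P] [Finite Q] (D : HD V P Q) (H : SimpleGraph V)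
    (e0 : Sym2 V) (X : Sym2 V → Sym2 V → Prop) (hD : D.Ok) (hH : D.Dr H e0 X)
    (ρ q R R' M : ℕ) (hq2 : 2 ≤ q) (hbig : 24 * (4 * ((4 * ρ + 1) * (2 * R)) + 1) < q ^ ρ)
    (hM : (8 * ρ + 8) * (2 * R + 2 * R') ≤ M) (B : Set P) (t : P → P)
    (hsep : ∀ p ∈ B, ∀ p' ∈ B, p ≠ p' → ¬ Nr D.N (2 * R) (D.x p) (D.x p'))
    (hB : ∀ p ∈ B, (D.w p).length ≤ R ∧ deg D.G (D.hub p) ≤ R' ∧ D.hub (t p) ≠ D.hub p ∧
      deg D.G (D.hub (t p)) ≤ R' ∧ Pn D R (D.x p) (t p) ∧
      ¬ Byp D (Fp D p) M (D.x p) (D.hub p)) :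
    B.ncard ≤ q * D.U.ncard + 2 := by
  classical
  -- two marks with a common point near both are equal
  have hsep' : ∀ p ∈ B, ∀ p' ∈ B, ∀ z, Nr D.N R (D.x p) z → Nr D.N R (D.x p') z → p = p' := by
    intro p hp p' hp' z h1 h2
    by_contra hne
    exact hsep p hp p' hp' hne ((h1.trans h2.symm).mono (by omega))
  have ht : ∀ p ∈ B, Nr D.N R (D.x p) (D.x (t p)) := by
    intro p hp
    obtain ⟨-, -, -, -, ⟨s, h1, h2⟩, -⟩ := hB p hp
    exact h1.mono (by omega)
  -- the walks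
  have hwalk : ∀ i : {p : P // p ∈ B ∧ e0 ∉ (D.w p).edges ∧ e0 ∉ (D.w (t p)).edges},
      ∃ W : H.Walk (D.hub i.1) (D.hub (t i.1)), W.length ≤ 2 * R ∧
        ∀ z ∈ W.support, (z ∈ D.VN ∧ Nr D.N R (D.x i.1) z) ∨
          z ∈ (D.w i.1).support ∨ z ∈ (D.w (t i.1)).support := by
    rintro ⟨p, hp, he, he'⟩
    obtain ⟨g1, -, -, -, ⟨s, ⟨W0, hW0⟩, g5⟩, -⟩ := hB p hp
    obtain ⟨W1, h1, h2⟩ := toH_G hH (D.w p) he
    obtain ⟨W2, h3, h4⟩ := toH_N hD hH W0
    obtain ⟨W3, h5, h6⟩ := toH_G hH (D.w (t p)) he'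
    refine ⟨W1.reverse.append (W2.append W3), ?_, ?_⟩
    · rw [SimpleGraph.Walk.length_append, SimpleGraph.Walk.length_append,
        SimpleGraph.Walk.length_reverse, h2, h4, h6]
      omega
    · intro z hz
      rw [SimpleGraph.Walk.mem_support_append_iff, SimpleGraph.Walk.mem_support_append_iff,
        SimpleGraph.Walk.support_reverse, List.mem_reverse, h1, h3, h5] at hz
      rcases hz with hz | hz | hz
      · exact Or.inr (Or.inl hz)
      · exact Or.inl ⟨HD.VN_of_walk W0 (HD.x_VN p) hz, (Nr.of_mem hz).mono (by omega)⟩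
      · exact Or.inr (Or.inr hz)
  choose W hW1 hW2 using hwalk
  have hbd := SG2 ρ q (2 * R) hq2 hbig H X hH.one hH.pl D.U
    (fun i : {p : P // p ∈ B ∧ e0 ∉ (D.w p).edges ∧ e0 ∉ (D.w (t p)).edges} => D.hub i.1)
    (fun i => D.hub (t i.1)) W (fun i => hD.hub_U i.1) (fun i => hD.hub_U (t i.1))
    (fun i => (hB i.1 i.2.1).2.2.1.symm)
    (fun i z hz hzU => by
      rcases hW2 i z hz with ⟨h1, -⟩ | h1 | h1
      · exact absurd hzU (HD.VN_U hD h1)
      · left
        by_contra hne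
        exact hD.w_U i.1 z h1 hne hzU
      · right
        by_contra hne
        exact hD.w_U (t i.1) z h1 hne hzU)
    (fun i j hij z hz hz' => by
      by_contra hzU
      have hij' : i.1 ≠ j.1 := fun h => hij (Subtype.ext h)
      have key : ∀ i : {p : P // p ∈ B ∧ e0 ∉ (D.w p).edges ∧ e0 ∉ (D.w (t p)).edges},
          z ∈ (W i).support → z ∈ D.VN → Nr D.N R (D.x i.1) z := by
        intro i hz hV
        rcases hW2 i z hz with ⟨-, h1⟩ | h1 | h1
        · exact h1
        · have h2 : z = D.x i.1 := by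
            by_contra hne
            exact hD.w_N i.1 z h1 hne hV
          rw [h2]
          exact Nr.refl _ _ _
        · have h2 : z = D.x (t i.1) := by
            by_contra hne
            exact hD.w_N (t i.1) z h1 hne hV
          rw [h2]
          exact ht i.1 i.2.1
      by_cases hV : z ∈ D.VN
      · exact hij' (hsep' i.1 i.2.1 j.1 j.2.1 z (key i hz hV) (key j hz' hV))
      · have key2 : ∀ i : {p : P // p ∈ B ∧ e0 ∉ (D.w p).edges ∧ e0 ∉ (D.w (t p)).edges},
            z ∈ (W i).support → ∃ a, z ∈ (D.w a).support ∧ Nr D.N R (D.x i.1) (D.x a) := by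
          intro i hz
          rcases hW2 i z hz with ⟨h1, -⟩ | h1 | h1
          · exact absurd h1 hV
          · exact ⟨i.1, h1, Nr.refl _ _ _⟩
          · exact ⟨t i.1, h1, ht i.1 i.2.1⟩
        obtain ⟨a, ha, ha'⟩ := key2 i hz
        obtain ⟨b, hb, hb'⟩ := key2 j hz'
        have h3 : a = b := hD.w_disj a b z ha hb (fun h => hV (by
          rw [h]
          exact HD.x_VN _)) (fun h => hzU (by
          rw [h]
          exact hD.hub_U _))
        rw [← h3] at hb'
        exact hij' (hsep' i.1 i.2.1 j.1 j.2.1 _ ha' hb'))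
    hW1
    (fun i n u v => TT D (2 * R + 2 * R') i.1 n u v)
    (fun i v => Or.inl rfl)
    (fun i n u v h => TT_symm h)
    (fun i m n u v w h h' => TT_trans h h')
    (fun i j hij => by
      have hji : j.1 ≠ i.1 := fun h => hij (Subtype.ext h)
      have htj : t j.1 ≠ i.1 := fun h => hji (hsep' j.1 j.2.1 i.1 i.2.1 (D.x i.1)
        (by
          have := ht j.1 j.2.1
          rwa [h] at this) (Nr.refl _ _ _))
      obtain ⟨g1, g2, -, g4, ⟨s, g5, g6⟩, -⟩ := hB j.1 j.2.1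
      have h1 := Pool.Agent.Helper63.PL.Rch.symm (Pool.Agent.Helper63.PL.Rch.pin hD hji)
      have h2 := Pool.Agent.Helper63.PL.Rch.of_nr hD i.1 (hD.x_U j.1) g5
      have h3 := Pool.Agent.Helper63.PL.Rch.pin hD htj
      refine Or.inr (Pool.Agent.Helper63.PL.Rch.mono (Pool.Agent.Helper63.PL.Rch.trans h1
        (Pool.Agent.Helper63.PL.Rch.trans h2 h3)) Subset.rfl ?_)
      omega)
    (fun i n hn hT => by
      obtain ⟨g1, g2, g3, g4, ⟨s, g5, g6⟩, g7⟩ := hB i.1 i.2.1
      rcases hT with hT | hT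
      · exact g3 hT.symm
      · have hti : t i.1 ≠ i.1 := fun h => g3 (by rw [h])
        have h2 := Pool.Agent.Helper63.PL.Rch.of_nr hD i.1 (hD.x_U i.1) g5
        have h3 := Pool.Agent.Helper63.PL.Rch.pin hD hti
        have h5 := Pool.Agent.Helper63.PL.Rch.trans (Pool.Agent.Helper63.PL.Rch.trans h2 h3)
          (Pool.Agent.Helper63.PL.Rch.symm hT)
        have h6 := Pool.Agent.Helper63.PL.Rch.byp h5 (fun h => hD.x_U i.1 (by
          rw [h]
          exact hD.hub_U _))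
        refine g7 (Pool.Agent.Helper63.PL.Byp.mono h6 Subset.rfl (le_trans ?_ hM))
        have h7 : n * (2 * R + 2 * R') ≤ (8 * ρ + 4) * (2 * R + 2 * R') :=
          Nat.mul_le_mul_right _ hn
        have h8 : (8 * ρ + 8) * (2 * R + 2 * R') =
            (8 * ρ + 4) * (2 * R + 2 * R') + 4 * (2 * R + 2 * R') := by
          ring
        omega)
  have hcard : B.ncard ≤
      Nat.card {p : P // p ∈ B ∧ e0 ∉ (D.w p).edges ∧ e0 ∉ (D.w (t p)).edges} + 2 := by
    have h1 : B ⊆ ({p | p ∈ B ∧ e0 ∉ (D.w p).edges ∧ e0 ∉ (D.w (t p)).edges} ∪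
        {p | e0 ∈ (D.w p).edges}) ∪ {p | p ∈ B ∧ e0 ∈ (D.w (t p)).edges} := by
      intro p hp
      by_cases h : e0 ∈ (D.w p).edges
      · exact Or.inl (Or.inr h)
      · by_cases h' : e0 ∈ (D.w (t p)).edges
        · exact Or.inr ⟨hp, h'⟩
        · exact Or.inl (Or.inl ⟨hp, h, h'⟩)
    have h2 := Set.ncard_le_ncard h1 (Set.toFinite _)
    have h3 := Set.ncard_union_le ({p | p ∈ B ∧ e0 ∉ (D.w p).edges ∧ e0 ∉ (D.w (t p)).edges} ∪
        {p | e0 ∈ (D.w p).edges}) {p | p ∈ B ∧ e0 ∈ (D.w (t p)).edges}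
    have h3' := Set.ncard_union_le {p | p ∈ B ∧ e0 ∉ (D.w p).edges ∧ e0 ∉ (D.w (t p)).edges}
        {p | e0 ∈ (D.w p).edges}
    have h4 := pin_le_one hD e0
    have h5 : Nat.card {p : P // p ∈ B ∧ e0 ∉ (D.w p).edges ∧ e0 ∉ (D.w (t p)).edges} =
        {p | p ∈ B ∧ e0 ∉ (D.w p).edges ∧ e0 ∉ (D.w (t p)).edges}.ncard := rfl
    have h6 : {p | p ∈ B ∧ e0 ∈ (D.w (t p)).edges}.ncard ≤ 1 := by
      rw [Set.ncard_le_one (Set.toFinite _)]
      rintro p ⟨hp, he⟩ p' ⟨hp', he'⟩
      have h7 := Pool.Agent.Helper63.PL.pin_uniq hD he he'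
      refine hsep' p hp p' hp' (D.x (t p)) (ht p hp) ?_
      rw [h7]
      exact ht p' hp'
    omega
  omega

end Pool.Agent.Helper63.PH
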