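import Pool.Agent.Helper63.PH.SPa
import Pool.Agent.Helper63.PH.Scales
import Pool.Agent.Helper23.PL.SpecB

/-!
# PH-C3 (MP_0dbcb7_co): separated pins with a small hub and two large hubs nearby

Setting (`Cc D k k1 k2 j C`): `C` is a set of pins with feet pairwise more than `2 ^ (j + 14)` apart; every `p ∈ C` has `2 ^ j ≤ sg p < 2 ^ (j + 1)`, a
small hub `a = hub p`: `deg a ≤ k1 2 ^ (j + 1)`, `2 ^ (j + 9) < Rb (x p)`, and two pins `q1 p`, `q2 p` with `Pn (2 ^ (j + 8)) (x p)`, whose hubs are different,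
different from `a` and large: degree `> k1 2 ^ (j + 10)`. All `D1`: `no_byp`.
Paper proof. Drop the (at most one) pin `p` within `2 ^ (j + 11)` of the pin with `e0` (`+ 1 ≤ |U|`). Classes:
(α) a third large hub `c3` (degree `> k1 2 ^ (j + 10)`) with a pin within `2 ^ (j + 10)` of `x p`: disjoint tripods with three feet in `UL j` and legs
`≤ 2 ^ (j + 10)` (model: `cnt2` in `Helper63/PH/CC.lean`): at most `C 2 ^ j |UL j|`.
(β) a pin `t` of another small hub (degree `≤ k1 2 ^ (j + 10)`, `≠ a`) within `2 ^ (j + 10)`: `spb` with `R = 2 ^ (j + 10)`, `R' = k1 2 ^ (j + 10)`: at most `q |U| + 2`.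
(γ) the rest: all pins within `2 ^ (j + 10)` of `x p` have hub `a`, `c1 = hub (q1 p)` or `c2 = hub (q2 p)`. CLAIM: for `p ≠ p'` of class γ with the same `a` the
pairs `{c1, c2}`, `{c1', c2'}` are different. Then `TSb` (Helper23/PL/SpecA; terminals `{c ∈ U | k1 2 ^ (j + 10) < deg c} ⊆ UL j`, first foot `a`, which is
not a terminal, other feet `c1, c2`; model: the use of `TSb` in `Helper63/PH/CD.lean`) gives at most `A (2 ^ j |UL j| + |U|)`.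
PROOF OF THE CLAIM. Suppose the pairs are equal. `Rch` from `x p` to `x p'` through `a` costs `≤ 2 ^ (j + 2) + k1 2 ^ (j + 1)` and avoids all pins but `p`, `p'`. Let `q` be
one of `q1 p`, `q2 p`, `c = hub q`, `q'` the pin of `c` at `p'` (`q ≠ q'` and `q ≠ p'`, since feet near `x p` and `x p'` are different).
(1) `q` has the bypass `x q - x p - a - x p' - x q' - c` of cost `≤ (k1 + 1) 2 ^ (j + 10)`, so by D1 `k (sg q - 1) < (k1 + 1) 2 ^ (j + 10)`, hence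
`2 ^ 12 sg q < 2 ^ j`. `Rb (x q) > 2 ^ (j + 8)` (`Rb_le`), so `e1 q ≤ sg q`.
(2) `hub (pt1 q)` is the other large hub: it is `≠ c` and within `2 ^ (j + 10)` of `x p`. It is not `a`: if `pt1 q = p` then `|p|` and `d (x p, x q)` are `≤ e1 q`, so
`e1 p ≤ e1 q + |q|` and `sg p < 2 ^ j`; if `pt1 q ≠ p` has hub `a`, `p` has the bypass `x p - x q - pt1 q - a` of cost `≤ 2 ^ (j + 9)`: D1.
(3) `2 ^ j ≤ 4 e2 q`: a pin of a third hub within `e2 q < 2 ^ (j - 2)` of `x q` has hub `a`; if it is `p`: `|p| + d (x p, x q) < 2 ^ (j - 2)` and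
`e1 p ≤ d (x p, x q) + |q|`, so `sg p < 2 ^ j`; otherwise `p` has a bypass of cost `≤ 2 ^ (j + 9)`. So `2 ^ j ≤ 4 rho q` and `128 sg q < rho q`.
(4) By symmetry let `lam q' ≤ lam q` (exchange `p` and `p'`; (1) - (3) hold for `q'` too). The unit of `q'` (pin `q'`, path, pin `pt1 q'`; the same two hubs) is a walk
as in `NU q`: so `T5 q`. `t5_pair` (`h = T5 q`, `p' := q'`; `q ≠ q'`, `q ≠ pt1 q'`, `e1 q' < cap`) says that `x q'` cannot be reached from `x q` at cost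
`k (rho q - 1)`; but `x q - x p - a - x p' - x q'` costs `≤ (k1 + 1) 2 ^ (j + 10)`. Contradiction.
-/

set_option autoImplicit false

open Set
open Pool.Agent.Helper83.OP Pool.Agent.Helper93.HH Pool.Agent.Helper23.PL

namespace Pool.Agent.Helper63.PH

/-- the hypotheses on a separated family `C` -/
structure Cc {V P Q : Type} (D : HD V P Q) (k1 k2 j : ℕ) (C : Set P) : Prop where
  sep : ∀ p ∈ C, ∀ p' ∈ C, p ≠ p' → ¬ Nr D.N (2 ^ (j + 14)) (D.x p) (D.x p')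
  lo : ∀ p ∈ C, 2 ^ j ≤ sg D k2 p
  hi : ∀ p ∈ C, sg D k2 p < 2 ^ (j + 1)
  sm : ∀ p ∈ C, deg D.G (D.hub p) ≤ k1 * 2 ^ (j + 1)
  rb : ∀ p ∈ C, 2 ^ (j + 9) < Rb D k2 (D.x p)
  two : ∀ p ∈ C, ∃ q q', D.hub q ≠ D.hub p ∧ D.hub q' ≠ D.hub p ∧ D.hub q ≠ D.hub q' ∧
    Pn D (2 ^ (j + 8)) (D.x p) q ∧ Pn D (2 ^ (j + 8)) (D.x p) q' ∧
    k1 * 2 ^ (j + 10) < deg D.G (D.hub q) ∧ k1 * 2 ^ (j + 10) < deg D.G (D.hub q')

section

variable {V P Q : Type} [Finite V] [Finite P] [Finite Q] {D : HD V P Q} {k k1 k2 j : ℕ}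

omit [Finite V] [Finite P] [Finite Q] in
private theorem len_le (p : P) : (D.w p).length ≤ sg D k2 p := le_max_left _ _

/-- from `x p` through the hub to `x p'` without the pin `q` -/
private theorem thru (hD : D.Ok) {C : Set P} (hC : Cc D k1 k2 j C) {p p' q : P} (hp : p ∈ C)
    (hp' : p' ∈ C) (ha : D.hub p = D.hub p') (hq : p ≠ q) (hq' : p' ≠ q) :
    Rch D (Fp D q) ((k1 + 1) * 2 ^ (j + 2)) (D.x p) (D.x p') := by
  have h3 := len_le (D := D) (k2 := k2) p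
  have h4 := len_le (D := D) (k2 := k2) p'
  have h5 := hC.hi p hp
  have h6 := hC.hi p' hp'
  have h7 := hC.sm p hp
  have h7' := hC.sm p' hp'
  have h8 : (2 : ℕ) ^ (j + 2) = 2 * 2 ^ (j + 1) := by rw [pow_succ]; ring
  have h9 : (k1 + 1) * (2 * 2 ^ (j + 1)) = 2 * (k1 * 2 ^ (j + 1)) + 2 * 2 ^ (j + 1) := by ring
  have h1 : Rch D (Fp D q) (2 ^ (j + 1) + k1 * 2 ^ (j + 1)) (D.x p) (D.hub p) :=
    Rch.mono (Rch.pin hD hq) Subset.rfl (by omega)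
  have h2 : Rch D (Fp D q) (2 ^ (j + 1) + k1 * 2 ^ (j + 1)) (D.x p') (D.hub p') :=
    Rch.mono (Rch.pin hD hq') Subset.rfl (by omega)
  rw [← ha] at h2
  refine Rch.mono (Rch.trans h1 (Rch.symm h2)) Subset.rfl ?_
  rw [h8]
  omega

omit [Finite V] [Finite P] [Finite Q] in
/-- the foot of a pin near `x p` is far from the feet near `x p'` -/
private theorem far {C : Set P} (hC : Cc D k1 k2 j C) {p p' : P} (hp : p ∈ C)
    (hp' : p' ∈ C) (hne : p ≠ p') {q q' : P} (h1 : Pn D (2 ^ (j + 8)) (D.x p) q)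
    (h1' : Pn D (2 ^ (j + 8)) (D.x p') q') : q ≠ q' := by
  rintro rfl
  obtain ⟨s, h2, h3⟩ := h1
  obtain ⟨s', h4, h5⟩ := h1'
  refine hC.sep p hp p' hp' hne (Nr.mono (h2.trans h4.symm) ?_)
  have h6 : (2 : ℕ) ^ (j + 14) = 64 * 2 ^ (j + 8) := by
    rw [show j + 14 = (j + 8) + 6 by omega, pow_add]; ring
  omega

/-- from `x q` to `x q'` without the pin `q` -/
private theorem route (hD : D.Ok) {C : Set P} (hC : Cc D k1 k2 j C) {p p' : P} (hp : p ∈ C)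
    (hp' : p' ∈ C) (ha : D.hub p = D.hub p') {q q' : P} (n1 : D.hub q ≠ D.hub p)
    (h1 : Pn D (2 ^ (j + 8)) (D.x p) q) (h1' : Pn D (2 ^ (j + 8)) (D.x p') q') :
    Rch D (Fp D q) (2 * 2 ^ (j + 8) + (k1 + 1) * 2 ^ (j + 2)) (D.x q) (D.x q') := by
  obtain ⟨s, h2, h3⟩ := h1
  obtain ⟨s', h4, h5⟩ := h1'
  have g1 : Rch D (Fp D q) s (D.x q) (D.x p) := Rch.of_nr hD q (hD.x_U q) h2.symm
  have g2 : Rch D (Fp D q) s' (D.x p') (D.x q') := Rch.of_nr hD q (hD.x_U p') h4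
  have g3 := thru hD hC hp hp' ha (q := q) (fun h => n1 (by rw [h])) (fun h => n1 (by rw [ha, h]))
  refine Rch.mono (Rch.trans g1 (Rch.trans g3 g2)) Subset.rfl ?_
  omega

/-- a pin `r ≠ p` of the same hub, near `x p`, is impossible -/
private theorem no_same (hD : D.Ok) (hB : BadH D k k2)
    (hF : ∀ p, min (e1 D p) (Rb D k2 (D.x p)) < cap D)
    (hk : 10 ^ 9 * (k1 + 1) ≤ k) {C : Set P} (hC : Cc D k1 k2 j C) {p r : P} (hp : p ∈ C)
    (hr : r ≠ p) (hh : D.hub r = D.hub p) : ¬ Pn D (2 ^ (j + 9)) (D.x p) r := by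
  rintro ⟨s, h1, h2⟩
  obtain ⟨h3, -, -, -⟩ := sg_le hD hF p
  have h4 := hC.lo p hp
  have h5 : Byp D (Fp D p) (2 ^ (j + 9)) (D.x p) (D.hub r) :=
    Byp.mono (Byp.trans (Rch.of_nr hD p (hD.x_U p) h1) (Byp.pin hD hr)) Subset.rfl h2
  rw [hh] at h5
  refine no_byp hD hB p (Byp.mono h5 Subset.rfl ?_)
  have h6 : (2 : ℕ) ^ (j + 9) = 512 * 2 ^ j := by rw [pow_add]; ring
  have h7 : 10 ^ 9 * (sg D k2 p - 1) ≤ k * (sg D k2 p - 1) :=
    Nat.mul_le_mul ((Nat.le_mul_of_pos_right _ (Nat.succ_pos k1)).trans hk) le_rfl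
  omega

/-- (1) - (3) of the proof of the claim -/
private theorem side (hD : D.Ok) (hB : BadH D k k2)
    (hF : ∀ p, min (e1 D p) (Rb D k2 (D.x p)) < cap D)
    (hk : 10 ^ 9 * (k1 + 1) ≤ k) {C : Set P} (hC : Cc D k1 k2 j C) {p p' : P} (hp : p ∈ C)
    (hp' : p' ∈ C) (hne : p ≠ p') (ha : D.hub p = D.hub p') {q q' : P} {c : V}
    (n1 : D.hub q ≠ D.hub p) (h1 : Pn D (2 ^ (j + 8)) (D.x p) q)
    (h1' : Pn D (2 ^ (j + 8)) (D.x p') q') (e1' : D.hub q' = D.hub q)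
    (hr : ∀ s, Pn D (2 ^ (j + 10)) (D.x p) s → D.hub s = D.hub p ∨ D.hub s = D.hub q ∨
      D.hub s = c) :
    4096 * sg D k2 q < 2 ^ j ∧ 2 ≤ sg D k2 q ∧ e1 D q < cap D ∧ D.hub (pt1 D q) = c ∧
      D.hub (pt1 D q) ≠ D.hub q ∧ 2 ^ j ≤ 4 * rho D k2 q := by
  have hqq := far hC hp hp' hne h1 h1'
  have hro := route hD hC hp hp' ha n1 h1 h1'
  obtain ⟨s, h2, h3⟩ := h1
  obtain ⟨s', h4, h5⟩ := h1'
  obtain ⟨b1, b2, b3, -⟩ := sg_le hD hF q
  obtain ⟨-, -, b4, -⟩ := sg_le hD hF p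
  have p8 : (2 : ℕ) ^ (j + 8) = 256 * 2 ^ j := by rw [pow_add]; ring
  have p9 : (2 : ℕ) ^ (j + 9) = 512 * 2 ^ j := by rw [pow_add]; ring
  have p10 : (2 : ℕ) ^ (j + 10) = 1024 * 2 ^ j := by rw [pow_add]; ring
  have p2 : (2 : ℕ) ^ (j + 2) = 4 * 2 ^ j := by rw [pow_add]; ring
  have hlo := hC.lo p hp
  -- (1)
  have hby : Byp D (Fp D q) (3 * 2 ^ (j + 8) + (k1 + 1) * 2 ^ (j + 2)) (D.x q) (D.hub q) := by
    have g1 : Byp D (Fp D q) (3 * 2 ^ (j + 8) + (k1 + 1) * 2 ^ (j + 2)) (D.x q) (D.hub q') :=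
      Byp.mono (Byp.trans hro (Byp.pin hD (Ne.symm hqq))) Subset.rfl (by omega)
    rwa [e1'] at g1
  have h6 : k * (sg D k2 q - 1) < 3 * 2 ^ (j + 8) + (k1 + 1) * 2 ^ (j + 2) := by
    by_contra hcon
    exact no_byp hD hB q (Byp.mono hby Subset.rfl (by omega))
  have h7 : 10 ^ 9 * (k1 + 1) * (sg D k2 q - 1) ≤ k * (sg D k2 q - 1) :=
    Nat.mul_le_mul hk le_rfl
  have h8 : 3 * 2 ^ (j + 8) + (k1 + 1) * 2 ^ (j + 2) ≤ (k1 + 1) * 2 ^ (j + 10) := by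
    rw [p8, p2, p10]
    have : (k1 + 1) * (1024 * 2 ^ j) = 1020 * ((k1 + 1) * 2 ^ j) + (k1 + 1) * (4 * 2 ^ j) := by
      ring
    have h' : 1 * 2 ^ j ≤ (k1 + 1) * 2 ^ j := Nat.mul_le_mul (by omega) le_rfl
    omega
  have h9 : 10 ^ 9 * (sg D k2 q - 1) < 2 ^ (j + 10) := by
    have g1 : (k1 + 1) * (10 ^ 9 * (sg D k2 q - 1)) < (k1 + 1) * 2 ^ (j + 10) := by
      have : (k1 + 1) * (10 ^ 9 * (sg D k2 q - 1)) = 10 ^ 9 * (k1 + 1) * (sg D k2 q - 1) := by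
        ring
      omega
    exact Nat.lt_of_mul_lt_mul_left g1
  have h10 : 4096 * sg D k2 q < 2 ^ j := by
    rw [p10] at h9
    omega
  -- `e1 q ≤ sg q`
  have h11 : Rb D k2 (D.x p) ≤ Rb D k2 (D.x q) + s := Rb_le h2.symm
  have h12 := hC.rb p hp
  have h13 : e1 D q ≤ sg D k2 q := by
    have g1 : min (e1 D q) (Rb D k2 (D.x q)) ≤ sg D k2 q := le_max_right _ _
    rcases min_le_iff.1 g1 with g2 | g2
    · exact g2
    · omega
  have h14 : e1 D q < cap D := by omega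
  obtain ⟨h15, s1, h16, h17⟩ := e1_spec h14
  have hlq := len_le (D := D) (k2 := k2) q
  have hep : e1 D p ≤ s + (D.w q).length := e1_le n1 ⟨s, h2, le_rfl⟩
  -- no pin of `hub p` near `x q`
  have key : ∀ r t, 4 * t < 2 ^ j → Pn D t (D.x q) r → D.hub r ≠ D.hub p := by
    rintro r t ht ⟨s2, g1, g2⟩ g3
    by_cases g4 : r = p
    · subst g4
      have g5 : e1 D r ≤ s2 + (D.w q).length := e1_le n1 ⟨s2, g1.symm, le_rfl⟩
      have g6 : sg D k2 r = max (D.w r).length (min (e1 D r) (Rb D k2 (D.x r))) := rfl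
      have g7 : sg D k2 r ≤ s2 + (D.w r).length + (D.w q).length := by
        rw [g6]
        exact max_le (by omega) ((min_le_left _ _).trans (by omega))
      omega
    · refine no_same hD hB hF hk hC hp g4 g3 ⟨s + s2, h2.trans g1, ?_⟩
      omega
  have near : ∀ r t, 4 * t < 2 ^ j → Pn D t (D.x q) r → D.hub r ≠ D.hub q → D.hub r = c := by
    intro r t ht hr' hrq
    have hrp := key r t ht hr'
    obtain ⟨s2, g1, g2⟩ := hr'
    rcases hr r ⟨s + s2, h2.trans g1, by omega⟩ with g3 | g3 | g3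
    · exact absurd g3 hrp
    · exact absurd g3 hrq
    · exact g3
  have h18 : D.hub (pt1 D q) = c := near _ (e1 D q) (by omega) ⟨s1, h16, h17⟩ h15
  -- (3)
  have h19 : 2 ^ j ≤ 4 * e2 D q := by
    by_contra hcon
    have g1 : e2 D q < cap D := by omega
    obtain ⟨r, g2, g3, g4⟩ := e2_spec g1
    exact g3 ((near r (e2 D q) (by omega) g4 g2).trans h18.symm)
  refine ⟨h10, b1, h14, h18, h15, ?_⟩
  have h20 : rho D k2 q = min (e2 D q) (Rb D k2 (D.x q)) := rfl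
  rw [h20]
  rcases min_choice (e2 D q) (Rb D k2 (D.x q)) with g | g
  · rw [g]; exact h19
  · rw [g]; omega

/-- (4) of the proof of the claim -/
private theorem fin4 (hD : D.Ok) (hB : BadH D k k2)
    (hF : ∀ p, min (e1 D p) (Rb D k2 (D.x p)) < cap D)
    (hk : 10 ^ 9 * (k1 + 1) ≤ k) {C : Set P} (hC : Cc D k1 k2 j C) {p p' : P} (hp : p ∈ C)
    (hp' : p' ∈ C) (hne : p ≠ p') (ha : D.hub p = D.hub p') {q q' : P} {c : V}
    (n1 : D.hub q ≠ D.hub p) (h1 : Pn D (2 ^ (j + 8)) (D.x p) q)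
    (h1' : Pn D (2 ^ (j + 8)) (D.x p') q') (e1' : D.hub q' = D.hub q)
    (hr : ∀ s, Pn D (2 ^ (j + 10)) (D.x p) s → D.hub s = D.hub p ∨ D.hub s = D.hub q ∨
      D.hub s = c)
    (hr' : ∀ s, Pn D (2 ^ (j + 10)) (D.x p') s → D.hub s = D.hub p ∨ D.hub s = D.hub q ∨
      D.hub s = c) (hl : lam D q' ≤ lam D q) : False := by
  obtain ⟨a1, a2, a3, a4, a5, a6⟩ := side hD hB hF hk hC hp hp' hne ha n1 h1 h1' e1' hr
  obtain ⟨b1, b2, b3, b4, b5, b6⟩ := side hD hB hF hk hC hp' hp (Ne.symm hne) ha.symm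
    (q := q') (q' := q) (c := c) (by rw [e1', ← ha]; exact n1) h1' h1 e1'.symm
    (by rw [← ha, e1']; exact hr')
  have hqq := far hC hp hp' hne h1 h1'
  have hro := route hD hC hp hp' ha n1 h1 h1'
  have hk8 : 8 ≤ k := by omega
  have hpt : pt1 D q' ≠ q := by
    intro h
    rw [h, e1'] at b5
    exact b5 rfl
  have hT : T5 D k k2 q := by
    refine ⟨by omega, ?_⟩
    obtain ⟨-, s, h6, h7⟩ := e1_spec b3
    obtain ⟨y1, hy1, W1, hW1, hc1⟩ := Byp.pin hD (Ne.symm hqq)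
    obtain ⟨z1, hz1, W2, hW2, hc2⟩ :=
      Byp.trans (Rch.of_nr hD q (hD.x_U q') h6) (Byp.pin hD hpt)
    obtain ⟨W3, hW3, hc3⟩ := Rch.trans (Rch.symm ⟨W1, hW1, hc1⟩) ⟨W2, hW2, hc2⟩
    refine ⟨y1, z1, W3, by rw [← e1']; exact hy1, by rw [a4, ← b4]; exact hz1, hW3, ?_⟩
    have h8 : lam D q' = (D.w q').length + e1 D q' := rfl
    have h9 : 1 * lam D q ≤ k * lam D q := Nat.mul_le_mul (by omega) le_rfl
    omega
  refine t5_pair hD hB hk8 hT hqq (Ne.symm hpt) b3 hl (by rw [a4, b4, e1']) ?_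
  refine Rch.mono hro Subset.rfl ?_
  have p8 : (2 : ℕ) ^ (j + 8) = 256 * 2 ^ j := by rw [pow_add]; ring
  have p2 : (2 : ℕ) ^ (j + 2) = 4 * 2 ^ j := by rw [pow_add]; ring
  rw [p8, p2]
  have g1 : 10 ^ 9 * (k1 + 1) * (rho D k2 q - 1) ≤ k * (rho D k2 q - 1) :=
    Nat.mul_le_mul hk le_rfl
  have g2 : 2 ^ j ≤ 8 * (rho D k2 q - 1) := by omega
  have g3 : (k1 + 1) * 2 ^ j ≤ (k1 + 1) * (8 * (rho D k2 q - 1)) := Nat.mul_le_mul le_rfl g2
  have g4 : (k1 + 1) * (8 * (rho D k2 q - 1)) = 8 * ((k1 + 1) * (rho D k2 q - 1)) := by ring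
  have g5 : 10 ^ 9 * (k1 + 1) * (rho D k2 q - 1) = 10 ^ 9 * ((k1 + 1) * (rho D k2 q - 1)) := by
    ring
  have g6 : (k1 + 1) * (4 * 2 ^ j) = 4 * ((k1 + 1) * 2 ^ j) := by ring
  have g7 : 1 * 2 ^ j ≤ (k1 + 1) * 2 ^ j := Nat.mul_le_mul (by omega) le_rfl
  omega

end

/-- **PH-C3a.** The claim. -/
theorem spc_claim {V P Q : Type} [Finite V] [Finite P] [Finite Q] {D : HD V P Q} {k k1 k2 j : ℕ}
    (hD : D.Ok) (hB : BadH D k k2) (hF : ∀ p, min (e1 D p) (Rb D k2 (D.x p)) < cap D)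
    (hk : 10 ^ 9 * (k1 + 1) ≤ k) {C : Set P} (hC : Cc D k1 k2 j C) {p p' : P} (hp : p ∈ C)
    (hp' : p' ∈ C) (hne : p ≠ p') (ha : D.hub p = D.hub p') {q1 q2 q1' q2' : P}
    (n1 : D.hub q1 ≠ D.hub p) (n2 : D.hub q2 ≠ D.hub p) (n12 : D.hub q1 ≠ D.hub q2)
    (h1 : Pn D (2 ^ (j + 8)) (D.x p) q1) (h2 : Pn D (2 ^ (j + 8)) (D.x p) q2)
    (h1' : Pn D (2 ^ (j + 8)) (D.x p') q1') (h2' : Pn D (2 ^ (j + 8)) (D.x p') q2')
    (e1' : D.hub q1' = D.hub q1) (e2' : D.hub q2' = D.hub q2)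
    (hr : ∀ s, Pn D (2 ^ (j + 10)) (D.x p) s → D.hub s = D.hub p ∨ D.hub s = D.hub q1 ∨
      D.hub s = D.hub q2)
    (hr' : ∀ s, Pn D (2 ^ (j + 10)) (D.x p') s → D.hub s = D.hub p ∨ D.hub s = D.hub q1 ∨
      D.hub s = D.hub q2) : False := by
  rcases le_total (lam D q1') (lam D q1) with hl | hl
  · exact fin4 hD hB hF hk hC hp hp' hne ha n1 h1 h1' e1' hr hr' hl
  · refine fin4 hD hB hF hk hC hp' hp (Ne.symm hne) ha.symm (q := q1') (q' := q1)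
      (c := D.hub q2) (by rw [e1', ← ha]; exact n1) h1' h1 e1'.symm ?_ ?_ hl
    · rw [← ha, e1']
      exact hr'
    · rw [← ha, e1']
      exact hr

end Pool.Agent.Helper63.PH
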