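import Pool.Agent.Helper63.PH.SPc
import Pool.Agent.Helper63.PH.CD

/-!
# PH-C3b (MP_0dbcb7_co): counting the families `Cc`; paper proof in `SPc.lean`
-/

set_option autoImplicit false

open Set
open Pool.Agent.Helper83.OP Pool.Agent.Helper93.HH Pool.Agent.Helper23.PL

namespace Pool.Agent.Helper63.PH

section aux

open Pool.Agent.Helper43.HH

variable {V P Q : Type} {D : HD V P Q} {H : SimpleGraph V} {e0 : Sym2 V}
  {X : Sym2 V → Sym2 V → Prop} {R : ℕ}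

/-- three pins with different hubs -/
private theorem inj3 {a b c : P} (h1 : D.hub a ≠ D.hub b) (h2 : D.hub a ≠ D.hub c)
    (h3 : D.hub b ≠ D.hub c) :
    Function.Injective fun i : Fin 3 => D.hub ((![a, b, c] : Fin 3 → P) i) := by
  intro i i' hi
  fin_cases i <;> fin_cases i'
  · rfl
  · exact absurd hi h1
  · exact absurd hi h2
  · exact absurd hi.symm h1
  · rfl
  · exact absurd hi h3
  · exact absurd hi.symm h2
  · exact absurd hi.symm h3
  · rfl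

/-- the legs of a tripod -/
private theorem leg3 [Finite V] (hD : D.Ok) (hX : D.Dr H e0 X) {y : V} {a b c : P}
    (ha : Pn D R y a) (hb : Pn D R y b) (hc : Pn D R y c)
    (he : ∀ s, Pn D R y s → e0 ∉ (D.w s).edges) (i : Fin 3) :
    ∃ W : H.Walk y (D.hub ((![a, b, c] : Fin 3 → P) i)),
      W.length ≤ R ∧ ∀ z ∈ W.support, z = D.hub ((![a, b, c] : Fin 3 → P) i) ∨
        (z ∉ D.U ∧ CDx.Near D R y z) := by
  fin_cases i
  · exact CDx.exists_leg hD hX ha (he _ ha)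
  · exact CDx.exists_leg hD hX hb (he _ hb)
  · exact CDx.exists_leg hD hX hc (he _ hc)

/-- separated centres of tripods with three feet in a set of hubs -/
private theorem three [Finite V] [Finite P] (hD : D.Ok) (hX : D.Dr H e0 X) (C : Set P)
    (T : Set V) (hT : T ⊆ D.U) (a b c : P → P)
    (hsep : ∀ p ∈ C, ∀ p' ∈ C, Nr D.N (2 * R) (D.x p) (D.x p') → p = p')
    (he : ∀ p ∈ C, ∀ s, Pn D R (D.x p) s → e0 ∉ (D.w s).edges)
    (h : ∀ p ∈ C, (D.hub (a p) ∈ T ∧ D.hub (b p) ∈ T ∧ D.hub (c p) ∈ T) ∧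
      (D.hub (a p) ≠ D.hub (b p) ∧ D.hub (a p) ≠ D.hub (c p) ∧ D.hub (b p) ≠ D.hub (c p)) ∧
      Pn D R (D.x p) (a p) ∧ Pn D R (D.x p) (b p) ∧ Pn D R (D.x p) (c p)) :
    C.ncard ≤ (6 * R + 3) * (132 * T.ncard) := by
  have hW : ∀ p : C, ∀ i : Fin 3,
      ∃ W : H.Walk (D.x p) (D.hub ((![a p, b p, c p] : Fin 3 → P) i)),
      W.length ≤ R ∧ ∀ z ∈ W.support,
        z = D.hub ((![a p, b p, c p] : Fin 3 → P) i) ∨
        (z ∉ D.U ∧ CDx.Near D R (D.x p) z) := by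
    intro p i
    obtain ⟨-, -, h1, h2, h3⟩ := h p p.2
    exact leg3 hD hX h1 h2 h3 (he p p.2) i
  choose W hW1 hW2 using hW
  have hTi : ∀ p : C, ∀ i : Fin 3, D.hub ((![a p, b p, c p] : Fin 3 → P) i) ∈ T := by
    intro p i
    obtain ⟨⟨h1, h2, h3⟩, -⟩ := h p p.2
    fin_cases i
    · exact h1
    · exact h2
    · exact h3
  have hTr : ∀ p : C, ∃ F : Tri H T, (∀ i, (F.W i).length ≤ R) ∧
      ∀ z ∈ F.vs, CDx.Near D R (D.x p) z := by
    intro p
    obtain ⟨-, ⟨h1, h2, h3⟩, -⟩ := h p p.2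
    refine ⟨⟨D.x p, fun i => D.hub ((![a p, b p, c p] : Fin 3 → P) i), W p,
      fun h => hD.x_U _ (hT h), fun i => hTi p i, inj3 h1 h2 h3, ?_⟩, fun i => hW1 p i, ?_⟩
    · intro i z hz hzU
      rcases hW2 p i z hz with h | h
      · exact h
      · exact absurd (hT hzU) h.1
    · rintro z ⟨hz, i, hi⟩
      rcases hW2 p i z hi with h | h
      · exfalso
        apply hz
        rw [h]
        exact hTi p i
      · exact h.2
  choose F hF1 hF2 using hTr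
  have h1 := CDx.tri_bound X hX.sym hX.one hX.pl F R (by
    intro p p' hne z hz hz'
    exact hne (Subtype.ext (hsep p p.2 p' p'.2 ((hF2 p z hz).two hD (hF2 p' z hz'))))) hF1
  rwa [Nat.card_coe_set_eq] at h1

end aux

/-- separated centres of tripods with one foot outside `T` and two feet in `T` -/
private theorem two_feet : ∃ A : ℕ, ∀ (V P Q : Type) [Finite V] [Finite P] [Finite Q]
    (D : HD V P Q) (H : SimpleGraph V) (e0 : Sym2 V) (X : Sym2 V → Sym2 V → Prop) (R : ℕ), D.Ok →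
    D.Dr H e0 X → ∀ (C : Set P) (T : Set V) (b c : P → P), T ⊆ D.U →
    (∀ p ∈ C, ∀ p' ∈ C, Nr D.N (2 * R) (D.x p) (D.x p') → p = p') →
    (∀ p ∈ C, ∀ s, Pn D R (D.x p) s → e0 ∉ (D.w s).edges) →
    (∀ p ∈ C, (D.hub p ∉ T ∧ D.hub (b p) ∈ T ∧ D.hub (c p) ∈ T) ∧
      D.hub (b p) ≠ D.hub (c p) ∧
      Pn D R (D.x p) p ∧ Pn D R (D.x p) (b p) ∧ Pn D R (D.x p) (c p)) →
    (∀ p ∈ C, ∀ p' ∈ C, p ≠ p' → D.hub p = D.hub p' →
      s(D.hub (b p), D.hub (c p)) ≠ s(D.hub (b p'), D.hub (c p'))) →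
    C.ncard ≤ A * ((R + 1) * T.ncard + D.U.ncard) := by
  obtain ⟨A, hA⟩ := TSb
  refine ⟨A, ?_⟩
  intro V P Q _ _ _ D H e0 X R hD hX C T b c hT hsep he h hpair
  have hW : ∀ p : C, ∀ i : Fin 3,
      ∃ W : H.Walk (D.x p) (D.hub ((![(p : P), b p, c p] : Fin 3 → P) i)),
      W.length ≤ R ∧ ∀ z ∈ W.support,
        z = D.hub ((![(p : P), b p, c p] : Fin 3 → P) i) ∨
        (z ∉ D.U ∧ CDx.Near D R (D.x p) z) := by
    intro p i
    obtain ⟨-, -, h1, h2, h3⟩ := h p p.2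
    exact leg3 hD hX h1 h2 h3 (he p p.2) i
  choose W hW1 hW2 using hW
  have hT12 : ∀ p : C, ∀ i : Fin 3, i ≠ 0 →
      D.hub ((![(p : P), b p, c p] : Fin 3 → P) i) ∈ T := by
    intro p i hi
    obtain ⟨⟨-, h2, h3⟩, -⟩ := h p p.2
    fin_cases i
    · exact absurd rfl hi
    · exact h2
    · exact h3
  have hT0 : ∀ p : C, D.hub ((![(p : P), b p, c p] : Fin 3 → P) 0) ∉ T := fun p => (h p p.2).1.1
  have hUD : ∀ p : C, ∀ i : Fin 3,
      D.hub ((![(p : P), b p, c p] : Fin 3 → P) i) ∈ D.U := fun p i => hD.hub_U _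
  have hin : ∀ p : C, ∀ i, ∀ z ∈ (W p i).support, z ∈ D.U →
      z = D.hub ((![(p : P), b p, c p] : Fin 3 → P) i) := by
    intro p i z hz hzU
    rcases hW2 p i z hz with h | h
    · exact h
    · exact absurd hzU h.1
  have h1 := hA H X hX.sym hX.one hX.pl T (fun p : C => D.x p)
    (fun p i => D.hub ((![(p : P), b p, c p] : Fin 3 → P) i)) W R
    (fun p h => hD.x_U _ (hT h))
    (fun p h => hD.x_U p (h ▸ hD.hub_U _))
    hT0 (fun p => hT12 p 1 (by decide)) (fun p => hT12 p 2 (by decide))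
    (fun p => (h p p.2).2.1)
    (fun p i z hz hzU => hin p i z hz (hT hzU))
    (by
      intro p i hi h
      have h2 := hin p i _ h (hUD p 0)
      exact hT0 p (h2 ▸ hT12 p i hi))
    (by
      intro p p' hne i i' z hz hz'
      by_cases hzU : z ∈ D.U
      · by_cases hzL : z ∈ T
        · exact Or.inl hzL
        · right
          have h2 := hin p i z hz hzU
          have h3 := hin p' i' z hz' hzU
          have h4 : i = 0 := by
            by_contra h4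
            exact hzL (h2 ▸ hT12 p i h4)
          have h5 : i' = 0 := by
            by_contra h5
            exact hzL (h3 ▸ hT12 p' i' h5)
          subst h4
          subst h5
          exact ⟨h2, h3⟩
      · exfalso
        rcases hW2 p i z hz with h | h
        · exact hzU (h ▸ hUD p i)
        · rcases hW2 p' i' z hz' with h' | h'
          · exact hzU (h' ▸ hUD p' i')
          · exact hne (Subtype.ext (hsep p p.2 p' p'.2 (h.2.two hD h'.2))))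
    hW1
    (by
      intro p p' hne hs
      exact hpair p p.2 p' p'.2 (fun h => hne (Subtype.ext h)) hs)
  rw [Nat.card_coe_set_eq] at h1
  refine h1.trans (Nat.mul_le_mul_left _ (Nat.add_le_add_left ?_ _))
  refine Set.ncard_le_ncard ?_ (Set.toFinite _)
  rintro _ ⟨p, rfl⟩
  exact hD.hub_U _

/-- **PH-C3b.** Use `spc_claim`, `spb`, `TSb` and tripods. -/
theorem spc : ∃ A : ℕ, ∀ (V P Q : Type) [Finite V] [Finite P] [Finite Q] (D : HD V P Q)
    (H : SimpleGraph V) (e0 : Sym2 V) (X : Sym2 V → Sym2 V → Prop) (k k1 k2 j ρ q : ℕ), D.Ok →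
    D.Dr H e0 X → BadH D k k2 → (∀ p, min (e1 D p) (Rb D k2 (D.x p)) < cap D) →
    10 ^ 9 * (k1 + 1) * (ρ + 1) ≤ k → 2 ≤ q →
    24 * (4 * ((4 * ρ + 1) * (2 * 2 ^ (j + 10))) + 1) < q ^ ρ →
    ∀ C : Set P, Cc D k1 k2 j C → C.ncard ≤ A * (2 ^ j * (UL D k1 j).ncard + q * D.U.ncard) := by
  obtain ⟨A, hA⟩ := two_feet
  refine ⟨1025 * A + 811410, ?_⟩
  intro V P Q _ _ _ D H e0 X k k1 k2 j ρ q hD hX hB hF hk hq hbig C hC
  have hk' : 10 ^ 9 * (k1 + 1) ≤ k := le_trans (Nat.le_mul_of_pos_right _ (Nat.succ_pos _)) hk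
  rcases Set.eq_empty_or_nonempty C with rfl | ⟨p0, hp0⟩
  · rw [Set.ncard_empty]
    exact Nat.zero_le _
  have hU1 : 1 ≤ D.U.ncard := by
    rw [Nat.one_le_iff_ne_zero, Ne, Set.ncard_eq_zero (Set.toFinite _)]
    intro h
    have h1 := hD.hub_U p0
    rw [h] at h1
    exact h1
  have e14 : (2 : ℕ) ^ (j + 14) = 16384 * 2 ^ j := by rw [pow_add]; ring
  have e10 : (2 : ℕ) ^ (j + 10) = 1024 * 2 ^ j := by rw [pow_add]; ring
  have e8 : (2 : ℕ) ^ (j + 8) = 256 * 2 ^ j := by rw [pow_add]; ring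
  have ee1 : (2 : ℕ) ^ (j + 1) = 2 * 2 ^ j := by rw [pow_add]; ring
  -- separated
  have hsep : ∀ p ∈ C, ∀ p' ∈ C, Nr D.N (2 * 2 ^ (j + 10)) (D.x p) (D.x p') → p = p' := by
    intro p hp p' hp' h
    by_contra hne
    exact hC.sep p hp p' hp' hne (h.mono (by omega))
  -- the two large hubs
  have h2 : ∀ p, ∃ s s', p ∈ C → D.hub s ≠ D.hub p ∧ D.hub s' ≠ D.hub p ∧ D.hub s ≠ D.hub s' ∧
      Pn D (2 ^ (j + 8)) (D.x p) s ∧ Pn D (2 ^ (j + 8)) (D.x p) s' ∧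
      k1 * 2 ^ (j + 10) < deg D.G (D.hub s) ∧ k1 * 2 ^ (j + 10) < deg D.G (D.hub s') := by
    intro p
    by_cases hp : p ∈ C
    · obtain ⟨s, s', h⟩ := hC.two p hp
      exact ⟨s, s', fun _ => h⟩
    · exact ⟨p, p, fun h => absurd h hp⟩
  choose q1 q2 hq12 using h2
  have hlen : ∀ p ∈ C, (D.w p).length ≤ 2 ^ (j + 10) := by
    intro p hp
    have h1 := hC.hi p hp
    have h2 : (D.w p).length ≤ sg D k2 p := le_max_left _ _
    omega
  have hpn1 : ∀ p ∈ C, Pn D (2 ^ (j + 10)) (D.x p) (q1 p) := fun p hp =>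
    (hq12 p hp).2.2.2.1.mono (by omega)
  have hpn2 : ∀ p ∈ C, Pn D (2 ^ (j + 10)) (D.x p) (q2 p) := fun p hp =>
    (hq12 p hp).2.2.2.2.1.mono (by omega)
  have hu1 : ∀ p ∈ C, D.hub (q1 p) ∈ UL D k1 (j + 10) := fun p hp =>
    ⟨hD.hub_U _, (hq12 p hp).2.2.2.2.2.1⟩
  have hu2 : ∀ p ∈ C, D.hub (q2 p) ∈ UL D k1 (j + 10) := fun p hp =>
    ⟨hD.hub_U _, (hq12 p hp).2.2.2.2.2.2⟩
  have hsm : ∀ p ∈ C, deg D.G (D.hub p) ≤ k1 * 2 ^ (j + 10) := fun p hp =>
    (hC.sm p hp).trans (Nat.mul_le_mul_left _ (by omega))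
  have hTU : UL D k1 (j + 10) ⊆ D.U := fun a ha => ha.1
  have hTL : (UL D k1 (j + 10)).ncard ≤ (UL D k1 j).ncard := by
    refine Set.ncard_le_ncard ?_ (Set.toFinite _)
    intro a ha
    exact ⟨ha.1, lt_of_le_of_lt (Nat.mul_le_mul_left _ (by omega)) ha.2⟩
  set C0 : Set P := {p | p ∈ C ∧ ∃ s, e0 ∈ (D.w s).edges ∧ Pn D (2 ^ (j + 10)) (D.x p) s}
    with hC0
  set Ca : Set P := {p | p ∈ C ∧ p ∉ C0 ∧ ∃ s, D.hub s ≠ D.hub (q1 p) ∧ D.hub s ≠ D.hub (q2 p) ∧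
    Pn D (2 ^ (j + 10)) (D.x p) s ∧ D.hub s ∈ UL D k1 (j + 10)} with hCa
  set Cb : Set P := {p | p ∈ C ∧ ∃ t, D.hub t ≠ D.hub p ∧ Pn D (2 ^ (j + 10)) (D.x p) t ∧
    deg D.G (D.hub t) ≤ k1 * 2 ^ (j + 10)} with hCb
  set Cg : Set P := {p | p ∈ C ∧ p ∉ C0 ∧ ∀ s, Pn D (2 ^ (j + 10)) (D.x p) s →
    D.hub s = D.hub p ∨ D.hub s = D.hub (q1 p) ∨ D.hub s = D.hub (q2 p)} with hCg
  have hcov : C ⊆ C0 ∪ (Ca ∪ (Cb ∪ Cg)) := by
    intro p hp
    by_cases h0 : p ∈ C0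
    · exact Or.inl h0
    right
    by_cases hg : ∀ s, Pn D (2 ^ (j + 10)) (D.x p) s →
        D.hub s = D.hub p ∨ D.hub s = D.hub (q1 p) ∨ D.hub s = D.hub (q2 p)
    · exact Or.inr (Or.inr ⟨hp, h0, hg⟩)
    push Not at hg
    obtain ⟨s, hs, h1, h2, h3⟩ := hg
    by_cases h4 : deg D.G (D.hub s) ≤ k1 * 2 ^ (j + 10)
    · exact Or.inr (Or.inl ⟨hp, s, h1, hs, h4⟩)
    · exact Or.inl ⟨hp, h0, s, h2, h3, hs, hD.hub_U _, by omega⟩
  have hsum : C.ncard ≤ C0.ncard + (Ca.ncard + (Cb.ncard + Cg.ncard)) := by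
    refine (Set.ncard_le_ncard hcov (Set.toFinite _)).trans ((Set.ncard_union_le _ _).trans ?_)
    refine Nat.add_le_add_left ((Set.ncard_union_le _ _).trans ?_) _
    exact Nat.add_le_add_left (Set.ncard_union_le _ _) _
  -- no `e0`
  have he : ∀ p, p ∈ C → p ∉ C0 → ∀ s, Pn D (2 ^ (j + 10)) (D.x p) s → e0 ∉ (D.w s).edges := by
    intro p hp h0 s hs hes
    exact h0 ⟨hp, s, hes, hs⟩
  -- the pin with `e0`
  have b0 : C0.ncard ≤ 1 := by
    rw [Set.ncard_le_one (Set.toFinite _)]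
    rintro p ⟨hp, s, hes, t, ht, hts⟩ p' ⟨hp', s', hes', t', ht', hts'⟩
    have h1 := pin_uniq hD hes hes'
    rw [← h1] at ht'
    exact hsep p hp p' hp' ((ht.trans ht'.symm).mono (by omega))
  -- three large hubs
  have ba : Ca.ncard ≤ (6 * 2 ^ (j + 10) + 3) * (132 * (UL D k1 (j + 10)).ncard) := by
    have h3 : ∀ p, ∃ s, p ∈ Ca → D.hub s ≠ D.hub (q1 p) ∧ D.hub s ≠ D.hub (q2 p) ∧
        Pn D (2 ^ (j + 10)) (D.x p) s ∧ D.hub s ∈ UL D k1 (j + 10) := by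
      intro p
      by_cases hp : p ∈ Ca
      · obtain ⟨-, -, s, h⟩ := id hp
        exact ⟨s, fun _ => h⟩
      · exact ⟨p, fun h => absurd h hp⟩
    choose q3 hq3 using h3
    refine three hD hX Ca _ hTU q3 q1 q2 (fun p hp p' hp' h => hsep p hp.1 p' hp'.1 h)
      (fun p hp => he p hp.1 hp.2.1) ?_
    intro p hp
    obtain ⟨h4, h5, h6, h7⟩ := hq3 p hp
    exact ⟨⟨h7, hu1 p hp.1, hu2 p hp.1⟩, ⟨h4, h5, (hq12 p hp.1).2.2.1⟩, h6, hpn1 p hp.1,
      hpn2 p hp.1⟩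
  -- another small hub
  have bb : Cb.ncard ≤ q * D.U.ncard + 2 := by
    have h3 : ∀ p, ∃ t, p ∈ Cb → D.hub t ≠ D.hub p ∧ Pn D (2 ^ (j + 10)) (D.x p) t ∧
        deg D.G (D.hub t) ≤ k1 * 2 ^ (j + 10) := by
      intro p
      by_cases hp : p ∈ Cb
      · obtain ⟨-, t, h⟩ := id hp
        exact ⟨t, fun _ => h⟩
      · exact ⟨p, fun h => absurd h hp⟩
    choose t ht using h3
    refine spb V P Q D H e0 X hD hX ρ q (2 ^ (j + 10)) (k1 * 2 ^ (j + 10))
      ((8 * ρ + 8) * (2 * 2 ^ (j + 10) + 2 * (k1 * 2 ^ (j + 10)))) hq hbig le_rfl Cb t ?_ ?_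
    · intro p hp p' hp' hne h
      exact hne (hsep p hp.1 p' hp'.1 h)
    · intro p hp
      obtain ⟨h4, h5, h6⟩ := ht p hp
      refine ⟨hlen p hp.1, hsm p hp.1, h4, h6, h5, ?_⟩
      intro hb
      refine no_byp (k := k) (k2 := k2) hD hB p (Byp.mono hb (fun f hf => hf) ?_)
      have h7 := (sg_le (k2 := k2) hD hF p).1
      have h8 := hC.lo p hp.1
      have h9 : (8 * ρ + 8) * (2 * 2 ^ (j + 10) + 2 * (k1 * 2 ^ (j + 10))) =
          16384 * ((k1 + 1) * (ρ + 1)) * 2 ^ j := by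
        rw [e10]
        ring
      rw [h9]
      calc 16384 * ((k1 + 1) * (ρ + 1)) * 2 ^ j
          ≤ 16384 * ((k1 + 1) * (ρ + 1)) * (2 * (sg D k2 p - 1)) :=
            Nat.mul_le_mul_left _ (by omega)
        _ = 32768 * ((k1 + 1) * (ρ + 1)) * (sg D k2 p - 1) := by ring
        _ ≤ 10 ^ 9 * (k1 + 1) * (ρ + 1) * (sg D k2 p - 1) := by
            refine Nat.mul_le_mul_right _ ?_
            rw [Nat.mul_assoc (10 ^ 9)]
            exact Nat.mul_le_mul_right _ (by norm_num)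
        _ ≤ k * (sg D k2 p - 1) := Nat.mul_le_mul_right _ hk
  -- the rest
  have bg : Cg.ncard ≤ A * ((2 ^ (j + 10) + 1) * (UL D k1 (j + 10)).ncard + D.U.ncard) := by
    refine hA V P Q D H e0 X (2 ^ (j + 10)) hD hX Cg _ q1 q2 hTU
      (fun p hp p' hp' h => hsep p hp.1 p' hp'.1 h) (fun p hp => he p hp.1 hp.2.1) ?_ ?_
    · intro p hp
      refine ⟨⟨?_, hu1 p hp.1, hu2 p hp.1⟩, (hq12 p hp.1).2.2.1, CDx.Pn.self (hlen p hp.1),
        hpn1 p hp.1, hpn2 p hp.1⟩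
      intro h
      exact absurd h.2 (not_lt.2 (hsm p hp.1))
    · intro p hp p' hp' hne ha hs
      obtain ⟨n1, n2, n12, m1, m2, -⟩ := hq12 p hp.1
      obtain ⟨-, -, -, m1', m2', -⟩ := hq12 p' hp'.1
      rcases Sym2.eq_iff.1 hs with ⟨h1, h2⟩ | ⟨h1, h2⟩
      · refine spc_claim hD hB hF hk' hC hp.1 hp'.1 hne ha n1 n2 n12 m1 m2 m1' m2' h1.symm
          h2.symm hp.2.2 ?_
        intro s hs
        rcases hp'.2.2 s hs with h | h | h
        · exact Or.inl (h.trans ha.symm)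
        · exact Or.inr (Or.inl (h.trans h1.symm))
        · exact Or.inr (Or.inr (h.trans h2.symm))
      · refine spc_claim hD hB hF hk' hC hp.1 hp'.1 hne ha n1 n2 n12 m1 m2 m2' m1' h1.symm
          h2.symm hp.2.2 ?_
        intro s hs
        rcases hp'.2.2 s hs with h | h | h
        · exact Or.inl (h.trans ha.symm)
        · exact Or.inr (Or.inr (h.trans h2.symm))
        · exact Or.inr (Or.inl (h.trans h1.symm))
  -- the sum
  have hpos : 1 ≤ 2 ^ j := Nat.one_le_two_pow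
  generalize (UL D k1 (j + 10)).ncard = u' at *
  generalize (UL D k1 j).ncard = u at *
  generalize D.U.ncard = n at *
  have f1 : (6 * 2 ^ (j + 10) + 3) * (132 * u') ≤ 811404 * (2 ^ j * u) := by
    calc (6 * 2 ^ (j + 10) + 3) * (132 * u') ≤ (6147 * 2 ^ j) * (132 * u) := by
          refine Nat.mul_le_mul ?_ (Nat.mul_le_mul_left _ hTL)
          omega
      _ = 811404 * (2 ^ j * u) := by ring
  have f2 : (2 ^ (j + 10) + 1) * u' ≤ 1025 * (2 ^ j * u) := by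
    calc (2 ^ (j + 10) + 1) * u' ≤ (1025 * 2 ^ j) * u := by
          refine Nat.mul_le_mul ?_ hTL
          omega
      _ = 1025 * (2 ^ j * u) := by ring
  have f3 : n ≤ q * n := Nat.le_mul_of_pos_left _ (by omega)
  have f4 : A * ((2 ^ (j + 10) + 1) * u' + n) ≤ A * (1025 * (2 ^ j * u + q * n)) := by
    refine Nat.mul_le_mul_left _ ?_
    have : 1025 * (2 ^ j * u + q * n) = 1025 * (2 ^ j * u) + 1025 * (q * n) := by ring
    omega
  have f5 : (1025 * A + 811410) * (2 ^ j * u + q * n) =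
      A * (1025 * (2 ^ j * u + q * n)) + 811410 * (2 ^ j * u) + 811410 * (q * n) := by ring
  rw [f5]
  have f6 : 1 ≤ q * n := le_trans hU1 f3
  generalize 2 ^ j * u = a at *
  generalize q * n = b at *
  omega

end Pool.Agent.Helper63.PH
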